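import Pool.Agent.P.MP_267653_al.Per

/-! Homomorphisms to torsion-free abelian groups. -/

set_option autoImplicit false

namespace Pool.Agent.P.MP_267653_al

open Function Filter

variable {φ φ' χ χ' : Φ} {a m e a' m' e' x : L} {b b' : B} {c : ZMod 2}

/-- periodic basic generators -/
structure PY (φ φ' : Φ) (a m e : L) (b : B) : Prop where
  c1 : Cht φ a m
  c2 : Cht φ' m e
  sh : e < lam a
  isY : IsY φ φ' b
  fx : b.1 ∈ Fx e (lam a)

theorem IsY.eq {g h : Au} (h1 : IsY φ φ' g) (h2 : IsY φ φ' h) (c1 : Cht φ a m) (c2 : Cht φ' m e)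
    {z : L} (h3 : a ≤ z) (h4 : z < e) : g z = h z := by
  rcases lt_or_ge z m with h5 | h5
  · obtain ⟨w, rfl⟩ := c1.range.2 ⟨h3, h5⟩
    obtain ⟨i, w, rfl⟩ := exists_cons w
    rcases fin3 i with rfl | rfl | rfl
    exacts [congrFun (h1.1.trans h2.1.symm) w, congrFun (h1.2.1.trans h2.2.1.symm) w,
      congrFun (h1.2.2.1.trans h2.2.2.1.symm) w]
  · obtain ⟨w, rfl⟩ := c2.range.2 ⟨h5, h4⟩
    exact congrFun (h1.2.2.2.trans h2.2.2.2.symm) w

theorem IsY.conj {g : Au} (h1 : IsY φ φ' g) (h : Au) : IsY (h • φ) (h • φ') (h * g * h⁻¹) := by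
  simp only [IsY, ← smul_ch, mul_smul, inv_smul_smul, h1.1, h1.2.1, h1.2.2.1, h1.2.2.2, and_self]

theorem IsY.congr {g h : Au} (h1 : IsY φ φ' g) (c1 : Cht φ a m) (c2 : Cht φ' m e)
    (h2 : ∀ z, a ≤ z → z < e → h z = g z) : IsY φ φ' h := by
  have e1 : ∀ i, h • ch φ i = g • ch φ i := fun i => funext fun w =>
    h2 _ (c1.mem _).1 ((c1.mem _).2.trans c2.lt)
  have e2 : h • φ' = g • φ' := funext fun w => h2 _ (c1.lt.le.trans (c2.mem _).1) (c2.mem _).2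
  rwa [IsY, e1, e1, e1, e2]

theorem PY.uniq (h : PY φ φ' a m e b) (h' : PY φ φ' a m e b') : b = b' :=
  Subtype.ext (per_ext (B.cl b.2) (B.cl b'.2) a fun z h1 h2 => (lt_or_ge z e).elim
    (h.isY.eq h'.isY h.c1 h.c2 h1) fun h3 => (h.fx z h3 h2).trans (h'.fx z h3 h2).symm)

theorem PY.conj (h : PY φ φ' a m e b) (k : B) :
    PY (k.1 • φ) (k.1 • φ') (k.1 a) (k.1 m) (k.1 e) (k * b * k⁻¹) :=
  ⟨h.c1.smul k.2.1, h.c2.smul k.2.1, by rw [← mem_CL.1 (B.cl k.2)]; exact k.1.strictMono h.sh,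
    h.isY.conj k.1, by rw [← mem_CL.1 (B.cl k.2)]; exact Fx.conj h.fx k.1⟩

theorem exists_PY (c1 : Cht φ a m) (c2 : Cht φ' m e) (h : e < lam a) : ∃ b, PY φ φ' a m e b := by
  obtain ⟨g, hg, hY⟩ := exists_Y c1 c2
  obtain ⟨c, hc⟩ := c1.E
  obtain ⟨P, hP⟩ := exists_perB hc
  exact ⟨P ⟨g, hg.1, Sp.mono le_rfl h.le hg.2⟩, c1, c2, h,
    hY.congr c1 c2 fun z h1 h2 => hP _ z h1 (h2.trans h), fun z h1 h2 =>
      (hP _ z ((c1.lt.trans c2.lt).le.trans h1) h2).trans (hg.2 z (Or.inr h1))⟩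

theorem PY.val {C : Type} [CommGroup C] (ψ : B →* C) (h : PY φ φ' a m e b)
    (h' : PY χ χ' a' m' e' b') (ha : EC c a) (ha' : EC c a') : ψ b = ψ b' := by
  obtain ⟨g1, hg1, e1, e2, e3⟩ := (Seq.cons h.c1 (.cons h.c2 (.nil _))).mtch
    (Seq.cons h'.c1 (.cons h'.c2 (.nil _))) rfl ha ha'
  have he := h.c2.ec (h.c1.ec ha)
  obtain ⟨g2, hg2, e4, e5⟩ := key he (h'.c2.ec (h'.c1.ec ha')) ha.lam ha'.lam h.sh h'.sh
  obtain ⟨g, hg, e6, e7⟩ := glue_ra hg1 hg2 he (e3.trans e4.symm)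
  have hae := (h.c1.lt.trans h.c2.lt).le
  obtain ⟨k, hk, e8⟩ := periodize hg ha (by rw [e7 _ h.sh.le, e6 _ hae, e5, e2])
  have e9 : ∀ z, a ≤ z → z ≤ e → k z = g1 z := fun z h1 h2 => by
    rw [e8 z h1 (h2.trans_lt h.sh), e6 z h2]
  simp only [List.map_cons, List.map_nil, List.cons.injEq, and_true] at e1
  have f1 : k • φ = χ := e1.1 ▸ funext fun w =>
    e9 _ (h.c1.mem w).1 ((h.c1.mem w).2.trans h.c2.lt).le
  have f2 : k • φ' = χ' := e1.2 ▸ funext fun w =>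
    e9 _ (h.c1.lt.le.trans (h.c2.mem w).1) (h.c2.mem w).2.le
  have := h.conj ⟨k, hk⟩
  simp only at this
  rw [f1, f2, e9 a le_rfl hae, e9 e hae le_rfl, e2, e3,
    show k m = m' by rw [← h.c2.lo, ← h'.c2.lo, ← f2]; rfl] at this
  rw [← this.uniq h']
  simp

theorem fix_chart {g : Au} (hg : g ∈ CL) (h : g ∈ Fx e (lam a)) (h1 : x ≤ a) (h2 : e ≤ lam x)
    (hc : Cht χ a' e') (h3 : x ≤ a') (h4 : e' ≤ lam x) (h5 : e' ≤ a ∨ e ≤ a') : g • χ = χ :=
  funext fun w => Fx.out hg h h1 h2 (h3.trans (hc.mem w).1) ((hc.mem w).2.trans_le h4)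
    (h5.imp (hc.mem w).2.trans_le fun h => h.trans (hc.mem w).1)

theorem smul_eq_of_ch {g : Au} (h : ∀ i, g • ch φ i = ch χ i) : g • φ = χ := funext fun w => by
  obtain ⟨i, w, rfl⟩ := exists_cons w
  exact congrFun (h i) w

theorem Cht.lam_psi (h : Cht φ a m) (h' : Cht χ a' m') (e : ∀ y, lam (φ y) = χ (Psi y)) :
    a' = lam a ∧ m' = lam m := by
  refine ⟨by rw [← h.lo, ← h'.lo, e, Psi_fix (a := 0) (by decide) cons_z0.symm], le_antisymm
    (h'.hi_le fun w => ?_) (lam.le_symm_apply.1 (h.hi_le fun w => lam.lt_symm_apply.2 ?_))⟩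
  · obtain ⟨w, rfl⟩ := Psi_surj w
    rw [← e]; exact lam.strictMono (h.mem w).2
  · rw [e]; exact (h'.mem _).2

theorem hom_B {C : Type} [CommGroup C] [IsMulTorsionFree C] (ψ : B →* C) (b : B) : ψ b = 1 := by
  obtain ⟨A, hA⟩ : ∃ A : ZMod 2 → C, ∀ {c φ φ' a m e b}, EC c a → PY φ φ' a m e b → ψ b = A c := by
    classical
    refine ⟨fun c => if h : ∃ b, ∃ φ φ' a m e, EC c a ∧ PY φ φ' a m e b then ψ h.choose else 1, ?_⟩
    intro c φ φ' a m e b h1 h2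
    have h : ∃ b, ∃ φ φ' a m e, EC c a ∧ PY φ φ' a m e b := ⟨b, _, _, _, _, _, h1, h2⟩
    obtain ⟨_, _, _, _, _, h3, h4⟩ := h.choose_spec
    simp only [dif_pos h]
    exact h2.val ψ h4 h1 h3
  have hX : ∀ {χ a e c}, Cht χ a e → e < lam a → EC c a → ∃ u : B, ψ u = A (c+1) * A c ∧
      u.1 ∈ Fx e (lam a) ∧ u.1 • ch (ch χ 0) 0 = ch χ 0 ∧ u.1 • ch (ch χ 0) 1 = ch χ 1 ∧
      u.1 • ch (ch χ 0) 2 = ch (ch χ 2) 0 ∧ u.1 • ch χ 1 = ch (ch χ 2) 1 ∧
      u.1 • ch χ 2 = ch (ch χ 2) 2 := by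
    intro χ a e c h1 h2 h3
    obtain ⟨c0, c1, c2⟩ := h1.child
    obtain ⟨b1, hb1⟩ := exists_PY c0 c1 (c2.lt.trans h2)
    obtain ⟨b2, hb2⟩ := exists_PY c1 c2 (h2.trans (lam.strictMono c0.lt))
    refine ⟨b2 * b1, by rw [map_mul, hA h3 hb1, hA (c0.ec h3) hb2], fun w h4 h5 => ?_, ?_⟩
    · show b2.1 (b1.1 w) = w
      rw [hb1.fx w (c2.lt.le.trans h4) h5, hb2.fx w h4 (h5.trans (lam.strictMono c0.lt))]
    · simp only [Subgroup.coe_mul, mul_smul, hb1.isY.1, hb1.isY.2.1, hb1.isY.2.2.1, hb1.isY.2.2.2,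
        hb2.isY.1, hb2.isY.2.1, hb2.isY.2.2.1, true_and]
      rw [fix_chart (B.cl b1.2) hb1.fx le_rfl (c2.lt.trans h2).le c2 (c0.lt.trans c1.lt).le h2.le
        (Or.inr le_rfl)]
      exact ⟨fix_chart (B.cl b2.2) hb2.fx c0.lt.le h2.le c0 le_rfl
        ((c1.lt.trans c2.lt).trans h2).le (Or.inl le_rfl), hb2.isY.2.2.2⟩
  have hc : ∀ k : ℤ, Cht (fun w => ⟨k, w⟩) (st k) (st (k+1)) := fun k =>
    ⟨1, one_mem _, k, fun _ => rfl, rfl, rfl⟩
  have h01 : ∀ c, A (c+1) * A c = 1 := by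
    obtain ⟨c0, c1, c2⟩ := (hc 0).child
    have h1 := c2.lt
    rw [← lam_st] at h1
    have h0 := EC.st 0
    obtain ⟨u, e1, e2, e3, e4, e5, e6, e7⟩ := hX c1 (h1.trans (lam.strictMono c0.lt)) (c0.ec h0)
    obtain ⟨d0, d1, d2⟩ := c1.child
    have h2 := d1.lt.trans d2.lt
    obtain ⟨b, hb⟩ := exists_PY c0 d0 (h2.trans h1)
    have := hA h0 (b := u * b) ⟨c0, c1, h1, ⟨?_, ?_, ?_, ?_⟩, fun w h3 h4 => ?_⟩
    · rw [map_mul, hA h0 hb, mul_eq_right, e1] at this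
      intro c
      rcases (show c = 0 ∨ c = 1 by revert c; decide) with rfl | rfl
      · rw [mul_comm]; exact this
      · exact this
    · rw [Subgroup.coe_mul, mul_smul, hb.isY.1]
      exact fix_chart (B.cl u.2) e2 c0.lt.le h1.le c0 le_rfl (c1.lt.trans h1).le (Or.inl le_rfl)
    · rw [Subgroup.coe_mul, mul_smul, hb.isY.2.1, e3]
    · rw [Subgroup.coe_mul, mul_smul, hb.isY.2.2.1, e4]
    · refine smul_eq_of_ch fun i => ?_
      rcases fin3 i with rfl | rfl | rfl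
      · rw [Subgroup.coe_mul, mul_smul, hb.isY.2.2.2, e5]
      · rw [Subgroup.coe_mul, mul_smul, fix_chart (B.cl b.2) hb.fx le_rfl (h2.trans h1).le d1
          (c0.lt.trans d0.lt).le (d2.lt.trans h1).le (Or.inr le_rfl), e6]
      · rw [Subgroup.coe_mul, mul_smul, fix_chart (B.cl b.2) hb.fx le_rfl (h2.trans h1).le d2
          ((c0.lt.trans d0.lt).trans d1.lt).le h1.le (Or.inr d1.lt.le), e7]
    · show u.1 (b.1 w) = w
      rw [hb.fx w (h2.le.trans h3) h4, e2 w h3 (h4.trans (lam.strictMono c0.lt))]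
  have hX' : ∀ {χ a e}, Cht χ a e → e < lam a → ∃ u : B, ψ u = 1 ∧ u.1 ∈ Fx e (lam a) ∧
      ∀ y, u.1 (χ (Lam y)) = χ (Psi y) := by
    intro χ a e h1 h2
    obtain ⟨c, hc⟩ := h1.E
    obtain ⟨u, e1, e2, e3, e4, e5, e6, e7⟩ := hX h1 h2 hc
    refine ⟨u, e1.trans (h01 c), e2, fun y => ?_⟩
    obtain ⟨i, y, rfl⟩ := exists_cons y
    rcases fin3 i with rfl | rfl | rfl
    · rw [Lam0, Psi0]; exact congrFun e3 _
    · rw [Lam1, Psi1]; exact congrFun e4 _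
    obtain ⟨i, y, rfl⟩ := exists_cons y
    rcases fin3 i with rfl | rfl | rfl
    · rw [Lam20, Psi2, Psi0]; exact congrFun e5 _
    · rw [Lam21, Psi2, Psi1]; exact congrFun e6 _
    · rw [Lam22, Psi2, Psi2]; exact congrFun e7 _
  have hA1 : ∀ c, A c = 1 := by
    have p1 := (hc 0).child.1.child.2.2
    have p2 := (hc 0).child.2.1.child.1
    have q1 := (hc 1).child.1.child.1.child.2.2
    have q2 := (hc 1).child.1.child.2.1.child.1.child.1
    have e1 : ∀ y, lam (ch (ch (fun w => (⟨0, w⟩ : L)) 0) 2 y) =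
        ch (ch (ch (fun w => (⟨1, w⟩ : L)) 0) 0) 2 (Psi y) := fun y => by simp [ch, lam_apply]
    have e2 : ∀ y, lam (ch (ch (fun w => (⟨0, w⟩ : L)) 1) 0 y) =
        ch (ch (ch (ch (fun w => (⟨1, w⟩ : L)) 0) 1) 0) 0 (Psi y) := fun y => by
      simp [ch, lam_apply]
    have hs : ch (fun w => (⟨0, w⟩ : L)) 1 (cons 1 z0) <
        lam (ch (fun w => (⟨0, w⟩ : L)) 0 (cons 2 z0)) := L.lt_iff.2 (Or.inl (by simp [ch, lam_apply]))
    rw [(p1.lam_psi q1 e1).1, (p1.lam_psi q1 e1).2] at q1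
    rw [(p2.lam_psi q2 e2).1, (p2.lam_psi q2 e2).2] at q2
    generalize ch (ch (fun w => (⟨0, w⟩ : L)) 0) 2 = φ at *
    generalize ch (ch (fun w => (⟨0, w⟩ : L)) 1) 0 = φ' at *
    generalize ch (ch (ch (fun w => (⟨1, w⟩ : L)) 0) 0) 2 = χ at *
    generalize ch (ch (ch (ch (fun w => (⟨1, w⟩ : L)) 0) 1) 0) 0 = χ' at *
    generalize ch (fun w => (⟨0, w⟩ : L)) 1 (cons 1 z0) = e at *
    generalize ch (fun w => (⟨0, w⟩ : L)) 0 (cons 2 z0) = a at *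
    obtain ⟨b, hb⟩ := exists_PY p1 p2 hs
    obtain ⟨c, hc⟩ := p1.E
    have hs' := lam.strictMono hs
    obtain ⟨d0, d1, d2⟩ := q2.child
    have l0 := lam.strictMono q1.lt
    obtain ⟨u, u1, u2, u3⟩ := hX' d0 (((d1.lt.trans d2.lt).trans hs').trans l0)
    obtain ⟨v, v1, v2, v3⟩ := hX' d1 ((d2.lt.trans hs').trans (l0.trans (lam.strictMono d0.lt)))
    have hb' := mem_CL.1 (B.cl b.2)
    have fu := fun {χ a' e'} => fix_chart (χ := χ) (a' := a') (e' := e') (x := lam a)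
      (B.cl u⁻¹.2) (inv_mem u2) q1.lt.le
      ((d1.lt.trans d2.lt).trans hs').le
    have fv := fun {χ a' e'} => fix_chart (χ := χ) (a' := a') (e' := e') (x := lam a)
      (B.cl v.2) v2 (q1.lt.trans d0.lt).le
      (d2.lt.trans hs').le
    have l1 := q2.lt.trans hs'
    have := hA hc.lam (b := u⁻¹ * v * b) ⟨q1, q2, hs', ⟨?_, ?_, ?_, ?_⟩, fun w h3 h4 => ?_⟩
    · rw [map_mul, map_mul, map_inv, u1, v1, hA hc hb, inv_one, one_mul, one_mul] at this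
      have h5 : A c = 1 := (pow_eq_one_iff_left two_ne_zero).1 (by
        rw [sq]; nth_rewrite 1 [this]; exact h01 c)
      intro c'
      rcases (by decide : ∀ c c' : ZMod 2, c' = c ∨ c' = c + 1) c c' with rfl | rfl
      · exact h5
      · exact this ▸ h5
    · have : b.1 • ch χ 0 = χ := funext fun w => by
        obtain ⟨w, rfl⟩ := Psi_surj w
        show b.1 (χ (cons 0 (Psi w))) = _
        rw [← Psi0, ← e1, hb', ← e1]
        exact congrArg lam (congrFun hb.isY.1 w)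
      rw [Subgroup.coe_mul, Subgroup.coe_mul, mul_smul, mul_smul, this,
        fv q1 le_rfl l1.le (Or.inl d0.lt.le), fu q1 le_rfl l1.le (Or.inl le_rfl)]
    · funext w
      obtain ⟨w, rfl⟩ := Lam_surj w
      have h6 := congrFun (fv d0 q1.lt.le ((d1.lt.trans d2.lt).trans hs').le (Or.inl le_rfl)) (Psi w)
      show u.1⁻¹ (v.1 (b.1 (χ (cons 1 (Lam w))))) = _
      rw [← Psi1, ← e1, hb', show b.1 (φ (cons 1 w)) = φ' (cons 0 w) from congrFun hb.isY.2.1 w, e2,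
        Psi0, show v.1 (χ' (cons 0 (Psi w))) = ch χ' 0 (Psi w) from h6, ← u3]
      exact RelIso.inv_apply_self _ _
    · funext w
      obtain ⟨w, rfl⟩ := Psi_surj w
      show u.1⁻¹ (v.1 (b.1 (χ (cons 2 (Psi w))))) = _
      rw [← Psi2, ← e1, hb', show b.1 (φ (cons 2 w)) = φ' (cons 1 w) from congrFun hb.isY.2.2.1 w,
        e2, Psi1, show v.1 (χ' (cons 1 (Lam w))) = ch χ' 1 (Psi w) from v3 w]
      exact congrFun (fu d1 (q1.lt.trans d0.lt).le (d2.lt.trans hs').le (Or.inr le_rfl)) _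
    · have : b.1 • χ' = ch χ' 2 := funext fun w => by
        obtain ⟨w, rfl⟩ := Psi_surj w
        show b.1 (χ' (Psi w)) = χ' (cons 2 (Psi w))
        rw [← Psi2, ← e2, hb', ← e2]
        exact congrArg lam (congrFun hb.isY.2.2.2 w)
      have l2 := ((q1.lt.trans d0.lt).trans d1.lt).le
      rw [Subgroup.coe_mul, Subgroup.coe_mul, mul_smul, mul_smul, this,
        fv d2 l2 hs'.le (Or.inr le_rfl), fu d2 l2 hs'.le (Or.inr d1.lt.le)]
    · show u.1⁻¹ (v.1 (b.1 w)) = w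
      obtain ⟨w, rfl⟩ := lam.surjective w
      rw [hb', hb.fx w (by simpa using h3) (by simpa using h4),
        v2 _ (d2.lt.le.trans h3) (h4.trans (l0.trans (lam.strictMono d0.lt)))]
      exact inv_mem u2 _ ((d1.lt.trans d2.lt).le.trans h3) (h4.trans l0)
  suffices B0 ≤ ψ.ker.map B.subtype by
    obtain ⟨b', h1, h2⟩ := this (frag b.2)
    rwa [← show b' = b from Subtype.ext h2]
  refine (Subgroup.closure_le _).2 ?_
  rintro g ⟨hg, ⟨y, z, ⟨c, hy⟩, ⟨d, hz⟩, h1, h2⟩, h3⟩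
  obtain ⟨P, hP⟩ := exists_perB hy
  have e1 := h3 y le_rfl h1
  obtain ⟨f, hf, h4⟩ := cut hg.1 hy hy.lam (lt_lam y).le e1 (by rw [mem_CL.1 (B.cl hg), e1])
  have h5 : f ∈ F z (lam y) := ⟨hf.1, fun w h => by
    rcases h with h | h
    · rcases lt_or_ge w y with h' | h'
      · exact hf.2 w (Or.inl h')
      · rw [h4 w h' (h.trans h2).le, h3 w h' h]
    · exact hf.2 w (Or.inr h)⟩
  obtain ⟨f', h6, h7⟩ := gen hz hy.lam ((ψ.comp P).ker.map (Subgroup.subtype _))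
    (fun φ φ' a m e k c1 c2 h6 h7 hk hY => by
      have h8 : e < lam a := h7.trans_lt (lam.strictMono (h1.trans_le h6))
      let k' : F y (lam y) := ⟨k, hk.1, Sp.mono (h1.le.trans h6) h7 hk.2⟩
      obtain ⟨c', hc'⟩ := c1.E
      refine ⟨k', (hA hc' ⟨c1, c2, h8, hY.congr c1 c2 fun w h9 h10 =>
        hP k' w ((h1.le.trans h6).trans h9) (h10.trans_le h7), fun w h9 h10 => ?_⟩).trans (hA1 _),
        rfl⟩
      rcases lt_or_ge w (lam y) with h | h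
      · exact (hP k' w (((h1.le.trans h6).trans (c1.lt.trans c2.lt).le).trans h9) h).trans
          (hk.2 w (Or.inr h9))
      · obtain ⟨w, rfl⟩ := lam.surjective w
        rw [mem_CL.1 (B.cl (P k').2), hP k' w (by simpa using h)
          ((lam.strictMono.lt_iff_lt.1 h10).trans_le ((c1.lt.trans c2.lt).le.trans h7))]
        exact congrArg lam (hk.2 w (Or.inl (by simpa using h10)))) h5
  exact ⟨P f', h6, per_ext (B.cl (P f').2) (B.cl hg) y fun w h8 h9 => by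
    rw [← h4 w h8 h9.le, ← h7]; exact hP f' w h8 h9⟩

/-- the reflection exchanges the ray below `y` and the ray from `y'` on -/
def Rf (y y' : L) : Prop := ∀ w, w < y ↔ y' ≤ rf w

theorem Rf.symm {y y' : L} (h : Rf y y') : Rf y' y := fun w => by
  have := h (rf w)
  rw [rf_rf] at this
  rw [← not_le, ← this, not_lt]

theorem Rf.lt {y y' z z' : L} (h : Rf y y') (h' : Rf z z') (hyz : y < z) : z' < y' :=
  ((h' y).1 hyz).trans_lt (not_le.1 (mt (h y).2 (lt_irrefl _)))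

theorem Rf.uniq {y y' y'' : L} (h : Rf y y') (h' : Rf y y'') : y' = y'' :=
  eq_of_forall_ge_iff fun w => by rw [← rf_rf w, ← h, h']

theorem Rf.sp {y y' z z' : L} (h : Rf y y') (h' : Rf z z') {g : Au} (hg : g ∈ Sp y z) :
    tau g ∈ Sp z' y' := fun w hw => by
  rw [tau_apply, hg _ (hw.symm.imp (fun e => (h _).2 (by simpa using e)) (h'.symm w).1), rf_rf]

theorem Cht.rf (h : Cht φ a e) :
    ∃ a' e', Cht (fun w => rf (φ (mi w))) a' e' ∧ Rf a e' ∧ Rf e a' ∧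
      ∀ c, EC c a → EC (c+1) a' := by
  obtain ⟨g, hg, k, h1, rfl, rfl⟩ := h
  have : ∀ j : ℤ, Rf (g (st j)) (tau g (st (2 - j))) := fun j w => by
    obtain ⟨w, rfl⟩ := g.surjective w
    rw [show Pool.Agent.P.MP_267653_al.rf (g w) = tau g (Pool.Agent.P.MP_267653_al.rf w) by
      simp [tau_apply], OrderIso.lt_iff_lt, OrderIso.le_iff_le, lt_st, st_le]
    simp only [Pool.Agent.P.MP_267653_al.rf]; omega
  refine ⟨_, _, ⟨tau g, tau_ra hg, 1 - k, fun w => ?_, rfl, rfl⟩, ?_, ?_, fun c hc => ?_⟩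
  · simp [h1, tau_apply, Pool.Agent.P.MP_267653_al.rf]
  · convert this k using 3; ring
  · convert this (k+1) using 3; ring
  · rw [hc.uniq ((EC.st k).ra hg)]
    convert (EC.st (1 - k)).ra (tau_ra hg) using 1
    push_cast
    rw [sub_eq_add_neg, ZMod.neg_eq_self_mod_two, add_comm]

theorem hom_A {C : Type} [CommGroup C] [IsMulTorsionFree C] {x0 y0 x1 y1 : L} {c0 d0 c1 d1 : ZMod 2}
    (hx0 : EC c0 x0) (hy0 : EC d0 y0) (hx1 : EC c1 x1) (hy1 : EC d1 y1) (h0 : Rf x0 y0)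
    (h1 : x0 < x1) (h2 : y1 < y0) (ψ : F x0 y0 →* C)
    (hψ : ∀ a b : F x0 y0, b.1 = tau a.1 → ψ b = ψ a) (g : F x0 y0) (hg : g.1 ∈ F x1 y1) :
    ψ g = 1 := by
  suffices F x1 y1 ≤ ψ.ker.map (Subgroup.subtype _) by
    obtain ⟨f', h6, h7⟩ := this hg
    rwa [← show f' = g from Subtype.ext h7]
  refine gen hx1 hy1 _ fun φ φ' a m e k c1 c2 h6 h7 hk hY => ?_
  have l1 := h1.trans_le h6
  have l2 := h7.trans_lt h2
  obtain ⟨m', a', r1, r2, r3, -⟩ := c1.rf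
  obtain ⟨e', m'', r4, r5, r6, r7⟩ := c2.rf
  obtain rfl := r3.uniq r5
  let k' : F x0 y0 := ⟨k, hk.1, Sp.mono l1.le l2.le hk.2⟩
  have l3 := r6.lt h0.symm l2
  have l4 := h0.lt r2 l1
  have hk2 : tau k ∈ F e' a' := ⟨tau_ra hk.1, r2.sp r6 hk.2⟩
  let k2 : F x0 y0 := ⟨tau k, hk2.1, Sp.mono l3.le l4.le hk2.2⟩
  have hY2 : IsY (fun w => rf (φ' (mi w))) (fun w => rf (φ (mi w))) (tau k)⁻¹ := by
    simp only [IsY, inv_smul_eq_iff]
    refine ⟨funext fun w => ?_, funext fun w => ?_, funext fun w => ?_, funext fun w => ?_⟩ <;>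
      simp only [ch, smul_app, tau_apply, rf_rf, mi_cons] <;> congr 1
    exacts [(congrFun hY.2.2.2 _).symm, (congrFun hY.2.2.1 _).symm, (congrFun hY.2.1 _).symm,
      (congrFun hY.1 _).symm]
  obtain ⟨c, hc⟩ := c1.E
  have hc' : EC c e' := by
    convert r7 _ (c1.ec hc) using 1
    exact (by decide : ∀ c : ZMod 2, c = c + 1 + 1) c
  obtain ⟨g1, hg1, e1, e2, e3⟩ := (Seq.cons c1 (.cons c2 (.nil _))).mtch
    (Seq.cons r4 (.cons r1 (.nil _))) rfl hc hc'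
  have hae := (c1.lt.trans c2.lt).le
  obtain ⟨g2, hg2, e4, e5, e6⟩ := ext2 hg1 hx0 hx0 hy0 hy0 hc (c2.ec (c1.ec hc)) l1 hae l2
    (e2 ▸ l3) (e3 ▸ l4)
  obtain ⟨h, hh, e7⟩ := cut hg2 hx0 hy0 (l1.le.trans (hae.trans l2.le)) e4 e5
  have e9 : ∀ z, a ≤ z → z ≤ e → h z = g1 z := fun z h1 h2 => by
    rw [e7 z (l1.le.trans h1) (h2.trans l2.le), e6 z h1 h2]
  simp only [List.map_cons, List.map_nil, List.cons.injEq, and_true] at e1
  have f1 : h • φ = _ := (funext fun w =>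
    e9 _ (c1.mem w).1 ((c1.mem w).2.trans c2.lt).le).trans e1.1
  have f2 : h • φ' = _ := (funext fun w =>
    e9 _ (c1.lt.le.trans (c2.mem w).1) (c2.mem w).2.le).trans e1.2
  have hY3 := hY.conj h
  rw [f1, f2] at hY3
  have hs := Sp.conj hk.2 h
  rw [e9 a le_rfl hae, e9 e hae le_rfl, e2, e3] at hs
  have e10 : (⟨h, hh⟩ : F x0 y0) * k' * (⟨h, hh⟩ : F x0 y0)⁻¹ = k2⁻¹ := Subtype.ext
    (RelIso.ext fun w => by
      by_cases hw : w < e' ∨ a' ≤ w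
      · exact (hs w hw).trans ((Sp e' a').inv_mem hk2.2 w hw).symm
      · rw [not_or, not_lt, not_le] at hw
        exact hY3.eq hY2 r4 r1 hw.1 hw.2)
  have e11 := congrArg ψ e10
  rw [map_mul, map_mul, map_inv, map_inv, hψ k' k2 rfl, mul_inv_cancel_comm] at e11
  exact ⟨k', (pow_eq_one_iff_left two_ne_zero).1 (by rw [sq]; exact mul_eq_one_iff_eq_inv.2 e11),
    rfl⟩

end Pool.Agent.P.MP_267653_al
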