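import Pool.Agent.Lib.Brown.NotFP

/-! Abstract group theory: a Higman type simplicity criterion, left orders, twisted powers. -/

set_option autoImplicit false

namespace Pool.Agent.P.MP_267653_al

open Function Pool.Agent.Lib.Brown

theorem simple_commutator {G : Type} [Group G] {ι : Type} (K : ι → Subgroup G)
    (hconj : ∀ g U, ∃ V, ∀ a ∈ K U, g * a * g⁻¹ ∈ K V)
    (hgen : Subgroup.closure (⋃ U, (K U : Set G)) = ⊤)
    (h2 : ∀ U V, ∃ W g, g ∈ K W ∧ (∀ a ∈ K U, g * a * g⁻¹ ∈ K V) ∧ K U ≤ K W)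
    (h3 : ∀ U, ∃ V, ∀ a ∈ K U, ∀ b ∈ K V, Commute a b)
    (h4 : ∀ m ≠ 1, ∃ U, ∀ a ∈ K U, ∀ b ∈ K U, Commute a (m * b * m⁻¹))
    (hne : commutator G ≠ ⊥) : IsSimpleGroup (commutator G) := by
  have hc : ∀ a b : G, a * b * a⁻¹ * b⁻¹ ∈ commutator G := fun a b =>
    Subgroup.commutator_mem_commutator (Subgroup.mem_top a) (Subgroup.mem_top b)
  have h3' : ∀ W, ∃ W' s, s ∈ K W' ∧ K W ≤ K W' ∧
      ∀ a ∈ K W, ∀ b ∈ K W, Commute a (s * b * s⁻¹) := by
    intro W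
    obtain ⟨V, hV⟩ := h3 W
    obtain ⟨W', s, h1, h2, h3⟩ := h2 W V
    exact ⟨W', s, h1, h3, fun a ha b hb => hV a ha _ (h2 b hb)⟩
  have : Nontrivial (commutator G) := (Subgroup.nontrivial_iff_ne_bot _).2 hne
  refine ⟨fun N hN => ?_⟩
  rw [or_iff_not_imp_left]
  intro hN0
  obtain ⟨m, hmN, hm1⟩ := (Subgroup.bot_or_exists_ne_one N).resolve_left hN0
  set M : Subgroup G := N.map (commutator G).subtype with hM
  have hMn : ∀ g ∈ commutator G, ∀ x ∈ M, g * x * g⁻¹ ∈ M := by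
    rintro g hg _ ⟨x, hx, rfl⟩
    exact ⟨_, hN.conj_mem x hx ⟨g, hg⟩, rfl⟩
  have hmM : (m : G) ∈ M := ⟨m, hmN, rfl⟩
  obtain ⟨U, hU⟩ := h4 m (fun h => hm1 (Subtype.ext h))
  have s1 : ∀ a ∈ K U, ∀ b ∈ K U, a ∈ commutator G → b ∈ commutator G →
      a * b * a⁻¹ * b⁻¹ ∈ M := by
    intro a ha b hb ha' hb'
    have h1 : a * m * a⁻¹ * (m : G)⁻¹ ∈ M := M.mul_mem (hMn a ha' _ hmM) (M.inv_mem hmM)
    have h2 := M.mul_mem h1 (hMn b hb' _ (M.inv_mem h1))
    have h3 := (hU b hb a⁻¹ ((K U).inv_mem ha)).eq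
    convert h2 using 1
    calc a * b * a⁻¹ * b⁻¹ = a * (b * (m * a⁻¹ * (m : G)⁻¹)) * (m * a⁻¹ * (m : G)⁻¹)⁻¹ * a⁻¹ * b⁻¹ := by
          group
      _ = _ := by rw [h3]; group
  have s2 : ∀ V, ∀ a ∈ K V, ∀ b ∈ K V, a ∈ commutator G → b ∈ commutator G →
      a * b * a⁻¹ * b⁻¹ ∈ M := by
    intro V a ha b hb ha' hb'
    obtain ⟨W, g, hg, h1, h2⟩ := h2 V U
    obtain ⟨W', s, -, -, h3⟩ := h3' W
    have key : ∀ x ∈ K V, (g * s * g⁻¹ * s⁻¹) * x * (g * s * g⁻¹ * s⁻¹)⁻¹ = g * x * g⁻¹ := by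
      intro x hx
      have := (h3 x (h2 hx) g⁻¹ ((K W).inv_mem hg)).eq
      calc _ = g * (s * g⁻¹ * s⁻¹ * x) * (s * g⁻¹ * s⁻¹)⁻¹ * g⁻¹ := by group
        _ = _ := by rw [← this]; group
    have hn := (inferInstance : (commutator G).Normal)
    have := hMn _ ((commutator G).inv_mem (hc g s)) _ (s1 _ (h1 a ha) _ (h1 b hb)
      (hn.conj_mem a ha' g) (hn.conj_mem b hb' g))
    rw [← key a ha, ← key b hb] at this
    convert this using 1
    group
  have s3 : ∀ V, ∀ a ∈ K V, ∀ b ∈ K V, a * b * a⁻¹ * b⁻¹ ∈ M := by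
    intro V a ha b hb
    obtain ⟨W, s, hs, h1, h2⟩ := h3' V
    obtain ⟨W', s', hs', h3, h4⟩ := h3' W
    have ha' : a * s * a⁻¹ * s⁻¹ ∈ K W := by
      have := h1 ha
      exact mul_mem (mul_mem (mul_mem this hs) (inv_mem this)) (inv_mem hs)
    have hb' : b * s' * b⁻¹ * s'⁻¹ ∈ K W' := by
      have := h3 (h1 hb)
      exact mul_mem (mul_mem (mul_mem this hs') (inv_mem this)) (inv_mem hs')
    have := s2 W' _ (h3 ha') _ hb' (hc a s) (hc b s')
    have e1 := (h4 _ ha' b⁻¹ (inv_mem (h1 hb))).eq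
    have e2 := (h2 b hb a⁻¹ (inv_mem ha)).eq
    convert this using 1
    set c := a * s * a⁻¹ * s⁻¹ with hcd
    calc a * b * a⁻¹ * b⁻¹ = a * (b * (s * a⁻¹ * s⁻¹)) * (s * a⁻¹ * s⁻¹)⁻¹ * a⁻¹ * b⁻¹ := by group
      _ = c * b * c⁻¹ * b⁻¹ := by rw [e2, hcd]; group
      _ = c * b * c⁻¹ * (c * (s' * b⁻¹ * s'⁻¹)) * c⁻¹ * (s' * b⁻¹ * s'⁻¹)⁻¹ * b⁻¹ := by
          rw [e1]; group
      _ = _ := by group
  let M0 : Subgroup G := Subgroup.normalClosure
    {x | ∃ V, ∃ a ∈ K V, ∃ b ∈ K V, x = a * b * a⁻¹ * b⁻¹}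
  have hM0 : M0 ≤ M := by
    refine (Subgroup.closure_le _).2 fun x hx => ?_
    obtain ⟨_, ⟨V, a, ha, b, hb, rfl⟩, hx⟩ := Group.mem_conjugatesOfSet_iff.1 hx
    obtain ⟨g, rfl⟩ := isConj_iff.1 hx
    obtain ⟨V', hV'⟩ := hconj g V
    have := s3 V' _ (hV' a ha) _ (hV' b hb)
    show _ ∈ M
    convert this using 1
    group
  let π := QuotientGroup.mk' M0
  have hπ : ∀ V, ∀ a ∈ K V, ∀ b ∈ K V, Commute (π a) (π b) := by
    intro V a ha b hb
    have : π (a * b * a⁻¹ * b⁻¹) = 1 :=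
      (QuotientGroup.eq_one_iff _).2 (Subgroup.subset_normalClosure ⟨V, a, ha, b, hb, rfl⟩)
    simp only [map_mul, map_inv] at this
    exact commutatorElement_eq_one_iff_commute.1 this
  have hπ2 : ∀ U V, ∀ a ∈ K U, ∀ b ∈ K V, Commute (π a) (π b) := by
    intro U V a ha b hb
    obtain ⟨W, g, hg, h1, h2⟩ := h2 U V
    have e1 := hπ V _ (h1 a ha) b hb
    have e2 := (hπ W g hg a (h2 ha)).eq
    simp only [map_mul, map_inv] at e1
    rwa [e2, mul_inv_cancel_right] at e1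
  have hπ3 : ∀ a b, Commute (π a) (π b) := by
    intro a b
    have ha : a ∈ Subgroup.closure (⋃ U, (K U : Set G)) := hgen ▸ trivial
    have hb : b ∈ Subgroup.closure (⋃ U, (K U : Set G)) := hgen ▸ trivial
    induction ha, hb using Subgroup.closure_induction₂ with
    | mem x y hx hy =>
      obtain ⟨U, hx⟩ := Set.mem_iUnion.1 hx
      obtain ⟨V, hy⟩ := Set.mem_iUnion.1 hy
      exact hπ2 U V x hx y hy
    | one_left => simp
    | one_right => simp
    | mul_left x y z _ _ _ h1 h2 => rw [map_mul]; exact h1.mul_left h2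
    | mul_right x y z _ _ _ h1 h2 => rw [map_mul]; exact h1.mul_right h2
    | inv_left x y _ _ h => rw [map_inv]; exact h.inv_left
    | inv_right x y _ _ h => rw [map_inv]; exact h.inv_right
  have hle : commutator G ≤ M := by
    refine le_trans (Subgroup.commutator_le.2 fun a _ b _ => ?_) hM0
    refine (QuotientGroup.eq_one_iff _).1 (show π _ = 1 from ?_)
    rw [map_commutatorElement]
    exact commutatorElement_eq_one_iff_commute.2 (hπ3 a b)
  refine eq_top_iff.2 fun x _ => ?_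
  obtain ⟨y, hy, e⟩ := hle x.2
  rwa [← show y = x from Subtype.ext e]

/-- a group acting faithfully on a linear order is left-orderable -/
theorem lo_of_hom {G L : Type} [Group G] [LinearOrder L] (φ : G →* (L ≃o L)) (hφ : Injective φ) :
    ∃ lt : G → G → Prop, (∀ a, ¬ lt a a) ∧ (∀ a b c, lt a b → lt b c → lt a c) ∧
      (∀ a b, lt a b ∨ a = b ∨ lt b a) ∧ (∀ a b c, lt b c → lt (a * b) (a * c)) := by
  let r : L → L → Prop := WellOrderingRel
  have hr : IsWellOrder L r := WellOrderingRel.isWellOrder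
  refine ⟨fun a b => ∃ z, φ a z < φ b z ∧ ∀ w, r w z → φ a w = φ b w, ?_, ?_, ?_, ?_⟩
  · rintro a ⟨z, h, -⟩; exact lt_irrefl _ h
  · rintro a b c ⟨z, h1, h2⟩ ⟨w, h3, h4⟩
    rcases trichotomous_of r z w with h | rfl | h
    · exact ⟨z, h4 z h ▸ h1, fun v hv => (h2 v hv).trans (h4 v (trans_of r hv h))⟩
    · exact ⟨z, h1.trans h3, fun v hv => (h2 v hv).trans (h4 v hv)⟩
    · exact ⟨w, (h2 w h).symm ▸ h3, fun v hv => (h2 v (trans_of r hv h)).trans (h4 v hv)⟩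
  · intro a b
    by_cases h : a = b
    · exact Or.inr (Or.inl h)
    have hne : {z | φ a z ≠ φ b z}.Nonempty := by
      by_contra hn
      exact h (hφ (RelIso.ext fun z => by by_contra hz; exact hn ⟨z, hz⟩))
    obtain ⟨z, hz, hmin⟩ := hr.wf.has_min _ hne
    have h1 : ∀ w, r w z → φ a w = φ b w := fun w hw => by
      by_contra h; exact hmin w h hw
    rcases lt_or_gt_of_ne hz with h2 | h2
    · exact Or.inl ⟨z, h2, h1⟩
    · exact Or.inr (Or.inr ⟨z, h2, fun w hw => (h1 w hw).symm⟩)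
  · rintro a b c ⟨z, h1, h2⟩
    refine ⟨z, ?_, fun w hw => ?_⟩
    · simpa using h1
    · simpa using h2 w hw

theorem finiteIndex_commutator {G : Type} [Group G] [Group.FG G]
    (h : ∀ (A : Type) [CommGroup A] [IsMulTorsionFree A] (ψ : G →* A), ∀ g, ψ g = 1) :
    (commutator G).FiniteIndex := by
  have h1 : IsMulTorsion (Abelianization G) := by
    intro a
    obtain ⟨g, rfl⟩ := QuotientGroup.mk_surjective (s := commutator G) a
    have := h _ ((QuotientGroup.mk' (CommGroup.torsion (Abelianization G))).comp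
      Abelianization.of) g
    exact (QuotientGroup.eq_one_iff (N := CommGroup.torsion (Abelianization G)) _).1 this
  have : Group.FG (Abelianization G) :=
    Group.fg_of_surjective (f := Abelianization.of) (QuotientGroup.mk_surjective)
  have : Finite (G ⧸ commutator G) := CommGroup.finite_of_fg_isMulTorsion (Abelianization G) h1
  exact Subgroup.finiteIndex_of_finite_quotient

theorem exists_asc {Γ : Type} [Group Γ] (A : Subgroup Γ) (t : Γ)
    (hc : ∀ a ∈ A, t * a * t⁻¹ ∈ A) (hinf : ∀ j : ℤ, t ^ j ∈ A → j = 0)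
    (τ : Γ →* Γ) (hτt : τ t = t) (hτA : ∀ a ∈ A, τ a ∈ A) :
    ∃ (D : Subgroup Γ) (𝒟 : Asc D), (𝒟.t : Γ) = t ∧ (∀ g : D, g ∈ 𝒟.A ↔ g.1 ∈ A) ∧
      (∀ (i : ℕ) g, t ^ i * g * (t ^ i)⁻¹ ∈ A → ∃ h : g ∈ D, 𝒟.χ ⟨g, h⟩ = 0) ∧
      (∀ W : Subgroup Γ, A ≤ W → t ∈ W → D ≤ W) ∧
      ∀ g : D, ∃ h : τ g ∈ D, 𝒟.χ ⟨τ g, h⟩ = 𝒟.χ g := by
  have hpow : ∀ a ∈ A, ∀ i : ℕ, t ^ i * a * (t ^ i)⁻¹ ∈ A := by
    intro a ha i
    induction i with
    | zero => simpa using ha
    | succ i ih => convert hc _ ih using 1; rw [pow_succ']; group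
  let N : Subgroup Γ :=
    { carrier := {g | ∃ i : ℕ, t ^ i * g * (t ^ i)⁻¹ ∈ A}
      one_mem' := ⟨0, by simp⟩
      mul_mem' := by
        rintro a b ⟨i, hi⟩ ⟨j, hj⟩
        refine ⟨i + j, ?_⟩
        convert A.mul_mem (hpow _ hi j) (hpow _ hj i) using 1
        group
      inv_mem' := by
        rintro a ⟨i, hi⟩
        exact ⟨i, by convert A.inv_mem hi using 1; group⟩ }
  have hN : ∀ (j : ℤ), ∀ g ∈ N, t ^ j * g * t ^ (-j) ∈ N := by
    rintro j g ⟨i, hi⟩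
    refine ⟨i + j.natAbs, ?_⟩
    obtain ⟨e, he⟩ : ∃ e : ℕ, (e : ℤ) = j.natAbs + j := ⟨(j.natAbs + j).toNat, by omega⟩
    convert hpow _ hi e using 1
    rw [← zpow_natCast, ← zpow_natCast, ← zpow_natCast, he]
    push_cast
    group
  have huniq : ∀ (g : Γ) (i j : ℤ), g * t ^ (-i) ∈ N → g * t ^ (-j) ∈ N → i = j := by
    intro g i j hi hj
    obtain ⟨e, he⟩ := N.mul_mem (N.inv_mem hi) hj
    have := hinf (i - j) (by convert he using 1; group)
    omega
  let D : Subgroup Γ :=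
    { carrier := {g | ∃ j : ℤ, g * t ^ (-j) ∈ N}
      one_mem' := ⟨0, by simp⟩
      mul_mem' := by
        rintro a b ⟨i, hi⟩ ⟨j, hj⟩
        exact ⟨i + j, by convert N.mul_mem hi (hN i _ hj) using 1; group⟩
      inv_mem' := by
        rintro a ⟨i, hi⟩
        exact ⟨-i, by convert hN (-i) _ (N.inv_mem hi) using 1; group⟩ }
  let χ : D → ℤ := fun g => g.2.choose
  have hχ : ∀ g : D, g.1 * t ^ (-χ g) ∈ N := fun g => g.2.choose_spec
  have hχ' : ∀ (g : D) (j : ℤ), g.1 * t ^ (-j) ∈ N → χ g = j := fun g j h => huniq _ _ _ (hχ g) h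
  refine ⟨D, ⟨χ, ⟨t, 1, by simp⟩, A.subgroupOf D, fun a b => hχ' _ _ ?_, hχ' _ _ (by simp),
    fun a ha => hχ' _ _ ⟨0, by simpa [Subgroup.mem_subgroupOf] using ha⟩,
    fun a ha => hc _ ha, fun g hg => ?_⟩, rfl, fun g => Iff.rfl, fun i g h => ?_, ?_, fun g => ?_⟩
  · convert N.mul_mem (hχ a) (hN (χ a) _ (hχ b)) using 1
    push_cast
    group
  · obtain ⟨i, hi⟩ := hχ g
    exact ⟨i, by simpa [Subgroup.mem_subgroupOf, hg] using hi⟩
  · have : g * t ^ (-(0 : ℤ)) ∈ N := ⟨i, by simpa using h⟩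
    exact ⟨⟨0, this⟩, hχ' _ _ this⟩
  · rintro W h1 h2 g ⟨j, i, h⟩
    have := W.mul_mem (W.mul_mem (W.mul_mem (W.inv_mem (W.pow_mem h2 i)) (h1 h)) (W.pow_mem h2 i))
      (W.zpow_mem h2 j)
    convert this using 1
    group
  · obtain ⟨i, hi⟩ := hχ g
    have : τ g * t ^ (-χ g) ∈ N := ⟨i, by simpa [hτt] using hτA _ hi⟩
    exact ⟨⟨_, this⟩, hχ' _ _ this⟩

/-- the twisted power of an ascending HNN extension -/
theorem exists_twist {Γ : Type} [Group Γ] (D : Asc Γ) (τ : Γ →* Γ) (hττ : ∀ g, τ (τ g) = g)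
    (hχ : ∀ g, D.χ (τ g) = D.χ g) (k : ℕ) :
    ∃ (α : MulAut (D.Hk (Fin (k+1)))) (ev : ℕ → D.Hk (Fin (k+1)) →* Γ),
      (∀ n a, ev (n+1) (α a) = ev n a) ∧ α ^ (2 * (k+1)) = 1 ∧
      (∀ a b, (∀ᶠ n in Filter.atTop, ev n a = ev n b) → a = b) ∧
      ∀ (C : Type) [CommGroup C] [IsMulTorsionFree C],
        (∀ (N : Subgroup Γ), (∀ g, g ∈ N ↔ D.χ g = 0) → ∀ ψ : N →* C,
          (∀ a b : N, b.1 = τ a.1 → ψ b = ψ a) → ∀ a, ψ a = 1) →
        ∀ ψ : D.Hk (Fin (k+1)) →* C, (∀ a, ψ (α a) = ψ a) → ∀ a, ψ a = 1 := by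
  classical
  let β : MulAut (D.Hk (Fin (k+1))) :=
    { toFun := fun a => ⟨fun i => if i + 1 = 0 then τ (a.1 (i+1)) else a.1 (i+1), by
        refine Eq.trans ?_ ((Equiv.sum_comp (Equiv.addRight 1) fun i => D.χ (a.1 i)).trans a.2)
        exact Finset.sum_congr rfl fun i _ => by beta_reduce; split_ifs <;> simp [hχ]⟩
      invFun := fun a => ⟨fun i => if i = 0 then τ (a.1 (i-1)) else a.1 (i-1), by
        refine Eq.trans ?_ ((Equiv.sum_comp (Equiv.subRight 1) fun i => D.χ (a.1 i)).trans a.2)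
        exact Finset.sum_congr rfl fun i _ => by beta_reduce; split_ifs <;> simp [hχ]⟩
      left_inv := fun a => Subtype.ext (funext fun i => by
        by_cases h : i = 0 <;> simp [h, hττ])
      right_inv := fun a => Subtype.ext (funext fun i => by
        by_cases h : i + 1 = 0
        · simp only [h, if_true, hττ, ← eq_sub_of_add_eq h]
        · simp [h])
      map_mul' := fun a b => Subtype.ext (funext fun i => by
        by_cases h : i + 1 = 0 <;> simp [h]) }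
  let ex : D.Hk (Fin (k+1)) → ℕ → Γ := fun a n =>
    τ^[n / (k+1)] (a.1 ⟨n % (k+1), Nat.mod_lt _ (by omega)⟩)
  have ex1 : ∀ a n, ex a (n + (k+1)) = τ (ex a n) := fun a n => by
    simp only [ex, Nat.add_mod_right]
    rw [Nat.add_div_right _ (by omega), iterate_succ_apply']
  have ex0 : ∀ a (i : Fin (k+1)), ex a i = a.1 i := fun a i => by
    simp only [ex, Nat.mod_eq_of_lt i.2, Nat.div_eq_of_lt i.2]; rfl
  have hβ : ∀ a (j : ℕ) (i : Fin (k+1)), ((β ^ j) a).1 i = ex a (i + j) := by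
    intro a j
    induction j with
    | zero => intro i; simp [ex0]
    | succ j ih =>
      intro i
      rw [pow_succ', MulAut.mul_apply]
      show (if i + 1 = 0 then τ (((β ^ j) a).1 (i+1)) else ((β ^ j) a).1 (i+1)) = _
      rw [ih]
      split_ifs with h
      · have : i = Fin.last k := add_right_cancel (h.trans (Fin.last_add_one k).symm)
        rw [h, ← ex1, this]
        congr 1
        simp; omega
      · have : i ≠ Fin.last k := fun e => h (e ▸ Fin.last_add_one k)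
        rw [Fin.val_add_one_of_lt (Fin.lt_last_iff_ne_last.2 this)]
        congr 1
        omega
  have hβk : ∀ a i, ((β ^ (k+1)) a).1 i = τ (a.1 i) := fun a i => by rw [hβ, ex1, ex0]
  have hβ2 : β ^ (2 * (k+1)) = 1 := by
    ext a i
    rw [two_mul, pow_add, MulAut.mul_apply, hβk, hβk, hττ]; rfl
  refine ⟨β⁻¹, fun n => ((Pi.evalMonoidHom (fun _ => Γ) 0).comp (Subgroup.subtype _)).comp
    (β ^ n).toMonoidHom, fun n a => ?_, by rw [inv_pow, hβ2, inv_one], fun a b h => ?_, ?_⟩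
  · show ((β ^ (n+1)) (β⁻¹ a)).1 0 = ((β ^ n) a).1 0
    rw [pow_succ, MulAut.mul_apply]; simp
  · obtain ⟨M, hM⟩ := Filter.eventually_atTop.1 h
    ext i
    have : ((β ^ (2 * (k+1) * M + i)) a).1 0 = ((β ^ (2 * (k+1) * M + i)) b).1 0 :=
      hM (2 * (k+1) * M + i) (by nlinarith)
    rw [pow_add, pow_mul, hβ2, one_pow, one_mul, hβ, hβ] at this
    simpa [ex0] using this
  intro C _ _ hN ψ hψ a
  have hψ1 : ∀ (j : ℕ) a, ψ ((β ^ j) a) = ψ a := by
    intro j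
    induction j with
    | zero => simp
    | succ j ih => intro a; rw [pow_succ', MulAut.mul_apply, ← hψ]; simpa using ih a
  let N : Subgroup Γ :=
    { carrier := {g | D.χ g = 0}
      one_mem' := by simp
      mul_mem' := fun {a b} (ha : D.χ a = 0) (hb : D.χ b = 0) => by
        show D.χ _ = 0
        rw [D.χ_mul, ha, hb]; rfl
      inv_mem' := fun {a} (ha : D.χ a = 0) => by
        show D.χ _ = 0
        rw [D.χ_inv, ha]; rfl }
  let ι : (Fin (k+1) → N) →* D.Hk (Fin (k+1)) :=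
    { toFun := fun x => ⟨fun i => x i, Finset.sum_eq_zero fun i _ => (x i).2⟩
      map_one' := rfl
      map_mul' := fun _ _ => rfl }
  have hι : ψ.comp ι = 1 := MonoidHom.pi_ext fun i x =>
    hN N (fun _ => Iff.rfl) ((ψ.comp ι).comp (MonoidHom.mulSingle (fun _ => N) i))
      (fun a b hab => by
        show ψ (ι (Pi.mulSingle i b)) = ψ (ι (Pi.mulSingle i a))
        rw [← hψ1 (k+1) (ι (Pi.mulSingle i a))]
        congr 1
        ext j
        rw [hβk]
        show ((Pi.mulSingle i b : Fin (k+1) → N) j).1 = τ ((Pi.mulSingle i a : Fin (k+1) → N) j).1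
        by_cases h : j = i
        · subst h; simpa using hab
        · simp [h]) x
  have hc : ∀ j : ℕ, ∃ c : D.Hk (Fin (k+1)), ψ c = ψ a ^ j ∧
      ∀ i : Fin (k+1), D.χ (c.1 i) = ∑ l ∈ Finset.range j, D.χ (ex a (l + i)) := by
    intro j
    induction j with
    | zero => exact ⟨1, by simp, by simp⟩
    | succ j ih =>
      obtain ⟨c, h1, h2⟩ := ih
      refine ⟨c * (β ^ j) a, by rw [map_mul, h1, hψ1, pow_succ], fun i => ?_⟩
      rw [Finset.sum_range_succ, ← h2, add_comm j, ← hβ, ← D.χ_mul]; rfl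
  obtain ⟨c, h1, h2⟩ := hc (k+1)
  have h3 : ∀ i, D.χ (c.1 i) = 0 := fun i => by
    rw [h2, Finset.sum_range]
    exact (Finset.sum_congr rfl fun l _ => by rw [hβ]).trans ((β ^ (i : ℕ)) a).2
  have h4 : ψ c = 1 := DFunLike.congr_fun hι fun i => ⟨c.1 i, h3 i⟩
  exact (pow_eq_one_iff_left (by omega)).1 (h1.symm.trans h4)

end Pool.Agent.P.MP_267653_al
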