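import Pool.Agent.P.MP_267653_al.Per

/-! Finiteness properties of `B` and of its stabilisers of finite sets of special points. -/

set_option autoImplicit false

namespace Pool.Agent.P.MP_267653_al

open Function Filter Pool.Agent.Lib.Brown

variable {g b : Au} {x y z w q : L} {c d : ZMod 2}

theorem fn_cones (m : ℕ) (𝒜 : Finset Ad) (hne : 𝒜.Nonempty) (h0 : ∀ a ∈ 𝒜, a.1 = 0)
    (K : Subgroup Au) (hK : ∀ g, g ∈ K ↔ g ∈ B ∧ ∀ a ∈ 𝒜, ∀ v, g (cm a v) = cm a v) :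
    Fn K m := by
  choose hi hhi using cht_cm
  obtain ⟨a0, ha0⟩ := hne
  have hx : EC (par a0) (cm a0 z0) := ⟨_, rfl, rfl⟩
  have hk : (cm a0 z0).k = 0 := h0 a0 ha0
  obtain ⟨P, hP⟩ := exists_perB hx
  let K0 := F (cm a0 z0) (lam (cm a0 z0)) ⊓ ⨅ a ∈ 𝒜,
    (Fx (cm a z0) (hi a) ⊓ Fx (lam (cm a z0)) (lam (hi a)))
  have h1 : Fn K0 m := fn_FJ m (𝒜.toList.flatMap fun a =>
    [(cm a z0, hi a), (lam (cm a z0), lam (hi a))]) (by
      simp only [List.mem_flatMap, List.mem_cons, List.not_mem_nil, or_false]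
      have : ∀ a, EC (par a) (cm a z0) := fun a => ⟨_, rfl, rfl⟩
      rintro _ ⟨a, -, rfl | rfl⟩
      · exact ⟨⟨_, this a⟩, _, (hhi a).ec (this a)⟩
      · exact ⟨⟨_, (this a).lam⟩, _, ((hhi a).ec (this a)).lam⟩) ⟨_, hx⟩ ⟨_, hx.lam⟩ K0 (by
      intro g
      simp only [K0, Subgroup.mem_inf, Subgroup.mem_iInf, List.mem_flatMap, List.mem_cons,
        List.not_mem_nil, or_false, Finset.mem_toList]
      refine and_congr_right fun _ => ⟨?_, fun h a ha => ⟨h _ ⟨a, ha, Or.inl rfl⟩,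
        h _ ⟨a, ha, Or.inr rfl⟩⟩⟩
      rintro h _ ⟨a, ha, rfl | rfl⟩
      exacts [(h a ha).1, (h a ha).2])
  let φ : K0 →* Au := B.subtype.comp (P.comp (Subgroup.inclusion inf_le_left))
  have hφ : Injective φ := (injective_iff_map_eq_one φ).2 fun g e => Subtype.ext <|
    RelIso.ext fun z => by
      by_cases h : z < cm a0 z0 ∨ lam (cm a0 z0) ≤ z
      · exact g.2.1.2 z h
      · rw [not_or, not_lt, not_le] at h
        exact (hP _ z h.1 h.2).symm.trans (congrArg (· z) e)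
  refine h1.equiv ((MonoidHom.ofInjective hφ).trans (MulEquiv.subgroupCongr ?_))
  ext g
  rw [hK]
  constructor
  · rintro ⟨g, rfl⟩
    have g2 := (Subgroup.mem_inf.1 g.2).2
    simp only [Subgroup.mem_iInf, Subgroup.mem_inf] at g2
    refine ⟨(P _).2, fun a ha v => ?_⟩
    have hv : (cm a v).k = 0 := h0 a ha
    rcases le_or_gt (cm a0 z0) (cm a v) with h | h
    · exact (hP _ _ h (L.lt_iff.2 (Or.inl (by simp [lam_apply, hk, hv])))).trans
        ((g2 a ha).1 _ ((hhi a).mem v).1 ((hhi a).mem v).2)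
    · refine (CL.fix (B.cl (P _).2) 1).1 ((hP _ _ (L.lt_iff.2 (Or.inl (by
        simp [lam_apply, hk, hv]))).le (by simpa using h)).trans ((g2 a ha).2 _ ?_ ?_))
      · simpa using ((hhi a).mem v).1
      · simpa using ((hhi a).mem v).2
  · rintro ⟨h2, h3⟩
    obtain ⟨f, hf, h4⟩ := cut h2.1 hx hx.lam (lt_lam _).le (h3 a0 ha0 _)
      (by rw [mem_CL.1 (B.cl h2), h3 a0 ha0])
    have h5 : ∀ w, g w = w → f w = w := fun w h => by
      by_cases h' : w < cm a0 z0 ∨ lam (cm a0 z0) ≤ w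
      · exact hf.2 w h'
      · rw [not_or, not_lt, not_le] at h'
        rw [h4 w h'.1 h'.2.le, h]
    refine ⟨⟨f, Subgroup.mem_inf.2 ⟨hf, ?_⟩⟩, per_ext (B.cl (P _).2) (B.cl h2) _ fun z h6 h7 =>
      (hP _ z h6 h7).trans (h4 z h6 h7.le)⟩
    simp only [Subgroup.mem_iInf, Subgroup.mem_inf]
    refine fun a ha => ⟨fun w h6 h7 => h5 w ?_, fun w h6 h7 => h5 w ?_⟩
    · obtain ⟨v, rfl⟩ := (hhi a).range.2 ⟨h6, h7⟩
      exact h3 a ha v
    · obtain ⟨w, rfl⟩ := lam.surjective w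
      obtain ⟨v, rfl⟩ := (hhi a).range.2 ⟨by simpa using h6, by simpa using h7⟩
      rw [mem_CL.1 (B.cl h2), h3 a ha]

/-- stabilisers of finite sets of special points of the circle -/
noncomputable def BM (M : Finset X) : Subgroup Au where
  carrier := {g | g ∈ B ∧ ∀ q ∈ M, ∃ j : ℤ, g q.1 = (lam ^ j) q.1}
  one_mem' := ⟨one_mem _, fun _ _ => ⟨0, rfl⟩⟩
  mul_mem' {a b} ha hb := ⟨mul_mem ha.1 hb.1, fun q hq => by
    obtain ⟨i, hi⟩ := ha.2 q hq
    obtain ⟨j, hj⟩ := hb.2 q hq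
    exact ⟨j + i, by rw [RelIso.mul_apply, hj, CL.zpow (B.cl ha.1), hi, zpow_add]; rfl⟩⟩
  inv_mem' {a} ha := ⟨inv_mem ha.1, fun q hq => by
    obtain ⟨i, hi⟩ := ha.2 q hq
    refine ⟨-i, a.injective ?_⟩
    rw [CL.zpow (B.cl ha.1), hi]; simp⟩

theorem same_j (hg : g ∈ CL) {q' : L} (h : q.k = q'.k) {i j : ℤ} (h1 : g q = (lam ^ i) q)
    (h2 : g q' = (lam ^ j) q') : i = j := by
  wlog hq : q ≤ q' generalizing q q' i j
  · exact (this h.symm h2 h1 (le_of_not_ge hq)).symm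
  have h3 := L.k_mono (g.monotone hq)
  have h4 := g.strictMono (L.lt_iff.2 (Or.inl (by simp [lam_apply, h])) : q' < lam q)
  rw [mem_CL.1 hg, h1, h2] at h4
  have h5 := L.k_mono h4.le
  simp only [h1, h2, lam_zpow_k, lam_apply] at h3 h5
  by_contra hne
  obtain rfl : j = 1 + i := by omega
  rw [zpow_one_add, RelIso.mul_apply, OrderIso.lt_iff_lt, OrderIso.lt_iff_lt] at h4
  exact absurd hq (not_le.2 h4)

theorem fn_BM_ne {m : ℕ} (hm : 1 ≤ m) (M : Finset X) (hne : M.Nonempty) : Fn (BM M) m := by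
  classical
  obtain ⟨q0, hq0⟩ := hne
  obtain ⟨t, ht, ht'⟩ := exists_t M
  have hχ : ∀ g : BM M, ∀ q ∈ M, g.1 q.1 = (lam ^ (g.1 q0.1).k) q.1 := fun g q hq => by
    obtain ⟨i, hi⟩ := g.2.2 q0 hq0
    obtain ⟨j, hj⟩ := g.2.2 q hq
    rw [hj, hi, lam_zpow_k, q0.2.2, zero_add,
      same_j (B.cl g.2.1) (q0.2.2.trans q.2.2.symm) hi hj]
  obtain ⟨n, hn⟩ := eventually_atTop.1 ((eventually_all_finset M).2 fun q hq =>
    (ev_at q.2.1 0).and (((ht.1 q.1).at q.2.1).2.and (O_lam q.2.1).2))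
  let A : ℕ → Subgroup (BM M) := fun n =>
    { carrier := {g | ∀ q ∈ M, ∀ v, g.1 (cm (ad q.1 n) v) = cm (ad q.1 n) v}
      one_mem' := fun _ _ _ => rfl
      mul_mem' := fun {a b} ha hb q hq v => by
        show a.1 (b.1 _) = _
        rw [hb q hq, ha q hq]
      inv_mem' := fun {a} ha q hq v => a.1.injective (by
        rw [ha q hq]; exact RelIso.apply_inv_self _ _) }
  let t' : BM M := ⟨t, ht, fun q hq => ⟨1, by simpa using ht' q hq⟩⟩
  have hc : ∀ l, n ≤ l → ∀ a ∈ A (l+1), t' * a * t'⁻¹ ∈ A l := by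
    intro l hl a ha q hq v
    refine (CL.fix (B.cl (t' * a * t'⁻¹).2.1) 1).1 ?_
    rw [zpow_one, (hn l hl q hq).2.2, ← ht' q hq, ← (hn (l+1) (by omega) q hq).2.1]
    show t (a.1 (t⁻¹ (t _))) = _
    rw [RelIso.inv_apply_self, ha q hq]
  have hle : A n ≤ A (n+1) := fun a ha q hq v => by
    rw [(hn n le_rfl q hq).1.1.succ.ad_eq, cm_ex, ha q hq]
  let D : Asc (BM M) :=
    { χ := fun g => (g.1 q0.1).k
      t := t'
      A := A n
      χ_mul := fun a b => by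
        show (a.1 (b.1 q0.1)).k = _
        rw [hχ b q0 hq0, CL.zpow (B.cl a.2.1), lam_zpow_k, lam_zpow_k, q0.2.2, zero_add]
      χ_t := by simp [t', ht' q0 hq0, lam_apply, q0.2.2]
      χ_A := fun a ha => by
        rw [(hn n le_rfl q0 hq0).1.1.2, ha q0 hq0, ← (hn n le_rfl q0 hq0).1.1.2, q0.2.2]
      conj := fun a ha => hc n le_rfl a (hle ha)
      exh := fun g hg => by
        obtain ⟨l, h1, h2⟩ := ((eventually_ge_atTop n).and ((eventually_all_finset M).2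
          fun q hq => ((g.2.1.1 q.1).at q.2.1).2)).exists
        obtain ⟨i, rfl⟩ := Nat.exists_eq_add_of_le h1
        have h3 : g ∈ A (n + i) := fun q hq v => by
          rw [h2 q hq, hχ g q hq, hg]; rfl
        refine ⟨i, ?_⟩
        clear h1 h2 hg
        induction i generalizing g with
        | zero => simpa using h3
        | succ i ih =>
          convert ih _ (hc (n + i) (by omega) g h3) using 1
          rw [pow_succ]; group }
  refine D.fn_self hm (Fn.equiv (Subgroup.equivMapOfInjective (A n) (BM M).subtype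
    Subtype.val_injective).symm (fn_cones m (M.image fun q => ad q.1 n)
      (Finset.image_nonempty.2 ⟨q0, hq0⟩) ?_ _ fun g => ?_))
  · simp only [Finset.mem_image]
    rintro _ ⟨q, hq, rfl⟩
    exact (congrArg L.k (hn n le_rfl q hq).1.1.2).symm.trans q.2.2
  · simp only [Finset.mem_image, forall_exists_index, and_imp, forall_apply_eq_imp_iff₂]
    refine ⟨by rintro ⟨g, h, rfl⟩; exact ⟨g.2.1, h⟩, fun h => ⟨⟨g, h.1, fun q hq => ⟨0, ?_⟩⟩, h.2, rfl⟩⟩
    rw [(hn n le_rfl q hq).1.1.2, h.2 q hq]; rfl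

/-- normalisation into the zero block -/
noncomputable def nrm (z : L) : L := (lam ^ (-z.k)) z

theorem nrm_k (z : L) : (nrm z).k = 0 := by rw [nrm, lam_zpow_k, add_neg_cancel]

theorem nrm_zpow (j : ℤ) (z : L) : nrm ((lam ^ j) z) = nrm z := by
  rw [nrm, nrm, lam_zpow_k, ← RelIso.mul_apply, ← zpow_add]; congr 2; ring

theorem nrm_eq (hq : q.k = 0) : nrm z = q ↔ ∃ j : ℤ, z = (lam ^ j) q :=
  ⟨fun h => ⟨z.k, by simp [← h, nrm]⟩, by rintro ⟨j, rfl⟩; rw [nrm_zpow, nrm, hq]; rfl⟩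

/-- periodic automorphisms preserving the special orbit -/
noncomputable def CO : Subgroup Au where
  carrier := {g | g ∈ CL ∧ ∀ z, g z ∈ O ↔ z ∈ O}
  one_mem' := ⟨one_mem _, fun _ => Iff.rfl⟩
  mul_mem' ha hb := ⟨mul_mem ha.1 hb.1, fun z => (ha.2 _).trans (hb.2 z)⟩
  inv_mem' {a} ha := ⟨inv_mem ha.1, fun z => by simpa using (ha.2 (a⁻¹ z)).symm⟩

/-- the action on the special orbit of the circle -/
@[reducible] noncomputable def actX (K : Subgroup Au) (hK : K ≤ CO) : MulAction K X where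
  smul g q := ⟨nrm (g.1 q.1), O_zpow (((hK g.2).2 _).2 q.2.1) _, nrm_k _⟩
  one_smul q := Subtype.ext ((nrm_eq q.2.2).2 ⟨0, rfl⟩)
  mul_smul g h q := Subtype.ext (by
    show nrm (g.1 (h.1 q.1)) = nrm (g.1 ((lam ^ _) _))
    rw [CL.zpow (hK g.2).1, nrm_zpow])

theorem B_le_CO : B ≤ CO := fun g hg => ⟨hg.2, fun z => ⟨fun h => by
  simpa using ((inv_mem hg.1 : g⁻¹ ∈ RA) (g z)).at h |>.1, fun h => ((hg.1 z).at h).1⟩⟩

theorem fn_BM {m : ℕ} (hm : 1 ≤ m) (M : Finset X) : Fn (BM M) m := by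
  classical
  rcases M.eq_empty_or_nonempty with rfl | hne
  swap
  · exact fn_BM_ne hm M hne
  rw [show BM ∅ = B from Subgroup.ext fun g => ⟨fun h => h.1, fun h => ⟨h, by simp⟩⟩]
  let _ := actX B B_le_CO
  obtain ⟨X0, hX0⟩ := X_trans (m + 2)
  obtain ⟨q0⟩ : Nonempty X := inferInstance
  refine brown (V := X) (fun _ _ => True) Set.univ (fun _ _ _ => trivial) (fun _ _ _ _ => trivial)
    hm (conn_cone (v := q0) (Set.mem_univ _) (fun _ _ => trivial) _) X0 (fun l _ hl => ?_)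
    fun l hl _ => ?_
  · obtain ⟨b, hb, h⟩ := hX0 l.toFinset ((List.toFinset_card_le l).trans hl)
    refine ⟨⟨b, hb⟩, fun q hq => ?_⟩
    obtain ⟨q', h1, h2⟩ := h q (List.mem_toFinset.2 hq)
    rwa [show (⟨b, hb⟩ : B) • q = q' from Subtype.ext ((nrm_eq q'.2.2).2 ⟨0, h2⟩)]
  · refine Fn.equiv (Subgroup.equivMapOfInjective _ B.subtype Subtype.val_injective).symm ?_
    rw [show (MulAction.stabilizer B l).map B.subtype = BM l.toFinset from ?_]
    · exact fn_BM_ne hm _ (by simpa [List.toFinset_nonempty_iff] using hl)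
    ext g
    constructor
    · rintro ⟨g, h, rfl⟩
      exact ⟨g.2, fun q hq => (nrm_eq q.2.2).1 (congrArg Subtype.val
        (mem_stab_list.1 h q (List.mem_toFinset.1 hq)))⟩
    · exact fun h => ⟨⟨g, h.1⟩, mem_stab_list.2 fun q hq => Subtype.ext ((nrm_eq q.2.2).2
        (h.2 q (List.mem_toFinset.2 hq))), rfl⟩

end Pool.Agent.P.MP_267653_al
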