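import Mathlib

/-! The ternary Cantor line, cone replacements and the full group of regular automorphisms. -/

set_option autoImplicit false

namespace Pool.Agent.P.MP_267653_al

open Function

/-- ternary sequences with the lexicographic order -/
def C : Type := ℕ → Fin 3

noncomputable instance : LinearOrder C := inferInstanceAs (LinearOrder (Lex (ℕ → Fin 3)))

theorem C.lt_iff {y z : C} : y < z ↔ ∃ i, (∀ j < i, y j = z j) ∧ y i < z i := Iff.rfl

def cons (a : Fin 3) (y : C) : C := fun n => match n with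
  | 0 => a
  | n+1 => y n

def tail (y : C) : C := fun n => y (n+1)

def z0 : C := fun _ => 0

@[simp] theorem cons_zero (a : Fin 3) (y : C) : cons a y 0 = a := rfl
@[simp] theorem cons_succ (a : Fin 3) (y : C) (n : ℕ) : cons a y (n+1) = y n := rfl
@[simp] theorem tail_cons (a : Fin 3) (y : C) : tail (cons a y) = y := rfl
@[simp] theorem z0_apply (n : ℕ) : z0 n = 0 := rfl
theorem cons_tail (y : C) : cons (y 0) (tail y) = y := funext fun n => by cases n <;> rfl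
theorem exists_cons (y : C) : ∃ a z, y = cons a z := ⟨_, _, (cons_tail y).symm⟩
@[simp] theorem cons_z0 : cons 0 z0 = z0 := cons_tail z0

@[simp] theorem cons_inj {a b : Fin 3} {y z : C} : cons a y = cons b z ↔ a = b ∧ y = z :=
  ⟨fun h => ⟨congrFun h 0, congrArg tail h⟩, by rintro ⟨rfl, rfl⟩; rfl⟩

@[simp] theorem cons_lt {a b : Fin 3} {y z : C} :
    cons a y < cons b z ↔ a < b ∨ (a = b ∧ y < z) := by
  constructor
  · rintro ⟨i, h1, h2⟩
    cases i with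
    | zero => exact Or.inl h2
    | succ i => exact Or.inr ⟨h1 0 (by omega), i, fun j hj => h1 (j+1) (by omega), h2⟩
  · rintro (h | ⟨rfl, i, h1, h2⟩)
    · exact ⟨0, by simp, h⟩
    · exact ⟨i+1, fun j hj => by cases j; rfl; exact h1 _ (by omega), h2⟩

theorem z0_le (y : C) : z0 ≤ y := not_lt.1 (by rintro ⟨i, -, h⟩; simp at h)

/-- prepend a finite word -/
def app (u : List (Fin 3)) (y : C) : C := u.foldr cons y

@[simp] theorem app_nil (y : C) : app [] y = y := rfl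
@[simp] theorem app_cons (a : Fin 3) (u : List (Fin 3)) (y : C) :
    app (a :: u) y = cons a (app u y) := rfl
@[simp] theorem app_append (u v : List (Fin 3)) (y : C) : app (u ++ v) y = app u (app v y) :=
  List.foldr_append

@[simp] theorem app_lt (u : List (Fin 3)) {y z : C} : app u y < app u z ↔ y < z := by
  induction u <;> simp [*]

@[simp] theorem app_inj (u : List (Fin 3)) {y z : C} : app u y = app u z ↔ y = z := by
  induction u <;> simp [*]

theorem app_ge (u : List (Fin 3)) (y : C) (i : ℕ) : app u y (i + u.length) = y i := by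
  induction u with
  | nil => rfl
  | cons a u ih => exact ih

theorem app_lo (u : List (Fin 3)) (y z : C) : ∀ i < u.length, app u y i = app u z i := by
  induction u with
  | nil => simp
  | cons a u ih =>
    intro i hi
    cases i with
    | zero => rfl
    | succ i => exact ih i (by simpa using hi)

theorem exists_app (N : ℕ) : ∀ y : C, ∃ u z, u.length = N ∧ y = app u z := by
  induction N with
  | zero => exact fun y => ⟨[], y, rfl, rfl⟩
  | succ N ih =>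
    intro y
    obtain ⟨a, y, rfl⟩ := exists_cons y
    obtain ⟨u, z, h, rfl⟩ := ih y
    exact ⟨a :: u, z, by simp [h], rfl⟩

theorem of_agree : ∀ (u : List (Fin 3)) (y z : C), (∀ i < u.length, z i = app u y i) →
    ∃ w, z = app u w
  | [], _, z, _ => ⟨z, rfl⟩
  | a :: u, y, z, h => by
    obtain ⟨b, z, rfl⟩ := exists_cons z
    obtain ⟨w, rfl⟩ := of_agree u y z fun i hi => h (i+1) (by simpa using hi)
    obtain rfl : b = a := h 0 (by simp)
    exact ⟨w, rfl⟩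

theorem app_eq : ∀ {u v : List (Fin 3)} {y z : C}, app u y = app v z → u.length ≤ v.length →
    ∃ w, v = u ++ w ∧ y = app w z
  | [], v, _, _, h, _ => ⟨v, rfl, h⟩
  | a :: u, [], _, _, _, h => by simp at h
  | a :: u, b :: v, y, z, h, hl => by
    simp only [app_cons, cons_inj] at h
    obtain ⟨w, rfl, h2⟩ := app_eq h.2 (by simpa using hl)
    exact ⟨w, by simp [h.1], h2⟩

/-- the line -/
@[ext] structure L where
  k : ℤ
  s : C

noncomputable instance : LinearOrder L :=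
  LinearOrder.lift' (fun z => toLex (z.k, z.s)) fun _ _ h =>
    L.ext (congrArg (fun p => (ofLex p).1) h) (congrArg (fun p => (ofLex p).2) h)

theorem L.lt_iff {z w : L} : z < w ↔ z.k < w.k ∨ (z.k = w.k ∧ z.s < w.s) :=
  Prod.Lex.toLex_lt_toLex

theorem L.k_mono {z w : L} (h : z ≤ w) : z.k ≤ w.k := by
  by_contra h'
  exact absurd h (not_le.2 (L.lt_iff.2 (Or.inl (not_le.1 h'))))

/-- start of a block -/
def st (k : ℤ) : L := ⟨k, z0⟩

@[simp] theorem st_k (k : ℤ) : (st k).k = k := rfl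

theorem st_le {k : ℤ} {z : L} : st k ≤ z ↔ k ≤ z.k := by
  refine ⟨L.k_mono, fun h => not_lt.1 fun h' => ?_⟩
  rcases L.lt_iff.1 h' with h' | ⟨-, h'⟩
  · exact absurd h (not_le.2 h')
  · exact absurd (z0_le _) (not_le.2 h')

theorem lt_st {k : ℤ} {z : L} : z < st k ↔ z.k < k := by rw [← not_le, st_le, not_le]

abbrev Au := L ≃o L

/-- addresses of cones -/
abbrev Ad := ℤ × List (Fin 3)

/-- the cone map of an address -/
def cm (a : Ad) (y : C) : L := ⟨a.1, app a.2 y⟩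

def Ad.ex (a : Ad) (w : List (Fin 3)) : Ad := (a.1, a.2 ++ w)

theorem cm_ex (a : Ad) (w : List (Fin 3)) (y : C) : cm (a.ex w) y = cm a (app w y) := by
  simp [cm, Ad.ex]

@[simp] theorem cm_lt (a : Ad) {y z : C} : cm a y < cm a z ↔ y < z := by simp [L.lt_iff, cm]

@[simp] theorem cm_inj (a : Ad) {y z : C} : cm a y = cm a z ↔ y = z := by simp [cm]

def wp (u : List (Fin 3)) : ZMod 2 := (u.count 1 : ℕ)

@[simp] theorem wp_nil : wp [] = 0 := rfl
@[simp] theorem wp_append (u v : List (Fin 3)) : wp (u ++ v) = wp u + wp v := by simp [wp]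
theorem wp_cons (a : Fin 3) (u : List (Fin 3)) : wp (a :: u) = ((a : ℕ) : ZMod 2) + wp u := by
  fin_cases a <;> simp [wp, add_comm]
  rfl

def par (a : Ad) : ZMod 2 := a.1 + wp a.2

@[simp] theorem par_ex (a : Ad) (w : List (Fin 3)) : par (a.ex w) = par a + wp w := by
  simp [par, Ad.ex, add_assoc]

theorem cm_eq {a b : Ad} {y z : C} (h : cm a y = cm b z) :
    ∃ u v w, a.ex u = b.ex v ∧ y = app u w ∧ z = app v w := by
  have h1 : a.1 = b.1 := congrArg L.k h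
  have h2 : app a.2 y = app b.2 z := congrArg L.s h
  rcases le_total a.2.length b.2.length with hl | hl
  · obtain ⟨w, h3, h4⟩ := app_eq h2 hl
    exact ⟨w, [], z, by simp [Ad.ex, h1, h3], h4, rfl⟩
  · obtain ⟨w, h3, h4⟩ := app_eq h2.symm hl
    exact ⟨[], w, y, by simp [Ad.ex, h1, h3], rfl, h4⟩

/-- the neighbourhood filter of the cone topology -/
def nb (z : L) : Filter L where
  sets := {S | ∃ N, ∀ w : L, w.k = z.k → (∀ i < N, w.s i = z.s i) → w ∈ S}
  univ_sets := ⟨0, fun _ _ _ => trivial⟩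
  sets_of_superset := by rintro S T ⟨N, h⟩ hST; exact ⟨N, fun w h1 h2 => hST (h w h1 h2)⟩
  inter_sets := by
    rintro S T ⟨N, h⟩ ⟨M, h'⟩
    exact ⟨N + M, fun w h1 h2 => ⟨h w h1 fun i hi => h2 i (by omega),
      h' w h1 fun i hi => h2 i (by omega)⟩⟩

theorem ev_nb {z : L} {P : L → Prop} :
    (∀ᶠ w in nb z, P w) ↔ ∃ N, ∀ w : L, w.k = z.k → (∀ i < N, w.s i = z.s i) → P w := Iff.rfl

theorem ev_cone (a : Ad) (y : C) : ∀ᶠ w in nb (cm a y), ∃ v, w = cm a v :=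
  ⟨a.2.length, fun w h1 h2 => by
    obtain ⟨v, hv⟩ := of_agree a.2 y w.s h2
    exact ⟨v, L.ext h1 hv⟩⟩

theorem ev_of_long {z : L} {P : L → Prop} (h : ∀ᶠ w in nb z, P w) :
    ∃ N, ∀ (a : Ad) (y : C), z = cm a y → N ≤ a.2.length → ∀ v, P (cm a v) := by
  obtain ⟨N, h⟩ := h
  refine ⟨N, ?_⟩
  rintro a y rfl hN v
  exact h _ rfl fun i hi => app_lo _ _ _ i (by omega)

theorem ev_ex {a : Ad} {y : C} {P : L → Prop} (h : ∀ᶠ w in nb (cm a y), P w) :
    ∃ u y', y = app u y' ∧ ∀ v, P (cm (a.ex u) v) := by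
  obtain ⟨N, h⟩ := ev_of_long h
  obtain ⟨u, y', h1, rfl⟩ := exists_app N y
  exact ⟨u, y', rfl, h _ y' (cm_ex _ _ _).symm (by simp [Ad.ex, h1])⟩

theorem ev_not_cone {a : Ad} {z : L} (h : ∀ v, z ≠ cm a v) : ∀ᶠ w in nb z, ∀ v, w ≠ cm a v :=
  ⟨a.2.length, fun w h1 h2 v e => by
    subst e
    obtain ⟨v', hv⟩ := of_agree a.2 v z.s fun i hi => (h2 i hi).symm
    exact h v' (L.ext h1.symm hv)⟩

theorem ev_lt {z y : L} (h : z < y) : ∀ᶠ w in nb z, w < y := by
  rcases L.lt_iff.1 h with h | ⟨h, i, h1, h2⟩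
  · exact ⟨0, fun w hw _ => L.lt_iff.2 (Or.inl (hw ▸ h))⟩
  · exact ⟨i+1, fun w hw h3 => L.lt_iff.2 (Or.inr ⟨hw.trans h, i,
      fun j hj => (h3 j (by omega)).trans (h1 j hj), (h3 i (by omega)).symm ▸ h2⟩)⟩

theorem ev_gt {z y : L} (h : y < z) : ∀ᶠ w in nb z, y < w := by
  rcases L.lt_iff.1 h with h | ⟨h, i, h1, h2⟩
  · exact ⟨0, fun w hw _ => L.lt_iff.2 (Or.inl (hw ▸ h))⟩
  · exact ⟨i+1, fun w hw h3 => L.lt_iff.2 (Or.inr ⟨h.trans hw.symm, i,
      fun j hj => (h1 j hj).trans (h3 j (by omega)).symm, (h3 i (by omega)).symm ▸ h2⟩)⟩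

/-- left ends of cones, with their class -/
def EC (c : ZMod 2) (x : L) : Prop := ∃ a, par a = c ∧ x = cm a z0

theorem EC.st (k : ℤ) : EC k (st k) := ⟨(k, []), by simp [par], rfl⟩

theorem EC.ev_ge {c : ZMod 2} {x z : L} (hx : EC c x) (h : x ≤ z) : ∀ᶠ w in nb z, x ≤ w := by
  rcases h.eq_or_lt with rfl | h
  · obtain ⟨a, -, rfl⟩ := hx
    filter_upwards [ev_cone a z0]
    rintro _ ⟨v, rfl⟩
    exact not_lt.1 (by simp [z0_le])
  · exact (ev_gt h).mono fun w => le_of_lt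

theorem wp_zero : ∀ {u : List (Fin 3)} {y : C}, z0 = app u y → wp u = 0 ∧ y = z0
  | [], _, h => ⟨rfl, h.symm⟩
  | a :: u, y, h => by
    rw [← cons_z0, app_cons, cons_inj] at h
    obtain ⟨h1, h2⟩ := wp_zero h.2
    exact ⟨by rw [wp_cons, h1, ← h.1]; rfl, h2⟩

theorem EC.uniq {c d : ZMod 2} {x : L} (h : EC c x) (h' : EC d x) : c = d := by
  obtain ⟨a, rfl, rfl⟩ := h
  obtain ⟨b, rfl, h⟩ := h'
  obtain ⟨u, v, w, h1, h2, h3⟩ := cm_eq h
  simpa [(wp_zero h2).1, (wp_zero h3).1] using congrArg par h1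

/-- points without a successor -/
def NS (x : L) : Prop := ∀ N, ∃ i, N ≤ i ∧ x.s i ≠ 2

theorem EC.ns {c : ZMod 2} {x : L} (h : EC c x) : NS x := by
  obtain ⟨a, -, rfl⟩ := h
  exact fun N => ⟨N + a.2.length, by omega, by simp [cm, app_ge]⟩

theorem NS.dens {x y : L} (hx : NS x) (h : x < y) (c : ZMod 2) : ∃ e, EC c e ∧ x < e ∧ e < y := by
  obtain ⟨N, hN⟩ := ev_of_long (ev_lt h)
  obtain ⟨i, hi, h2⟩ := hx N
  obtain ⟨u, z, hu, hz⟩ := exists_app i x.s
  have h3 : z 0 < 2 := by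
    have := app_ge u z 0
    rw [← hz, hu, zero_add] at this
    rw [← this]; omega
  have h4 : ∀ v, x < cm (x.k, u) (cons 2 v) ∧ cm (x.k, u) (cons 2 v) < y := fun v =>
    ⟨by
      have : x = cm (x.k, u) (cons (z 0) (tail z)) := L.ext rfl (by rw [cons_tail]; exact hz)
      rw [this]; simp [cm, L.lt_iff, h3], hN (x.k, u) z (L.ext rfl hz) (by simp [hu, hi]) _⟩
  by_cases hc : par (x.k, u) = c
  · exact ⟨_, ⟨Ad.ex (x.k, u) [2], by simpa [wp] using hc, (cm_ex _ _ _).symm⟩, h4 z0⟩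
  · refine ⟨_, ⟨Ad.ex (x.k, u) [2, 1], ?_, (cm_ex _ _ _).symm⟩, h4 (cons 1 z0)⟩
    rw [par_ex, show wp [2, 1] = 1 from rfl]
    revert hc; generalize par (x.k, u) = d; revert c d; decide

theorem exists_E {x y : L} (h : x < y) : ∃ c e, EC c e ∧ x < e ∧ e ≤ y := by
  obtain ⟨u, y', h1, h2⟩ := ev_ex (a := (y.k, [])) (y := y.s) (ev_gt h)
  refine ⟨_, _, ⟨_, rfl, rfl⟩, h2 z0, ?_⟩
  have : y = cm (Ad.ex (y.k, []) u) y' := by rw [cm_ex, ← h1]; rfl
  conv_rhs => rw [this]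
  exact not_lt.1 (by simp [z0_le])

/-- regularity: locally a parity preserving cone replacement -/
def Reg (g : L → L) (z : L) : Prop :=
  ∃ a b y, z = cm a y ∧ par a = par b ∧ ∀ w, g (cm a w) = cm b w

theorem Reg.congr {g h : L → L} {z : L} (hg : Reg g z) (e : ∀ᶠ w in nb z, h w = g w) :
    Reg h z := by
  obtain ⟨a, b, y, rfl, h1, h2⟩ := hg
  obtain ⟨u, y', rfl, h3⟩ := ev_ex e
  exact ⟨a.ex u, b.ex u, y', (cm_ex _ _ _).symm, by simp [h1], fun w => by
    rw [h3, cm_ex, cm_ex, h2]⟩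

theorem Reg.id (z : L) : Reg (fun w => w) z := ⟨(z.k, []), (z.k, []), z.s, rfl, rfl, fun _ => rfl⟩

theorem Reg.comp {g h : L → L} {z : L} (hh : Reg h (g z)) (hg : Reg g z) :
    Reg (fun w => h (g w)) z := by
  obtain ⟨a, b, y, rfl, h1, h2⟩ := hg
  obtain ⟨a', b', y', h3, h4, h5⟩ := hh
  rw [h2] at h3
  obtain ⟨u, v, w, e1, rfl, rfl⟩ := cm_eq h3
  refine ⟨a.ex u, b'.ex v, w, (cm_ex _ _ _).symm, ?_, fun w => ?_⟩
  · simpa [h1, h4] using congrArg par e1
  · beta_reduce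
    rw [cm_ex, h2, ← cm_ex, e1, cm_ex, h5, cm_ex]

theorem Reg.mul {g h : Au} {z : L} (hh : Reg h (g z)) (hg : Reg g z) : Reg (h * g : Au) z :=
  hh.comp hg

theorem Reg.inv {g : Au} {z : L} (hg : Reg g z) : Reg (g⁻¹ : Au) (g z) := by
  obtain ⟨a, b, y, rfl, h1, h2⟩ := hg
  exact ⟨b, a, y, h2 y, h1.symm, fun w => by rw [← h2]; simp⟩

theorem Reg.ec {g : L → L} {c : ZMod 2} {x : L} (hg : Reg g x) (hx : EC c x) : EC c (g x) := by
  obtain ⟨a, b, y, rfl, h1, h2⟩ := hg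
  obtain ⟨a', rfl, h3⟩ := hx
  obtain ⟨u, v, w, e1, rfl, e3⟩ := cm_eq h3
  obtain ⟨e4, rfl⟩ := wp_zero e3
  exact ⟨b.ex u, by simpa [h1, e4] using congrArg par e1, by rw [h2, cm_ex]⟩

/-- everywhere regular automorphisms -/
def RA : Subgroup Au where
  carrier := {g | ∀ z, Reg g z}
  one_mem' := Reg.id
  mul_mem' ha hb z := (ha _).mul (hb z)
  inv_mem' {g} ha z := by simpa using (ha (g⁻¹ z)).inv

theorem EC.ra {c : ZMod 2} {x : L} (hx : EC c x) {g : Au} (hg : g ∈ RA) : EC c (g x) :=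
  (hg x).ec hx

theorem exists_glue (g h : Au) (x : L) (e : g x = h x) :
    ∃ f : Au, (∀ z ≤ x, f z = g z) ∧ ∀ z, x ≤ z → f z = h z := by
  let f : L → L := fun z => if z ≤ x then g z else h z
  have h1 : ∀ z ≤ x, f z = g z := fun z hz => if_pos hz
  have h2 : ∀ z, x ≤ z → f z = h z := fun z hz => by
    rcases hz.eq_or_lt with rfl | hz
    · rw [h1 _ le_rfl, e]
    · exact if_neg (not_le.2 hz)
  refine ⟨StrictMono.orderIsoOfSurjective f (fun a b hab => ?_) (fun w => ?_), h1, h2⟩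
  · rcases le_total b x with hb | hb
    · rw [h1 a (hab.le.trans hb), h1 b hb]; exact g.strictMono hab
    · rcases le_total x a with ha | ha
      · rw [h2 a ha, h2 b hb]; exact h.strictMono hab
      · rw [h1 a ha, h2 b hb]
        rcases ha.eq_or_lt with rfl | ha
        · rw [e]; exact h.strictMono hab
        · exact (g.strictMono ha).trans_le (e ▸ h.monotone hb)
  · rcases le_total w (g x) with hw | hw
    · exact ⟨g.symm w, by rw [h1 _ (g.symm_apply_le.2 hw)]; simp⟩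
    · exact ⟨h.symm w, by rw [h2 _ (h.le_symm_apply.2 (e ▸ hw))]; simp⟩

theorem glue_ra {g h : Au} (hg : g ∈ RA) (hh : h ∈ RA) {c : ZMod 2} {x : L} (hx : EC c x)
    (e : g x = h x) : ∃ f ∈ RA, (∀ z ≤ x, f z = g z) ∧ ∀ z, x ≤ z → f z = h z := by
  obtain ⟨f, h1, h2⟩ := exists_glue g h x e
  refine ⟨f, fun z => ?_, h1, h2⟩
  rcases lt_or_ge z x with hz | hz
  · exact (hg z).congr ((ev_lt hz).mono fun w hw => h1 w hw.le)
  · exact (hh z).congr ((hx.ev_ge hz).mono h2)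

/-- shift of blocks -/
def sh (j : ℤ) : Au where
  toFun z := ⟨z.k + j, z.s⟩
  invFun z := ⟨z.k - j, z.s⟩
  left_inv z := by simp
  right_inv z := by simp
  map_rel_iff' := by
    intro a b
    simp only [← not_lt, L.lt_iff]
    simp

theorem sh_apply (j : ℤ) (z : L) : sh j z = ⟨z.k + j, z.s⟩ := rfl

theorem sh_mem {j : ℤ} (hj : (j : ZMod 2) = 0) : sh j ∈ RA := fun z =>
  ⟨(z.k, []), (z.k + j, []), z.s, rfl, by simp [par, hj], fun _ => rfl⟩

/-- multiplication by three -/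
noncomputable def S3 : Au :=
  StrictMono.orderIsoOfSurjective (fun z => ⟨3 * z.k + (z.s 0 : ℕ), tail z.s⟩)
    (by
      rintro ⟨k, y⟩ ⟨l, z⟩ h
      obtain ⟨a, y, rfl⟩ := exists_cons y
      obtain ⟨b, z, rfl⟩ := exists_cons z
      simp only [L.lt_iff, cons_lt, cons_zero, tail_cons] at h ⊢
      rcases h with h | ⟨rfl, h | ⟨rfl, h⟩⟩
      · left; omega
      · left; omega
      · exact Or.inr ⟨rfl, h⟩)
    (fun z => ⟨⟨z.k / 3, cons ⟨(z.k % 3).toNat, by omega⟩ z.s⟩, L.ext (by simp; omega) rfl⟩)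

theorem S3_cons (k : ℤ) (a : Fin 3) (y : C) : S3 ⟨k, cons a y⟩ = ⟨3 * k + (a : ℕ), y⟩ := rfl

theorem S3_mem : S3 ∈ RA := by
  rintro ⟨k, y⟩
  obtain ⟨a, y, rfl⟩ := exists_cons y
  refine ⟨(k, [a]), (3 * k + (a : ℕ), []), y, rfl, ?_, fun _ => rfl⟩
  simp only [par, wp_cons]
  push_cast
  rw [show (3 : ZMod 2) = 1 from rfl]; simp

theorem S3_st (k : ℤ) : S3 (st k) = st (3 * k) := by
  rw [st, ← cons_z0, S3_cons]; simp [st]

theorem S3_pow : ∀ (u : List (Fin 3)) (k : ℤ), ∃ l : ℤ, (l : ZMod 2) = par (k, u) ∧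
    ∀ y, (S3 ^ u.length) (cm (k, u) y) = ⟨l, y⟩
  | [], k => ⟨k, by simp [par], fun _ => rfl⟩
  | a :: u, k => by
    obtain ⟨l, h1, h2⟩ := S3_pow u (3 * k + (a : ℕ))
    refine ⟨l, ?_, fun y => by rw [List.length_cons, pow_succ]; exact h2 y⟩
    rw [h1]
    simp only [par, wp_cons]
    push_cast
    rw [show (3 : ZMod 2) = 1 from rfl]; ring

theorem ext_cone {a b : Ad} (h : par a = par b) : ∃ g ∈ RA, ∀ y, g (cm a y) = cm b y := by
  obtain ⟨k, h1, h2⟩ := S3_pow a.2 a.1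
  obtain ⟨l, h3, h4⟩ := S3_pow b.2 b.1
  refine ⟨(S3 ^ b.2.length)⁻¹ * sh (l - k) * S3 ^ a.2.length, mul_mem (mul_mem (inv_mem
    (pow_mem S3_mem _)) (sh_mem (by push_cast; rw [h1, h3]; simp [h]))) (pow_mem S3_mem _),
    fun y => ?_⟩
  rw [RelIso.mul_apply, RelIso.mul_apply, h2, sh_apply, add_sub_cancel, ← h4]
  simp

theorem EC.S3_pow {c : ZMod 2} {x : L} (hx : EC c x) :
    ∀ᶠ N in Filter.atTop, ∃ k, (S3 ^ N) x = Pool.Agent.P.MP_267653_al.st k := by
  obtain ⟨a, -, rfl⟩ := hx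
  refine Filter.eventually_atTop.2 ⟨a.2.length, fun N hN => ?_⟩
  induction N, hN using Nat.le_induction with
  | base =>
    obtain ⟨k, -, h⟩ := Pool.Agent.P.MP_267653_al.S3_pow a.2 a.1
    exact ⟨k, h z0⟩
  | succ N _ ih =>
    obtain ⟨k, h⟩ := ih
    exact ⟨3 * k, by rw [pow_succ', RelIso.mul_apply, h, S3_st]⟩

theorem key_st (k l : ℤ) (h : k < l) (i : ℕ) :
    ∃ g ∈ RA, g (st k) = st k ∧ g (st l) = st (l + 2 * i) := by
  induction i with
  | zero => exact ⟨1, one_mem _, rfl, by simp⟩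
  | succ i ih =>
    obtain ⟨g, hg, h1, h2⟩ := ih
    obtain ⟨f, hf, h3, h4⟩ := glue_ra (g := sh (-(2 * k)) * S3) (h := sh 2)
      (mul_mem (sh_mem (by push_cast; rw [show (2 : ZMod 2) = 0 from rfl]; simp)) S3_mem)
      (sh_mem rfl) (EC.st (k+1))
      (by rw [RelIso.mul_apply, S3_st]; exact L.ext (by simp [sh_apply]; ring) rfl)
    refine ⟨f * g, mul_mem hf hg, ?_, ?_⟩
    · rw [RelIso.mul_apply, h1, h3 _ (st_le.2 (by simp)), RelIso.mul_apply, S3_st]
      exact L.ext (by simp [sh_apply]; ring) rfl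
    · rw [RelIso.mul_apply, h2, h4 _ (st_le.2 (by simp; omega))]
      exact L.ext (by simp [sh_apply]; ring) rfl

/-- the key transitivity lemma -/
theorem key {c d : ZMod 2} {x y x' y' : L} (hx : EC c x) (hx' : EC c x') (hy : EC d y)
    (hy' : EC d y') (h : x < y) (h' : x' < y') : ∃ g ∈ RA, g x = x' ∧ g y = y' := by
  obtain ⟨N, ⟨k, h1⟩, ⟨k', h2⟩, ⟨l, h3⟩, ⟨l', h4⟩⟩ :=
    (hx.S3_pow.and (hx'.S3_pow.and (hy.S3_pow.and hy'.S3_pow))).exists
  have hS := pow_mem S3_mem N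
  have e1 : (k : ZMod 2) = k' := ((EC.st k).uniq (h1 ▸ hx.ra hS)).trans
    ((EC.st k').uniq (h2 ▸ hx'.ra hS)).symm
  have e2 : (l : ZMod 2) = l' := ((EC.st l).uniq (h3 ▸ hy.ra hS)).trans
    ((EC.st l').uniq (h4 ▸ hy'.ra hS)).symm
  have l1 : k < l := lt_st.1 (h1 ▸ h3 ▸ (S3 ^ N).strictMono h)
  have l2 : k' < l' := lt_st.1 (h2 ▸ h4 ▸ (S3 ^ N).strictMono h')
  rw [ZMod.intCast_eq_intCast_iff_dvd_sub] at e1 e2
  obtain ⟨g, hg, h5, h6⟩ := key_st k l l1 ((l' - k' - (l - k)) / 2).toNat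
  obtain ⟨g', hg', h7, h8⟩ := key_st k' l' l2 ((l - k - (l' - k')) / 2).toNat
  refine ⟨(S3 ^ N)⁻¹ * g'⁻¹ * sh (k' - k) * g * S3 ^ N, mul_mem (mul_mem (mul_mem (mul_mem
    (inv_mem hS) (inv_mem hg')) (sh_mem ((ZMod.intCast_zmod_eq_zero_iff_dvd _ _).2 e1))) hg) hS,
    ?_, ?_⟩
  · simp only [RelIso.mul_apply, h1, h5]
    rw [show sh (k' - k) (st k) = st k' from L.ext (by simp [sh_apply]) rfl, ← h7]
    simp [← h2]
  · simp only [RelIso.mul_apply, h3, h6]
    rw [show sh (k' - k) (st (l + 2 * ((l' - k' - (l - k)) / 2).toNat)) = g' (st l') from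
      h8 ▸ L.ext (by simp only [sh_apply, st_k]; push_cast at e1 e2; omega) rfl]
    simp [← h4]

theorem ext2 {h : Au} (hh : h ∈ RA) {c d e f : ZMod 2} {x y x' y' a b : L} (hx : EC c x)
    (hx' : EC c x') (hy : EC d y) (hy' : EC d y') (ha : EC e a) (hb : EC f b) (h1 : x < a)
    (h2 : a ≤ b) (h3 : b < y) (h4 : x' < h a) (h5 : h b < y') :
    ∃ g ∈ RA, g x = x' ∧ g y = y' ∧ ∀ z, a ≤ z → z ≤ b → g z = h z := by
  obtain ⟨g1, hg1, e1, e2⟩ := key hx hx' ha (ha.ra hh) h1 h4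
  obtain ⟨g2, hg2, e3, e4⟩ := key hb (hb.ra hh) hy hy' h3 h5
  obtain ⟨f1, hf1, e5, e6⟩ := glue_ra hg1 hh ha e2
  obtain ⟨f2, hf2, e7, e8⟩ := glue_ra hf1 hg2 hb (by rw [e6 b h2, e3])
  exact ⟨f2, hf2, by rw [e7 _ (h1.le.trans h2), e5 _ h1.le, e1], by rw [e8 _ h3.le, e4],
    fun z h6 h7 => by rw [e7 z h7, e6 z h6]⟩

/-- automorphisms supported in a half-open interval -/
def Sp (x y : L) : Subgroup Au where
  carrier := {g | ∀ z, z < x ∨ y ≤ z → g z = z}
  one_mem' _ _ := rfl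
  mul_mem' ha hb z hz := by rw [RelIso.mul_apply, hb z hz, ha z hz]
  inv_mem' {g} ha z hz := by conv_lhs => rw [← ha z hz]; simp

theorem Sp.mono {x y x' y' : L} (hx : x' ≤ x) (hy : y ≤ y') : Sp x y ≤ Sp x' y' :=
  fun _ hg z hz => hg z (hz.imp (fun h => h.trans_le hx) hy.trans)

theorem Sp.maps {x y : L} {g : Au} (hg : g ∈ Sp x y) {z : L} (h1 : x ≤ z) (h2 : z < y) :
    x ≤ g z ∧ g z < y := by
  by_contra h
  have := g.injective (hg (g z) (by simpa only [not_and_or, not_le, not_lt] using h))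
  rw [this] at h
  exact h ⟨h1, h2⟩

theorem Sp.lo {x y : L} {g : Au} (hg : g ∈ Sp x y) : g x = x := by
  rcases lt_or_ge x y with h | h
  · refine le_antisymm ?_ (Sp.maps hg le_rfl h).1
    simpa using g.monotone (Sp.maps ((Sp x y).inv_mem hg) le_rfl h).1
  · exact hg x (Or.inr h)

theorem Sp.conj {x y : L} {g : Au} (hg : g ∈ Sp x y) (h : Au) : h * g * h⁻¹ ∈ Sp (h x) (h y) := by
  intro z hz
  obtain ⟨z, rfl⟩ := h.surjective z
  simp only [OrderIso.lt_iff_lt, OrderIso.le_iff_le] at hz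
  simp [hg z hz]

/-- the Higman-Thompson group of an interval -/
def F (x y : L) : Subgroup Au := RA ⊓ Sp x y

theorem cut {g : Au} (hg : g ∈ RA) {c d : ZMod 2} {x y : L} (hx : EC c x) (hy : EC d y)
    (h : x ≤ y) (e1 : g x = x) (e2 : g y = y) : ∃ f ∈ F x y, ∀ z, x ≤ z → z ≤ y → f z = g z := by
  obtain ⟨f1, hf1, h1, h2⟩ := glue_ra hg (one_mem RA) hy e2
  obtain ⟨f2, hf2, h3, h4⟩ := glue_ra (one_mem RA) hf1 hx (by rw [h1 x h, e1]; rfl)
  refine ⟨f2, ⟨hf2, ?_⟩, fun z h5 h6 => by rw [h4 z h5, h1 z h6]⟩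
  rintro z (hz | hz)
  · exact h3 z hz.le
  · rw [h4 z (h.trans hz), h2 z hz]; rfl

end Pool.Agent.P.MP_267653_al
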