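import Pool.Agent.P.MP_267653_al.Cantor

/-! Charts and chart partitions of intervals. -/

set_option autoImplicit false

namespace Pool.Agent.P.MP_267653_al

open Function
open scoped Pointwise Classical

abbrev Φ := C → L

@[simp] theorem smul_app (g : Au) (φ : Φ) (w : C) : (g • φ) w = g (φ w) := rfl

/-- a chart onto the interval from `x` to `y` -/
def Cht (φ : Φ) (x y : L) : Prop :=
  ∃ g ∈ RA, ∃ k, (∀ w, φ w = g ⟨k, w⟩) ∧ x = g (st k) ∧ y = g (st (k+1))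

/-- children of a chart -/
def ch (φ : Φ) (a : Fin 3) : Φ := fun w => φ (cons a w)

theorem smul_ch (g : Au) (φ : Φ) (a : Fin 3) : g • ch φ a = ch (g • φ) a := rfl

variable {φ ψ : Φ} {x y z x' y' : L}

theorem Cht.smul (h : Cht φ x y) {g : Au} (hg : g ∈ RA) : Cht (g • φ) (g x) (g y) := by
  obtain ⟨f, hf, k, h1, rfl, rfl⟩ := h
  exact ⟨g * f, mul_mem hg hf, k, fun w => by simp [h1], rfl, rfl⟩

theorem Cht.mono (h : Cht φ x y) : StrictMono φ := by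
  obtain ⟨f, -, k, h1, -⟩ := h
  intro a b hab
  simp [h1, L.lt_iff, hab]

theorem Cht.range (h : Cht φ x y) : (∃ w, φ w = z) ↔ x ≤ z ∧ z < y := by
  obtain ⟨f, -, k, h1, rfl, rfl⟩ := h
  obtain ⟨z, rfl⟩ := f.surjective z
  simp only [h1, EmbeddingLike.apply_eq_iff_eq, OrderIso.le_iff_le, OrderIso.lt_iff_lt, st_le, lt_st]
  exact ⟨by rintro ⟨w, rfl⟩; simp, fun h => ⟨z.s, L.ext (by simp; omega) rfl⟩⟩

theorem Cht.mem (h : Cht φ x y) (w : C) : x ≤ φ w ∧ φ w < y := h.range.1 ⟨w, rfl⟩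

theorem Cht.lo (h : Cht φ x y) : φ z0 = x := by
  obtain ⟨f, -, k, h1, rfl, rfl⟩ := h
  exact h1 _

theorem Cht.lt (h : Cht φ x y) : x < y := h.lo ▸ (h.mem z0).2

theorem Cht.hi_le (h : Cht φ x y) (hz : ∀ w, φ w < z) : y ≤ z := by
  by_contra hlt
  obtain ⟨w, rfl⟩ := h.range.2 ⟨(h.lo ▸ hz z0).le, not_le.1 hlt⟩
  exact lt_irrefl _ (hz w)

theorem Cht.child (h : Cht φ x y) : Cht (ch φ 0) x (φ (cons 1 z0)) ∧
    Cht (ch φ 1) (φ (cons 1 z0)) (φ (cons 2 z0)) ∧ Cht (ch φ 2) (φ (cons 2 z0)) y := by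
  obtain ⟨f, hf, k, h1, rfl, rfl⟩ := h
  have e : ∀ (a : Fin 3) w, f ⟨k, cons a w⟩ = (f * S3⁻¹) ⟨3 * k + (a : ℕ), w⟩ := fun a w => by
    rw [← S3_cons]; simp
  have e' : ∀ l, f (st l) = (f * S3⁻¹) (st (3 * l)) := fun l => by rw [← S3_st]; simp
  have hm := mul_mem hf (inv_mem S3_mem)
  refine ⟨⟨_, hm, 3 * k, fun w => ?_, e' k, ?_⟩, ⟨_, hm, 3 * k + 1, fun w => ?_, ?_, ?_⟩,
    ⟨_, hm, 3 * k + 2, fun w => ?_, ?_, ?_⟩⟩
  · simpa [ch, h1] using e 0 w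
  · rw [h1, e]; rfl
  · rw [ch, h1, e]; rfl
  · rw [h1, e]; rfl
  · rw [h1, e, add_assoc]; rfl
  · rw [ch, h1, e]; rfl
  · rw [h1, e]; rfl
  · rw [e']; congr 2; ring

theorem Cht.E (h : Cht φ x y) : ∃ c, EC c x := by
  obtain ⟨f, hf, k, -, rfl, rfl⟩ := h
  exact ⟨_, (EC.st k).ra hf⟩

theorem Cht.ec (h : Cht φ x y) {c : ZMod 2} (hx : EC c x) : EC (c+1) y := by
  obtain ⟨f, hf, k, -, rfl, rfl⟩ := h
  rw [hx.uniq ((EC.st k).ra hf)]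
  simpa using (EC.st (k+1)).ra hf

theorem Cht.mtch (h : Cht φ x y) (h' : Cht ψ x' y') {c : ZMod 2} (hx : EC c x) (hx' : EC c x') :
    ∃ g ∈ RA, g • φ = ψ ∧ g x = x' ∧ g y = y' := by
  obtain ⟨f, hf, k, h1, rfl, rfl⟩ := h
  obtain ⟨f', hf', k', h2, rfl, rfl⟩ := h'
  have e := (hx.uniq ((EC.st k).ra hf)).symm.trans (hx'.uniq ((EC.st k').ra hf'))
  refine ⟨f' * sh (k' - k) * f⁻¹, mul_mem (mul_mem hf' (sh_mem (by push_cast; simp [e])))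
    (inv_mem hf), funext fun w => ?_, ?_, ?_⟩
  · simp [h1, h2, sh_apply]
  · simp [sh_apply, st]
  · simp only [RelIso.mul_apply, RelIso.inv_apply_self, sh_apply, st]
    congr 2; ring

theorem cht_cm (a : Ad) : ∃ y, Cht (cm a) (cm a z0) y := by
  obtain ⟨k, h1, -⟩ := S3_pow [] (par a).val
  obtain ⟨g, hg, h⟩ := ext_cone (a := (k, [])) (b := a) (by simpa [par] using h1)
  exact ⟨_, g, hg, k, fun w => (h w).symm, (h z0).symm, rfl⟩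

theorem Cht.loc (h : Cht φ x y) (w : C) : ∃ u w' b, w = app u w' ∧ ∀ v, φ (app u v) = cm b v := by
  obtain ⟨f, hf, k, h1, -⟩ := h
  obtain ⟨a, b, y, h2, -, h3⟩ := hf ⟨k, w⟩
  refine ⟨a.2, y, b, congrArg L.s h2, fun v => ?_⟩
  rw [h1, ← h3, show k = a.1 from congrArg L.k h2]; rfl

/-- sequences of adjacent charts -/
inductive Seq : L → List Φ → L → Prop
  | nil (x : L) : Seq x [] x
  | cons {φ : Φ} {x y z : L} {l : List Φ} : Cht φ x y → Seq y l z → Seq x (φ :: l) z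

theorem Seq.le {l : List Φ} (h : Seq x l y) : x ≤ y := by
  induction h with
  | nil => exact le_rfl
  | cons h _ ih => exact h.lt.le.trans ih

theorem Seq.mem {l : List Φ} (h : Seq x l y) : ∀ φ ∈ l, ∀ w, x ≤ φ w ∧ φ w < y := by
  induction h with
  | nil => simp
  | cons h h' ih =>
    intro ψ hψ w
    rcases List.mem_cons.1 hψ with rfl | hψ
    · exact ⟨(h.mem w).1, (h.mem w).2.trans_le h'.le⟩
    · exact ⟨h.lt.le.trans (ih ψ hψ w).1, (ih ψ hψ w).2⟩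

theorem Seq.mtch {l : List Φ} (h : Seq x l y) : ∀ {l' : List Φ} {x' y' : L} {c : ZMod 2},
    Seq x' l' y' → l.length = l'.length → EC c x → EC c x' →
    ∃ g ∈ RA, l.map (g • ·) = l' ∧ g x = x' ∧ g y = y' := by
  induction h with
  | nil x =>
    intro l' x' y' c h' hl hx hx'
    cases h' with
    | nil =>
      obtain ⟨a, ha, rfl⟩ := hx
      obtain ⟨b, hb, rfl⟩ := hx'
      obtain ⟨g, hg, h⟩ := ext_cone (ha.trans hb.symm)
      exact ⟨g, hg, rfl, h _, h _⟩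
    | cons => simp at hl
  | cons h h2 ih =>
    intro l' x' y' c h' hl hx hx'
    cases h' with
    | nil => simp at hl
    | cons h' h2' =>
      obtain ⟨g1, hg1, e1, e2, e3⟩ := h.mtch h' hx hx'
      obtain ⟨g2, hg2, e4, e5, e6⟩ := ih h2' (by simpa using hl) (h.ec hx) (h'.ec hx')
      obtain ⟨g, hg, h3, h4⟩ := glue_ra hg1 hg2 (h.ec hx) (e3.trans e5.symm)
      refine ⟨g, hg, ?_, by rw [h3 _ h.lt.le, e2], by rw [h4 _ h2.le, e6]⟩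
      rw [List.map_cons, ← e1, ← e4]
      congr 1
      · exact funext fun w => h3 _ (h.mem w).2.le
      · exact List.map_congr_left fun χ hχ => funext fun w => h4 _ (h2.mem χ hχ w).1

theorem Seq.mtchF {l l' : List Φ} (h : Seq x l y) (h' : Seq x l' y) (hl : l.length = l'.length)
    {c d : ZMod 2} (hx : EC c x) (hy : EC d y) : ∃ g ∈ F x y, l.map (g • ·) = l' := by
  obtain ⟨g, hg, h1, h2, h3⟩ := h.mtch h' hl hx hx
  obtain ⟨f, hf, h4⟩ := cut hg hx hy h.le h2 h3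
  exact ⟨f, hf, h1 ▸ List.map_congr_left fun χ hχ => funext fun w =>
    h4 _ (h.mem χ hχ w).1 (h.mem χ hχ w).2.le⟩

theorem exists_parent {φ0 φ1 φ2 : Φ} {x1 x2 x3 : L} (h0 : Cht φ0 x x1) (h1 : Cht φ1 x1 x2)
    (h2 : Cht φ2 x2 x3) : ∃ ψ, Cht ψ x x3 ∧ ch ψ 0 = φ0 ∧ ch ψ 1 = φ1 ∧ ch ψ 2 = φ2 := by
  obtain ⟨c, hc⟩ := h0.E
  have h : Cht (fun w => ⟨(c.val : ℤ), w⟩) (st c.val) (st (c.val + 1)) :=
    ⟨1, one_mem _, _, fun _ => rfl, rfl, rfl⟩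
  obtain ⟨e0, e1, e2⟩ := h.child
  obtain ⟨g, hg, e3, e4, e5⟩ := (Seq.cons e0 (.cons e1 (.cons e2 (.nil _)))).mtch
    (Seq.cons h0 (.cons h1 (.cons h2 (.nil _)))) rfl (by simpa using EC.st c.val) hc
  simp only [List.map_cons, List.map_nil, List.cons.injEq, and_true] at e3
  exact ⟨g • (fun w => (⟨(c.val : ℤ), w⟩ : L)), e4 ▸ e5 ▸ h.smul hg, e3⟩

/-- chart partitions of an interval -/
structure Vx (x y : L) (𝒜 : Finset Φ) : Prop where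
  cht : ∀ φ ∈ 𝒜, ∃ a b, Cht φ a b
  sub : ∀ φ ∈ 𝒜, ∀ w, x ≤ φ w ∧ φ w < y
  cov : ∀ z, x ≤ z → z < y → ∃ φ ∈ 𝒜, ∃ w, φ w = z
  dis : ∀ φ ∈ 𝒜, ∀ ψ ∈ 𝒜, ∀ w w', φ w = ψ w' → φ = ψ

variable {𝒜 ℬ J : Finset Φ}

theorem Vx.seq (h : Vx x y 𝒜) (hxy : x ≤ y) : ∃ l, Seq x l y ∧ l.Nodup ∧ l.toFinset = 𝒜 := by
  induction hn : 𝒜.card generalizing x 𝒜 with
  | zero =>
    obtain rfl := Finset.card_eq_zero.1 hn
    rcases hxy.eq_or_lt with rfl | hxy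
    · exact ⟨[], .nil _, by simp, rfl⟩
    · simpa using h.cov x le_rfl hxy
  | succ n ih =>
    obtain ⟨χ, hχ⟩ := Finset.card_pos.1 (show 0 < 𝒜.card by omega)
    obtain ⟨φ, hφ, w, hw⟩ := h.cov x le_rfl ((h.sub χ hχ z0).1.trans_lt (h.sub χ hχ z0).2)
    obtain ⟨a, b, hc⟩ := h.cht φ hφ
    obtain rfl : a = x := le_antisymm (hw ▸ (hc.mem w).1) (hc.lo ▸ (h.sub φ hφ z0).1)
    have hV : Vx b y (𝒜.erase φ) := by
      refine ⟨fun ψ hψ => h.cht ψ (Finset.mem_of_mem_erase hψ), fun ψ hψ v => ⟨?_,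
        (h.sub ψ (Finset.mem_of_mem_erase hψ) v).2⟩, fun z h1 h2 => ?_,
        fun ψ hψ χ hχ => h.dis ψ (Finset.mem_of_mem_erase hψ) χ (Finset.mem_of_mem_erase hχ)⟩
      · by_contra hlt
        obtain ⟨h1, h2⟩ := Finset.mem_erase.1 hψ
        obtain ⟨w, hw⟩ := hc.range.2 ⟨(h.sub ψ h2 v).1, not_le.1 hlt⟩
        exact h1 (h.dis φ hφ ψ h2 _ _ hw).symm
      · obtain ⟨ψ, hψ, v, rfl⟩ := h.cov z (hc.lt.le.trans h1) h2
        refine ⟨ψ, Finset.mem_erase.2 ⟨?_, hψ⟩, v, rfl⟩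
        rintro rfl
        exact absurd (hc.mem v).2 (not_lt.2 h1)
    obtain ⟨l, h1, h2, h3⟩ := ih hV (hc.hi_le fun w => (h.sub φ hφ w).2)
      (by rw [Finset.card_erase_of_mem hφ, hn]; rfl)
    refine ⟨φ :: l, .cons hc h1, List.nodup_cons.2 ⟨?_, h2⟩, ?_⟩
    · rw [← List.mem_toFinset, h3]; simp
    · rw [List.toFinset_cons, h3, Finset.insert_erase hφ]

theorem Vx.smul (h : Vx x y 𝒜) {g : Au} (hg : g ∈ RA) : Vx (g x) (g y) (g • 𝒜) := by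
  refine ⟨?_, ?_, fun z h1 h2 => ?_, ?_⟩
  · simp only [Finset.mem_smul_finset]
    rintro _ ⟨φ, hφ, rfl⟩
    obtain ⟨a, b, h⟩ := h.cht φ hφ
    exact ⟨_, _, h.smul hg⟩
  · simp only [Finset.mem_smul_finset]
    rintro _ ⟨φ, hφ, rfl⟩ w
    simpa using h.sub φ hφ w
  · obtain ⟨z, rfl⟩ := g.surjective z
    obtain ⟨φ, hφ, w, rfl⟩ := h.cov z (by simpa using h1) (by simpa using h2)
    exact ⟨_, Finset.smul_mem_smul_finset hφ, w, rfl⟩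
  · simp only [Finset.mem_smul_finset]
    rintro _ ⟨φ, hφ, rfl⟩ _ ⟨ψ, hψ, rfl⟩ w w' e
    rw [h.dis φ hφ ψ hψ w w' (g.injective e)]

theorem Vx.smulF (h : Vx x y 𝒜) {g : Au} (hg : g ∈ F x y) : Vx x y (g • 𝒜) := by
  have := h.smul hg.1
  rwa [Sp.lo hg.2, hg.2 y (Or.inr le_rfl)] at this

theorem Vx.free (h : Vx x y 𝒜) {g : Au} (hg : g ∈ Sp x y) (e : g • 𝒜 = 𝒜) : g = 1 := by
  have h1 : ∀ φ ∈ 𝒜, g • φ ∈ 𝒜 := fun φ hφ => e ▸ Finset.smul_mem_smul_finset hφ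
  let T := 𝒜.image (· z0)
  let f : T → T := fun t => ⟨g t.1, by
    obtain ⟨φ, hφ, e⟩ := Finset.mem_image.1 t.2
    exact Finset.mem_image.2 ⟨_, h1 φ hφ, congrArg g e⟩⟩
  have hf : StrictMono f := fun a b hab => g.strictMono hab
  refine RelIso.ext fun z => ?_
  by_cases hz : z < x ∨ y ≤ z
  · exact hg z hz
  · rw [not_or, not_lt, not_le] at hz
    obtain ⟨φ, hφ, w, rfl⟩ := h.cov z hz.1 hz.2
    have := congrArg Subtype.val (hf.apply_eq (x := ⟨φ z0, Finset.mem_image_of_mem _ hφ⟩))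
    exact congrFun (h.dis _ (h1 φ hφ) φ hφ z0 z0 this) w

theorem Vx.trans (h : Vx x y 𝒜) (h' : Vx x y ℬ) (hc : 𝒜.card = ℬ.card) {c d : ZMod 2}
    (hx : EC c x) (hy : EC d y) (hxy : x ≤ y) : ∃ g ∈ F x y, g • 𝒜 = ℬ := by
  obtain ⟨l, h1, h2, rfl⟩ := h.seq hxy
  obtain ⟨l', h3, h4, rfl⟩ := h'.seq hxy
  rw [List.toFinset_card_of_nodup h2, List.toFinset_card_of_nodup h4] at hc
  obtain ⟨g, hg, rfl⟩ := h1.mtchF h3 hc hx hy
  exact ⟨g, hg, by ext φ; simp [Finset.mem_smul_finset]⟩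

theorem exists_vx {c d : ZMod 2} (hx : EC c x) (hy : EC d y) : ∃ 𝒜, Vx x y 𝒜 := by
  obtain ⟨N, ⟨k, h1⟩, ⟨l, h2⟩⟩ := (hx.S3_pow.and hy.S3_pow).exists
  have : Vx (st k) (st l) ((Finset.Ico k l).image fun j w => ⟨j, w⟩) := by
    refine ⟨?_, ?_, fun z h1 h2 => ⟨_, Finset.mem_image_of_mem _ (Finset.mem_Ico.2
      ⟨st_le.1 h1, lt_st.1 h2⟩), z.s, rfl⟩, ?_⟩ <;> simp only [Finset.mem_image, Finset.mem_Ico]
    · rintro _ ⟨j, -, rfl⟩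
      exact ⟨_, _, 1, one_mem _, j, fun _ => rfl, rfl, rfl⟩
    · rintro _ ⟨j, hj, rfl⟩ w
      exact ⟨st_le.2 hj.1, lt_st.2 hj.2⟩
    · rintro _ ⟨j, -, rfl⟩ _ ⟨j', -, rfl⟩ w w' e
      rw [show j = j' from congrArg L.k e]
  have := this.smul (inv_mem (pow_mem S3_mem N))
  rw [← h1, ← h2] at this
  exact ⟨_, by simpa using this⟩

theorem Vx.inj (h : Vx x y 𝒜) (hφ : φ ∈ 𝒜) : Injective φ := by
  obtain ⟨a, b, h⟩ := h.cht φ hφ
  exact h.mono.injective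

theorem Vx.not_child (h : Vx x y 𝒜) (hφ : φ ∈ 𝒜) (a : Fin 3) : ch φ a ∉ 𝒜 := fun h' => by
  have e := h.dis _ h' _ hφ z0 (cons a z0) rfl
  have h1 := congrFun (h.inj hφ (congrFun e z0)) 0
  have h2 := congrFun (h.inj hφ (congrFun e (cons 1 z0))) 0
  simp only [cons_zero, z0_apply] at h1 h2
  rw [h1] at h2
  exact absurd h2 (by decide)

/-- all children of a set of charts -/
noncomputable def kids (J : Finset Φ) : Finset Φ := (J ×ˢ Finset.univ).image fun p => ch p.1 p.2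

theorem mem_kids : φ ∈ kids J ↔ ∃ ψ ∈ J, ∃ a, ch ψ a = φ := by simp [kids]

/-- expansion -/
noncomputable def ex (𝒜 J : Finset Φ) : Finset Φ := (𝒜 \ J) ∪ kids J

theorem mem_ex : φ ∈ ex 𝒜 J ↔ (φ ∈ 𝒜 ∧ φ ∉ J) ∨ ∃ ψ ∈ J, ∃ a, ch ψ a = φ := by
  simp [ex, mem_kids]

theorem smul_ex (g : Au) : g • ex 𝒜 J = ex (g • 𝒜) (g • J) := by
  ext φ
  obtain ⟨φ, rfl⟩ := MulAction.surjective g φ
  simp only [Finset.smul_mem_smul_finset_iff, mem_ex]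
  refine or_congr Iff.rfl ⟨?_, ?_⟩
  · rintro ⟨ψ, h, a, rfl⟩
    exact ⟨_, Finset.smul_mem_smul_finset h, a, rfl⟩
  · rintro ⟨ψ, h, a, e⟩
    obtain ⟨ψ, h', rfl⟩ := Finset.mem_smul_finset.1 h
    exact ⟨ψ, h', a, MulAction.injective g e⟩

theorem Cht.child' (h : Cht φ x y) (a : Fin 3) : ∃ a' b', Cht (ch φ a) a' b' := by
  fin_cases a
  exacts [⟨_, _, h.child.1⟩, ⟨_, _, h.child.2.1⟩, ⟨_, _, h.child.2.2⟩]

theorem Vx.ex (h : Vx x y 𝒜) (hJ : J ⊆ 𝒜) : Vx x y (ex 𝒜 J) := by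
  refine ⟨?_, ?_, fun z h1 h2 => ?_, ?_⟩ <;> simp only [mem_ex]
  · rintro φ (hφ | ⟨ψ, hψ, a, rfl⟩)
    · exact h.cht φ hφ.1
    · obtain ⟨_, _, h⟩ := h.cht ψ (hJ hψ)
      exact h.child' a
  · rintro φ (hφ | ⟨ψ, hψ, a, rfl⟩) w
    · exact h.sub φ hφ.1 w
    · exact h.sub ψ (hJ hψ) _
  · obtain ⟨φ, hφ, w, rfl⟩ := h.cov z h1 h2
    by_cases hφJ : φ ∈ J
    · obtain ⟨a, w, rfl⟩ := exists_cons w
      exact ⟨_, Or.inr ⟨φ, hφJ, a, rfl⟩, w, rfl⟩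
    · exact ⟨φ, Or.inl ⟨hφ, hφJ⟩, w, rfl⟩
  · rintro φ (hφ | ⟨ψ, hψ, a, rfl⟩) φ' (hφ' | ⟨ψ', hψ', a', rfl⟩) w w' e
    · exact h.dis _ hφ.1 _ hφ'.1 _ _ e
    · exact absurd (h.dis _ hφ.1 _ (hJ hψ') _ _ e ▸ hψ') hφ.2
    · exact absurd (h.dis _ (hJ hψ) _ hφ'.1 _ _ e ▸ hψ) hφ'.2
    · obtain rfl := h.dis _ (hJ hψ) _ (hJ hψ') _ _ e
      rw [(cons_inj.1 (h.inj (hJ hψ) e)).1]

theorem Vx.card_ex (h : Vx x y 𝒜) (hJ : J ⊆ 𝒜) :
    (Pool.Agent.P.MP_267653_al.ex 𝒜 J).card = 𝒜.card + 2 * J.card := by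
  rw [Pool.Agent.P.MP_267653_al.ex, Finset.card_union_of_disjoint, Finset.card_sdiff_of_subset hJ,
    kids, Finset.card_image_of_injOn, Finset.card_product]
  · have := Finset.card_le_card hJ
    simp; omega
  · rintro ⟨φ, a⟩ h1 ⟨ψ, b⟩ h2 e
    simp only [Finset.coe_product, Set.mem_prod, Finset.mem_coe] at h1 h2
    obtain rfl := h.dis _ (hJ h1.1) _ (hJ h2.1) _ _ (congrFun e z0)
    rw [show a = b from (cons_inj.1 (h.inj (hJ h1.1) (congrFun e z0))).1]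
  · refine Finset.disjoint_left.2 fun φ h1 h2 => ?_
    obtain ⟨ψ, hψ, a, rfl⟩ := mem_kids.1 h2
    exact h.not_child (hJ hψ) a (Finset.mem_sdiff.1 h1).1

/-- elementary expansion -/
def Le (𝒜 ℬ : Finset Φ) : Prop := ∀ φ ∈ 𝒜, φ ∈ ℬ ∨ ∀ a, ch φ a ∈ ℬ

theorem le_ex (𝒜 J : Finset Φ) : Le 𝒜 (ex 𝒜 J) := fun φ hφ => by
  by_cases h : φ ∈ J
  · exact Or.inr fun a => mem_ex.2 (Or.inr ⟨φ, h, a, rfl⟩)
  · exact Or.inl (mem_ex.2 (Or.inl ⟨hφ, h⟩))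

theorem Le.eq_ex (h : Le 𝒜 ℬ) (hA : Vx x y 𝒜) (hB : Vx x y ℬ) : ℬ = ex 𝒜 (𝒜 \ ℬ) := by
  ext χ
  rw [mem_ex]
  constructor
  · intro hχ
    obtain ⟨φ, hφ, w, e⟩ := hA.cov _ (hB.sub χ hχ z0).1 (hB.sub χ hχ z0).2
    by_cases h1 : φ ∈ ℬ
    · obtain rfl := hB.dis _ h1 _ hχ _ _ e
      exact Or.inl ⟨hφ, by simp [h1]⟩
    · obtain ⟨a, w, rfl⟩ := exists_cons w
      exact Or.inr ⟨φ, by simp [hφ, h1], a, hB.dis _ ((h φ hφ).resolve_left h1 a) _ hχ w z0 e⟩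
  · rintro (⟨h1, h2⟩ | ⟨ψ, hψ, a, rfl⟩)
    · simpa [h1] using h2
    · rw [Finset.mem_sdiff] at hψ
      exact (h ψ hψ.1).resolve_left hψ.2 a

theorem Le.card (h : Le 𝒜 ℬ) (hA : Vx x y 𝒜) (hB : Vx x y ℬ) :
    ℬ.card = 𝒜.card + 2 * (𝒜 \ ℬ).card := by
  conv_lhs => rw [h.eq_ex hA hB]
  exact hA.card_ex Finset.sdiff_subset

theorem Le.eq (h : Le 𝒜 ℬ) (hA : Vx x y 𝒜) (hB : Vx x y ℬ) (hc : ℬ.card ≤ 𝒜.card) : 𝒜 = ℬ := by
  have := h.card hA hB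
  exact Finset.eq_of_subset_of_card_le
    (Finset.sdiff_eq_empty_iff_subset.1 (Finset.card_eq_zero.1 (by omega))) hc

theorem Le.smul (h : Le 𝒜 ℬ) (g : Au) : Le (g • 𝒜) (g • ℬ) := by
  intro φ hφ
  obtain ⟨φ, hφ', rfl⟩ := Finset.mem_smul_finset.1 hφ
  exact (h φ hφ').imp Finset.smul_mem_smul_finset fun h a => Finset.smul_mem_smul_finset (h a)

theorem bar (P : List (Fin 3) → Prop) (h1 : ∀ u, (∀ a, P (u ++ [a])) → P u)
    (h2 : ∀ y, ∃ u z, y = app u z ∧ P u) : P [] := by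
  by_contra h0
  have : ∀ u, ∃ a, ¬ P u → ¬ P (u ++ [a]) := fun u => by
    by_contra h
    push Not at h
    exact (h 0).1 (h1 u fun a => (h a).2)
  choose f hf using this
  let u : ℕ → List (Fin 3) := fun n => Nat.rec [] (fun _ u => u ++ [f u]) n
  have hu : ∀ n, ¬ P (u n) ∧ (u n).length = n ∧
      (fun i => f (u i) : C) = app (u n) (fun i => f (u (i + n))) := by
    intro n
    induction n with
    | zero => exact ⟨h0, rfl, rfl⟩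
    | succ n ih =>
      refine ⟨hf _ ih.1, by
        show (u n ++ [f (u n)]).length = _
        simp [ih.2.1], ih.2.2.trans ?_⟩
      show _ = app (u n ++ [f (u n)]) _
      rw [app_append, app_inj]
      funext i
      cases i with
      | zero => simp
      | succ i => simp [add_assoc, add_comm 1 n]
  obtain ⟨v, z, e, hv⟩ := h2 fun i => f (u i)
  obtain ⟨h3, h4, h5⟩ := hu v.length
  obtain ⟨w, h6, -⟩ := app_eq (e.symm.trans h5) h4.ge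
  have : w = [] := by simpa [h6] using h4
  exact h3 (by simpa [h6, this] using hv)

/-- standard charts of a given depth -/
def Std (N : ℕ) (φ : Φ) : Prop := ∃ a : Ad, a.2.length = N ∧ φ = cm a

/-- charts which expand to standard ones -/
inductive Gd (N : ℕ) : Φ → Prop
  | std {φ : Φ} : Std N φ → Gd N φ
  | node {φ : Φ} : (∀ a, Gd N (ch φ a)) → Gd N φ

theorem Gd.succ {N : ℕ} (h : Gd N φ) : Gd (N+1) φ := by
  induction h with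
  | std h =>
    obtain ⟨a, h, rfl⟩ := h
    exact .node fun i => .std ⟨a.ex [i], by simp [Ad.ex, h], funext fun w => (cm_ex a [i] w).symm⟩
  | node _ ih => exact .node ih

theorem Gd.mono {N M : ℕ} (h : Gd N φ) (hNM : N ≤ M) : Gd M φ := by
  induction hNM with
  | refl => exact h
  | step _ ih => exact ih.succ

theorem Cht.gd (h : Cht φ x y) : ∀ᶠ N in Filter.atTop, Gd N φ := by
  have := bar (fun u => ∀ᶠ N in Filter.atTop, Gd N (fun w => φ (app u w))) (fun u hu => ?_)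
    (fun w => ?_)
  · exact this
  · filter_upwards [Filter.eventually_all.2 hu] with N hN
    exact .node fun a => by have := hN a; simp only [app_append] at this; exact this
  · obtain ⟨u, w', b, h1, h2⟩ := h.loc w
    exact ⟨u, w', h1, Filter.eventually_atTop.2 ⟨_, fun N hN =>
      (Gd.std ⟨b, rfl, funext h2⟩).mono hN⟩⟩

theorem Gd.std_in {N : ℕ} (h : Gd N φ) : ∃ u, Std N fun w => φ (app u w) := by
  induction h with
  | std h => exact ⟨[], h⟩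
  | node _ ih =>
    obtain ⟨u, h⟩ := ih 0
    exact ⟨0 :: u, h⟩

theorem Std.not_gd {N : ℕ} (h : Std N φ) (a : Fin 3) : ¬ Gd N (ch φ a) := by
  intro h'
  obtain ⟨b, hb, rfl⟩ := h
  obtain ⟨u, c, hc, e⟩ := h'.std_in
  have e' : ∀ w, app b.2 (cons a (app u w)) = app c.2 w := fun w => congrArg L.s (congrFun e w)
  have h1 : ∀ w, cons a (app u w) = w := fun w => by
    obtain ⟨v, h1, h2⟩ := app_eq (e' w) (by omega)
    obtain rfl : v = [] := by simpa [h1, hb] using hc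
    exact h2
  have h2 := congrFun (h1 z0) 0
  have h3 := congrFun (h1 (cons 1 z0)) 0
  simp only [cons_zero, z0_apply] at h2 h3
  rw [h2] at h3
  exact absurd h3 (by decide)

theorem Vx.std_eq {N : ℕ} (hA : Vx x y 𝒜) (hB : Vx x y ℬ) (h1 : ∀ φ ∈ 𝒜, Std N φ)
    (h2 : ∀ φ ∈ ℬ, Std N φ) : 𝒜 ⊆ ℬ := by
  intro φ hφ
  obtain ⟨ψ, hψ, w, e⟩ := hB.cov _ (hA.sub φ hφ z0).1 (hA.sub φ hφ z0).2
  obtain ⟨a, ha, rfl⟩ := h1 φ hφ
  obtain ⟨b, hb, rfl⟩ := h2 ψ hψ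
  obtain ⟨v, h3, -⟩ := app_eq (show app b.2 w = app a.2 z0 from congrArg L.s e) (by omega)
  obtain rfl : v = [] := by simpa [h3, hb] using ha
  rwa [show a = b from Prod.ext (congrArg L.k e).symm (by simpa using h3)]

theorem gd_bound (x y : L) (N : ℕ) :
    ∃ K, ∀ 𝒜, Vx x y 𝒜 → (∀ φ ∈ 𝒜, Gd N φ) → 𝒜.card ≤ K := by
  have hT : (Set.Icc x.k y.k ×ˢ {u : List (Fin 3) | u.length = N}).Finite :=
    (Set.finite_Icc _ _).prod (List.finite_length_eq _ N)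
  refine ⟨hT.toFinset.card, fun 𝒜 h1 h2 => Finset.card_le_card_of_forall_subsingleton
    (fun φ a => ∃ w, φ w = cm a z0) (fun φ hφ => ?_) ?_⟩
  · obtain ⟨u, a, h3, h4⟩ := (h2 φ hφ).std_in
    have h5 := congrFun h4 z0
    have := h5 ▸ h1.sub φ hφ (app u z0)
    exact ⟨a, by simpa using ⟨⟨L.k_mono this.1, L.k_mono this.2.le⟩, h3⟩, _, h5⟩
  · rintro a - φ ⟨hφ, w, e⟩ ψ ⟨hψ, w', e'⟩
    exact h1.dis _ hφ _ hψ _ _ (e.trans e'.symm)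

theorem Vx.ex_gd {N : ℕ} (h2 : ∀ φ ∈ 𝒜, Gd N φ) (hJ : J ⊆ 𝒜) (hJ' : ∀ φ ∈ J, ¬ Std N φ) :
    ∀ φ ∈ Pool.Agent.P.MP_267653_al.ex 𝒜 J, Gd N φ := by
  intro φ hφ
  rcases mem_ex.1 hφ with h | ⟨ψ, hψ, a, rfl⟩
  · exact h2 φ h.1
  · cases h2 ψ (hJ hψ) with
    | std h => exact absurd h (hJ' ψ hψ)
    | node h => exact h a

end Pool.Agent.P.MP_267653_al
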