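import Pool.Agent.P.MP_267653_al.DA

/-! Simplicity and abelianisation of the germ extension, twisting automorphism of arbitrary order. -/

set_option autoImplicit false

namespace Pool.Agent.P.MP_267653_al

open Function Filter Pool.Agent.Lib.Brown

namespace Dx

variable {H : Type} [Group H] (D : Dx H) {q : L}

theorem smul_eq (g : D.G) (q : X) : g • q = q ↔ ∃ j : ℤ, g.1 q.1 = (lam ^ j) q.1 :=
  Subtype.ext_iff.trans (nrm_eq q.2.2)

theorem X_ne {q q' : X} (h : q' ≠ q) (j : ℤ) : q'.1 ≠ (lam ^ j) q.1 := fun e => by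
  have := congrArg L.k e
  rw [lam_zpow_k, q.2.2, q'.2.2, zero_add] at this
  exact h (Subtype.ext (by simpa [← this] using e))

/-- the germ cocycle of the action on special points of the circle -/
noncomputable def coc : Coc D.G X H where
  y0 := 1
  c g q := (D.α ^ (-(g.1 q.1).k)).toEquiv * Equiv.mulLeft (D.c0 g q.1)
  c_one q := by
    ext y
    simp [q.2.2, (c0_eq_one (1 : D.G) q.2.1).2 (Reg.id _)]
  c_mul g h q := by
    ext y
    have hq := (h.2.1.2 _).2 q.2.1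
    simp only [smul_val, nrm, c0_mul g h q.2.1, c0_zpow g hq, CL.zpow g.2.1.1, lam_zpow_k,
      Equiv.Perm.mul_apply, Equiv.coe_mulLeft, MulEquiv.toEquiv_eq_coe, EquivLike.coe_coe,
      ← map_mul, ← MulAut.mul_apply, ← zpow_add, mul_assoc]
    congr 2
    simp
  fin g := g.2.2.2.2.subset fun q hq hn => hq (by simp [(c0_eq_one g q.2.1).2 hn])

theorem coc_one (g : D.G) (q : X) : D.coc.c g q D.coc.y0 = D.coc.y0 ↔ Reg g.1 q.1 := by
  rw [← c0_eq_one g q.2.1]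
  simp [coc]

theorem gen_G (K : Subgroup D.G) (h1 : ∀ g : D.G, g.1 ∈ B → g ∈ K)
    (h2 : ∀ q : X, ∀ a, ∃ g ∈ K, g.1 q.1 = q.1 ∧ D.c0 g q.1 = a ∧
      ∀ z, (∀ j : ℤ, z ≠ (lam ^ j) q.1) → Reg g.1 z) (g : D.G) : g ∈ K := by
  induction hn : {q : X | ¬ Reg g.1 q.1}.ncard using Nat.strong_induction_on generalizing g with
  | _ n ih =>
    by_cases hex : ∃ q : X, ¬ Reg g.1 q.1
    swap
    · refine h1 g ⟨fun z => ?_, g.2.1.1⟩
      by_cases hz : z ∈ O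
      · rw [← CL.reg g.2.1.1 (-z.k)]
        exact not_not.1 fun h => hex ⟨⟨nrm z, O_zpow hz _, nrm_k z⟩, h⟩
      · exact g.2.2.1 z hz
    obtain ⟨q, hq⟩ := hex
    obtain ⟨h, hh, e1, e2, e3⟩ := h2 q (D.c0 g q.1)⁻¹
    suffices hlt : {q : X | ¬ Reg (g * h).1 q.1}.ncard < n by
      simpa using K.mul_mem (ih _ hlt (g * h) rfl) (K.inv_mem hh)
    rw [← hn]
    refine lt_of_le_of_lt (Set.ncard_le_ncard_of_injOn (h • ·) (t := {q : X | ¬ Reg g.1 q.1} \ {q})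
      (fun q' hq' => ?_) (MulAction.injective h).injOn (g.2.2.2.2.subset Set.sdiff_subset))
      (Set.ncard_sdiff_singleton_lt_of_mem hq g.2.2.2.2)
    have hne : q' ≠ q := by
      rintro rfl
      exact hq' ((c0_eq_one _ q'.2.1).1 (by rw [c0_mul _ _ q'.2.1, e1, e2, mul_inv_cancel]))
    exact ⟨fun h3 => hq' (((CL.reg g.2.1.1 _).1 h3).mul (e3 _ (X_ne hne))), fun e => hne
      (MulAction.injective h (e.trans ((D.smul_eq h q).2 ⟨0, e1⟩).symm))⟩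

theorem hom_G {C : Type} [CommGroup C] [IsMulTorsionFree C]
    (hH : ∀ ψ : H →* C, (∀ a, ψ (D.α a) = ψ a) → ∀ a, ψ a = 1) (ψ : D.G →* C) (g : D.G) :
    ψ g = 1 := by
  have hB : ∀ g : D.G, g.1 ∈ B → ψ g = 1 := fun g hg =>
    hom_B (ψ.comp (Subgroup.inclusion D.B_le)) ⟨g, hg⟩
  refine D.gen_G ψ.ker hB (fun q a => ?_) g
  obtain ⟨σ, hσ⟩ := D.exists_sigma q.2.1 (Eventually.of_forall fun _ => trivial)
  refine ⟨σ a, hH (ψ.comp σ) (fun a => ?_) a, (hσ a).1, (hσ a).2.1, (hσ a).2.2.1⟩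
  obtain ⟨t, ht, h1⟩ := exists_t {q}
  replace h1 := h1 q (by simp)
  let t' : D.G := ⟨t, D.B_le ht⟩
  have hc := (t' * σ (D.α a) * t'⁻¹ * σ a⁻¹).2.1.1
  have := hB (t' * σ (D.α a) * t'⁻¹ * σ a⁻¹) ⟨fun z => ?_, hc⟩
  · rw [map_mul, map_mul, map_mul, map_inv, map_inv, map_inv, mul_inv_cancel_comm,
      mul_inv_eq_one] at this
    exact this
  have f1 : ∀ a (j : ℤ), (σ a).1 ((lam ^ j) q.1) = (lam ^ j) q.1 := fun a j =>
    (CL.fix (σ a).2.1.1 j).2 (hσ a).1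
  have f2 : t⁻¹ (lam q.1) = q.1 := by rw [← h1]; simp
  by_cases hz : ∃ j : ℤ, z = (lam ^ j) q.1
  · obtain ⟨j, rfl⟩ := hz
    have hq := (O_lam q.2.1).1
    have f3 : (σ a⁻¹).1 (lam q.1) = lam q.1 := by simpa using f1 a⁻¹ 1
    have f4 : D.c0 (σ a⁻¹) (lam q.1) = D.α a⁻¹ := by
      simpa only [(hσ a⁻¹).2.1, zpow_one] using c0_zpow (σ a⁻¹) q.2.1 1
    rw [show j = (j - 1) + 1 by ring, zpow_add_one, RelIso.mul_apply, CL.reg hc,
      ← c0_eq_one _ hq, c0_mul _ _ hq, f3, f4, c0_mul _ _ hq, show t'⁻¹.1 (lam q.1) = q.1 from f2,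
      c0_mul _ _ q.2.1, (hσ _).1, (hσ _).2.1, (c0_eq_one t' q.2.1).2 (ht.1 _),
      (c0_eq_one t'⁻¹ hq).2 ((inv_mem ht.1 : t⁻¹ ∈ RA) _)]
    simp
  · push Not at hz
    refine ((ht.1 _).mul ((hσ _).2.2.1 _ fun j e => hz (j + 1) ?_)).mul
      ((inv_mem ht.1 : t⁻¹ ∈ RA) _) |>.mul ((hσ _).2.2.1 _ hz)
    refine (σ a⁻¹).1.injective (t⁻¹.injective ?_)
    rw [f1, zpow_add_one, RelIso.mul_apply, CL.zpow (B.cl (inv_mem ht)), f2]
    exact e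

theorem not_lam (m : D.G) (h : ∀ x, NS x → ∃ j : ℤ, m.1 x = (lam ^ j) x) : m = 1 := by
  have key : ∀ m : D.G, (∀ x, NS x → ∃ j : ℤ, m.1 x = (lam ^ j) x) → ∀ q ∈ O, ∀ j : ℕ,
      m.1 q = (lam ^ j) q → j = 0 := by
    intro m h q hq j e
    have hZ : Z (st 0) := ⟨rfl, by decide⟩
    obtain ⟨n, h1, h2, h3, h4⟩ := ((c0_spec m hq).and ((gm_pow hq j).and ((ev_at hq 0).and
      (ev_at ((m.2.1.2 q).2 hq) 0)))).exists
    have h5 : Lam^[n] z0 = z0 := iterate_fixed (congrArg L.s (lam_st 0)) n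
    obtain ⟨i, hi⟩ := h (gm q n (st 0)) (EC.ns ⟨_, rfl, congrArg _ h5⟩)
    have h6 := h1 _ hZ
    rw [(D.ev_mem _ _).2 (st 0) (Or.inl (L.lt_iff.2 (Or.inr ⟨rfl, 0, by simp, by decide⟩))),
      hi] at h6
    have h7 := congrArg L.k h6
    rw [lam_zpow_k, show (gm q n (st 0)).k = q.k from (congrArg L.k h3.1.2).symm,
      show (gm (m.1 q) n (st 0)).k = (m.1 q).k from (congrArg L.k h4.1.2).symm, e,
      ← zpow_natCast, lam_zpow_k] at h7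
    obtain rfl : i = j := by omega
    rw [zpow_natCast, h2, ← e] at h6
    by_contra hj
    exact gm_exit h4.1 (by omega) hZ _ h6.symm
  refine Subtype.ext (fix_O fun q hq => ?_)
  obtain ⟨j, hj⟩ := h q (O_ns hq)
  have hinv : ∀ x (j : ℤ), m.1 x = (lam ^ j) x → m⁻¹.1 x = (lam ^ (-j)) x := fun x j e =>
    m.1.injective (by rw [CL.zpow m.2.1.1, e]; simp)
  rcases Int.eq_nat_or_neg j with ⟨i, rfl | rfl⟩
  · rw [hj, key m h q hq i (by simpa using hj)]; rfl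
  · rw [hj, key m⁻¹ (fun x hx => (h x hx).elim fun j e => ⟨_, hinv x j e⟩) q hq i
      (by simpa using hinv q _ hj)]; rfl

theorem simple_G (hne : commutator D.G ≠ ⊥) : IsSimpleGroup (commutator D.G) := by
  refine simple_commutator (fun U : Arc => (Fx U.y U.z).subgroupOf D.G) (fun g U => ?_) ?_
    (fun U V => ?_) (fun U => ?_) (fun m hm => ?_) hne
  · obtain ⟨y, z, ⟨c, hy⟩, ⟨d, hz⟩, h1, h2⟩ := U
    exact ⟨⟨g.1 y, g.1 z, ⟨_, (g.2.2.1 y hy.not_O).ec hy⟩, ⟨_, (g.2.2.1 z hz.not_O).ec hz⟩,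
      g.1.strictMono h1, by rw [← mem_CL.1 g.2.1.1]; exact g.1.strictMono h2⟩,
      fun a ha => Fx.conj ha g.1⟩
  · refine eq_top_iff.2 fun g _ => D.gen_G _ (fun g hg => ?_) (fun q a => ?_) g
    · obtain ⟨g', h1, h2⟩ : g.1 ∈ (Subgroup.closure
          (⋃ U : Arc, ((Fx U.y U.z).subgroupOf D.G : Set D.G))).map D.G.subtype := by
        refine (Subgroup.closure_le _).2 ?_ (frag hg)
        rintro b ⟨hb, U, hU⟩
        exact ⟨⟨b, D.B_le hb⟩, Subgroup.subset_closure (Set.mem_iUnion.2 ⟨U, hU⟩), rfl⟩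
      rwa [← show g' = g from Subtype.ext h2]
    · obtain ⟨y, hy, h1, h2⟩ := (O_ns q.2.1).dens q.mem.2 0
      obtain ⟨z, hz, h3, h4⟩ := hy.ns.dens h2 0
      obtain ⟨σ, hσ⟩ := D.exists_sigma q.2.1 (ev_lt h1)
      have h5 := st_le.1 (q.mem.1.trans h1).le
      refine ⟨σ a, Subgroup.subset_closure (Set.mem_iUnion.2 ⟨⟨y, z, ⟨_, hy⟩, ⟨_, hz⟩, h3,
        h4.trans_le (st_le.2 (by simp [lam_apply, h5]))⟩, fun w h6 h7 => (hσ a).2.2.2 w ?_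
          (not_lt.2 h6)⟩), (hσ a).1, (hσ a).2.1, (hσ a).2.2.1⟩
      have := L.k_mono h6
      have := lt_st.1 (h7.trans h4)
      rw [q.2.2]; simp only at *; omega
  · obtain ⟨W, b, hb, h1, h2, h3⟩ := arc_move U V
    exact ⟨W, ⟨b, D.B_le hb⟩, h1, fun a ha => h3 a a.2.1.1 ha, fun a ha => h2 ha⟩
  · obtain ⟨V, h⟩ := arc_comm U
    exact ⟨V, fun a ha b hb => Subtype.ext (h a a.2.1.1 ha b b.2.1.1 hb)⟩
  · obtain ⟨x, hx, h1⟩ : ∃ x, NS x ∧ ∀ j : ℤ, m.1 x ≠ (lam ^ j) x := by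
      by_contra h
      push Not at h
      exact hm (D.not_lam m h)
    obtain ⟨i, h2, h3⟩ := exists_fd x (m.1 x)
    have h4 : x < (lam ^ i * m.1) x := lt_of_le_of_ne h2 fun e => h1 (-i) (by
      nth_rewrite 2 [e]; simp)
    have hμ : lam ^ i * m.1 ∈ CL := mul_mem (zpow_mem lam_CL i) m.2.1.1
    obtain ⟨e, he, h5, h6⟩ := hx.dens (lt_min h4 ((lam ^ i * m.1).lt_symm_apply.2 h3)) 0
    obtain ⟨e', he', h7, h8⟩ := he.ns.dens h6 0
    rw [lt_min_iff] at h8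
    have h9 := (lam ^ i * m.1).lt_symm_apply.1 h8.2
    refine ⟨⟨e', lam e, ⟨_, he'⟩, ⟨_, he.lam⟩, (h8.1.trans h3).trans (lam.strictMono h5),
      lam.strictMono h7⟩, fun a ha b hb => Subtype.ext (commute_of_fix fun w => ?_)⟩
    obtain ⟨l, h10, h11⟩ := exists_fd e w
    have hc := (m * b * m⁻¹).2.1.1
    rw [← CL.fix a.2.1.1 l, ← CL.fix hc l]
    rcases le_or_gt e' ((lam ^ l) w) with h | h
    · exact Or.inl (ha _ h h11)
    · refine Or.inr ((CL.fix hc 1).1 ?_)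
      have := Fx.conj hb (lam ^ i * m.1)
      rw [show lam ^ i * m.1 * D.G.subtype b * (lam ^ i * m.1)⁻¹ =
        lam ^ i * (m * b * m⁻¹).1 * (lam ^ i)⁻¹ by simp [mul_assoc], CL.conj hc, mem_CL.1 hμ] at this
      refine this _ (h9.le.trans ?_) ?_
      · simpa using h5.le.trans h10
      · simpa using (h.trans h8.1).trans ((lam ^ i * m.1).strictMono h5)

theorem c0_nrm (g : D.G) {z : L} (hz : z ∈ O) : D.c0 g z = (D.α ^ z.k) (D.c0 g (nrm z)) := by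
  have h3 : nrm z ∈ O := O_zpow hz _
  rw [← c0_zpow _ h3]; simp [nrm]

theorem c0_fin (g : D.G) : ∃ S : Set H, S.Finite ∧ ∀ z ∈ O, D.c0 g (nrm z) ∈ S := by
  refine ⟨insert 1 ((fun q : X => D.c0 g q.1) '' {q : X | ¬ Reg g.1 q.1}),
    (g.2.2.2.2.image _).insert _, fun z hz => ?_⟩
  by_cases h : Reg g.1 (nrm z)
  · exact Or.inl ((c0_eq_one _ (O_zpow hz _)).2 h)
  · exact Or.inr ⟨⟨nrm z, O_zpow hz _, nrm_k z⟩, h, rfl⟩

theorem quasi {H1 : Type} [Group H1] (π : H →* H1) (ι : H1 →* H) (hπι : ∀ a, π (ι a) = a)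
    (β : MulAut H1) (hβ : IsOfFinOrder β) (hαβ : ∀ (j : ℤ) a, π ((D.α ^ j) a) = (β ^ j) (π a)) :
    ∃ (κ : D.G → H1) (σ : H1 →* D.G),
    (∀ s, (Set.range fun g => (κ g)⁻¹ * κ (g * s)).Finite) ∧ ∀ h, κ (σ h) = h := by
  obtain ⟨q, hq⟩ : ∃ q, q ∈ O := ⟨_, O_pt 0⟩
  obtain ⟨σ, hσ⟩ := D.exists_sigma hq (Eventually.of_forall fun _ => trivial)
  refine ⟨fun g => (π (D.c0 g⁻¹ q))⁻¹, σ.comp ι, fun s => ?_, fun h => by
    simp only [MonoidHom.comp_apply, ← map_inv, (hσ _).2.1, inv_inv, hπι]⟩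
  have h1 : (Set.range fun j : ℤ => β ^ j).Finite := finite_zpowers.2 hβ
  obtain ⟨S, hS, hS'⟩ := D.c0_fin s⁻¹
  refine ((h1.prod hS).image fun p => (p.1 (π p.2))⁻¹).subset ?_
  rintro _ ⟨g, rfl⟩
  have h2 := (g⁻¹.2.1.2 _).2 hq
  simp only [mul_inv_rev, c0_mul _ _ hq, inv_inv, map_mul, mul_inv_cancel_left]
  generalize g⁻¹.1 _ = z at h2
  exact ⟨(β ^ z.k, D.c0 s⁻¹ (nrm z)), ⟨⟨z.k, rfl⟩, hS' z h2⟩, by rw [D.c0_nrm _ h2, hαβ]⟩

end Dx

end Pool.Agent.P.MP_267653_al
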