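import Pool.Agent.P.MP_267653_al.DB

/-! Finiteness properties of the germ extension when the twisting automorphism has any order. -/

set_option autoImplicit false

namespace Pool.Agent.P.MP_267653_al

open Function Filter Pool.Agent.Lib.Brown

theorem fix_cone {g : Au} {q : L} {n : ℕ} (hat : ∀ i, n ≤ i → At q i (ad q i)) (h0 : g q = q)
    (h : ∀ i, n ≤ i → ∀ z, Z z → g (gm q i z) = gm q i z) (v : C) :
    g (cm (ad q n) v) = cm (ad q n) v := by
  have h1 := hat n le_rfl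
  by_cases hv : v = p n
  · rw [hv, ← h1.2, h0]
  obtain ⟨d, u, y, h3, rfl, h4, h5⟩ := p_exit hv
  have h6 : ad q (n+d) = (ad q n).ex u :=
    At.ad_eq ⟨by simp [h1.1, h5], by rw [cm_ex, ← h4]; exact h1.2⟩
  have := h (n+d) (by omega) ⟨0, y⟩ ⟨rfl, h3⟩
  rwa [gm, h6, cm_ex] at this

theorem gm_cone {q : L} {n i : ℕ} (hat : At q n (ad q n)) (hi : n ≤ i) (z : L) :
    ∃ v, gm q i z = cm (ad q n) v := by
  obtain ⟨d, rfl⟩ := Nat.exists_eq_add_of_le hi
  obtain ⟨u, -, h4⟩ := hat.add d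
  exact ⟨_, by rw [gm, h4.ad_eq, cm_ex]⟩

theorem ev_t {t : Au} (ht : t ∈ B) {q : L} (hq : q ∈ O) (e : t q = lam q) :
    ∀ᶠ i in atTop, ∀ z, t (gm q (i+1) z) = lam (gm q i z) := by
  filter_upwards [gm_lam hq, (tendsto_add_atTop_nat 1).eventually ((ht.1 q).at hq).2] with i h1 h2 z
  rw [h1, gm, gm, h2, e]

namespace Dx

variable {H : Type} [Group H] (D : Dx H)

/-- acting exactly as a germ from level `l` on -/
def Ex (g : Au) (q : L) (l : ℕ) (a : H) : Prop :=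
  ∀ i, l ≤ i → ∀ z, Z z → g (gm q i z) = gm q i (D.ev i a z)

theorem Ex.c0 {g : D.G} {q : L} {l : ℕ} {a : H} (hq : q ∈ O) (h0 : g.1 q = q)
    (h : D.Ex g.1 q l a) : D.c0 g q = a :=
  (c0_spec g hq).uniq (eventually_atTop.2 ⟨l, fun i hi z hz => by rw [h0]; exact h i hi z hz⟩)

theorem fn_G {m : ℕ} (hm : 1 ≤ m) (hH : Fn H m) : Fn D.G m := by
  classical
  refine Coc.fn_of_coc (C := D.coc) hm (fun q y => ?_) (fun j => ?_) (fun M0 M hM K hK => ?_)
  · obtain ⟨σ, hσ⟩ := D.exists_sigma q.2.1 (Eventually.of_forall fun _ => trivial)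
    obtain ⟨h1, h2, h3, -⟩ := hσ y⁻¹
    refine ⟨σ y⁻¹, (D.smul_eq _ _).2 ⟨0, h1⟩, ?_, fun q' h => (D.coc_one _ _).2 (h3 _ (X_ne h))⟩
    show (D.α ^ _) (D.c0 _ _ * y) = 1
    rw [h2]; simp
  · obtain ⟨X0, h⟩ := X_trans j
    refine ⟨X0, fun M hM => ?_⟩
    obtain ⟨b, hb, h1⟩ := h M hM
    refine ⟨⟨b, D.B_le hb⟩, fun q => (D.coc_one _ _).2 (hb.1 _), fun q hq => ?_⟩
    obtain ⟨q', h2, h3⟩ := h1 q hq
    rwa [show (⟨b, D.B_le hb⟩ : D.G) • q = q' from Subtype.ext ((nrm_eq q'.2.2).2 ⟨0, h3⟩)]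
  simp only [smul_eq, coc_one] at hK
  have hB : ∀ g : D.G, (∀ q : X, Reg g.1 q.1) → g.1 ∈ B := fun g h => ⟨fun z => by
    by_cases hz : z ∈ O
    · exact (CL.reg g.2.1.1 (-z.k)).1 (h ⟨nrm z, O_zpow hz _, nrm_k z⟩)
    · exact g.2.2.1 z hz, g.2.1.1⟩
  rcases M.eq_empty_or_nonempty with rfl | ⟨q0, hq0⟩
  · obtain rfl : M0 = ∅ := Finset.subset_empty.1 hM
    refine Fn.equiv (Subgroup.equivMapOfInjective K D.G.subtype Subtype.val_injective).symm ?_
    rw [show K.map D.G.subtype = BM ∅ from ?_]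
    · exact fn_BM hm ∅
    ext g
    constructor
    · rintro ⟨g, h, rfl⟩
      exact ⟨hB g fun q => ((hK g).1 h).2 q (by simp), by simp⟩
    · exact fun h => ⟨⟨g, D.B_le h.1⟩, (hK _).2 ⟨by simp, fun q _ => h.1.1 _⟩, rfl⟩
  obtain ⟨t, ht, ht'⟩ := exists_t M
  have hχ : ∀ g : K, ∀ q ∈ M, g.1.1 q.1 = (lam ^ (g.1.1 q0.1).k) q.1 := fun g q hq => by
    obtain ⟨i, hi⟩ := ((hK g).1 g.2).1 q0 hq0
    obtain ⟨j, hj⟩ := ((hK g).1 g.2).1 q hq
    rw [hj, hi, lam_zpow_k, q0.2.2, zero_add,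
      same_j g.1.2.1.1 (q0.2.2.trans q.2.2.symm) hi hj]
  have hsep : ∀ q q' : X, ∀ᶠ n in atTop, q' ≠ q → ∀ v, q.1 ≠ cm (ad q'.1 n) v := fun q q' => by
    by_cases h : q' = q
    · exact Eventually.of_forall fun _ h' => absurd h h'
    · have h1 : q'.1 ≠ q.1 := fun e => h (Subtype.ext e)
      exact (gm_nb q'.2.1 (P := fun w => w ≠ q.1) (h1.lt_or_gt.elim
        (fun h => (ev_lt h).mono fun _ h => h.ne) fun h => (ev_gt h).mono fun _ h => h.ne')).mono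
        fun n h _ v => (h v).symm
  obtain ⟨n1, hn1⟩ := eventually_atTop.1 ((eventually_all_finset M).2 fun q' _ =>
    (ev_at q'.2.1 0).and ((eventually_all_finset M).2 fun q _ => hsep q q'))
  have hsep2 : ∀ q ∈ M, ∀ q' ∈ M, ∀ᶠ n in atTop, q' ≠ q →
      ∀ v v', cm (ad q.1 n) v ≠ cm (ad q'.1 n1) v' := fun q hq q' hq' => by
    by_cases h : q' = q
    · exact Eventually.of_forall fun _ h' => absurd h h'
    · exact (gm_nb q.2.1 (ev_not_cone ((hn1 n1 le_rfl q' hq').2 q hq h))).mono fun n h _ => h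
  obtain ⟨n, hn⟩ := eventually_atTop.1 ((eventually_ge_atTop n1).and
    ((eventually_all_finset M).2 fun q hq => (ev_t ht q.2.1 (ht' q hq)).and
      ((eventually_all_finset M).2 fun q' hq' => hsep2 q hq q' hq')))
  have hat : ∀ q ∈ M, ∀ i, n ≤ i → At q.1 i (ad q.1 i) := fun q hq i hi =>
    (hn1 i (hn i hi).1 q hq).1.1
  let A : ℕ → Subgroup K := fun l =>
    { carrier := {g | ∀ q ∈ M, g.1.1 q.1 = q.1 ∧ ∃ a, D.Ex g.1.1 q.1 l a}
      one_mem' := fun q _ => ⟨rfl, 1, fun i _ z _ => by rw [map_one]; rfl⟩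
      mul_mem' := fun {a b} ha hb q hq => by
        obtain ⟨h1, x, h2⟩ := ha q hq
        obtain ⟨h3, y, h4⟩ := hb q hq
        refine ⟨show a.1.1 (b.1.1 _) = _ by rw [h3, h1], x * y, fun i hi z hz => ?_⟩
        show a.1.1 (b.1.1 _) = _
        rw [h4 i hi z hz, h2 i hi _ (hz.sp (D.ev_mem i y).2), map_mul]; rfl
      inv_mem' := fun {a} ha q hq => by
        obtain ⟨h1, x, h2⟩ := ha q hq
        refine ⟨a.1.1.injective (by rw [h1]; exact RelIso.apply_inv_self _ _), x⁻¹,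
          fun i hi z hz => a.1.1.injective ?_⟩
        rw [h2 i hi _ (hz.sp (D.ev_mem i x⁻¹).2), ← RelIso.mul_apply (D.ev i x), ← map_mul,
          mul_inv_cancel, map_one, RelIso.one_apply]
        exact RelIso.apply_inv_self _ _ }
  let t' : K := ⟨⟨t, D.B_le ht⟩, (hK _).2 ⟨fun q hq => ⟨1, by simpa using ht' q hq⟩,
    fun q _ => ht.1 _⟩⟩
  have hc : ∀ l, n ≤ l → ∀ a ∈ A (l+1), t' * a * t'⁻¹ ∈ A l := by
    intro l hl a ha q hq
    obtain ⟨h1, x, h2⟩ := ha q hq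
    have hcl := mem_CL.1 (t' * a * t'⁻¹).1.2.1.1
    have hv : ∀ w, (t' * a * t'⁻¹).1.1 (t w) = t (a.1.1 w) := fun w => by
      show t (a.1.1 (t⁻¹ (t w))) = _
      rw [RelIso.inv_apply_self]
    refine ⟨lam.injective ?_, D.α⁻¹ x, fun i hi z hz => lam.injective ?_⟩
    · rw [← hcl, ← ht' q hq, hv, h1]
    · have h3 := ((hn i (by omega)).2 q hq).1
      rw [← hcl, ← h3, hv, h2 (i+1) (by omega) z hz, h3, ← D.ev_α i (D.α⁻¹ x)]
      simp
  have hle : A n ≤ A (n+1) := fun a ha q hq => by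
    obtain ⟨h1, x, h2⟩ := ha q hq
    exact ⟨h1, x, fun i hi => h2 i (by omega)⟩
  let 𝒜 : Asc K :=
    { χ := fun g => (g.1.1 q0.1).k
      t := t'
      A := A n
      χ_mul := fun a b => by
        show (a.1.1 (b.1.1 q0.1)).k = _
        rw [hχ b q0 hq0, CL.zpow a.1.2.1.1, lam_zpow_k, lam_zpow_k, q0.2.2, zero_add]
      χ_t := by simp [t', ht' q0 hq0, lam_apply, q0.2.2]
      χ_A := fun a ha => by rw [(ha q0 hq0).1, q0.2.2]
      conj := fun a ha => hc n le_rfl a (hle ha)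
      exh := fun g hg => by
        obtain ⟨l, h1⟩ := eventually_atTop.1 ((eventually_all_finset M).2
          fun q hq => (c0_spec g.1 q.2.1 : ∀ᶠ n in atTop, _))
        have h0 : ∀ q ∈ M, g.1.1 q.1 = q.1 := fun q hq => by rw [hχ g q hq, hg]; rfl
        have h3 : g ∈ A (n + l) := fun q hq => ⟨h0 q hq, D.c0 g.1 q.1, fun i hi z hz => by
          rw [h1 i (by omega) q hq z hz, h0 q hq]⟩
        refine ⟨l, ?_⟩
        clear h1 h0 hg
        induction l generalizing g with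
        | zero => simpa using h3
        | succ i ih =>
          have := ih _ (hc (n + i) (by omega) g h3)
          rwa [show t' ^ i * (t' * g * t'⁻¹) * (t' ^ i)⁻¹ = t' ^ (i+1) * g * (t' ^ (i+1))⁻¹ by
            rw [pow_succ]; group] at this }
  refine 𝒜.fn_self hm ?_
  let Ψ : A n →* (M0 → H) := MonoidHom.mk' (fun g q => D.c0 g.1.1 q.1.1) fun g h =>
    funext fun q => by
      show D.c0 (g.1.1 * h.1.1) q.1.1 = D.c0 g.1.1 q.1.1 * D.c0 h.1.1 q.1.1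
      rw [c0_mul _ _ q.1.2.1, (h.2 q (hM q.2)).1]
  refine Fn.of_surjective Ψ ?_ ?_ (hH.pi _)
  · rw [← MonoidHom.range_eq_top, eq_top_iff]
    intro a _
    refine Subgroup.pi_mem_of_mulSingle_mem a fun q => ?_
    obtain ⟨σ, hσ⟩ := D.exists_sigma_at q.1.2.1 (hat q.1 (hM q.2))
    obtain ⟨h1, h2, h3, h4, h5⟩ := hσ (a q)
    have h6 : ∀ q' ∈ M, q' ≠ q.1 → ∀ v, (σ (a q)).1 (cm (ad q'.1 n1) v) = cm (ad q'.1 n1) v :=
      fun q' hq' h v => h5 _ (((congrArg L.k (hn1 n1 le_rfl q' hq').1.1.2).symm.trans q'.2.2).trans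
        q.1.2.2.symm) fun i hi w _ _ e => ((hn i hi).2 q.1 (hM q.2)).2 q' hq' h _ _ e.symm
    have h7 : ∀ q' ∈ M, (σ (a q)).1 q'.1 = q'.1 ∧ ∃ x, D.Ex (σ (a q)).1 q'.1 n x := fun q' hq' => by
      by_cases h : q' = q.1
      · rw [h]; exact ⟨h1, _, h4⟩
      · refine ⟨by rw [(hn1 n1 le_rfl q' hq').1.1.2]; exact h6 q' hq' h _, 1, fun i hi z _ => ?_⟩
        obtain ⟨v, hv⟩ := gm_cone (hn1 n1 le_rfl q' hq').1.1 (hn i hi).1 z
        rw [map_one, RelIso.one_apply, hv, h6 q' hq' h]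
    refine ⟨⟨⟨σ (a q), (hK _).2 ⟨fun q' hq' => ⟨0, (h7 q' hq').1⟩, fun q' hq' => h3 _ (X_ne fun e =>
      hq' (e ▸ q.2))⟩⟩, h7⟩, funext fun q' => ?_⟩
    show D.c0 (σ (a q)) q'.1.1 = _
    by_cases h : q' = q
    · rw [h, h2]; simp
    · rw [Pi.mulSingle_eq_of_ne h, c0_eq_one _ q'.1.2.1]
      exact h3 _ (X_ne fun e => h (Subtype.ext e))
  · let ι : Ψ.ker →* Au := ((D.G.subtype.comp K.subtype).comp (A n).subtype).comp Ψ.ker.subtype
    have hι : Injective ι := fun a b h => Subtype.ext (Subtype.ext (Subtype.ext (Subtype.ext h)))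
    refine Fn.equiv (MonoidHom.ofInjective hι).symm (fn_cones m (M.image fun q => ad q.1 n)
      (Finset.image_nonempty.2 ⟨q0, hq0⟩) ?_ _ fun g => ?_)
    · simp only [Finset.mem_image]
      rintro _ ⟨q, hq, rfl⟩
      exact (congrArg L.k (hat q hq n le_rfl).2).symm.trans q.2.2
    simp only [Finset.mem_image, forall_exists_index, and_imp, forall_apply_eq_imp_iff₂]
    constructor
    · rintro ⟨g, rfl⟩
      have hr : ∀ q : X, Reg g.1.1.1.1 q.1 := fun q => by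
        by_cases h : q ∈ M0
        · exact (c0_eq_one _ q.2.1).1 (congrFun (MonoidHom.mem_ker.1 g.2) ⟨q, h⟩)
        · exact ((hK g.1.1).1 g.1.1.2).2 q h
      refine ⟨hB _ hr, fun q hq => ?_⟩
      obtain ⟨h1, x, h2⟩ := g.1.2 q hq
      obtain rfl : 1 = x := ((c0_eq_one _ q.2.1).2 (hr q)).symm.trans (Ex.c0 D q.2.1 h1 h2)
      exact fix_cone (hat q hq) h1 fun i hi z hz => by
        have := h2 i hi z hz
        rwa [map_one, RelIso.one_apply] at this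
    · rintro ⟨h1, h2⟩
      have h3 : ∀ q ∈ M, g q.1 = q.1 := fun q hq => by
        rw [(hat q hq n le_rfl).2]; exact h2 q hq _
      refine ⟨⟨⟨⟨⟨g, D.B_le h1⟩, (hK _).2 ⟨fun q hq => ⟨0, h3 q hq⟩, fun q _ => h1.1 _⟩⟩,
        fun q hq => ⟨h3 q hq, 1, fun i hi z _ => ?_⟩⟩,
        funext fun q => (c0_eq_one _ q.1.2.1).2 (h1.1 _)⟩, rfl⟩
      obtain ⟨v, hv⟩ := gm_cone (hat q hq n le_rfl) hi z
      rw [map_one, RelIso.one_apply, hv]
      exact h2 q hq v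

end Dx

end Pool.Agent.P.MP_267653_al
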