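import Mathlib

/-! A lower bound for the area of commutators from a cocycle with values in the plane lattice. -/

set_option autoImplicit false

namespace Pool.Agent.P.MP_267653_al

/-- the determinant of two lattice vectors -/
def om (a b : ℤ × ℤ) : ℤ := a.1 * b.2 - a.2 * b.1

theorem area {G Ω ι : Type} [Group G] (act : G → Ω → Ω) (a1 : ∀ z, act 1 z = z)
    (am : ∀ g h z, act (g * h) z = act g (act h z)) (v : G → Ω → ℤ × ℤ)
    (hv : ∀ g h z, v (g * h) z = v g (act h z) + v h z)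
    (hb : ∀ g h, ∃ C : ℤ, ∀ z, |om (v g (act h z)) (v h z)| ≤ C)
    (f : FreeGroup ι →* G) (S : Finset (FreeGroup ι)) (hS : ∀ r ∈ S, f r = 1) :
    ∃ C : ℕ, ∀ (X Y : FreeGroup ι) (z : Ω), act (f X) z = z → act (f Y) z = z →
      ∀ l : List (FreeGroup ι × FreeGroup ι), (∀ p ∈ l, p.2 ∈ S ∨ p.2⁻¹ ∈ S) →
      X * Y * X⁻¹ * Y⁻¹ = (l.map fun p => p.1 * p.2 * p.1⁻¹).prod →
      |2 * om (v (f X) z) (v (f Y) z)| ≤ C * l.length := by
  classical
  have v1 : ∀ z, v 1 z = 0 := fun z => by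
    have := hv 1 1 z
    rw [mul_one, a1] at this
    exact left_eq_add.1 this
  have vi : ∀ g z, v g (act g⁻¹ z) = - v g⁻¹ z := fun g z => by
    have := hv g g⁻¹ z
    rw [mul_inv_cancel, v1] at this
    exact eq_neg_of_add_eq_zero_left this.symm
  have ai : ∀ g z, act g (act g⁻¹ z) = z := fun g z => by rw [← am, mul_inv_cancel, a1]
  have ai' : ∀ g z, act g⁻¹ (act g z) = z := fun g z => by rw [← am, inv_mul_cancel, a1]
  have pa : ∀ (π : Equiv.Perm (Ω × (ℤ × ℤ) × ℤ)) y, π (π⁻¹ y) = y := fun π y =>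
    π.apply_symm_apply y
  let hat : G → Equiv.Perm (Ω × (ℤ × ℤ) × ℤ) := fun g =>
    { toFun := fun y => (act g y.1, v g y.1 + y.2.1, y.2.2 + om (v g y.1) y.2.1)
      invFun := fun y => (act g⁻¹ y.1, y.2.1 - v g (act g⁻¹ y.1),
        y.2.2 - om (v g (act g⁻¹ y.1)) y.2.1)
      left_inv := fun y => by
        refine Prod.ext (ai' _ _) (Prod.ext ?_ ?_)
        · simp only [ai']; abel
        · simp only [ai', om, Prod.fst_add, Prod.snd_add]; ring
      right_inv := fun y => by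
        refine Prod.ext (ai _ _) (Prod.ext ?_ ?_)
        · simp only; abel
        · simp only [om, Prod.fst_sub, Prod.snd_sub]; ring }
  let Φ : FreeGroup ι →* Equiv.Perm (Ω × (ℤ × ℤ) × ℤ) :=
    FreeGroup.lift fun i => hat (f (FreeGroup.of i))
  let R : FreeGroup ι → Prop := fun w => ∃ φ : Ω → ℤ, (∃ C, ∀ z, |φ z| ≤ C) ∧
    ∀ z x r, Φ w (z, x, r) = (act (f w) z, v (f w) z + x, r + om (v (f w) z) x + φ z)
  have Rinv : ∀ w, R w → R w⁻¹ := by
    rintro w ⟨φ, ⟨C, hC⟩, h⟩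
    refine ⟨fun z => - φ (act (f w)⁻¹ z), ⟨C, fun z => by rw [abs_neg]; exact hC _⟩,
      fun z x r => (Φ w).injective ?_⟩
    rw [map_inv, map_inv, pa, h, ai, vi]
    refine Prod.ext rfl (Prod.ext ?_ ?_)
    · simp only; abel
    · simp only [om, Prod.fst_add, Prod.snd_add, Prod.fst_neg, Prod.snd_neg]; ring
  have hR : ∀ w, R w := fun w => by
    have hof : ∀ i, R (FreeGroup.of i) := fun i => ⟨fun _ => 0, ⟨0, by simp⟩, fun z x r => by
      rw [show Φ (FreeGroup.of i) = hat (f (FreeGroup.of i)) from FreeGroup.lift_apply_of, add_zero]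
      rfl⟩
    induction w using FreeGroup.induction_on with
    | C1 => exact ⟨fun _ => 0, ⟨0, by simp⟩, fun z x r => by simp [a1, v1, om]⟩
    | of i => exact hof i
    | inv_of i _ => exact Rinv _ (hof i)
    | mul a b ha hb' =>
      obtain ⟨φ, ⟨C, hC⟩, h⟩ := ha
      obtain ⟨ψ, ⟨C', hC'⟩, h'⟩ := hb'
      obtain ⟨C'', hC''⟩ := hb (f a) (f b)
      refine ⟨fun z => φ (act (f b) z) + ψ z + om (v (f a) (act (f b) z)) (v (f b) z),
        ⟨C + C' + C'', fun z => (abs_add_le _ _).trans (add_le_add ((abs_add_le _ _).trans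
          (add_le_add (hC _) (hC' _))) (hC'' _))⟩, fun z x r => ?_⟩
      rw [map_mul, map_mul, Equiv.Perm.mul_apply, h', h, am, hv]
      refine Prod.ext rfl (Prod.ext ?_ ?_)
      · simp only; abel
      · simp only [om, Prod.fst_add, Prod.snd_add]; ring
  let Sh : FreeGroup ι → ℤ → Prop := fun w C => ∀ y : Ω × (ℤ × ℤ) × ℤ, ∃ s, |s| ≤ C ∧
    Φ w y = (y.1, y.2.1, y.2.2 + s)
  have hsh : ∀ w (y : Ω × (ℤ × ℤ) × ℤ) s, Φ w (y.1, y.2.1, y.2.2 + s) =
      ((Φ w y).1, (Φ w y).2.1, (Φ w y).2.2 + s) := fun w y s => by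
    obtain ⟨φ, -, h⟩ := hR w
    obtain ⟨z, x, r⟩ := y
    rw [h, h]
    refine Prod.ext rfl (Prod.ext rfl ?_)
    simp only; ring
  have hker : ∀ w, ∃ C : ℕ, f w = 1 → Sh w C ∧ Sh w⁻¹ C := fun w => by
    obtain ⟨φ, ⟨C, hC⟩, h⟩ := hR w
    refine ⟨C.natAbs, fun e => ?_⟩
    have hC' : ∀ z, |φ z| ≤ C.natAbs := fun z => (hC z).trans Int.le_natAbs
    have h1 : ∀ z x r, Φ w (z, x, r) = (z, x, r + φ z) := fun z x r => by
      rw [h, e, a1, v1]; simp [om]
    refine ⟨fun y => ⟨φ y.1, hC' _, h1 _ _ _⟩, fun y => ⟨- φ y.1, by rw [abs_neg]; exact hC' _,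
      (Φ w).injective ?_⟩⟩
    rw [map_inv, pa, h1]
    simp
  choose c hc using hker
  refine ⟨S.sup c, fun X Y z hX hY l hl e => ?_⟩
  have hone : ∀ r, r ∈ S ∨ r⁻¹ ∈ S → Sh r (S.sup c : ℕ) := fun r hr y => by
    rcases hr with hr | hr
    · obtain ⟨s, h1, h2⟩ := (hc r (hS r hr)).1 y
      exact ⟨s, h1.trans (by exact_mod_cast Finset.le_sup (f := c) hr), h2⟩
    · obtain ⟨s, h1, h2⟩ := (hc _ (hS _ hr)).2 y
      exact ⟨s, h1.trans (by exact_mod_cast Finset.le_sup (f := c) hr), by simpa using h2⟩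
  have hall : Sh (l.map fun p => p.1 * p.2 * p.1⁻¹).prod ((S.sup c : ℕ) * l.length) := by
    clear e
    induction l with
    | nil => exact fun y => ⟨0, by simp, by simp⟩
    | cons p l ih =>
      intro y
      obtain ⟨s, h1, h2⟩ := ih (fun p hp => hl p (List.mem_cons_of_mem _ hp)) y
      obtain ⟨s', h3, h4⟩ := hone p.2 (hl p List.mem_cons_self) (Φ p.1⁻¹ (y.1, y.2.1, y.2.2 + s))
      refine ⟨s + s', (abs_add_le _ _).trans ?_, ?_⟩
      · rw [List.length_cons]; push_cast; linarith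
      · rw [List.map_cons, List.prod_cons, map_mul, Equiv.Perm.mul_apply, h2, map_mul, map_mul,
          Equiv.Perm.mul_apply, Equiv.Perm.mul_apply, h4, hsh, map_inv, pa,
          add_assoc]
  rw [← e] at hall
  obtain ⟨s, h1, h2⟩ := hall (Φ Y (Φ X (z, 0, 0)))
  obtain ⟨φ, -, h⟩ := hR X
  obtain ⟨ψ, -, h'⟩ := hR Y
  rw [← Equiv.Perm.mul_apply, ← Equiv.Perm.mul_apply, ← map_mul, ← map_mul,
    show X * Y * X⁻¹ * Y⁻¹ * Y * X = X * Y by group, map_mul, Equiv.Perm.mul_apply,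
    h', hY, h, hX, h, hX, h', hY] at h2
  have h3 := congrArg (fun y => y.2.2) h2
  simp only [om, Prod.fst_add, Prod.snd_add, Prod.fst_zero, Prod.snd_zero] at h3
  rwa [show 2 * om (v (f X) z) (v (f Y) z) = s by rw [om]; linarith]

end Pool.Agent.P.MP_267653_al
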