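import Pool.Agent.P.MP_267653_al.DC
import Pool.Agent.P.MP_267653_al.DD

/-! Loops of exponential area in the germ extension. -/

set_option autoImplicit false

namespace Pool.Agent.P.MP_267653_al

open Function Filter Pool.Agent.Lib.Brown

/-- periodic maps acting on each annulus of level at least `l` by a power of `x0` -/
def Pw (x0 : Au) (q : L) (l : ℕ) (g : Au) : Prop :=
  g ∈ CL ∧ (∀ i, l ≤ i → ∃ e : ℤ, ∀ w : L, w.k = 0 → w.s 0 = 2 →
    g (gm q i w) = gm q i ((x0 ^ e) w)) ∧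
  ∀ z, z.k = q.k → (∀ i, l ≤ i → ∀ w : L, w.k = 0 → w.s 0 = 2 → z ≠ gm q i w) → g z = z

variable {x0 g h t : Au} {q : L} {l : ℕ}

theorem Pw.comm (hx : x0 ∈ Sp w0 (st 1)) (hq : q.k = 0) (hg : Pw x0 q l g) (hh : Pw x0 q l h) :
    g * h = h * g := by
  have key : ∀ z : L, z.k = 0 → g (h z) = h (g z) := fun z hz => by
    by_cases e : ∃ i, l ≤ i ∧ ∃ w : L, w.k = 0 ∧ w.s 0 = 2 ∧ z = gm q i w
    · obtain ⟨i, hi, w, h1, h2, rfl⟩ := e
      obtain ⟨a, ha⟩ := hg.2.1 i hi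
      obtain ⟨b, hb⟩ := hh.2.1 i hi
      have h3 := mem_w0.2 ⟨h1, h2⟩
      have h4 := mem_w0.1 (Sp.maps (zpow_mem hx a) h3.1 h3.2)
      have h5 := mem_w0.1 (Sp.maps (zpow_mem hx b) h3.1 h3.2)
      rw [ha w h1 h2, hb w h1 h2, ha _ h5.1 h5.2, hb _ h4.1 h4.2, ← RelIso.mul_apply,
        ← RelIso.mul_apply, ← zpow_add, ← zpow_add, add_comm]
    · have e' : ∀ i, l ≤ i → ∀ w : L, w.k = 0 → w.s 0 = 2 → z ≠ gm q i w :=
        fun i hi w h1 h2 h3 => e ⟨i, hi, w, h1, h2, h3⟩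
      rw [hg.2.2 z (hz.trans hq.symm) e', hh.2.2 z (hz.trans hq.symm) e',
        hg.2.2 z (hz.trans hq.symm) e']
  refine RelIso.ext fun z => ?_
  obtain ⟨j, hj⟩ := (nrm_eq (z := z) (nrm_k z)).1 rfl
  rw [RelIso.mul_apply, RelIso.mul_apply, hj, CL.zpow hh.1, CL.zpow hg.1, CL.zpow hg.1,
    CL.zpow hh.1, key _ (nrm_k z)]

theorem Pw.conj (hq : q.k = 0) (hat : ∀ i, l ≤ i → At q i (ad q i)) (ht : t ∈ CL)
    (ht' : ∀ i, l ≤ i → ∀ z, t (gm q (i+1) z) = lam (gm q i z)) (hg : Pw x0 q l g) :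
    Pw x0 q l (t⁻¹ * g * t) := by
  have hk : ∀ i, l ≤ i → ∀ w, (gm q i w).k = q.k := fun i hi w => (congrArg L.k (hat i hi).2).symm
  have key : ∀ z, z.k = q.k → (∀ i, l + 1 ≤ i → ∀ w : L, w.k = 0 → w.s 0 = 2 → z ≠ gm q i w) →
      (t⁻¹ * g * t) z = z := fun z hz e => by
    obtain ⟨j, hj⟩ := (nrm_eq (z := t z) (nrm_k _)).1 rfl
    have h1 : g (nrm (t z)) = nrm (t z) := hg.2.2 _ ((nrm_k _).trans hq.symm)
      fun i hi w h1 h2 h3 => by
        have h4 : z = (lam ^ (j - 1)) (gm q (i+1) w) := t.injective (by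
          rw [CL.zpow ht, ht' i hi, ← h3, ← RelIso.mul_apply, ← zpow_add_one, sub_add_cancel, ← hj])
        have h5 := congrArg L.k h4
        rw [lam_zpow_k, hk _ (by omega), hz] at h5
        rw [show j - 1 = 0 by omega] at h4
        exact e (i+1) (by omega) w h1 h2 h4
    have h2 : g (t z) = t z := by rw [hj, CL.zpow hg.1, h1]
    show t⁻¹ (g (t z)) = z
    rw [h2, RelIso.inv_apply_self]
  refine ⟨mul_mem (mul_mem (inv_mem ht) hg.1) ht, fun i hi => ?_,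
    fun z hz e => key z hz fun i hi => e i (by omega)⟩
  rcases hi.eq_or_lt with rfl | hi'
  · exact ⟨0, fun w h1 h2 => key _ (hk _ le_rfl w) fun i hi w' _ _ =>
      gm_exit (hat _ le_rfl) (by omega) ⟨h1, by rw [h2]; decide⟩ _⟩
  · obtain ⟨i, rfl⟩ : ∃ i', i = i' + 1 := ⟨i - 1, by omega⟩
    obtain ⟨a, ha⟩ := hg.2.1 i (by omega)
    refine ⟨a, fun w h1 h2 => ?_⟩
    show t⁻¹ (g (t _)) = _
    rw [ht' i (by omega), mem_CL.1 hg.1, ha w h1 h2, ← ht' i (by omega), RelIso.inv_apply_self]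

theorem norm_pow_le {ι : Type} [DecidableEq ι] (x : FreeGroup ι) (j : ℕ) :
    (x ^ j).norm ≤ j * x.norm := by
  induction j with
  | zero => simp
  | succ j ih => rw [pow_succ, add_mul, one_mul]; exact (FreeGroup.norm_mul_le _ _).trans (by omega)

namespace Dx

variable {H : Type} [Group H] (D : Dx H)

theorem dehn (π : H → ℤ × ℤ) (πm : ∀ a b, π (a * b) = π a + π b)
    (πα : ∀ a, π (D.α a) = (2 * (π a).1 + (π a).2, (π a).1 + (π a).2))
    (hx : x0 ∈ Sp w0 (st 1)) (a0 b0 : H) (ha0 : π a0 = (1, 0)) (hb0 : π b0 = (0, 1))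
    (ea : ∀ i, ∃ e : ℤ, D.ev i a0 = x0 ^ e) (eb : ∀ i, ∃ e : ℤ, D.ev i b0 = x0 ^ e)
    (N : Subgroup D.G) [N.Normal] [N.FiniteIndex] {ι : Type} [DecidableEq ι]
    (f : FreeGroup ι →* N) (hf : Surjective f) (S : Finset (FreeGroup ι)) (hS : ∀ r ∈ S, f r = 1) :
    ∃ C : ℕ, ∀ j : ℕ, ∃ w ∈ f.ker, w.norm ≤ C * j + C ∧
      ∀ l : List (FreeGroup ι × FreeGroup ι), (∀ p ∈ l, p.2 ∈ S ∨ p.2⁻¹ ∈ S) →
        w = (l.map fun p => p.1 * p.2 * p.1⁻¹).prod → 2 ^ j ≤ C * l.length := by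
  classical
  have π1 : π 1 = 0 := by
    have := πm 1 1
    rw [mul_one] at this
    exact left_eq_add.1 this
  have πp : ∀ a (r : ℕ), π (a ^ r) = r • π a := fun a r => by
    induction r with
    | zero => simp [π1]
    | succ r ih => rw [pow_succ, πm, ih, succ_nsmul]
  have o1 : ∀ a b, om (π (D.α a)) (π (D.α b)) = om (π a) (π b) := fun a b => by
    simp only [πα, om]; ring
  have o2 : ∀ (j : ℤ) a b, om (π ((D.α ^ j) a)) (π ((D.α ^ j) b)) = om (π a) (π b) := fun j => by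
    induction j using Int.induction_on with
    | zero => simp
    | succ i ih => intro a b; rw [zpow_add_one, MulAut.mul_apply, MulAut.mul_apply, ih, o1]
    | pred i ih =>
      intro a b
      rw [zpow_sub_one, MulAut.mul_apply, MulAut.mul_apply, ih, ← o1]
      simp
  obtain ⟨C0, hC0⟩ := area (G := N) (Ω := L) (fun g z => g.1.1 z) (fun _ => rfl) (fun _ _ _ => rfl)
    (fun g z => if z ∈ O then π (D.c0 g.1 z) else 0) (fun g h z => by
      by_cases hz : z ∈ O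
      · rw [if_pos hz, if_pos hz, if_pos ((h.1.2.1.2 z).2 hz), ← πm]
        exact congrArg π (c0_mul g.1 h.1 hz)
      · rw [if_neg hz, if_neg hz, if_neg (mt (h.1.2.1.2 z).1 hz), add_zero]) (fun g h => by
      obtain ⟨C, hC⟩ := (h.1.2.2.2.2.image fun q : X =>
        |om (π (D.c0 g.1 (h.1.1 q.1))) (π (D.c0 h.1 q.1))|).bddAbove
      refine ⟨max C 0, fun z => ?_⟩
      by_cases hz : z ∈ O
      · have hz' : nrm z ∈ O := O_zpow hz _
        obtain ⟨j, hj⟩ := (nrm_eq (z := z) (nrm_k z)).1 rfl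
        rw [if_pos hz, if_pos ((h.1.2.1.2 z).2 hz), hj, CL.zpow h.1.2.1.1, c0_zpow _ hz',
          c0_zpow _ ((h.1.2.1.2 _).2 hz'), o2]
        by_cases hr : Reg h.1.1 (nrm z)
        · rw [(c0_eq_one _ hz').2 hr, π1]; simp [om]
        · exact (hC ⟨⟨nrm z, hz', nrm_k z⟩, hr, rfl⟩).trans (le_max_left _ _)
      · rw [if_neg hz]; simp [om]) f S hS
  obtain ⟨q⟩ : Nonempty X := inferInstance
  obtain ⟨t, ht, ht1⟩ := exists_t {q}
  replace ht1 := ht1 q (by simp)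
  obtain ⟨l, hl⟩ := eventually_atTop.1 ((ev_at q.2.1 0).and (ev_t ht q.2.1 ht1))
  obtain ⟨σ, hσ⟩ := D.exists_sigma_at q.2.1 (n := l) fun i hi => (hl i hi).1.1
  have hP : ∀ a, (∀ i, ∃ e : ℤ, D.ev i a = x0 ^ e) → ∀ r : ℕ, Pw x0 q.1 l (σ (a ^ r)).1 :=
    fun a ha r => ⟨(σ _).2.1.1, fun i hi => by
      obtain ⟨e, he⟩ := ha i
      refine ⟨e * r, fun w h1 h2 => ?_⟩
      rw [(hσ _).2.2.2.1 i hi w ⟨h1, by rw [h2]; decide⟩, map_pow, he, zpow_mul, zpow_natCast],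
      (hσ _).2.2.2.2⟩
  let t' : D.G := ⟨t, D.B_le ht⟩
  have hq' := (O_lam q.2.1).1
  have hcj : ∀ (g : D.G) (j : ℕ), Pw x0 q.1 l g.1 → g.1 q.1 = q.1 →
      Pw x0 q.1 l ((t' ^ j)⁻¹ * g * t' ^ j).1 ∧ ((t' ^ j)⁻¹ * g * t' ^ j).1 q.1 = q.1 ∧
      D.c0 ((t' ^ j)⁻¹ * g * t' ^ j) q.1 = (D.α ^ j) (D.c0 g q.1) := fun g j h1 h2 => by
    induction j with
    | zero => simpa using ⟨h1, h2⟩
    | succ j ih =>
      rw [show (t' ^ (j+1))⁻¹ * g * t' ^ (j+1) = t'⁻¹ * ((t' ^ j)⁻¹ * g * t' ^ j) * t' by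
        rw [pow_succ]; group]
      obtain ⟨h3, h4, h5⟩ := ih
      generalize (t' ^ j)⁻¹ * g * t' ^ j = y at h3 h4 h5
      have h6 : y.1 (lam q.1) = lam q.1 := by rw [mem_CL.1 y.2.1.1, h4]
      refine ⟨Pw.conj q.2.2 (fun i hi => (hl i hi).1.1) (B.cl ht) (fun i hi => (hl i hi).2) h3,
        ?_, ?_⟩
      · show t⁻¹ (y.1 (t q.1)) = q.1
        rw [ht1, h6, ← ht1, RelIso.inv_apply_self]
      · have h7 : D.c0 y (lam q.1) = D.α (D.c0 y q.1) := by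
          simpa only [zpow_one] using c0_zpow y q.2.1 1
        rw [c0_mul _ _ q.2.1, show t'.1 q.1 = lam q.1 from ht1, c0_mul _ _ hq', h6,
          (c0_eq_one t' q.2.1).2 (ht.1 _), (c0_eq_one t'⁻¹ hq').2 ((inv_mem ht.1 : t⁻¹ ∈ RA) _),
          h7, h5, one_mul, mul_one, pow_succ', MulAut.mul_apply]
  have hr : 1 ≤ N.index := Nat.pos_of_ne_zero Subgroup.FiniteIndex.index_ne_zero
  set r := N.index with hrd
  obtain ⟨T, hT⟩ := hf ⟨t' ^ r, N.pow_index_mem _⟩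
  obtain ⟨A, hA⟩ := hf ⟨σ (a0 ^ r), by rw [map_pow]; exact N.pow_index_mem _⟩
  obtain ⟨Y, hY⟩ := hf ⟨σ (b0 ^ r), by rw [map_pow]; exact N.pow_index_mem _⟩
  have hgrow : ∀ j : ℕ, 2 ^ j ≤ (π ((D.α ^ j) (a0 ^ r))).1 ∧ 0 ≤ (π ((D.α ^ j) (a0 ^ r))).2 := by
    intro j
    induction j with
    | zero => simpa [πp, ha0] using hr
    | succ j ih =>
      have : (0 : ℤ) < 2 ^ j := by positivity
      rw [pow_succ' D.α, MulAut.mul_apply, πα, pow_succ]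
      constructor <;> simp only <;> omega
  refine ⟨C0 + 4 * T.norm + 2 * A.norm + 2 * Y.norm, fun j => ?_⟩
  have hX : (f ((T ^ j)⁻¹ * A * T ^ j)).1 = (t' ^ (r * j))⁻¹ * σ (a0 ^ r) * t' ^ (r * j) := by
    simp only [map_mul, map_inv, map_pow f, hT, hA, pow_mul]; rfl
  obtain ⟨h1, h2, h3⟩ := hcj (σ (a0 ^ r)) (r * j) (hP a0 ea r) (hσ _).1
  rw [← hX] at h1 h2 h3
  have hY' : (f Y).1 = σ (b0 ^ r) := by rw [hY]
  have n1 : ((T ^ j)⁻¹ * A * T ^ j).norm ≤ 2 * (j * T.norm) + A.norm := by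
    have := FreeGroup.norm_mul_le ((T ^ j)⁻¹ * A) (T ^ j)
    have := FreeGroup.norm_mul_le (T ^ j)⁻¹ A
    have := norm_pow_le T j
    rw [FreeGroup.norm_inv_eq] at *
    omega
  generalize (T ^ j)⁻¹ * A * T ^ j = W at h1 h2 h3 n1
  refine ⟨W * Y * W⁻¹ * Y⁻¹, ?_, ?_, fun l hl e => ?_⟩
  · have : f W * f Y = f Y * f W := Subtype.ext (Subtype.ext
      (Pw.comm hx q.2.2 h1 (hY' ▸ hP b0 eb r)))
    rw [MonoidHom.mem_ker, map_mul, map_mul, map_mul, this, map_inv, map_inv]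
    group
  · have := FreeGroup.norm_mul_le (W * Y * W⁻¹) Y⁻¹
    have := FreeGroup.norm_mul_le (W * Y) W⁻¹
    have := FreeGroup.norm_mul_le W Y
    rw [FreeGroup.norm_inv_eq] at *
    nlinarith [Nat.zero_le (C0 * j), Nat.zero_le (A.norm * j), Nat.zero_le (Y.norm * j)]
  · have h4 := hC0 W Y q.1 h2 (by rw [hY']; exact (hσ _).1) l hl e
    simp only [if_pos q.2.1] at h4
    rw [h3, hY', (hσ _).2.1, (hσ _).2.1, πp b0, hb0] at h4
    have h5 := (hgrow (r * j)).1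
    have h6 : (2 : ℤ) ^ j ≤ 2 ^ (r * j) := pow_le_pow_right₀ (by norm_num) (Nat.le_mul_of_pos_left _ hr)
    have h7 : (1 : ℤ) ≤ r := by exact_mod_cast hr
    have h8 : (0 : ℤ) < 2 ^ j := by positivity
    have h9 := (le_abs_self _).trans h4
    simp only [om, Prod.smul_mk, nsmul_eq_mul, mul_zero, mul_one, sub_zero] at h9
    have h10 : (2 : ℤ) ^ j ≤ C0 * l.length := by nlinarith
    have h11 : 2 ^ j ≤ C0 * l.length := by exact_mod_cast h10
    exact h11.trans (Nat.mul_le_mul_right _ (by omega))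

end Dx

end Pool.Agent.P.MP_267653_al
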