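import Pool.Agent.P.MP_267653_al.DG

/-! Simple left-orderable groups with prescribed finiteness length and large Dehn function. -/

set_option autoImplicit false

namespace Pool.Agent.P.MP_267653_al

open Function Filter Pool.Agent.Lib.Brown

/-- words of linear length and exponential area, for any finite set of relators -/
def Exp (G : Type) [Group G] : Prop :=
  ∀ (k : ℕ) (f : FreeGroup (Fin k) →* G) (S : Finset (FreeGroup (Fin k))), Surjective f →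
    (∀ r ∈ S, f r = 1) → ∃ C : ℕ, ∀ j : ℕ, ∃ w ∈ f.ker, w.norm ≤ C * j + C ∧
      ∀ l : List (FreeGroup (Fin k) × FreeGroup (Fin k)), (∀ p ∈ l, p.2 ∈ S ∨ p.2⁻¹ ∈ S) →
        w = (l.map fun p => p.1 * p.2 * p.1⁻¹).prod → 2 ^ j ≤ C * l.length

/-- an exponentially distorted infinite cyclic subgroup -/
def Dis (G : Type) [Group G] : Prop :=
  ∃ z : G, ¬ IsOfFinOrder z ∧ ∀ (k : ℕ) (f : FreeGroup (Fin k) →* G), Surjective f →
    ∃ C : ℕ, ∀ j : ℕ, ∃ (n : ℕ) (w : FreeGroup (Fin k)),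
      2 ^ j ≤ n ∧ f w = z ^ n ∧ w.norm ≤ C * j + C

theorem fn_int {m : ℕ} (hm : 1 ≤ m) : Fn (Multiplicative ℤ) m :=
  Asc.fn_self
    { χ := Multiplicative.toAdd
      t := Multiplicative.ofAdd 1
      A := ⊥
      χ_mul := fun _ _ => rfl
      χ_t := rfl
      χ_A := fun a ha => by rw [Subgroup.mem_bot.1 ha]; rfl
      conj := fun a ha => by rw [Subgroup.mem_bot.1 ha]; simp
      exh := fun g hg => ⟨0, by simpa using hg⟩ } hm (fn_of_subsingleton m)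

/-- the hyperbolic automorphism of the plane lattice -/
def hyp : MulAut (Multiplicative ℤ × Multiplicative ℤ) where
  toFun v := (v.1 * v.1 * v.2, v.1 * v.2)
  invFun v := (v.1 * v.2⁻¹, v.1⁻¹ * v.2 * v.2)
  left_inv v := Prod.ext (Multiplicative.toAdd.injective (by simp))
    (Multiplicative.toAdd.injective (by simp; ring))
  right_inv v := Prod.ext (Multiplicative.toAdd.injective (by simp; ring))
    (Multiplicative.toAdd.injective (by simp; ring))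
  map_mul' v w := Prod.ext (Multiplicative.toAdd.injective (by simp; ring))
    (Multiplicative.toAdd.injective (by simp; ring))

theorem core {H1 : Type} [Group H1] (β : MulAut H1) (hβ : IsOfFinOrder β) (ev1 : ℕ → H1 →* Au)
    {w1 : L} {c : ZMod 2} (hw1 : EC c w1) (l0 : w0 ≤ w1) (l1 : w1 < st 1)
    (hmem : ∀ n a, ev1 n a ∈ F w0 w1) (hα : ∀ n a, ev1 (n+1) (β a) = ev1 n a)
    (hinj : ∀ a b, (∀ᶠ n in atTop, ev1 n a = ev1 n b) → a = b)
    (hab : ∀ (C : Type) [CommGroup C] [IsMulTorsionFree C] (ψ : H1 →* C),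
      (∀ a, ψ (β a) = ψ a) → ∀ a, ψ a = 1) (h1 : Fn H1 1) :
    ∃ (G : Type) (_ : Group G) (N : Subgroup G) (φ : N →* Au), N.FiniteIndex ∧ Injective φ ∧
      IsSimpleGroup N ∧ (Exp N ∧ Dis N) ∧ (∀ m, 1 ≤ m → Fn H1 m → Fn N m) ∧
      ∃ (κ : G → H1) (σ : H1 →* G),
        (∀ s, (Set.range fun g => (κ g)⁻¹ * κ (g * s)).Finite) ∧ ∀ h, κ (σ h) = h := by
  obtain ⟨s1, hs1, k1, k2⟩ := hw1.ns.dens l1 0
  obtain ⟨s2, hs2, k3, k4⟩ := hs1.ns.dens k2 0
  obtain ⟨u, hu, k5, k6⟩ := hs1.ns.dens k3 0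
  obtain ⟨u', hu', l4, l5⟩ := hu.ns.dens k6 0
  obtain ⟨x0, hx0, e0⟩ := move_in hs1 hs2 hu hu' k5 k6 (k5.trans l4) l5
  obtain ⟨f0, hf0, e1⟩ := move_in hw1 (EC.st 1) hs1 hs2 k1 k2 (k1.trans k3) k4
  have l2 := k1.trans k5
  have l3 := k6.trans k4
  have hx1 : x0 ∈ Sp w1 (st 1) := Sp.mono k1.le k4.le hx0.2
  have hcm : ∀ n a (j : ℤ), Commute (ev1 n a) (x0 ^ j) := fun n a j =>
    commute_of_fix fun w => (le_or_gt w1 w).imp (fun h => (hmem n a).2 w (Or.inr h))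
      fun h => (zpow_mem hx1 j : x0 ^ j ∈ Sp w1 (st 1)) w (Or.inl h)
  have hx : x0 ∈ F w0 (st 1) := ⟨hx0.1, Sp.mono l0 le_rfl hx1⟩
  let ev : ℕ → H1 × (Multiplicative ℤ × Multiplicative ℤ) →* Au := fun n => MonoidHom.mk'
    (fun a => ev1 n a.1 * x0 ^ ((hyp⁻¹ ^ n) a.2).1.toAdd) fun a b => by
      simp only [Prod.fst_mul, Prod.snd_mul, map_mul, toAdd_mul, zpow_add, mul_assoc]
      rw [← mul_assoc (ev1 n b.1), (hcm n b.1 _).eq, mul_assoc]
  have hev : ∀ n a, ev n a = ev1 n a.1 * x0 ^ ((hyp⁻¹ ^ n) a.2).1.toAdd := fun _ _ => rfl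
  have hone : ∀ n a, ev n a = 1 → ev1 n a.1 = 1 ∧ ((hyp⁻¹ ^ n) a.2).1.toAdd = 0 := fun n a h => by
    rw [hev] at h
    have h2 := congrArg (· u) h
    simp only [RelIso.mul_apply, RelIso.one_apply] at h2
    rw [(hmem n a.1).2 _ (Or.inr (Sp.maps (zpow_mem hx1 _) l2.le l3).1)] at h2
    have h3 := zpow_ne (e0 ▸ l4) h2
    rw [h3] at h
    exact ⟨by simpa using h, h3⟩
  let D : Dx (H1 × (Multiplicative ℤ × Multiplicative ℤ)) :=
    { α := MulEquiv.prodCongr β hyp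
      ev := ev
      ev_mem := fun n a => mul_mem ⟨(hmem n a.1).1, Sp.mono le_rfl l1.le (hmem n a.1).2⟩
        (zpow_mem hx _)
      ev_α := fun n a => by
        rw [hev, hev]
        show ev1 (n+1) (β a.1) * x0 ^ ((hyp⁻¹ ^ (n+1)) (hyp a.2)).1.toAdd = _
        rw [hα, pow_succ, MulAut.mul_apply, MulAut.inv_apply_self]
      ev_inj := fun a b h => by
        have h2 : ∀ᶠ n in atTop, ev n (a⁻¹ * b) = 1 := h.mono fun n h => by
          rw [map_mul, map_inv, h, inv_mul_cancel]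
        rw [← inv_mul_eq_one]
        generalize a⁻¹ * b = d at h2
        refine Prod.ext (hinj _ _ (h2.mono fun n h => by rw [(hone n d h).1]; simp)) ?_
        obtain ⟨n, hn⟩ := eventually_atTop.1 h2
        have h3 := (hone _ d (hn n le_rfl)).2
        have h4 := (hone _ d (hn (n+1) (by omega))).2
        rw [pow_succ', MulAut.mul_apply] at h4
        refine (hyp⁻¹ ^ n).injective ?_
        rw [Prod.snd_one, map_one]
        generalize (hyp⁻¹ ^ n) d.2 = y at h3 h4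
        have h5 : y.1.toAdd - y.2.toAdd = 0 := h4
        exact Prod.ext h3 (show y.2.toAdd = 0 by omega) }
  have hα1 : ∀ a, D.α a = (β a.1, hyp a.2) := fun _ => rfl
  have hFn : ∀ m, 1 ≤ m → Fn H1 m → Fn D.G m := fun m hm h =>
    D.fn_G hm (h.prod ((fn_int hm).prod (fn_int hm)))
  have hfg := (hFn 1 le_rfl h1).1.fg
  have hfi : (commutator D.G).FiniteIndex := finiteIndex_commutator fun C _ _ ψ =>
    D.hom_G (fun ψ hψ a => by
      have e1 : ψ (a.1, 1) = 1 := hab C (ψ.comp (MonoidHom.inl _ _)) (fun a => by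
        have := hψ (a, 1)
        rwa [hα1, map_one] at this) a.1
      have e2 := hψ (1, (a.2.2, a.2.1 * a.2.2⁻¹))
      rw [hα1, map_one, show ((1, hyp (a.2.2, a.2.1 * a.2.2⁻¹)) : H1 × _) =
        (1, a.2) * (1, (a.2.2, a.2.1 * a.2.2⁻¹)) from Prod.ext (by simp) (Prod.ext
          (Multiplicative.toAdd.injective (by simp [hyp]; ring))
          (Multiplicative.toAdd.injective (by simp [hyp]))), map_mul, mul_eq_right] at e2
      rw [show a = (a.1, 1) * (1, a.2) by simp, map_mul, e1, e2, one_mul]) ψ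
  have hne : commutator D.G ≠ ⊥ := fun h => by
    rw [h] at hfi
    have : Finite D.G := Nat.finite_of_card_ne_zero (by simpa using hfi.index_ne_zero)
    obtain ⟨σ, hσ⟩ := D.exists_sigma (O_pt 0) (Eventually.of_forall fun _ => trivial)
    have h2 : Injective fun j : Multiplicative ℤ => σ (1, (j, 1)) := fun i j e => by
      have := (hσ (1, (i, 1))).2.1.symm.trans ((congrArg (D.c0 · _) e).trans (hσ _).2.1)
      exact congrArg (fun y => y.2.1) this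
    exact not_finite_iff_infinite.2 (inferInstanceAs (Infinite (Multiplicative ℤ)))
      (Finite.of_injective _ h2)
  refine ⟨D.G, inferInstance, commutator D.G, D.G.subtype.comp (Subgroup.subtype _), hfi,
    Subtype.val_injective.comp Subtype.val_injective, D.simple_G hne, ⟨fun k f S hf hS => ?_, ?_⟩,
    fun m hm h => (hFn m hm h).subgroup _, D.quasi (MonoidHom.fst _ _) (MonoidHom.inl _ _)
      (fun _ => rfl) β hβ fun j => ?_⟩
  · refine D.dehn (x0 := x0) (fun a => (a.2.1.toAdd, a.2.2.toAdd)) (fun _ _ => rfl) (fun a => ?_) hx.2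
      (1, (Multiplicative.ofAdd 1, 1)) (1, (1, Multiplicative.ofAdd 1)) rfl rfl
      (fun i => ⟨_, (hev i _).trans (by rw [map_one, one_mul])⟩)
      (fun i => ⟨_, (hev i _).trans (by rw [map_one, one_mul])⟩) _ f hf S hS
    rw [hα1, two_mul]; rfl
  · have hg : ∀ i : ℕ, ((hyp⁻¹ ^ i) (1, Multiplicative.ofAdd 1)).1.toAdd ≤ 0 ∧
        2 ^ i ≤ ((hyp⁻¹ ^ i) (1, Multiplicative.ofAdd 1)).2.toAdd := fun i => by
      induction i with
      | zero => simp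
      | succ i ih =>
        have : (0 : ℤ) < 2 ^ i := by positivity
        rw [pow_succ' hyp⁻¹, MulAut.mul_apply, pow_succ]
        generalize (hyp⁻¹ ^ i) (1, Multiplicative.ofAdd 1) = y at ih
        exact ⟨show y.1.toAdd - y.2.toAdd ≤ 0 by omega,
          show 2 ^ i * 2 ≤ -y.1.toAdd + y.2.toAdd + y.2.toAdd by omega⟩
    refine D.dist hx0 ⟨hf0.1, Sp.mono l0 le_rfl hf0.2⟩ (l0.trans k1.le) k5.le (e0 ▸ l4) k6 k4.le
      e1.ge (1, (1, Multiplicative.ofAdd 1))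
      (fun i => ((hyp⁻¹ ^ i) (1, Multiplicative.ofAdd 1)).1.toAdd)
      (fun i => (hev i _).trans (by rw [map_one, one_mul])) (fun i => ?_) _
    have := hg i
    rw [pow_succ' hyp⁻¹, MulAut.mul_apply]
    generalize (hyp⁻¹ ^ i) (1, Multiplicative.ofAdd 1) = y at this
    exact le_trans (show 2 ^ i ≤ -(y.1.toAdd - y.2.toAdd) by omega) (neg_le_abs _)
  · induction j using Int.induction_on with
    | zero => exact fun _ => rfl
    | succ i ih => intro a; rw [zpow_add_one, zpow_add_one, MulAut.mul_apply, MulAut.mul_apply, ih]; rfl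
    | pred i ih => intro a; rw [zpow_sub_one, zpow_sub_one, MulAut.mul_apply, MulAut.mul_apply, ih]; rfl

theorem w0_w1 : w0 ≤ (⟨0, cons 2 (cons 2 z0)⟩ : L) :=
  le_of_lt (L.lt_iff.2 (Or.inr ⟨rfl, 1, by decide, by decide⟩))

theorem main_inf : ∃ (G : Type) (_ : Group G) (φ : G →* Au), Injective φ ∧
    IsSimpleGroup G ∧ (Exp G ∧ Dis G) ∧ ∀ m, Fn G m := by
  obtain ⟨G, _, N, φ, -, h1, h2, h3, h4, -⟩ := core (H1 := PUnit) 1 IsOfFinOrder.one (fun _ => 1)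
    (show EC 0 (⟨0, cons 2 (cons 2 z0)⟩ : L) from ⟨(0, [2, 2]), rfl, rfl⟩) w0_w1
    (lt_st.2 (by simp)) (fun _ _ => one_mem _) (fun _ _ => rfl) (fun _ _ _ => rfl)
    (fun C _ _ ψ _ a => map_one ψ) (fn_of_subsingleton 1)
  exact ⟨N, inferInstance, φ, h1, h2, h3, fun m =>
    (h4 (m+1) (by omega) (fn_of_subsingleton _)).mono (by omega)⟩

theorem main_fin {m : ℕ} (hm : 1 ≤ m) : ∃ (G : Type) (_ : Group G) (φ : G →* Au), Injective φ ∧
    IsSimpleGroup G ∧ (Exp G ∧ Dis G) ∧ Fn G m ∧ ¬ FPG G (m+1) := by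
  obtain ⟨c0, -, -⟩ := (show Cht (fun w => ⟨0, w⟩) (st 0) (st (0+1)) from
    ⟨1, one_mem _, 0, fun _ => rfl, rfl, rfl⟩).child
  have hx0 := c0.ec (EC.st 0)
  obtain ⟨y0, y1, c1, r1, r2, -⟩ := c0.rf
  obtain ⟨d0, hy0⟩ := c1.E
  have l0 := c0.lt
  have l1 : (⟨0, cons 1 z0⟩ : L) < st 1 := lt_st.2 (by simp)
  generalize (⟨0, cons 1 z0⟩ : L) = x0 at hx0 r2 l0 l1
  obtain ⟨x1, hx1, l2, l3⟩ := hx0.ns.dens l1 ((0 : ℤ) + 1)
  obtain ⟨t0, ht0, e0⟩ := move_in (EC.st 0) (EC.st 1) hx0 hx1 l0 l1 (l0.trans l2) l3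
  have ht1 : tau t0 ∈ F (st 1) (st 2) := ⟨tau_ra ht0.1, (rf_st 0).sp (rf_st 1) ht0.2⟩
  have hcm : Commute t0 (tau t0) := commute_of_fix fun w => (le_or_gt (st 1) w).imp
    (fun h => ht0.2 w (Or.inr h)) fun h => ht1.2 w (Or.inl h)
  have hτt : tau (t0 * tau t0) = t0 * tau t0 := by rw [map_mul, tau_tau, hcm.eq]
  have ht : t0 * tau t0 ∈ F (st 0) (st 2) :=
    mul_mem ⟨ht0.1, Sp.mono le_rfl (st_le.2 (by simp)) ht0.2⟩
      ⟨ht1.1, Sp.mono (st_le.2 (by simp)) le_rfl ht1.2⟩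
  have l4 : x0 < (t0 * tau t0) x0 := by rwa [RelIso.mul_apply, ht1.2 x0 (Or.inl l1), e0]
  generalize t0 * tau t0 = t at hτt ht l4
  have l5 : t y0 < y0 := r2.lt (by simpa only [hτt] using r2.map t) l4
  have l6 : y0 < st 2 := (rf_st 0).lt r2 l0
  have l7 : st 1 < y0 := r2.lt (rf_st 1) l1
  have hconj : ∀ a ∈ F x0 y0, t * a * t⁻¹ ∈ F (t x0) (t y0) := fun a ha =>
    ⟨mul_mem (mul_mem ht.1 ha.1) (inv_mem (S := Subgroup Au) ht.1), Sp.conj ha.2 t⟩
  obtain ⟨Γ, 𝒟, d1, d2, d3, d4, d5⟩ := exists_asc (F x0 y0) t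
    (fun a ha => ⟨(hconj a ha).1, Sp.mono l4.le l5.le (hconj a ha).2⟩)
    (fun j hj => by
      have h1 : ∀ n : ℕ, x0 < (t ^ (n+1)) x0 := fun n => by
        induction n with
        | zero => simpa using l4
        | succ n ih => rw [pow_succ']; exact l4.trans (t.strictMono ih)
      have h2 := Sp.lo hj.2
      rcases j with (_ | n) | n
      · rfl
      · exact absurd h2 (h1 n).ne'
      · rw [zpow_negSucc] at h2
        exact absurd (by nth_rewrite 1 [← h2]; simp) (h1 n).ne')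
    tau hτt fun a ha => ⟨tau_ra ha.1, r2.sp r2.symm ha.2⟩
  let τ : Γ →* Γ := (tau.comp Γ.subtype).codRestrict Γ fun g => (d5 g).1
  obtain ⟨α, ev, a1, a2, a3, a4⟩ := exists_twist 𝒟 τ (fun g => Subtype.ext (tau_tau _))
    (fun g => (d5 g).2) (m+1)
  have hw1 : EC 0 (⟨0, cons 2 (cons 2 z0)⟩ : L) := ⟨(0, [2, 2]), rfl, rfl⟩
  obtain ⟨e, he, e1, e2⟩ := key (EC.st 0) (show EC _ w0 from ⟨(0, [2]), rfl, rfl⟩) (EC.st 2) hw1
    (lt_st.2 (by simp)) (L.lt_iff.2 (Or.inr ⟨rfl, 1, by decide, by decide⟩))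
  have hΓ := d4 (F (st 0) (st 2)) (fun a ha => ⟨ha.1, Sp.mono l0.le l6.le ha.2⟩) ht
  have hAΓ : F x0 y0 ≤ Γ := fun g hg => (d3 0 g (by simpa using hg)).1
  have hA : Fn 𝒟.A m := by
    rw [show 𝒟.A = (F x0 y0).subgroupOf Γ from Subgroup.ext d2]
    exact (fn_F hx0 hy0 m).equiv (Subgroup.subgroupOfEquivOfLe hAΓ).symm
  have hH := 𝒟.fn_Hk (ι := Fin (m+1+1)) hm hA (by simp)
  obtain ⟨G, _, N, φ, hfi, g1, g2, g3, g4, κ, σ, h1, h2⟩ := core α
    (isOfFinOrder_iff_pow_eq_one.2 ⟨2 * (m+1+1), by omega, a2⟩)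
    (fun n => ((MulAut.conj e).toMonoidHom.comp Γ.subtype).comp (ev n)) hw1 w0_w1
    (lt_st.2 (by simp))
    (fun n a => ⟨mul_mem (mul_mem he (hΓ (ev n a).2).1) (inv_mem (S := Subgroup Au) he),
      Sp.mono e1.ge e2.le (Sp.conj (hΓ (ev n a).2).2 e)⟩)
    (fun n a => by simp only [MonoidHom.comp_apply, a1])
    (fun a b h => a3 a b (h.mono fun n h => Subtype.ext ((MulAut.conj e).injective h)))
    (fun C _ _ =>
    a4 C fun N hN ψ hψ a => by
      obtain ⟨i, hi⟩ := 𝒟.exh a ((hN a).1 a.2)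
      let ι : F x0 y0 →* N := ((MulAut.conj (𝒟.t ^ (i+1))⁻¹).toMonoidHom.comp
        (Subgroup.inclusion hAΓ)).codRestrict N fun b => (hN _).2 (by
          have : 𝒟.χ (Subgroup.inclusion hAΓ b) = 0 := 𝒟.χ_A _ ((d2 _).2 b.2)
          show 𝒟.χ ((𝒟.t ^ (i+1))⁻¹ * Subgroup.inclusion hAΓ b * (𝒟.t ^ (i+1))⁻¹⁻¹) = 0
          simp [𝒟.χ_mul, this])
      have h1 := hconj _ ((d2 _).1 hi)
      have := hom_A hx0 hy0 (hx0.ra ht.1) (hy0.ra ht.1) r2 l4 l5 (ψ.comp ι) (fun b b' h =>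
        hψ _ _ (Subtype.ext (by
          show (𝒟.t ^ (i+1)).1⁻¹ * b'.1 * (𝒟.t ^ (i+1)).1⁻¹⁻¹ =
            tau ((𝒟.t ^ (i+1)).1⁻¹ * b.1 * (𝒟.t ^ (i+1)).1⁻¹⁻¹)
          simp [h, d1, hτt]))) ⟨_, h1.1, Sp.mono l4.le l5.le h1.2⟩ h1
      rw [← this]
      refine congrArg ψ (Subtype.ext (Subtype.ext ?_))
      show _ = (𝒟.t ^ (i+1)).1⁻¹ * (t * (𝒟.t ^ i * a.1 * (𝒟.t ^ i)⁻¹).1 * t⁻¹) * (𝒟.t ^ (i+1)).1⁻¹⁻¹
      simp only [Subgroup.coe_mul, Subgroup.coe_pow, Subgroup.coe_inv, d1]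
      group) (hH.mono hm)
  have hnot : ¬ FPG G (m+1) := by
    obtain ⟨u, hu, l8, l9⟩ := hx0.ns.dens (lt_min l4 (l1.trans l7)) 0
    obtain ⟨u', hu', l10, l11⟩ := hu.ns.dens l9 0
    rw [lt_min_iff] at l9 l11
    obtain ⟨a, ha, e3⟩ := move_in hx0 hy0 hu hu' l8 l9.2 (l8.trans l10) l11.2
    obtain ⟨h3, h4⟩ := d3 1 (t⁻¹ * a * t) (by simpa [mul_assoc] using ha)
    refine 𝒟.not_fpg (by simp) _ h4 (fun h => ?_) κ h1 σ h2
    have := ((d2 _).1 h).2 (t⁻¹ u) (Or.inl (t.symm_apply_lt.2 l9.1))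
    simp [e3, l10.ne'] at this
  exact ⟨N, inferInstance, φ, g1, g2, g3, g4 m hm hH, fun h => hnot (FPG.of_finiteIndex _ h)⟩

end Pool.Agent.P.MP_267653_al
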