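import Pool.Agent.P.MP_267653_al.DE

/-! An exponentially distorted cyclic subgroup of the germ extension. -/

set_option autoImplicit false

namespace Pool.Agent.P.MP_267653_al

open Function Filter Pool.Agent.Lib.Brown

variable {q : L} {l : ℕ}

theorem exists_theta (hq : q.k = 0) (hat : At q l (ad q l)) : ∃ Θ : F w0 (st 1) →* B,
    (∀ g (w : L), w.k = 0 → w.s 0 = 2 → (Θ g).1 (gm q l w) = gm q l (g.1 w)) ∧
    ∀ (y : Au) (s g : F w0 (st 1)), y ∈ CL →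
      (∀ w : L, w.k = 0 → w.s 0 = 2 → y (gm q l w) = gm q l (s.1 w)) →
      y * (Θ g).1 = (Θ (s * g * s⁻¹)).1 * y := by
  obtain ⟨b, hb, hb'⟩ := hat.ra
  have hk : ∀ w, (gm q l w).k = 0 := fun w => (congrArg L.k hat.2).symm.trans hq
  have hΓ : ∀ z : L, z.k = 0 → (b * lam ^ l) z = gm q l z := fun z hz => by
    rw [gm, ← hb', RelIso.mul_apply, lam_pow_apply, hz, zero_add]
  have hs : ∀ g ∈ RA, (b * lam ^ l) * g * (b * lam ^ l)⁻¹ ∈ RA := fun g hg => by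
    have := mul_mem (mul_mem hb (ra_conj hg (l : ℕ))) (inv_mem hb)
    rwa [zpow_natCast, show b * (lam ^ l * g * (lam ^ l)⁻¹) * b⁻¹ =
      (b * lam ^ l) * g * (b * lam ^ l)⁻¹ by group] at this
  generalize b * lam ^ l = Γ at hΓ hs
  have hfix : ∀ (g : F w0 (st 1)) (z : L), (∀ w : L, w.k = 0 → w.s 0 = 2 → z ≠ gm q l w) →
      (Γ * g.1 * Γ⁻¹) z = z := fun g z h => by
    obtain ⟨w, rfl⟩ := Γ.surjective z
    show Γ (g.1 (Γ⁻¹ (Γ w))) = Γ w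
    rw [RelIso.inv_apply_self, g.2.2 w]
    by_contra h1
    rw [not_or, not_lt, not_le] at h1
    exact h w (mem_w0.1 h1).1 (mem_w0.1 h1).2 (hΓ w (mem_w0.1 h1).1)
  obtain ⟨P, hP⟩ := exists_perB (EC.st 0)
  let T : F w0 (st 1) →* F (st 0) (lam (st 0)) :=
    ((MulAut.conj Γ).toMonoidHom.comp (Subgroup.subtype _)).codRestrict _ fun g =>
      ⟨hs _ g.2.1, fun z hz => hfix g z fun w _ _ e => by
        rw [lam_st, lt_st, st_le, e, hk] at hz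
        omega⟩
  have h0 : ∀ g (z : L), z.k = 0 → (P (T g)).1 z = (Γ * g.1 * Γ⁻¹) z := fun g z hz =>
    hP _ z (st_le.2 hz.ge) (by rw [lam_st, lt_st]; omega)
  have hm : ∀ (g : F w0 (st 1)) (w : L), w.k = 0 → w.s 0 = 2 →
      (g.1 w).k = 0 ∧ (g.1 w).s 0 = 2 := fun g w h1 h2 =>
    mem_w0.1 (Sp.maps g.2.2 (mem_w0.2 ⟨h1, h2⟩).1 (mem_w0.2 ⟨h1, h2⟩).2)
  have h1 : ∀ g (w : L), w.k = 0 → w.s 0 = 2 → (P (T g)).1 (gm q l w) = gm q l (g.1 w) :=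
    fun g w e1 e2 => by
      rw [h0 _ _ (hk w), ← hΓ w e1, ← hΓ _ (hm g w e1 e2).1]
      show Γ (g.1 (Γ⁻¹ (Γ w))) = _
      rw [RelIso.inv_apply_self]
  refine ⟨P.comp T, h1, fun y s g hy hs' => ?_⟩
  have key : ∀ z : L, z.k = 0 → y ((P (T g)).1 z) = (P (T (s * g * s⁻¹))).1 (y z) := fun z hz => by
    by_cases e : ∃ w : L, w.k = 0 ∧ w.s 0 = 2 ∧ z = gm q l w
    · obtain ⟨w, e1, e2, rfl⟩ := e
      rw [h1 g w e1 e2, hs' _ (hm g w e1 e2).1 (hm g w e1 e2).2, hs' w e1 e2,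
        h1 _ _ (hm s w e1 e2).1 (hm s w e1 e2).2]
      show _ = gm q l (s.1 (g.1 (s.1⁻¹ (s.1 w))))
      rw [RelIso.inv_apply_self]
    · obtain ⟨j, hj⟩ := (nrm_eq (z := y z) (nrm_k _)).1 rfl
      rw [h0 g z hz, hfix g z fun w e1 e2 e3 => e ⟨w, e1, e2, e3⟩, hj,
        CL.zpow (B.cl (P _).2), h0 _ _ (nrm_k _), hfix _ _ fun w e1 e2 e3 => ?_]
      have h2 := hm s⁻¹ w e1 e2
      have h3 : z = (lam ^ j) (gm q l (s⁻¹.1 w)) := y.injective (by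
        rw [CL.zpow hy, hs' _ h2.1 h2.2, hj, e3]
        exact congrArg (fun w => (lam ^ j) (gm q l w)) (RelIso.apply_inv_self s.1 w).symm)
      have h4 := congrArg L.k h3
      rw [lam_zpow_k, hk, hz] at h4
      rw [show j = 0 by omega] at h3
      exact e ⟨_, h2.1, h2.2, h3⟩
  refine RelIso.ext fun z => ?_
  obtain ⟨j, hj⟩ := (nrm_eq (z := z) (nrm_k z)).1 rfl
  show y ((P (T g)).1 z) = (P (T (s * g * s⁻¹))).1 (y z)
  rw [hj, CL.zpow (B.cl (P _).2), CL.zpow hy, CL.zpow hy, CL.zpow (B.cl (P _).2), key _ (nrm_k z)]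

theorem zpow_ne {x0 : Au} {u : L} (h : u < x0 u) {j : ℤ} (e : (x0 ^ j) u = u) : j = 0 := by
  have h1 : ∀ n : ℕ, u < (x0 ^ (n+1)) u := fun n => by
    induction n with
    | zero => simpa using h
    | succ n ih => rw [pow_succ']; exact h.trans (x0.strictMono ih)
  rcases j with (_ | n) | n
  · rfl
  · exact absurd e (h1 n).ne'
  · rw [zpow_negSucc] at e
    exact absurd (by nth_rewrite 1 [← e]; simp) (h1 n).ne'

namespace Dx

variable {H : Type} [Group H] (D : Dx H)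

theorem dist {x0 f0 : Au} {s1 s2 u : L} (hx : x0 ∈ F s1 s2) (hf0 : f0 ∈ F w0 (st 1))
    (l0 : w0 ≤ s1) (l1 : s1 ≤ u) (l2 : u < x0 u) (l3 : u < s2) (l4 : s2 ≤ st 1) (l5 : s2 ≤ f0 s1)
    (b0 : H) (E : ℕ → ℤ) (eb : ∀ i, D.ev i b0 = x0 ^ E i) (hE : ∀ i, 2 ^ i ≤ |E (i+1)|)
    (N : Subgroup D.G) [N.Normal] [N.FiniteIndex] :
    ∃ z : N, ¬ IsOfFinOrder z ∧ ∀ (k : ℕ) (f : FreeGroup (Fin k) →* N), Surjective f →
      ∃ C : ℕ, ∀ j : ℕ, ∃ (n : ℕ) (w : FreeGroup (Fin k)),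
        2 ^ j ≤ n ∧ f w = z ^ n ∧ w.norm ≤ C * j + C := by
  obtain ⟨q⟩ : Nonempty X := inferInstance
  obtain ⟨t, ht, ht1⟩ := exists_t {q}
  replace ht1 := ht1 q (by simp)
  obtain ⟨l, hl⟩ := eventually_atTop.1 ((eventually_ge_atTop 1).and
    ((ev_at q.2.1 0).and (ev_t ht q.2.1 ht1)))
  obtain ⟨σ, hσ⟩ := D.exists_sigma_at q.2.1 (n := l) fun i hi => (hl i hi).2.1.1
  obtain ⟨Θ, θ1, θ2⟩ := exists_theta q.2.2 (hl l le_rfl).2.1.1
  have hr : 1 ≤ N.index := Nat.pos_of_ne_zero Subgroup.FiniteIndex.index_ne_zero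
  set r := N.index with hrd
  let Θ' : F w0 (st 1) →* D.G := (Subgroup.inclusion D.B_le).comp Θ
  let x : F w0 (st 1) := ⟨x0, hx.1, Sp.mono l0 l4 hx.2⟩
  let g : F w0 (st 1) := ⟨f0, hf0⟩ ^ r
  have hgN : Θ' g ∈ N := by rw [map_pow]; exact N.pow_index_mem _
  have l6 : s2 ≤ g.1 s1 := by
    have : ∀ n : ℕ, s2 ≤ (f0 ^ (n+1)) s1 := fun n => by
      induction n with
      | zero => simpa using l5
      | succ n ih => rw [pow_succ']; exact l5.trans (f0.monotone ((l1.trans l3.le).trans ih))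
    have h := this (r - 1)
    rwa [Nat.sub_add_cancel hr] at h
  have hx1 : x0 ∈ Sp s1 s2 := hx.2
  have hc : (g * x⁻¹ * g⁻¹).1 ∈ Sp (g.1 s1) (g.1 s2) := Sp.conj (inv_mem hx1) g.1
  have hcm : Commute x (g * x⁻¹ * g⁻¹) := Subtype.ext (commute_of_fix fun w =>
    (le_or_gt s2 w).imp (fun h => hx1 w (Or.inr h)) fun h => hc w (Or.inl (h.trans_le l6))).eq
  have hzN : Θ' (x * (g * x⁻¹ * g⁻¹)) ∈ N := by
    rw [show x * (g * x⁻¹ * g⁻¹) = x * g * x⁻¹ * g⁻¹ by group, map_mul, map_mul, map_mul, map_inv,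
      map_inv]
    exact mul_mem (‹N.Normal›.conj_mem _ hgN _) (inv_mem hgN)
  have hu := mem_w0.1 ⟨l0.trans l1, l3.trans_le l4⟩
  refine ⟨⟨_, hzN⟩, fun h => ?_, fun k f hf => ?_⟩
  · obtain ⟨n, hn, e⟩ := isOfFinOrder_iff_pow_eq_one.1 h
    have e1 : (Θ ((x * (g * x⁻¹ * g⁻¹)) ^ n)).1 = 1 := by
      rw [map_pow]; exact congrArg (fun y : N => y.1.1) e
    have e2 := θ1 ((x * (g * x⁻¹ * g⁻¹)) ^ n) u hu.1 hu.2
    rw [e1, hcm.mul_pow] at e2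
    have e3 : ((g * x⁻¹ * g⁻¹) ^ n).1 u = u := (pow_mem hc n) u (Or.inl (l3.trans_le l6))
    have e4 : gm q.1 l u = gm q.1 l ((x0 ^ (n : ℤ)) u) := by
      rw [zpow_natCast]
      exact e2.trans (congrArg (fun w => gm q.1 l ((x0 ^ n) w)) e3)
    have e5 := mem_w0.1 (Sp.maps (zpow_mem (Sp.mono l0 l4 hx1) (n : ℤ))
      (l0.trans l1) (l3.trans_le l4))
    have := zpow_ne l2 (gm_inj (hu.1.trans e5.1.symm) e4).symm
    omega
  let t' : D.G := ⟨t, D.B_le ht⟩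
  have hup : ∀ (j : ℕ) (y : D.G) (s : Au), (∀ w : L, w.k = 0 → w.s 0 = 2 →
      y.1 (gm q.1 (l + j) w) = gm q.1 (l + j) (s w)) → ∀ w : L, w.k = 0 → w.s 0 = 2 →
      (t' ^ j * y * (t' ^ j)⁻¹).1 (gm q.1 l w) = gm q.1 l (s w) := fun j => by
    induction j with
    | zero => intro y s h; simpa using h
    | succ j ih =>
      intro y s h
      rw [show t' ^ (j+1) * y * (t' ^ (j+1))⁻¹ = t' ^ j * (t' * y * t'⁻¹) * (t' ^ j)⁻¹ by
        rw [pow_succ]; group]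
      refine ih _ s fun w e1 e2 => lam.injective ?_
      have h3 := (hl (l + j) (by omega)).2.2
      have h4 : y.1 (gm q.1 (l + j + 1) w) = gm q.1 (l + j + 1) (s w) := h w e1 e2
      rw [← mem_CL.1 (t' * y * t'⁻¹).2.1.1, ← h3, ← h3, ← h4]
      show t (y.1 (t⁻¹ (t _))) = _
      rw [RelIso.inv_apply_self]
  obtain ⟨T, hT⟩ := hf ⟨t' ^ r, N.pow_index_mem _⟩
  obtain ⟨Y, hY⟩ := hf ⟨σ (b0 ^ r), by rw [map_pow]; exact N.pow_index_mem _⟩
  obtain ⟨A, hA⟩ := hf ⟨_, hgN⟩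
  refine ⟨4 * T.norm + 2 * A.norm + 2 * Y.norm, fun j => ?_⟩
  have hX : (f (T ^ j * Y * (T ^ j)⁻¹)).1 = t' ^ (r * j) * σ (b0 ^ r) * (t' ^ (r * j))⁻¹ := by
    simp only [map_mul, map_inv, map_pow f, hT, hY, pow_mul]; rfl
  have h1 := θ2 _ (x ^ (E (l + r * j) * r)) g (t' ^ (r * j) * σ (b0 ^ r) * (t' ^ (r * j))⁻¹).2.1.1
    (hup (r * j) (σ (b0 ^ r)) _ fun w e1 e2 => by
      rw [(hσ _).2.2.2.1 _ (by omega) w ⟨e1, by rw [e2]; decide⟩, map_pow, eb, zpow_mul,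
        zpow_natCast]; rfl)
  rw [← hX] at h1
  have n1 : (T ^ j * Y * (T ^ j)⁻¹).norm ≤ 2 * (j * T.norm) + Y.norm := by
    have := FreeGroup.norm_mul_le (T ^ j * Y) (T ^ j)⁻¹
    have := FreeGroup.norm_mul_le (T ^ j) Y
    have := norm_pow_le T j
    rw [FreeGroup.norm_inv_eq] at *
    omega
  generalize T ^ j * Y * (T ^ j)⁻¹ = W at h1 n1
  have h2 : f (W * A * W⁻¹ * A⁻¹) = ⟨_, hzN⟩ ^ (E (l + r * j) * r) := by
    have h3 : (f W).1 * Θ' g = Θ' (x ^ (E (l + r * j) * r) * g * (x ^ (E (l + r * j) * r))⁻¹) *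
      (f W).1 := Subtype.ext h1
    refine Subtype.ext ?_
    simp only [map_mul f, map_inv f, hA, Subgroup.coe_mul, Subgroup.coe_inv, Subgroup.coe_zpow]
    rw [h3, mul_inv_cancel_right, ← map_inv, ← map_mul, ← map_zpow, hcm.mul_zpow, conj_zpow]
    congr 1
    group
  have n2 : (W * A * W⁻¹ * A⁻¹).norm ≤ (4 * T.norm + 2 * A.norm + 2 * Y.norm) * j +
      (4 * T.norm + 2 * A.norm + 2 * Y.norm) := by
    have := FreeGroup.norm_mul_le (W * A * W⁻¹) A⁻¹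
    have := FreeGroup.norm_mul_le (W * A) W⁻¹
    have := FreeGroup.norm_mul_le W A
    rw [FreeGroup.norm_inv_eq] at *
    nlinarith [Nat.zero_le (A.norm * j), Nat.zero_le (Y.norm * j)]
  have h4 : 2 ^ j ≤ (E (l + r * j) * r).natAbs := by
    have h5 := (hl l le_rfl).1
    have h6 := hE (l + r * j - 1)
    rw [Nat.sub_add_cancel (by omega)] at h6
    have h7 : (2 : ℤ) ^ j ≤ 2 ^ (l + r * j - 1) := pow_le_pow_right₀ (by norm_num) (by
      have := Nat.le_mul_of_pos_left j hr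
      omega)
    have h8 : 2 ^ j ≤ (E (l + r * j)).natAbs := by
      have := h7.trans h6
      rw [← Int.natCast_natAbs] at this
      exact_mod_cast this
    rw [Int.natAbs_mul, Int.natAbs_natCast]
    exact h8.trans (Nat.le_mul_of_pos_right _ hr)
  generalize E (l + r * j) * r = e at h2 h4
  rcases Int.natAbs_eq e with h | h
  · exact ⟨_, _, h4, by rw [h2, ← zpow_natCast, ← h], n2⟩
  · refine ⟨_, (W * A * W⁻¹ * A⁻¹)⁻¹, h4, ?_, by rwa [FreeGroup.norm_inv_eq]⟩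
    rw [map_inv, h2, ← zpow_natCast, ← zpow_neg]
    congr 1
    omega

end Dx

end Pool.Agent.P.MP_267653_al
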