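import Pool.Agent.P.MP_267653_al.BM

/-! The finite germ extension `G`. -/

set_option autoImplicit false

namespace Pool.Agent.P.MP_267653_al

open Function Filter Pool.Agent.Lib.Brown

def w0 : L := ⟨0, cons 2 z0⟩

/-- the zero block without its middle cone -/
def Z (z : L) : Prop := z.k = 0 ∧ z.s 0 ≠ 1

/-- parametrisation of the neighbourhoods of special points -/
noncomputable def gm (q : L) (n : ℕ) (z : L) : L := cm (ad q n) (Lam^[n] z.s)

variable {g h : Au} {x y z w q : L} {n : ℕ}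

theorem mem_w0 : w0 ≤ z ∧ z < st 1 ↔ z.k = 0 ∧ z.s 0 = 2 := by
  obtain ⟨k, y⟩ := z
  obtain ⟨a, y, rfl⟩ := exists_cons y
  have := z0_le y
  rw [← not_lt, lt_st, L.lt_iff]
  rcases fin3 a with rfl | rfl | rfl <;> simp [w0, this] <;> omega

theorem Z.sp (hz : Z z) (hg : g ∈ Sp w0 (st 1)) : Z (g z) := by
  by_cases h : z < w0 ∨ st 1 ≤ z
  · rwa [hg z h]
  · rw [not_or, not_lt, not_le] at h
    have := mem_w0.1 (Sp.maps hg h.1 h.2)
    exact ⟨this.1, by rw [this.2]; decide⟩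

theorem gm_lt (h : z.k = w.k) : gm q n z < gm q n w ↔ z < w := by
  rw [gm, gm, cm_lt, (Lam_mono.iterate n).lt_iff_lt, L.lt_iff]; simp [h]

theorem gm_inj (h : z.k = w.k) (e : gm q n z = gm q n w) : z = w :=
  L.ext h ((Lam_mono.iterate n).injective ((cm_inj _).1 e))

theorem gm_exit {n' : ℕ} (h : At q n (ad q n)) (hn : n < n') (hz : Z z) (v : C) :
    gm q n z ≠ cm (ad q n') v := by
  intro e
  obtain ⟨d, rfl⟩ := Nat.exists_eq_add_of_le (show n + 1 ≤ n' from hn)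
  obtain ⟨u, -, h1⟩ := h.succ.add d
  obtain ⟨y, hy⟩ := Lam_surj.iterate n (app u v)
  rw [h1.ad_eq, cm_ex, cm_ex, gm, cm_inj, ← hy, ← Lam_iter_one] at e
  exact hz.2 (congrFun ((Lam_mono.iterate n).injective e) 0)

theorem gm_pt (h : At q n (ad q n)) : gm q n ⟨0, p 0⟩ = q := by rw [gm, Lam_iter_p, ← h.2]

theorem gm_lam (hq : q ∈ O) : ∀ᶠ n in atTop, ∀ z, lam (gm q n z) = gm (lam q) (n+1) z :=
  (O_lam hq).2.mono fun n h z => by rw [gm, gm, h, iterate_succ_apply']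

theorem gm_pow (hq : q ∈ O) (j : ℕ) :
    ∀ᶠ n in atTop, ∀ z, (lam ^ j) (gm q n z) = gm ((lam ^ j) q) (n+j) z := by
  induction j with
  | zero => simp
  | succ j ih =>
    have := (tendsto_add_atTop_nat j).eventually (gm_lam (zpow_natCast lam j ▸ O_zpow hq j))
    filter_upwards [ih, this] with n h1 h2 z
    rw [pow_succ', RelIso.mul_apply, h1, h2]; rfl

theorem gm_nb (hq : q ∈ O) {P : L → Prop} (h : ∀ᶠ w in nb q, P w) :
    ∀ᶠ n in atTop, ∀ v, P (cm (ad q n) v) := by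
  obtain ⟨N, hN⟩ := ev_of_long h
  exact (ev_at hq N).mono fun n h => hN _ _ h.1.2 h.2

theorem p_exit {v : C} (h : v ≠ p n) : ∃ (d : ℕ) (u : List (Fin 3)) (y : C), y 0 ≠ 1 ∧
    v = app u (Lam^[n+d] y) ∧ p n = app u (p (n+d)) ∧ wp u = d := by
  by_contra hn
  have : ∀ d : ℕ, ∃ u v', d ≤ u.length ∧ v = app u v' ∧ p n = app u (p (n+d)) ∧ wp u = d := by
    intro d
    induction d with
    | zero => exact ⟨[], v, le_rfl, rfl, rfl, rfl⟩
    | succ d ih =>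
      obtain ⟨u, v', h1, h2, h3, h4⟩ := ih
      obtain ⟨y, rfl⟩ := Lam_surj.iterate (n+d) v'
      obtain ⟨a, y, rfl⟩ := exists_cons y
      obtain rfl : a = 1 := by
        by_contra ha
        exact hn ⟨d, u, cons a y, ha, h2, h3, h4⟩
      exact ⟨u ++ W (n+d), _, by simp [W]; omega, by rw [h2, Lam_iter_one, app_append],
        by rw [h3, p_eq, app_append]; rfl, by simp [h4, wp_W]⟩
  refine h (funext fun i => ?_)
  obtain ⟨u, v', h1, h2, h3, -⟩ := this (i+1)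
  rw [h2, h3]
  exact app_lo _ _ _ i (by omega)

theorem Reg.O_iff (h : Reg g z) : g z ∈ O ↔ z ∈ O :=
  ⟨fun h' => by simpa using (h.inv.at h').1, fun h' => (h.at h').1⟩

/-- the data of the germ group -/
structure Dat (H : Type) [Group H] where
  α : MulAut H
  N : ℕ
  hN : N ≠ 0
  αN : α ^ N = 1
  ev : ℕ → H →* Au
  ev_mem : ∀ n a, ev n a ∈ F w0 (st 1)
  ev_α : ∀ n a, ev (n+1) (α a) = ev n a
  ev_inj : ∀ a b, (∀ᶠ n in atTop, ev n a = ev n b) → a = b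

namespace Dat

variable {H : Type} [Group H] (D : Dat H) {a b : H}

def Germ (g : Au) (q : L) (a : H) : Prop :=
  ∀ᶠ n in atTop, ∀ z, Z z → g (gm q n z) = gm (g q) n (D.ev n a z)

variable {D}

theorem Germ.uniq (h1 : D.Germ g q a) (h2 : D.Germ g q b) : a = b := by
  refine D.ev_inj a b ?_
  filter_upwards [h1, h2] with n h1 h2
  refine RelIso.ext fun z => ?_
  by_cases h : z < w0 ∨ st 1 ≤ z
  · rw [(D.ev_mem n a).2 z h, (D.ev_mem n b).2 z h]
  · rw [not_or, not_lt, not_le] at h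
    have hz : Z z := ⟨(mem_w0.1 h).1, by rw [(mem_w0.1 h).2]; decide⟩
    exact gm_inj ((hz.sp (D.ev_mem n a).2).1.trans (hz.sp (D.ev_mem n b).2).1.symm)
      ((h1 z hz).symm.trans (h2 z hz))

theorem Germ.mul (h1 : D.Germ g (h q) a) (h2 : D.Germ h q b) : D.Germ (g * h) q (a * b) := by
  filter_upwards [h1, h2] with n h1 h2 z hz
  rw [RelIso.mul_apply, h2 z hz, h1 _ (hz.sp (D.ev_mem n b).2), map_mul]; rfl

theorem Germ.inv (h1 : D.Germ g q a) : D.Germ g⁻¹ (g q) a⁻¹ := by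
  filter_upwards [h1] with n h1 z hz
  have := h1 _ (hz.sp (D.ev_mem n a⁻¹).2)
  rw [← RelIso.mul_apply (D.ev n a), ← map_mul, mul_inv_cancel, map_one, RelIso.one_apply] at this
  rw [← this]; simp

theorem germ_of_reg (hq : q ∈ O) (h : Reg g q) : D.Germ g q 1 :=
  (h.at hq).2.mono fun n h z _ => by rw [map_one, gm, h]; rfl

theorem Germ.reg (hq : q ∈ O) (hq' : g q ∈ O) (h : D.Germ g q 1) : Reg g q := by
  obtain ⟨n, hn⟩ := eventually_atTop.1 ((ev_at hq 0).and ((ev_at hq' 0).and h))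
  obtain ⟨⟨h1, -⟩, ⟨h2, -⟩, -⟩ := hn n le_rfl
  refine ⟨_, _, _, h1.2, h1.1.trans h2.1.symm, fun v => ?_⟩
  by_cases hv : v = p n
  · rw [hv, ← h1.2, ← h2.2]
  obtain ⟨d, u, y, h3, rfl, h4, h5⟩ := p_exit hv
  have h6 : ∀ q, At q n (ad q n) → ad q (n+d) = (ad q n).ex u := fun q h =>
    At.ad_eq ⟨by simp [h.1, h5], by rw [cm_ex, ← h4]; exact h.2⟩
  have := (hn (n+d) (by omega)).2.2 ⟨0, y⟩ ⟨rfl, h3⟩
  rwa [map_one, gm, gm, h6 _ h1, h6 _ h2, cm_ex, cm_ex] at this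

theorem Germ.congr (hq : q ∈ O) (h1 : D.Germ g q a) (e : ∀ᶠ w in nb q, h w = g w) :
    D.Germ h q a := by
  filter_upwards [h1, gm_nb hq e, ev_at hq 0] with n h1 h2 h3 z hz
  rw [gm, h2, show h q = g q by rw [h3.1.2]; exact h2 _]
  exact h1 z hz

theorem germ_lam (hg : g ∈ CO) (hq : q ∈ O) : D.Germ g (lam q) (D.α a) ↔ D.Germ g q a := by
  rw [Germ, ← map_add_atTop_eq_nat 1, eventually_map]
  refine eventually_congr ?_
  filter_upwards [gm_lam hq, gm_lam ((hg.2 q).2 hq)] with n h1 h2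
  simp only [D.ev_α, mem_CL.1 hg.1, ← h1, ← h2, EmbeddingLike.apply_eq_iff_eq]

theorem Germ.zpow (hg : g ∈ CO) (hq : q ∈ O) (h : D.Germ g q a) (j : ℤ) :
    D.Germ g ((lam ^ j) q) ((D.α ^ j) a) := by
  induction j using Int.induction_on with
  | zero => exact h
  | succ i ih => rw [add_comm, zpow_one_add, zpow_one_add]; exact (germ_lam hg (O_zpow hq _)).2 ih
  | pred i ih =>
    rw [← germ_lam hg (O_zpow hq _), ← RelIso.mul_apply, ← MulAut.mul_apply, ← zpow_one_add,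
      ← zpow_one_add]
    simpa using ih

variable (D)

/-- the germ extension -/
noncomputable def G : Subgroup Au where
  carrier := {g | g ∈ CO ∧ (∀ z ∉ O, Reg g z) ∧ (∀ q ∈ O, ∃ a, D.Germ g q a) ∧
    {q : X | ¬ Reg g q.1}.Finite}
  one_mem' := ⟨one_mem _, fun z _ => Reg.id z, fun q hq => ⟨1, germ_of_reg hq (Reg.id q)⟩,
    Set.finite_empty.subset fun q hq => hq (Reg.id _)⟩
  mul_mem' {g h} hg hh := ⟨mul_mem hg.1 hh.1,
    fun z hz => (hg.2.1 _ (mt (hh.1.2 z).1 hz)).mul (hh.2.1 z hz), fun q hq => by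
      obtain ⟨a, ha⟩ := hg.2.2.1 _ ((hh.1.2 q).2 hq)
      obtain ⟨b, hb⟩ := hh.2.2.1 q hq
      exact ⟨_, ha.mul hb⟩, by
      let _ := actX CO le_rfl
      refine (hh.2.2.2.union (hg.2.2.2.preimage (f := fun q => (⟨h, hh.1⟩ : CO) • q)
        (MulAction.injective _).injOn)).subset fun q hq => ?_
      by_contra hn
      simp only [Set.mem_union, Set.mem_preimage, Set.mem_ofPred_eq, not_or, not_not] at hn
      exact hq (((CL.reg hg.1.1 _).1 hn.2).mul hn.1)⟩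
  inv_mem' {g} hg := ⟨inv_mem hg.1, fun z hz => by
      simpa using (hg.2.1 (g⁻¹ z) (mt ((inv_mem hg.1 : g⁻¹ ∈ CO).2 z).1 hz)).inv, fun q hq => by
      obtain ⟨a, ha⟩ := hg.2.2.1 _ (((inv_mem hg.1 : g⁻¹ ∈ CO).2 q).2 hq)
      exact ⟨_, by simpa using ha.inv⟩, by
      let _ := actX CO le_rfl
      refine (hg.2.2.2.preimage (f := fun q => (⟨g⁻¹, inv_mem hg.1⟩ : CO) • q)
        (MulAction.injective _).injOn).subset fun q hq hn => hq ?_
      simpa using ((CL.reg hg.1.1 _).1 hn).inv⟩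

theorem B_le : B ≤ D.G := fun _ hg => ⟨B_le_CO hg, fun z _ => hg.1 z,
  fun q hq => ⟨1, germ_of_reg hq (hg.1 q)⟩, Set.finite_empty.subset fun _ hq => hq (hg.1 _)⟩

noncomputable instance : MulAction D.G X := actX _ fun _ h => h.1

theorem smul_val (g : D.G) (q : X) : (g • q).1 = nrm (g.1 q.1) := rfl

open Classical in
/-- the germ cocycle -/
noncomputable def c0 (g : D.G) (q : L) : H := if h : ∃ a, D.Germ g q a then h.choose else 1

variable {D}

theorem c0_spec (g : D.G) (hq : q ∈ O) : D.Germ g q (D.c0 g q) := by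
  rw [c0, dif_pos (g.2.2.2.1 q hq)]
  exact (g.2.2.2.1 q hq).choose_spec

theorem c0_mul (g h : D.G) (hq : q ∈ O) : D.c0 (g * h) q = D.c0 g (h.1 q) * D.c0 h q :=
  (c0_spec _ hq).uniq ((c0_spec g ((h.2.1.2 q).2 hq)).mul (c0_spec h hq))

theorem c0_zpow (g : D.G) (hq : q ∈ O) (j : ℤ) : D.c0 g ((lam ^ j) q) = (D.α ^ j) (D.c0 g q) :=
  (c0_spec _ (O_zpow hq j)).uniq ((c0_spec g hq).zpow g.2.1 hq j)

theorem c0_eq_one (g : D.G) (hq : q ∈ O) : D.c0 g q = 1 ↔ Reg g.1 q :=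
  ⟨fun h => Germ.reg hq ((g.2.1.2 q).2 hq) (h ▸ c0_spec g hq),
    fun h => (c0_spec g hq).uniq (germ_of_reg hq h)⟩

variable (D)

theorem exists_sigma (hq : q ∈ O) {S : L → Prop} (hS : ∀ᶠ w in nb q, S w) :
    ∃ σ : H →* D.G, ∀ a, (σ a).1 q = q ∧ D.c0 (σ a) q = a ∧
      (∀ z, (∀ j : ℤ, z ≠ (lam ^ j) q) → Reg (σ a).1 z) ∧
      ∀ z, z.k = q.k → ¬ S z → (σ a).1 z = z := by
  obtain ⟨n, hn⟩ := eventually_atTop.1 ((ev_at hq 0).and (gm_nb hq hS))
  have hat : ∀ i, At q (n+i) (ad q (n+i)) := fun i => (hn _ (by omega)).1.1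
  choose b hb hb' using fun i => (hat i).ra
  let Γ : ℕ → Au := fun i => b i * lam ^ (n+i)
  have hΓ : ∀ i z, z.k = 0 → Γ i z = gm q (n+i) z := fun i z hz => by
    rw [gm, ← hb', RelIso.mul_apply, lam_pow_apply, hz, zero_add]
  have hI : ∀ i z, Γ i w0 ≤ z → z < Γ i (st 1) → ∃ w, w.k = 0 ∧ w.s 0 = 2 ∧ z = gm q (n+i) w := by
    intro i z h1 h2
    obtain ⟨w, rfl⟩ := (Γ i).surjective z
    have := mem_w0.1 ⟨by simpa using h1, by simpa using h2⟩
    exact ⟨w, this.1, this.2, hΓ i w this.1⟩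
  have hs : ∀ i a, Γ i * D.ev (n+i) a * (Γ i)⁻¹ ∈ RA := fun i a => by
    have := mul_mem (mul_mem (hb i) (ra_conj (D.ev_mem (n+i) a).1 (n+i : ℕ))) (inv_mem (hb i))
    rw [zpow_natCast] at this
    convert this using 1
    simp only [Γ]; group
  obtain ⟨T, h1, h2⟩ := glue_fam (fun i => Γ i w0) (fun i => Γ i (st 1))
    (fun i => (MulAut.conj (Γ i)).toMonoidHom.comp (D.ev (n+i)))
    (fun i a => Sp.conj (D.ev_mem _ a).2 _) (fun i j z h1 h2 h3 h4 => by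
      obtain ⟨w, e1, e2, e3⟩ := hI i z h1 h2
      obtain ⟨w', e4, e5, e6⟩ := hI j z h3 h4
      rcases lt_trichotomy i j with h | h | h
      · exact absurd (e3.symm.trans e6) (gm_exit (hat i) (by omega) ⟨e1, by rw [e2]; decide⟩ _)
      · exact h
      · exact absurd (e6.symm.trans e3) (gm_exit (hat j) (by omega) ⟨e4, by rw [e5]; decide⟩ _))
  replace h2 : ∀ a z, (∀ i w, w.k = 0 → w.s 0 = 2 → z ≠ gm q (n+i) w) → T a z = z := fun a z h =>
    h2 a z fun i => by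
      by_contra h3
      rw [not_or, not_lt, not_le] at h3
      obtain ⟨w, e1, e2, e3⟩ := hI i z h3.1 h3.2
      exact h i w e1 e2 e3
  have hk : ∀ i w, (gm q (n+i) w).k = q.k := fun i w => (congrArg L.k (hat i).2).symm
  have hlt : ∀ i w, w.k = 0 → w.s 0 = 2 → q < gm q (n+i) w := fun i w e1 e2 => by
    nth_rewrite 1 [← gm_pt (hat i)]
    rw [gm_lt e1.symm]
    exact L.lt_iff.2 (Or.inr ⟨e1.symm, 0, by simp, by rw [e2]; decide⟩)
  have hT : ∀ a, T a ∈ Sp (st q.k) (lam (st q.k)) := fun a z hz => h2 a z fun i w _ _ e => by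
    rw [lam_st, lt_st, st_le, e, hk] at hz
    omega
  obtain ⟨P, hP⟩ := exists_per (st q.k)
  let σ := P.comp (T.codRestrict _ hT)
  have s1 : ∀ a, σ a ∈ CL := fun a => (hP _).1
  have s2 : ∀ a z, z.k = q.k → σ a z = T a z := fun a z hz =>
    (hP _).2 z (st_le.2 hz.ge) (by rw [lam_st, lt_st]; omega)
  have s3 : ∀ a z, z.k = q.k → ∀ᶠ w in nb z, σ a w = T a w := fun a z hz =>
    ⟨0, fun w hw _ => s2 a w (hw.trans hz)⟩
  have t1 : ∀ a, T a q = q := fun a => h2 a q fun i w e1 e2 => (hlt i w e1 e2).ne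
  have s4 : ∀ a, σ a q = q := fun a => (s2 a q rfl).trans (t1 a)
  have hE : ∀ i, (∃ c, EC c (Γ i w0)) ∧ ∃ c, EC c (Γ i (st 1)) := fun i => by
    have : ∀ c x, EC c x → ∃ c, EC c (Γ i x) := fun c x h =>
      ⟨_, (zpow_natCast lam (n+i) ▸ h.zpow (n+i : ℕ)).ra (hb i)⟩
    exact ⟨this _ _ ⟨(0, [2]), rfl, rfl⟩, this _ _ (EC.st 1)⟩
  have t2 : ∀ a z, z ≠ q → Reg (T a) z := by
    intro a z hz
    by_cases h : ∃ i, Γ i w0 ≤ z ∧ z < Γ i (st 1)
    · obtain ⟨i, h3, h4⟩ := h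
      obtain ⟨c, hc⟩ := (hE i).1
      exact (hs i a z).congr ((hc.ev_fd h3 h4).mono fun w h => h1 a i w h.1 h.2)
    obtain ⟨l, hl⟩ := eventually_atTop.1 (gm_nb hq (P := fun w => w ≠ z)
      (hz.lt_or_gt.elim (fun h => (ev_gt h).mono fun _ h => h.ne')
        fun h => (ev_lt h).mono fun _ h => h.ne))
    refine (Reg.id z).congr ?_
    have e1 := ev_not_cone (a := ad q (n+l)) (z := z) fun v => (hl _ (by omega) v).symm
    have e2 : ∀ᶠ w in nb z, ∀ i ∈ Finset.range l, w < Γ i w0 ∨ Γ i (st 1) ≤ w :=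
      (eventually_all_finset _).2 fun i _ => by
        rcases lt_or_ge z (Γ i w0) with h3 | h3
        · exact (ev_lt h3).mono fun _ => Or.inl
        · obtain ⟨c, hc⟩ := (hE i).2
          exact (hc.ev_ge (not_lt.1 fun h4 => h ⟨i, h3, h4⟩)).mono fun _ => Or.inr
    filter_upwards [e1, e2] with w e1 e2
    refine h2 a w fun i v e3 e4 e5 => ?_
    rcases lt_or_ge i l with h3 | h3
    · have := mem_w0.2 ⟨e3, e4⟩
      rw [e5] at e2
      simpa [← hΓ i v e3, this.1.not_gt, this.2.not_ge] using e2 i (Finset.mem_range.2 h3)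
    · obtain ⟨d, rfl⟩ := Nat.exists_eq_add_of_le h3
      obtain ⟨u, -, h4⟩ := (hat l).add d
      exact e1 _ (by rw [e5, gm, ← add_assoc, h4.ad_eq, cm_ex])
  have t3 : ∀ a, D.Germ (T a) q a := fun a => eventually_atTop.2 ⟨n, fun m hm z hz => by
    obtain ⟨i, rfl⟩ := Nat.exists_eq_add_of_le hm
    rw [t1]
    rcases fin3 (z.s 0) with h | h | h
    · have h3 : z < ⟨0, p 0⟩ := L.lt_iff.2 (Or.inr ⟨hz.1, 0, by simp, by rw [h]; decide⟩)
      rw [(D.ev_mem _ a).2 z (Or.inl (h3.trans (L.lt_iff.2 (Or.inr ⟨rfl, 0, by simp, by decide⟩))))]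
      refine h2 a _ fun j w e1 e2 => ne_of_lt (lt_trans ?_ (hlt j w e1 e2))
      nth_rewrite 2 [← gm_pt (hat i)]
      exact (gm_lt hz.1).2 h3
    · exact absurd h hz.2
    · have := mem_w0.2 ⟨hz.1, h⟩
      rw [← hΓ i z hz.1, h1 a i _ (by simpa using this.1) (by simpa using this.2),
        ← hΓ i _ (hz.sp (D.ev_mem _ a).2).1]
      exact congrArg (fun w => Γ i (D.ev (n+i) a w)) (RelIso.inv_apply_self (Γ i) z)⟩
  have s5 : ∀ a z, (∀ j : ℤ, z ≠ (lam ^ j) q) → Reg (σ a) z := fun a z hz => by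
    rw [← CL.reg (s1 a) (q.k - z.k)]
    refine (t2 a _ fun e => hz (-(q.k - z.k)) ?_).congr (s3 a _ (by simp [lam_zpow_k]))
    generalize q.k - z.k = j at e
    rw [← e]; simp
  have s6 : ∀ a, σ a ∈ CO := fun a => ⟨s1 a, fun z => by
    by_cases h : ∃ j : ℤ, z = (lam ^ j) q
    · obtain ⟨j, rfl⟩ := h
      rw [(CL.fix (s1 a) j).2 (s4 a)]
    · exact (s5 a z (not_exists.1 h)).O_iff⟩
  have s7 : ∀ a, D.Germ (σ a) q a := fun a => (t3 a).congr hq (s3 a q rfl)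
  have s8 : ∀ a, σ a ∈ D.G := fun a => ⟨s6 a, fun z hz => s5 a z fun j e => hz (e ▸ O_zpow hq j),
    fun z hz => by
      by_cases h : ∃ j : ℤ, z = (lam ^ j) q
      · obtain ⟨j, rfl⟩ := h
        exact ⟨_, (s7 a).zpow (s6 a) hq j⟩
      · exact ⟨1, germ_of_reg hz (s5 a z (not_exists.1 h))⟩,
    (Set.finite_singleton (⟨nrm q, O_zpow hq _, nrm_k q⟩ : X)).subset fun z hz => by
      by_contra h
      refine hz (s5 a _ fun j e => h (Subtype.ext ((nrm_eq z.2.2).2 ⟨-j, ?_⟩).symm))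
      rw [e]; simp⟩
  refine ⟨σ.codRestrict _ s8, fun a => ⟨s4 a, (c0_spec _ hq).uniq (s7 a), s5 a,
    fun z e1 e2 => (s2 a z e1).trans (h2 a z fun i w _ _ e => e2 ?_)⟩⟩
  rw [e]
  exact (hn _ (by omega)).2 _

end Dat

end Pool.Agent.P.MP_267653_al
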