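import Pool.Agent.P.MP_267653_al.Grp
import Pool.Agent.P.MP_267653_al.Abel
import Pool.Agent.P.MP_267653_al.Abs
import Pool.Agent.Lib.Brown.Germ

/-! Finiteness properties, simplicity and abelianisation of the germ extension. -/

set_option autoImplicit false

namespace Pool.Agent.P.MP_267653_al

open Function Filter Pool.Agent.Lib.Brown

theorem fix_O {g : Au} (h : ∀ q ∈ O, g q = q) : g = 1 := by
  have key : ∀ g : Au, (∀ q ∈ O, g q = q) → ∀ x, ¬ x < g x := by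
    intro g h x hx
    obtain ⟨c, e, he, h1, h2⟩ := exists_E hx
    obtain ⟨q, hq, h3, h4⟩ := O_dens he.ns (h2.trans_lt (g.strictMono hx))
    have := g.strictMono (g.strictMono (h1.trans h3))
    rw [h q hq, h q hq] at this
    exact lt_asymm h4 this
  refine RelIso.ext fun x => le_antisymm (not_lt.1 (key g h x)) (not_lt.1 fun hx => ?_)
  exact key g⁻¹ (fun q hq => g.injective (by simp [h q hq])) (g x) (by simpa using hx)

namespace Dat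

variable {H : Type} [Group H] (D : Dat H) {q : L}

theorem α_zpow {j : ℤ} (h : (j : ZMod D.N) = 0) : D.α ^ j = 1 := by
  obtain ⟨i, rfl⟩ := (ZMod.intCast_zmod_eq_zero_iff_dvd _ _).1 h
  rw [zpow_mul, zpow_natCast, D.αN, one_zpow]

theorem smul_eq (g : D.G) (q : X) : g • q = q ↔ ∃ j : ℤ, g.1 q.1 = (lam ^ j) q.1 :=
  Subtype.ext_iff.trans (nrm_eq q.2.2)

theorem X_ne {q q' : X} (h : q' ≠ q) (j : ℤ) : q'.1 ≠ (lam ^ j) q.1 := fun e => by
  have := congrArg L.k e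
  rw [lam_zpow_k, q.2.2, q'.2.2, zero_add] at this
  exact h (Subtype.ext (by simpa [← this] using e))

/-- the germ cocycle of the action on special points of the circle -/
noncomputable def coc : Coc D.G X H where
  y0 := 1
  c g q := (D.α ^ (-(g.1 q.1).k)).toEquiv * Equiv.mulLeft (D.c0 g q.1)
  c_one q := by
    ext y
    simp [q.2.2, (c0_eq_one (1 : D.G) q.2.1).2 (Reg.id _)]
  c_mul g h q := by
    ext y
    have hq := (h.2.1.2 _).2 q.2.1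
    simp only [smul_val, nrm, c0_mul g h q.2.1, c0_zpow g hq, CL.zpow g.2.1.1, lam_zpow_k,
      Equiv.Perm.mul_apply, Equiv.coe_mulLeft, MulEquiv.toEquiv_eq_coe, EquivLike.coe_coe,
      ← map_mul, ← MulAut.mul_apply, ← zpow_add, mul_assoc]
    congr 2
    simp
  fin g := g.2.2.2.2.subset fun q hq hn => hq (by simp [(c0_eq_one g q.2.1).2 hn])

theorem coc_one (g : D.G) (q : X) : D.coc.c g q D.coc.y0 = D.coc.y0 ↔ Reg g.1 q.1 := by
  rw [← c0_eq_one g q.2.1]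
  simp [coc]

theorem fn_G {m : ℕ} (hm : 1 ≤ m) (hH : Fn H m) : Fn D.G m := by
  classical
  refine Coc.fn_of_coc (C := D.coc) hm (fun q y => ?_) (fun j => ?_) (fun M0 M hM K hK => ?_)
  · obtain ⟨σ, hσ⟩ := D.exists_sigma q.2.1 (Eventually.of_forall fun _ => trivial)
    obtain ⟨h1, h2, h3, -⟩ := hσ y⁻¹
    refine ⟨σ y⁻¹, (D.smul_eq _ _).2 ⟨0, h1⟩, ?_, fun q' h => (D.coc_one _ _).2 (h3 _ (X_ne h))⟩
    show (D.α ^ _) (D.c0 _ _ * y) = 1
    rw [h2]; simp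
  · obtain ⟨X0, h⟩ := X_trans j
    refine ⟨X0, fun M hM => ?_⟩
    obtain ⟨b, hb, h1⟩ := h M hM
    refine ⟨⟨b, D.B_le hb⟩, fun q => (D.coc_one _ _).2 (hb.1 _), fun q hq => ?_⟩
    obtain ⟨q', h2, h3⟩ := h1 q hq
    rwa [show (⟨b, D.B_le hb⟩ : D.G) • q = q' from Subtype.ext ((nrm_eq q'.2.2).2 ⟨0, h3⟩)]
  simp only [smul_eq, coc_one] at hK
  have hj : ∀ g : K, ∀ q ∈ M, g.1.1 q.1 = (lam ^ (g.1.1 q.1).k) q.1 := fun g q hq => by
    obtain ⟨j, h⟩ := ((hK g).1 g.2).1 q hq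
    rw [h, lam_zpow_k, q.2.2, zero_add]
  have := NeZero.mk D.hN
  let φ : K →* (M → Multiplicative (ZMod D.N)) := MonoidHom.mk'
    (fun g q => Multiplicative.ofAdd ((g.1.1 q.1.1).k : ZMod D.N)) fun g h => funext fun q => by
      show Multiplicative.ofAdd ((g.1.1 (h.1.1 q.1.1)).k : ZMod D.N) = _
      rw [hj h q q.2, CL.zpow g.1.2.1.1, lam_zpow_k]
      simp
  have hφ : ∀ g : φ.ker, ∀ q ∈ M, ((g.1.1.1 q.1).k : ZMod D.N) = 0 := fun g q hq =>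
    congrFun (MonoidHom.mem_ker.1 g.2) ⟨q, hq⟩
  let Ψ : φ.ker →* (M0 → H) := MonoidHom.mk' (fun g q => D.c0 g.1.1 q.1.1) fun g h =>
    funext fun q => by
      show D.c0 (g.1.1 * h.1.1) q.1.1 = D.c0 g.1.1 q.1.1 * D.c0 h.1.1 q.1.1
      rw [c0_mul _ _ q.1.2.1, hj h q (hM q.2), c0_zpow _ q.1.2.1, D.α_zpow (hφ h q (hM q.2))]; rfl
  refine Fn.of_finite_target φ (Fn.of_surjective Ψ ?_ ?_ (hH.pi _))
  · rw [← MonoidHom.range_eq_top, eq_top_iff]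
    intro a _
    refine Subgroup.pi_mem_of_mulSingle_mem a fun q => ?_
    obtain ⟨σ, hσ⟩ := D.exists_sigma q.1.2.1 (S := fun w => ∀ q' ∈ M, q' ≠ q.1 → w ≠ q'.1)
      ((eventually_all_finset M).2 fun q' _ => by
        by_cases h : q' = q.1
        · exact Eventually.of_forall fun _ h' => absurd h h'
        · exact ((lt_or_gt_of_ne h).elim (fun h => (ev_gt h).mono fun _ h => h.ne')
            fun h => (ev_lt h).mono fun _ h => h.ne).mono fun _ h _ => h)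
    obtain ⟨h1, h2, h3, h4⟩ := hσ (a q)
    have h5 : ∀ q' ∈ M, (σ (a q)).1 q'.1 = q'.1 := fun q' hq' => by
      by_cases h : q' = q.1
      · rw [h, h1]
      · exact h4 _ (q'.2.2.trans q.1.2.2.symm) fun h' => h' q' hq' h rfl
    refine ⟨⟨⟨σ (a q), (hK _).2 ⟨fun q' hq' => ⟨0, h5 q' hq'⟩, fun q' hq' => h3 _ (X_ne fun e =>
      hq' (e ▸ q.2))⟩⟩, funext fun q' => ?_⟩, funext fun q' => ?_⟩
    · show Multiplicative.ofAdd (((σ (a q)).1 q'.1.1).k : ZMod D.N) = 1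
      rw [h5 _ q'.2, q'.1.2.2]; simp
    · show D.c0 (σ (a q)) q'.1.1 = _
      by_cases h : q' = q
      · rw [h, h2]; simp
      · rw [Pi.mulSingle_eq_of_ne h, c0_eq_one _ q'.1.2.1]
        exact h3 _ (X_ne fun e => h (Subtype.ext e))
  · let ι : Ψ.ker →* BM M := ((((D.G.subtype.comp K.subtype).comp φ.ker.subtype).comp
      Ψ.ker.subtype)).codRestrict _ fun g => by
        obtain ⟨h1, h2⟩ := (hK g.1.1).1 g.1.1.2
        refine ⟨⟨fun z => ?_, g.1.1.1.2.1.1⟩, h1⟩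
        by_cases hz : z ∈ O
        · refine (CL.reg g.1.1.1.2.1.1 (-z.k)).1 ?_
          by_cases h : (⟨nrm z, O_zpow hz _, nrm_k z⟩ : X) ∈ M0
          · exact (c0_eq_one _ (O_zpow hz _)).1 (congrFun (MonoidHom.mem_ker.1 g.2) ⟨_, h⟩)
          · exact h2 _ h
        · exact g.1.1.1.2.2.1 z hz
    have hι : Injective ι := fun a b h => Subtype.ext (Subtype.ext (Subtype.ext (Subtype.ext
      (congrArg (fun x : BM M => x.1) h))))
    let ρ : BM M →* K := (BM M).subtype.codRestrict D.G (fun g => D.B_le g.2.1) |>.codRestrict K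
      fun g => (hK _).2 ⟨g.2.2, fun q _ => g.2.1.1 _⟩
    have : ι.range.FiniteIndex := Subgroup.finiteIndex_of_le (H := (φ.comp ρ).ker) fun g hg =>
      ⟨⟨⟨ρ g, hg⟩, funext fun q => (c0_eq_one _ q.1.2.1).2 (g.2.1.1 _)⟩, rfl⟩
    exact ((fn_BM hm M).subgroup ι.range).equiv (MonoidHom.ofInjective hι).symm

theorem gen_G (K : Subgroup D.G) (h1 : ∀ g : D.G, g.1 ∈ B → g ∈ K)
    (h2 : ∀ q : X, ∀ a, ∃ g ∈ K, g.1 q.1 = q.1 ∧ D.c0 g q.1 = a ∧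
      ∀ z, (∀ j : ℤ, z ≠ (lam ^ j) q.1) → Reg g.1 z) (g : D.G) : g ∈ K := by
  induction hn : {q : X | ¬ Reg g.1 q.1}.ncard using Nat.strong_induction_on generalizing g with
  | _ n ih =>
    by_cases hex : ∃ q : X, ¬ Reg g.1 q.1
    swap
    · refine h1 g ⟨fun z => ?_, g.2.1.1⟩
      by_cases hz : z ∈ O
      · rw [← CL.reg g.2.1.1 (-z.k)]
        exact not_not.1 fun h => hex ⟨⟨nrm z, O_zpow hz _, nrm_k z⟩, h⟩
      · exact g.2.2.1 z hz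
    obtain ⟨q, hq⟩ := hex
    obtain ⟨h, hh, e1, e2, e3⟩ := h2 q (D.c0 g q.1)⁻¹
    suffices hlt : {q : X | ¬ Reg (g * h).1 q.1}.ncard < n by
      simpa using K.mul_mem (ih _ hlt (g * h) rfl) (K.inv_mem hh)
    rw [← hn]
    refine lt_of_le_of_lt (Set.ncard_le_ncard_of_injOn (h • ·) (t := {q : X | ¬ Reg g.1 q.1} \ {q})
      (fun q' hq' => ?_) (MulAction.injective h).injOn (g.2.2.2.2.subset Set.sdiff_subset))
      (Set.ncard_sdiff_singleton_lt_of_mem hq g.2.2.2.2)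
    have hne : q' ≠ q := by
      rintro rfl
      exact hq' ((c0_eq_one _ q'.2.1).1 (by rw [c0_mul _ _ q'.2.1, e1, e2, mul_inv_cancel]))
    exact ⟨fun h3 => hq' (((CL.reg g.2.1.1 _).1 h3).mul (e3 _ (X_ne hne))), fun e => hne
      (MulAction.injective h (e.trans ((D.smul_eq h q).2 ⟨0, e1⟩).symm))⟩

theorem hom_G {C : Type} [CommGroup C] [IsMulTorsionFree C]
    (hH : ∀ ψ : H →* C, (∀ a, ψ (D.α a) = ψ a) → ∀ a, ψ a = 1) (ψ : D.G →* C) (g : D.G) :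
    ψ g = 1 := by
  have hB : ∀ g : D.G, g.1 ∈ B → ψ g = 1 := fun g hg =>
    hom_B (ψ.comp (Subgroup.inclusion D.B_le)) ⟨g, hg⟩
  refine D.gen_G ψ.ker hB (fun q a => ?_) g
  obtain ⟨σ, hσ⟩ := D.exists_sigma q.2.1 (Eventually.of_forall fun _ => trivial)
  refine ⟨σ a, hH (ψ.comp σ) (fun a => ?_) a, (hσ a).1, (hσ a).2.1, (hσ a).2.2.1⟩
  obtain ⟨t, ht, h1⟩ := exists_t {q}
  replace h1 := h1 q (by simp)
  let t' : D.G := ⟨t, D.B_le ht⟩
  have hc := (t' * σ (D.α a) * t'⁻¹ * σ a⁻¹).2.1.1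
  have := hB (t' * σ (D.α a) * t'⁻¹ * σ a⁻¹) ⟨fun z => ?_, hc⟩
  · rw [map_mul, map_mul, map_mul, map_inv, map_inv, map_inv, mul_inv_cancel_comm,
      mul_inv_eq_one] at this
    exact this
  have f1 : ∀ a (j : ℤ), (σ a).1 ((lam ^ j) q.1) = (lam ^ j) q.1 := fun a j =>
    (CL.fix (σ a).2.1.1 j).2 (hσ a).1
  have f2 : t⁻¹ (lam q.1) = q.1 := by rw [← h1]; simp
  by_cases hz : ∃ j : ℤ, z = (lam ^ j) q.1
  · obtain ⟨j, rfl⟩ := hz
    have hq := (O_lam q.2.1).1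
    have f3 : (σ a⁻¹).1 (lam q.1) = lam q.1 := by simpa using f1 a⁻¹ 1
    have f4 : D.c0 (σ a⁻¹) (lam q.1) = D.α a⁻¹ := by
      simpa only [(hσ a⁻¹).2.1, zpow_one] using c0_zpow (σ a⁻¹) q.2.1 1
    rw [show j = (j - 1) + 1 by ring, zpow_add_one, RelIso.mul_apply, CL.reg hc,
      ← c0_eq_one _ hq, c0_mul _ _ hq, f3, f4, c0_mul _ _ hq, show t'⁻¹.1 (lam q.1) = q.1 from f2,
      c0_mul _ _ q.2.1, (hσ _).1, (hσ _).2.1, (c0_eq_one t' q.2.1).2 (ht.1 _),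
      (c0_eq_one t'⁻¹ hq).2 ((inv_mem ht.1 : t⁻¹ ∈ RA) _)]
    simp
  · push Not at hz
    refine ((ht.1 _).mul ((hσ _).2.2.1 _ fun j e => hz (j + 1) ?_)).mul
      ((inv_mem ht.1 : t⁻¹ ∈ RA) _) |>.mul ((hσ _).2.2.1 _ hz)
    refine (σ a⁻¹).1.injective (t⁻¹.injective ?_)
    rw [f1, zpow_add_one, RelIso.mul_apply, CL.zpow (B.cl (inv_mem ht)), f2]
    exact e

theorem not_lam (m : D.G) (h : ∀ x, NS x → ∃ j : ℤ, m.1 x = (lam ^ j) x) : m = 1 := by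
  have key : ∀ m : D.G, (∀ x, NS x → ∃ j : ℤ, m.1 x = (lam ^ j) x) → ∀ q ∈ O, ∀ j : ℕ,
      m.1 q = (lam ^ j) q → j = 0 := by
    intro m h q hq j e
    have hZ : Z (st 0) := ⟨rfl, by decide⟩
    obtain ⟨n, h1, h2, h3, h4⟩ := ((c0_spec m hq).and ((gm_pow hq j).and ((ev_at hq 0).and
      (ev_at ((m.2.1.2 q).2 hq) 0)))).exists
    have h5 : Lam^[n] z0 = z0 := iterate_fixed (congrArg L.s (lam_st 0)) n
    obtain ⟨i, hi⟩ := h (gm q n (st 0)) (EC.ns ⟨_, rfl, congrArg _ h5⟩)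
    have h6 := h1 _ hZ
    rw [(D.ev_mem _ _).2 (st 0) (Or.inl (L.lt_iff.2 (Or.inr ⟨rfl, 0, by simp, by decide⟩))),
      hi] at h6
    have h7 := congrArg L.k h6
    rw [lam_zpow_k, show (gm q n (st 0)).k = q.k from (congrArg L.k h3.1.2).symm,
      show (gm (m.1 q) n (st 0)).k = (m.1 q).k from (congrArg L.k h4.1.2).symm, e,
      ← zpow_natCast, lam_zpow_k] at h7
    obtain rfl : i = j := by omega
    rw [zpow_natCast, h2, ← e] at h6
    by_contra hj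
    exact gm_exit h4.1 (by omega) hZ _ h6.symm
  refine Subtype.ext (fix_O fun q hq => ?_)
  obtain ⟨j, hj⟩ := h q (O_ns hq)
  have hinv : ∀ x (j : ℤ), m.1 x = (lam ^ j) x → m⁻¹.1 x = (lam ^ (-j)) x := fun x j e =>
    m.1.injective (by rw [CL.zpow m.2.1.1, e]; simp)
  rcases Int.eq_nat_or_neg j with ⟨i, rfl | rfl⟩
  · rw [hj, key m h q hq i (by simpa using hj)]; rfl
  · rw [hj, key m⁻¹ (fun x hx => (h x hx).elim fun j e => ⟨_, hinv x j e⟩) q hq i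
      (by simpa using hinv q _ hj)]; rfl

theorem simple_G (hne : commutator D.G ≠ ⊥) : IsSimpleGroup (commutator D.G) := by
  refine simple_commutator (fun U : Arc => (Fx U.y U.z).subgroupOf D.G) (fun g U => ?_) ?_
    (fun U V => ?_) (fun U => ?_) (fun m hm => ?_) hne
  · obtain ⟨y, z, ⟨c, hy⟩, ⟨d, hz⟩, h1, h2⟩ := U
    exact ⟨⟨g.1 y, g.1 z, ⟨_, (g.2.2.1 y hy.not_O).ec hy⟩, ⟨_, (g.2.2.1 z hz.not_O).ec hz⟩,
      g.1.strictMono h1, by rw [← mem_CL.1 g.2.1.1]; exact g.1.strictMono h2⟩,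
      fun a ha => Fx.conj ha g.1⟩
  · refine eq_top_iff.2 fun g _ => D.gen_G _ (fun g hg => ?_) (fun q a => ?_) g
    · obtain ⟨g', h1, h2⟩ : g.1 ∈ (Subgroup.closure
          (⋃ U : Arc, ((Fx U.y U.z).subgroupOf D.G : Set D.G))).map D.G.subtype := by
        refine (Subgroup.closure_le _).2 ?_ (frag hg)
        rintro b ⟨hb, U, hU⟩
        exact ⟨⟨b, D.B_le hb⟩, Subgroup.subset_closure (Set.mem_iUnion.2 ⟨U, hU⟩), rfl⟩
      rwa [← show g' = g from Subtype.ext h2]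
    · obtain ⟨y, hy, h1, h2⟩ := (O_ns q.2.1).dens q.mem.2 0
      obtain ⟨z, hz, h3, h4⟩ := hy.ns.dens h2 0
      obtain ⟨σ, hσ⟩ := D.exists_sigma q.2.1 (ev_lt h1)
      have h5 := st_le.1 (q.mem.1.trans h1).le
      refine ⟨σ a, Subgroup.subset_closure (Set.mem_iUnion.2 ⟨⟨y, z, ⟨_, hy⟩, ⟨_, hz⟩, h3,
        h4.trans_le (st_le.2 (by simp [lam_apply, h5]))⟩, fun w h6 h7 => (hσ a).2.2.2 w ?_
          (not_lt.2 h6)⟩), (hσ a).1, (hσ a).2.1, (hσ a).2.2.1⟩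
      have := L.k_mono h6
      have := lt_st.1 (h7.trans h4)
      rw [q.2.2]; simp only at *; omega
  · obtain ⟨W, b, hb, h1, h2, h3⟩ := arc_move U V
    exact ⟨W, ⟨b, D.B_le hb⟩, h1, fun a ha => h3 a a.2.1.1 ha, fun a ha => h2 ha⟩
  · obtain ⟨V, h⟩ := arc_comm U
    exact ⟨V, fun a ha b hb => Subtype.ext (h a a.2.1.1 ha b b.2.1.1 hb)⟩
  · obtain ⟨x, hx, h1⟩ : ∃ x, NS x ∧ ∀ j : ℤ, m.1 x ≠ (lam ^ j) x := by
      by_contra h
      push Not at h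
      exact hm (D.not_lam m h)
    obtain ⟨i, h2, h3⟩ := exists_fd x (m.1 x)
    have h4 : x < (lam ^ i * m.1) x := lt_of_le_of_ne h2 fun e => h1 (-i) (by
      nth_rewrite 2 [e]; simp)
    have hμ : lam ^ i * m.1 ∈ CL := mul_mem (zpow_mem lam_CL i) m.2.1.1
    obtain ⟨e, he, h5, h6⟩ := hx.dens (lt_min h4 ((lam ^ i * m.1).lt_symm_apply.2 h3)) 0
    obtain ⟨e', he', h7, h8⟩ := he.ns.dens h6 0
    rw [lt_min_iff] at h8
    have h9 := (lam ^ i * m.1).lt_symm_apply.1 h8.2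
    refine ⟨⟨e', lam e, ⟨_, he'⟩, ⟨_, he.lam⟩, (h8.1.trans h3).trans (lam.strictMono h5),
      lam.strictMono h7⟩, fun a ha b hb => Subtype.ext (commute_of_fix fun w => ?_)⟩
    obtain ⟨l, h10, h11⟩ := exists_fd e w
    have hc := (m * b * m⁻¹).2.1.1
    rw [← CL.fix a.2.1.1 l, ← CL.fix hc l]
    rcases le_or_gt e' ((lam ^ l) w) with h | h
    · exact Or.inl (ha _ h h11)
    · refine Or.inr ((CL.fix hc 1).1 ?_)
      have := Fx.conj hb (lam ^ i * m.1)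
      rw [show lam ^ i * m.1 * D.G.subtype b * (lam ^ i * m.1)⁻¹ =
        lam ^ i * (m * b * m⁻¹).1 * (lam ^ i)⁻¹ by simp [mul_assoc], CL.conj hc, mem_CL.1 hμ] at this
      refine this _ (h9.le.trans ?_) ?_
      · simpa using h5.le.trans h10
      · simpa using (h.trans h8.1).trans ((lam ^ i * m.1).strictMono h5)

theorem quasi : ∃ (κ : D.G → H) (σ : H →* D.G),
    (∀ s, (Set.range fun g => (κ g)⁻¹ * κ (g * s)).Finite) ∧ ∀ h, κ (σ h) = h := by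
  obtain ⟨q, hq⟩ : ∃ q, q ∈ O := ⟨_, O_pt 0⟩
  obtain ⟨σ, hσ⟩ := D.exists_sigma hq (Eventually.of_forall fun _ => trivial)
  refine ⟨fun g => (D.c0 g⁻¹ q)⁻¹, σ, fun s => ?_, fun h => by
    simp only [← map_inv, (hσ _).2.1, inv_inv]⟩
  have h1 : (Set.range fun j : ℤ => D.α ^ j).Finite :=
    finite_zpowers.2 (isOfFinOrder_iff_pow_eq_one.2 ⟨_, Nat.pos_of_ne_zero D.hN, D.αN⟩)
  refine (((h1.prod s⁻¹.2.2.2.2).image fun p => (p.1 (D.c0 s⁻¹ p.2.1))⁻¹).insert 1).subset ?_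
  rintro _ ⟨g, rfl⟩
  have h2 := (g⁻¹.2.1.2 _).2 hq
  simp only [mul_inv_rev, c0_mul _ _ hq, inv_inv, mul_inv_cancel_left]
  generalize g⁻¹.1 _ = z at h2
  have h3 : nrm z ∈ O := O_zpow h2 _
  have e : D.c0 s⁻¹ z = (D.α ^ z.k) (D.c0 s⁻¹ (nrm z)) := by
    rw [← c0_zpow _ h3]; simp [nrm]
  by_cases h : Reg s⁻¹.1 (nrm z)
  · left
    rw [e, (c0_eq_one _ h3).2 h]; simp
  · exact Or.inr ⟨(_, ⟨nrm z, O_zpow h2 _, nrm_k z⟩), ⟨⟨_, rfl⟩, h⟩, by rw [e]⟩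

end Dat

theorem move_in {c d e : ZMod 2} {x y a a' : L} (hx : EC c x) (hy : EC d y) (ha : EC e a)
    (ha' : EC e a') (h1 : x < a) (h2 : a < y) (h3 : x < a') (h4 : a' < y) :
    ∃ g ∈ F x y, g a = a' := by
  obtain ⟨g0, hg0, e0, -⟩ := key ha ha' ha.lam ha'.lam (lt_lam _) (lt_lam _)
  obtain ⟨g, hg, e1, e2, e3⟩ := ext2 hg0 hx hx hy hy ha ha h1 le_rfl h2 (e0 ▸ h3) (e0 ▸ h4)
  obtain ⟨f, hf, h⟩ := cut hg hx hy (h1.trans h2).le e1 e2
  exact ⟨f, hf, by rw [h a h1.le h2.le, e3 a le_rfl le_rfl, e0]⟩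

theorem Rf.map {y y' : L} (h : Rf y y') (g : Au) : Rf (g y) (tau g y') := fun w => by
  obtain ⟨w, rfl⟩ := g.surjective w
  rw [show rf (g w) = tau g (rf w) by simp [tau_apply], OrderIso.lt_iff_lt, OrderIso.le_iff_le, h]

theorem rf_st (j : ℤ) : Rf (st j) (st (2 - j)) := fun w => by
  rw [lt_st, st_le]; simp only [rf]; omega

theorem main {m : ℕ} (hm : 1 ≤ m) : ∃ (G : Type) (_ : Group G) (φ : G →* Au), Injective φ ∧
    IsSimpleGroup G ∧ Fn G m ∧ ¬ FPG G (m+1) := by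
  obtain ⟨c0, -, -⟩ := (show Cht (fun w => ⟨0, w⟩) (st 0) (st (0+1)) from
    ⟨1, one_mem _, 0, fun _ => rfl, rfl, rfl⟩).child
  have hx0 := c0.ec (EC.st 0)
  obtain ⟨y0, y1, c1, r1, r2, -⟩ := c0.rf
  obtain ⟨d0, hy0⟩ := c1.E
  have l0 := c0.lt
  have l1 : (⟨0, cons 1 z0⟩ : L) < st 1 := lt_st.2 (by simp)
  generalize (⟨0, cons 1 z0⟩ : L) = x0 at hx0 r2 l0 l1
  obtain ⟨x1, hx1, l2, l3⟩ := hx0.ns.dens l1 ((0 : ℤ) + 1)
  obtain ⟨t0, ht0, e0⟩ := move_in (EC.st 0) (EC.st 1) hx0 hx1 l0 l1 (l0.trans l2) l3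
  have ht1 : tau t0 ∈ F (st 1) (st 2) := ⟨tau_ra ht0.1, (rf_st 0).sp (rf_st 1) ht0.2⟩
  have hcm : Commute t0 (tau t0) := commute_of_fix fun w => (le_or_gt (st 1) w).imp
    (fun h => ht0.2 w (Or.inr h)) fun h => ht1.2 w (Or.inl h)
  have hτt : tau (t0 * tau t0) = t0 * tau t0 := by rw [map_mul, tau_tau, hcm.eq]
  have ht : t0 * tau t0 ∈ F (st 0) (st 2) :=
    mul_mem ⟨ht0.1, Sp.mono le_rfl (st_le.2 (by simp)) ht0.2⟩
      ⟨ht1.1, Sp.mono (st_le.2 (by simp)) le_rfl ht1.2⟩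
  have l4 : x0 < (t0 * tau t0) x0 := by rwa [RelIso.mul_apply, ht1.2 x0 (Or.inl l1), e0]
  generalize t0 * tau t0 = t at hτt ht l4
  have l5 : t y0 < y0 := r2.lt (by simpa only [hτt] using r2.map t) l4
  have l6 : y0 < st 2 := (rf_st 0).lt r2 l0
  have l7 : st 1 < y0 := r2.lt (rf_st 1) l1
  have hconj : ∀ a ∈ F x0 y0, t * a * t⁻¹ ∈ F (t x0) (t y0) := fun a ha =>
    ⟨mul_mem (mul_mem ht.1 ha.1) (inv_mem (S := Subgroup Au) ht.1), Sp.conj ha.2 t⟩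
  obtain ⟨Γ, 𝒟, d1, d2, d3, d4, d5⟩ := exists_asc (F x0 y0) t
    (fun a ha => ⟨(hconj a ha).1, Sp.mono l4.le l5.le (hconj a ha).2⟩)
    (fun j hj => by
      have h1 : ∀ n : ℕ, x0 < (t ^ (n+1)) x0 := fun n => by
        induction n with
        | zero => simpa using l4
        | succ n ih => rw [pow_succ']; exact l4.trans (t.strictMono ih)
      have h2 := Sp.lo hj.2
      rcases j with (_ | n) | n
      · rfl
      · exact absurd h2 (h1 n).ne'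
      · rw [zpow_negSucc] at h2
        exact absurd (by nth_rewrite 1 [← h2]; simp) (h1 n).ne')
    tau hτt fun a ha => ⟨tau_ra ha.1, r2.sp r2.symm ha.2⟩
  let τ : Γ →* Γ := (tau.comp Γ.subtype).codRestrict Γ fun g => (d5 g).1
  obtain ⟨α, ev, a1, a2, a3, a4⟩ := exists_twist 𝒟 τ (fun g => Subtype.ext (tau_tau _))
    (fun g => (d5 g).2) (m+1)
  have hw1 : EC 0 (⟨0, cons 2 (cons 2 z0)⟩ : L) := ⟨(0, [2, 2]), rfl, rfl⟩
  obtain ⟨e, he, e1, e2⟩ := key (EC.st 0) (show EC _ w0 from ⟨(0, [2]), rfl, rfl⟩) (EC.st 2) hw1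
    (lt_st.2 (by simp)) (L.lt_iff.2 (Or.inr ⟨rfl, 1, by decide, by decide⟩))
  have hΓ := d4 (F (st 0) (st 2)) (fun a ha => ⟨ha.1, Sp.mono l0.le l6.le ha.2⟩) ht
  let D : Dat (𝒟.Hk (Fin (m+1+1))) :=
    { α := α
      N := 2 * (m+1+1)
      hN := by omega
      αN := a2
      ev := fun n => ((MulAut.conj e).toMonoidHom.comp Γ.subtype).comp (ev n)
      ev_mem := fun n a => ⟨mul_mem (mul_mem he (hΓ (ev n a).2).1) (inv_mem (S := Subgroup Au) he),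
        Sp.mono e1.ge (e2 ▸ (lt_st.2 (by simp)).le) (Sp.conj (hΓ (ev n a).2).2 e)⟩
      ev_α := fun n a => by simp only [MonoidHom.comp_apply, a1]
      ev_inj := fun a b h => a3 a b (h.mono fun n h => Subtype.ext ((MulAut.conj e).injective h)) }
  have hAΓ : F x0 y0 ≤ Γ := fun g hg => (d3 0 g (by simpa using hg)).1
  have hA : Fn 𝒟.A m := by
    rw [show 𝒟.A = (F x0 y0).subgroupOf Γ from Subgroup.ext d2]
    exact (fn_F hx0 hy0 m).equiv (Subgroup.subgroupOfEquivOfLe hAΓ).symm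
  have hG := D.fn_G hm (𝒟.fn_Hk hm hA (by simp))
  have hfg := hG.1.fg
  have hfi : (commutator D.G).FiniteIndex := finiteIndex_commutator fun C _ _ ψ =>
    D.hom_G (a4 C fun N hN ψ hψ a => by
      obtain ⟨i, hi⟩ := 𝒟.exh a ((hN a).1 a.2)
      let ι : F x0 y0 →* N := ((MulAut.conj (𝒟.t ^ (i+1))⁻¹).toMonoidHom.comp
        (Subgroup.inclusion hAΓ)).codRestrict N fun b => (hN _).2 (by
          have : 𝒟.χ (Subgroup.inclusion hAΓ b) = 0 := 𝒟.χ_A _ ((d2 _).2 b.2)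
          show 𝒟.χ ((𝒟.t ^ (i+1))⁻¹ * Subgroup.inclusion hAΓ b * (𝒟.t ^ (i+1))⁻¹⁻¹) = 0
          simp [𝒟.χ_mul, this])
      have h1 := hconj _ ((d2 _).1 hi)
      have := hom_A hx0 hy0 (hx0.ra ht.1) (hy0.ra ht.1) r2 l4 l5 (ψ.comp ι) (fun b b' h =>
        hψ _ _ (Subtype.ext (by
          show (𝒟.t ^ (i+1)).1⁻¹ * b'.1 * (𝒟.t ^ (i+1)).1⁻¹⁻¹ =
            tau ((𝒟.t ^ (i+1)).1⁻¹ * b.1 * (𝒟.t ^ (i+1)).1⁻¹⁻¹)
          simp [h, d1, hτt]))) ⟨_, h1.1, Sp.mono l4.le l5.le h1.2⟩ h1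
      rw [← this]
      refine congrArg ψ (Subtype.ext (Subtype.ext ?_))
      show _ = (𝒟.t ^ (i+1)).1⁻¹ * (t * (𝒟.t ^ i * a.1 * (𝒟.t ^ i)⁻¹).1 * t⁻¹) * (𝒟.t ^ (i+1)).1⁻¹⁻¹
      simp only [Subgroup.coe_mul, Subgroup.coe_pow, Subgroup.coe_inv, d1]
      group) ψ
  have hnot : ¬ FPG D.G (m+1) := by
    obtain ⟨κ, σ, h1, h2⟩ := D.quasi
    obtain ⟨u, hu, l8, l9⟩ := hx0.ns.dens (lt_min l4 (l1.trans l7)) 0
    obtain ⟨u', hu', l10, l11⟩ := hu.ns.dens l9 0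
    rw [lt_min_iff] at l9 l11
    obtain ⟨a, ha, e3⟩ := move_in hx0 hy0 hu hu' l8 l9.2 (l8.trans l10) l11.2
    obtain ⟨h3, h4⟩ := d3 1 (t⁻¹ * a * t) (by simpa [mul_assoc] using ha)
    refine 𝒟.not_fpg (by simp) _ h4 (fun h => ?_) κ h1 σ h2
    have := ((d2 _).1 h).2 (t⁻¹ u) (Or.inl (t.symm_apply_lt.2 l9.1))
    simp [e3, l10.ne'] at this
  have hne : commutator D.G ≠ ⊥ := fun h => by
    rw [h] at hfi
    have : Finite D.G := Nat.finite_of_card_ne_zero (by simpa using hfi.index_ne_zero)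
    exact hnot (fn_of_finite _).2
  exact ⟨commutator D.G, inferInstance, D.G.subtype.comp (Subgroup.subtype _),
    Subtype.val_injective.comp Subtype.val_injective, D.simple_G hne, hG.subgroup _,
    fun h => hnot (FPG.of_finiteIndex _ h)⟩

end Pool.Agent.P.MP_267653_al
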