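import Pool.Agent.P.MP_267653_al.Charts
import Pool.Agent.Lib.Brown.Fn

/-! The Stein-Farley complex: the groups `F x y` are of type F-infinity; a generating set. -/

set_option autoImplicit false

namespace Pool.Agent.P.MP_267653_al

open Function Pool.Agent.Lib.Brown
open scoped Pointwise Classical

variable {φ ψ : Φ} {x y z x' y' : L} {𝒜 ℬ J : Finset Φ}

def Rl (𝒜 ℬ : Finset Φ) : Prop := Le 𝒜 ℬ ∨ Le ℬ 𝒜

instance : RS Rl := ⟨fun _ => Or.inl fun _ h => Or.inl h, fun _ _ h => h.symm⟩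

theorem Rl.le (h : Rl 𝒜 ℬ) (hA : Vx x y 𝒜) (hB : Vx x y ℬ) (hc : 𝒜.card ≤ ℬ.card) : Le 𝒜 ℬ :=
  h.elim id fun h => by rw [h.eq hB hA hc]; exact fun _ h => Or.inl h

theorem conn_gd (N M : ℕ) (hne : ∃ 𝒜, Vx x y 𝒜 ∧ ∀ φ ∈ 𝒜, Gd N φ) :
    Conn Rl {𝒜 | Vx x y 𝒜 ∧ ∀ φ ∈ 𝒜, Gd N φ} M := by
  obtain ⟨K, hK⟩ := gd_bound x y N
  obtain ⟨𝒰, hU, hmax⟩ : ∃ 𝒰, (Vx x y 𝒰 ∧ ∀ φ ∈ 𝒰, Gd N φ) ∧
      ∀ 𝒜, (Vx x y 𝒜 ∧ ∀ φ ∈ 𝒜, Gd N φ) → K - 𝒰.card ≤ K - 𝒜.card :=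
    ⟨_, argminOn_mem (fun 𝒜 : Finset Φ => K - 𝒜.card) {𝒜 | Vx x y 𝒜 ∧ ∀ φ ∈ 𝒜, Gd N φ} hne,
      fun _ h => argminOn_le (fun 𝒜 : Finset Φ => K - 𝒜.card) _ h⟩
  have hstd : ∀ 𝒜, Vx x y 𝒜 → (∀ φ ∈ 𝒜, Gd N φ) → 𝒰.card ≤ 𝒜.card → ∀ φ ∈ 𝒜, Std N φ := by
    intro 𝒜 h1 h2 h3 φ hφ
    by_contra h
    have hJ : {φ} ⊆ 𝒜 := by simpa using hφ
    have h4 := Vx.ex_gd h2 hJ (by simpa using h)
    have h5 := hmax _ ⟨h1.ex hJ, h4⟩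
    have h6 := hK _ (h1.ex hJ) h4
    rw [h1.card_ex hJ, Finset.card_singleton] at h5 h6
    omega
  have hU' := hstd 𝒰 hU.1 hU.2 le_rfl
  have hKU := hK 𝒰 hU.1 hU.2
  refine Conn.up (fun 𝒜 => K - 𝒜.card) (K - 𝒰.card) (fun 𝒜 hA ℬ hB h he _ => ?_)
    (fun 𝒜 hA hlt j _ => ?_) (conn_cone (S := Sub _ _ _) (v := 𝒰) ⟨hU, le_rfl⟩ (fun 𝒜 hA => ?_) M)
  · have := hK _ hA.1 hA.2
    have := hK _ hB.1 hB.2
    exact (h.le hA.1 hB.1 (by omega)).eq hA.1 hB.1 (by omega)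
  · have hJ : 𝒜.filter (fun φ => ¬ Std N φ) ⊆ 𝒜 := Finset.filter_subset _ _
    have h4 := Vx.ex_gd hA.2 hJ (fun φ h => (Finset.mem_filter.1 h).2)
    refine (conn_cone (S := DLk _ _ _ _) (v := ex 𝒜 (𝒜.filter fun φ => ¬ Std N φ))
      ⟨(⟨hA.1.ex hJ, h4⟩ : _ ∧ _), ?_, Or.inl (le_ex _ _)⟩
      (fun ℬ hB => Or.inr fun χ hχ => ?_) j).1 j le_rfl
    · have h6 := hK _ (hA.1.ex hJ) h4
      have : (𝒜.filter fun φ => ¬ Std N φ).card ≠ 0 := fun h => by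
        have := Finset.card_le_card (hU.1.std_eq hA.1 hU' fun φ hφ => by
          simpa using Finset.filter_eq_empty_iff.1 (Finset.card_eq_zero.1 h) hφ)
        omega
      rw [hA.1.card_ex hJ] at h6 ⊢
      omega
    · obtain ⟨hB, h1, h2⟩ := hB
      have hχ' := hχ
      beta_reduce at h1
      rw [(h2.le hA.1 hB.1 (by omega)).eq_ex hA.1 hB.1, mem_ex] at hχ'
      rcases hχ' with h | ⟨φ, hφ, a, rfl⟩
      · exact le_ex _ _ χ h.1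
      · exact Or.inl (mem_ex.2 (Or.inr ⟨φ, Finset.mem_filter.2 ⟨(Finset.mem_sdiff.1 hφ).1,
          fun h => h.not_gd a (hB.2 _ hχ)⟩, a, rfl⟩))
  · have := hK _ hA.1.1 hA.1.2
    have h2 : K - 𝒜.card ≤ K - 𝒰.card := hA.2
    exact Or.inl fun φ hφ => Or.inl
      (hU.1.std_eq hA.1.1 hU' (hstd _ hA.1.1 hA.1.2 (by omega)) hφ)

theorem Vx.gd (h : Vx x y 𝒜) : ∀ᶠ N in Filter.atTop, ∀ φ ∈ 𝒜, Gd N φ :=
  (Filter.eventually_all_finset _).2 fun φ hφ => by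
    obtain ⟨_, _, h⟩ := h.cht φ hφ
    exact h.gd

theorem conn_vx (M : ℕ) (hne : ∃ 𝒜, Vx x y 𝒜) : Conn Rl {𝒜 | Vx x y 𝒜} M := by
  obtain ⟨𝒜, hA⟩ := hne
  obtain ⟨N, hN⟩ := hA.gd.exists
  refine conn_directed (fun n : ℕ => {𝒜 | Vx x y 𝒜 ∧ ∀ φ ∈ 𝒜, Gd (N + n) φ})
    (fun i j => ⟨i + j, fun _ h => ⟨h.1, fun φ hφ => (h.2 φ hφ).mono (by omega)⟩,
      fun _ h => ⟨h.1, fun φ hφ => (h.2 φ hφ).mono (by omega)⟩⟩) (fun ℬ hB => ?_)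
    (fun _ _ h => h.1) fun i => conn_gd _ _ ⟨𝒜, hA, fun φ hφ => (hN φ hφ).mono (by omega)⟩
  obtain ⟨n, hn⟩ := (Vx.gd hB).exists
  exact ⟨n, hB, fun φ hφ => (hn φ hφ).mono (by omega)⟩

theorem Seq.parents (j : ℕ) : ∀ {x : L} {l : List Φ}, Seq x l y → 3 * j ≤ l.length →
    ∃ σ : Finset Φ, σ.card = j ∧ (∀ ψ ∈ σ, (∃ a b, Cht ψ a b) ∧ (∀ a, ch ψ a ∈ l) ∧
      ∀ w, x ≤ ψ w) ∧ ∀ ψ ∈ σ, ∀ χ ∈ σ, ψ ≠ χ → ∀ w w', ψ w ≠ χ w' := by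
  induction j with
  | zero => exact fun _ _ => ⟨∅, rfl, by simp, by simp⟩
  | succ j ih =>
    intro x l h hl
    rcases h with _ | ⟨h0, _ | ⟨h1, _ | ⟨h2, h⟩⟩⟩
    · simp at hl
    · simp at hl; omega
    · simp at hl; omega
    obtain ⟨σ, e1, e2, e3⟩ := ih h (by simp at hl; omega)
    obtain ⟨ψ, h3, rfl, rfl, rfl⟩ := exists_parent h0 h1 h2
    have h4 : ∀ χ ∈ σ, ∀ w w', ψ w ≠ χ w' := fun χ hχ w w' =>
      ((h3.mem w).2.trans_le ((e2 χ hχ).2.2 w')).ne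
    refine ⟨insert ψ σ, by rw [Finset.card_insert_of_notMem fun h => h4 ψ h z0 z0 rfl, e1], ?_, ?_⟩
    · simp only [Finset.mem_insert]
      rintro χ (rfl | hχ)
      · exact ⟨⟨_, _, h3⟩, fun a => by fin_cases a <;> simp, fun w => (h3.mem w).1⟩
      · exact ⟨(e2 χ hχ).1, fun a => by simp [(e2 χ hχ).2.1 a],
          fun w => h3.lt.le.trans ((e2 χ hχ).2.2 w)⟩
    · simp only [Finset.mem_insert]
      rintro χ (rfl | hχ) χ' (rfl | hχ') hne w w'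
      · exact absurd rfl hne
      · exact h4 _ hχ' _ _
      · exact (h4 _ hχ _ _).symm
      · exact e3 _ hχ _ hχ' hne _ _

theorem conn_link (N : ℕ) (hA : Vx x y 𝒜) (hxy : x ≤ y) (hc : 3 * (N * 3 + 1) ≤ 𝒜.card) :
    Conn Rl (DLk Rl {𝒜 | Vx x y 𝒜} Finset.card 𝒜) N := by
  obtain ⟨l, h1, h2, h3⟩ := hA.seq hxy
  obtain ⟨σ, e1, e2, e3⟩ := h1.parents (N * 3 + 1)
    (by rwa [← h3, List.toFinset_card_of_nodup h2] at hc)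
  set T : Set Φ := {ψ | (∃ a b, Cht ψ a b) ∧ ∀ a, ch ψ a ∈ 𝒜}
  have hcn := grounded (fun ψ χ : Φ => ∀ w w', ψ w ≠ χ w') (fun _ _ h w w' => (h w' w).symm) 3 N
    T σ ⟨Finset.card_pos.1 (by omega), fun ψ hψ => ⟨(e2 ψ hψ).1, fun a => by
      rw [← h3, List.mem_toFinset]; exact (e2 ψ hψ).2.1 a⟩, e3⟩ e1.ge (fun ψ hψ => by
      refine (Finset.card_le_card_of_forall_subsingleton (t := Finset.univ)
        (fun χ (a : Fin 3) => ∃ v, χ v = ψ (cons a z0)) (fun χ hχ => ?_) ?_).trans (by simp)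
      · obtain ⟨h4, -, h5⟩ := Finset.mem_filter.1 hχ
        push Not at h5
        obtain ⟨w, w', h5⟩ := h5
        obtain ⟨a, w, rfl⟩ := exists_cons w
        obtain ⟨a', w', rfl⟩ := exists_cons w'
        have := hA.dis _ (hψ.2 a) (ch χ a') (by
          rw [← h3, List.mem_toFinset]; exact (e2 χ h4).2.1 a') w w' h5
        exact ⟨a, Finset.mem_univ _, _, (congrFun this z0).symm⟩
      · rintro a - χ ⟨h4, w, e⟩ χ' ⟨h5, w', e'⟩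
        by_contra hne
        exact e3 _ (Finset.mem_filter.1 h4).1 _ (Finset.mem_filter.1 h5).1 hne _ _ (e.trans e'.symm))
  have hlk : ∀ ℬ ∈ DLk Rl {𝒜 | Vx x y 𝒜} Finset.card 𝒜, Le ℬ 𝒜 := fun ℬ hB =>
    Rl.le (RS.symm _ _ hB.2.2) hB.1 hA hB.2.1.le
  have hf : ∀ ℬ ∈ DLk Rl {𝒜 | Vx x y 𝒜} Finset.card 𝒜, ∀ ℬ' ∈ DLk Rl {𝒜 | Vx x y 𝒜} Finset.card 𝒜,
      Le ℬ ℬ' → ℬ' \ 𝒜 ⊆ ℬ \ 𝒜 := by
    intro ℬ hB ℬ' hB' h ψ hψ
    obtain ⟨h4, h5⟩ := Finset.mem_sdiff.1 hψ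
    refine Finset.mem_sdiff.2 ⟨?_, h5⟩
    have h6 := h4
    rw [h.eq_ex hB.1 hB'.1, mem_ex] at h6
    rcases h6 with h6 | ⟨χ, hχ, a, rfl⟩
    · exact h6.1
    · rcases hlk ℬ hB χ (Finset.mem_sdiff.1 hχ).1 with h7 | h7
      · have h8 := (hlk ℬ' hB' _ h4).resolve_left h5 0
        have h9 := hA.dis _ h8 _ h7 z0 _ rfl
        have h10 := congrFun (hA.inj h7 (congrFun h9 (cons 1 z0))) 1
        have h11 := congrFun (hA.inj h7 (congrFun h9 (cons 1 (cons 1 z0)))) 1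
        exact absurd h11 (show (0 : Fin 3) ≠ 1 by decide)
      · exact absurd (h7 a) h5
  have hg : ∀ J ∈ Clq (fun ψ χ : Φ => ∀ w w', ψ w ≠ χ w') T,
      ∀ J' ∈ Clq (fun ψ χ : Φ => ∀ w w', ψ w ≠ χ w') T, J ⊆ J' →
      Le (J' ∪ (𝒜 \ kids J')) (J ∪ (𝒜 \ kids J)) := by
    intro J hJ J' hJ' h φ hφ
    simp only [Finset.mem_union, Finset.mem_sdiff, mem_kids] at hφ ⊢
    rcases hφ with hφ | hφ
    · refine or_iff_not_imp_left.2 fun h4 a => Or.inr ⟨(hJ'.2.1 φ hφ).2 a, ?_⟩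
      rintro ⟨ψ, hψ, b, e⟩
      exact hJ'.2.2 ψ (h hψ) φ hφ (fun e => h4 (Or.inl (e ▸ hψ))) _ _ (congrFun e z0)
    · exact Or.inl (Or.inr ⟨hφ.1, fun ⟨ψ, hψ, e⟩ => hφ.2 ⟨ψ, h hψ, e⟩⟩)
  refine hcn.retract (fun ℬ => ℬ \ 𝒜) (fun J => J ∪ (𝒜 \ kids J)) (fun ℬ hB => ⟨?_, ?_, ?_⟩)
    (fun J hJ => ?_) (fun ℬ hB ℬ' hB' h => (h.imp (hf _ hB _ hB') (hf _ hB' _ hB)).symm)
    (fun J hJ J' hJ' h => (h.imp (hg _ hJ _ hJ') (hg _ hJ' _ hJ)).symm) (fun ℬ hB => ?_)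
  · have := (hlk ℬ hB).card hB.1 hA
    have := hB.2.1
    exact Finset.card_pos.1 (by omega)
  · intro ψ hψ
    rw [Finset.mem_sdiff] at hψ
    exact ⟨Vx.cht hB.1 ψ hψ.1, (hlk ℬ hB ψ hψ.1).resolve_left hψ.2⟩
  · intro ψ hψ χ hχ hne w w' e
    exact hne (Vx.dis hB.1 _ (Finset.mem_sdiff.1 hψ).1 _ (Finset.mem_sdiff.1 hχ).1 _ _ e)
  · have hV : Vx x y (J ∪ (𝒜 \ kids J)) := by
      refine ⟨?_, ?_, fun z h1 h2 => ?_, ?_⟩ <;>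
        simp only [Finset.mem_union, Finset.mem_sdiff, mem_kids]
      · rintro φ (hφ | hφ)
        exacts [(hJ.2.1 φ hφ).1, hA.cht φ hφ.1]
      · rintro φ (hφ | hφ) w
        · obtain ⟨a, w, rfl⟩ := exists_cons w
          exact hA.sub _ ((hJ.2.1 φ hφ).2 a) w
        · exact hA.sub φ hφ.1 w
      · obtain ⟨φ, hφ, w, rfl⟩ := hA.cov z h1 h2
        by_cases h : ∃ ψ ∈ J, ∃ a, ch ψ a = φ
        · obtain ⟨ψ, hψ, a, rfl⟩ := h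
          exact ⟨ψ, Or.inl hψ, _, rfl⟩
        · exact ⟨φ, Or.inr ⟨hφ, h⟩, w, rfl⟩
      · have : ∀ φ ∈ J, ∀ χ ∈ 𝒜, ∀ w w', φ w = χ w' → ∃ ψ ∈ J, ∃ a, ch ψ a = χ := by
          intro φ hφ χ hχ w w' e
          obtain ⟨a, w, rfl⟩ := exists_cons w
          exact ⟨φ, hφ, a, hA.dis _ ((hJ.2.1 φ hφ).2 a) _ hχ w w' e⟩
        rintro φ (hφ | hφ) χ (hχ | hχ) w w' e
        · by_contra hne
          exact hJ.2.2 φ hφ χ hχ hne _ _ e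
        · exact absurd (this φ hφ χ hχ.1 _ _ e) hχ.2
        · exact absurd (this χ hχ φ hφ.1 _ _ e.symm) hφ.2
        · exact hA.dis _ hφ.1 _ hχ.1 _ _ e
    have hle : Le (J ∪ (𝒜 \ kids J)) 𝒜 := fun φ hφ =>
      (Finset.mem_union.1 hφ).elim (fun h => Or.inr (hJ.2.1 φ h).2)
        fun h => Or.inl (Finset.mem_sdiff.1 h).1
    refine ⟨hV, ?_, Or.inr hle⟩
    by_contra hlt
    obtain ⟨ψ, hψ⟩ := hJ.1
    exact hA.not_child (hle.eq hV hA (not_lt.1 hlt) ▸ Finset.mem_union_left _ hψ) 0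
      ((hJ.2.1 ψ hψ).2 0)
  · ext φ
    simp only [Finset.mem_union, Finset.mem_sdiff, mem_kids]
    constructor
    · rintro (h | ⟨h4, h5⟩)
      · exact h.1
      · rw [(hlk ℬ hB).eq_ex hB.1 hA, mem_ex] at h4
        exact (h4.resolve_right (by simpa only [Finset.mem_sdiff] using h5)).1
    · intro h
      by_cases h4 : φ ∈ 𝒜
      · refine Or.inr ⟨h4, ?_⟩
        rintro ⟨ψ, hψ, a, rfl⟩
        exact Vx.not_child hB.1 hψ.1 a h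
      · exact Or.inl ⟨h, h4⟩

/-- the Higman-Thompson groups are of type F-infinity -/
theorem fn_F {c d : ZMod 2} (hx : EC c x) (hy : EC d y) (m : ℕ) : Fn (F x y) m := by
  rcases lt_or_ge y x with hxy | hxy
  · have : Subsingleton (F x y) := ⟨fun a b => Subtype.ext (RelIso.ext fun z => by
      have h : z < x ∨ y ≤ z := (lt_or_ge z x).imp id fun h => hxy.le.trans h
      rw [a.2.2 z h, b.2.2 z h])⟩
    exact fn_of_subsingleton m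
  refine Fn.mono (Nat.le_succ m) ?_
  set m0 := 3 * ((m + 2) * 3 + 1)
  let rep : ℕ → Finset Φ := fun n => if h : ∃ 𝒜, Vx x y 𝒜 ∧ 𝒜.card = n then h.choose else ∅
  refine brown Rl (Sub {𝒜 | Vx x y 𝒜} Finset.card m0)
    (fun g 𝒜 h => ⟨Vx.smulF h.1 g.2, (Finset.card_smul_finset _ _).trans_le h.2⟩)
    (fun g _ _ h => h.imp (·.smul g) (·.smul g)) (by omega)
    (Conn.down _ m0 (fun 𝒜 hA ℬ hB h he _ => (h.le hA hB he.le).eq hA hB he.ge)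
      (fun 𝒜 hA h => conn_link _ hA hxy h.le) (conn_vx _ (exists_vx hx hy)))
    ((Finset.range (m0+1)).biUnion fun n => (rep n ∪ kids (rep n)).powerset)
    (fun l hl _ => ?_) (fun l hl hs => ?_)
  · by_cases hne : l = []
    · exact ⟨1, by simp [hne]⟩
    obtain ⟨𝒜, hA, hmin⟩ := l.toFinset.exists_min_image Finset.card
      (by simpa [List.toFinset_nonempty_iff] using hne)
    rw [List.mem_toFinset] at hA
    have hV : Vx x y 𝒜 := (hl 𝒜 hA).1.1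
    have h : ∃ ℬ, Vx x y ℬ ∧ ℬ.card = 𝒜.card := ⟨𝒜, hV, rfl⟩
    obtain ⟨g, hg, e⟩ := hV.trans h.choose_spec.1 h.choose_spec.2.symm hx hy hxy
    refine ⟨⟨g, hg⟩, fun ℬ hB => Finset.mem_biUnion.2 ⟨𝒜.card,
      Finset.mem_range.2 (Nat.lt_succ_of_le (hl 𝒜 hA).1.2), Finset.mem_powerset.2 fun φ hφ => ?_⟩⟩
    have hV' : Vx x y ℬ := (hl ℬ hB).1.1
    have hle := (((hl 𝒜 hA).2 ℬ hB).le hV hV' (hmin ℬ (List.mem_toFinset.2 hB))).smul g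
    change φ ∈ g • ℬ at hφ
    rw [hle.eq_ex (hV.smulF hg) (hV'.smulF hg), mem_ex, e] at hφ
    rw [show rep 𝒜.card = h.choose from dif_pos h, Finset.mem_union, mem_kids]
    exact hφ.imp (·.1) fun ⟨ψ, hψ, e⟩ => ⟨ψ, (Finset.mem_sdiff.1 hψ).1, e⟩
  · obtain ⟨𝒜, hA⟩ := List.exists_mem_of_ne_nil l hl
    have h1 : ∀ g : MulAction.stabilizer (F x y) l, g = 1 := fun g => Subtype.ext (Subtype.ext
      (Vx.free (hs 𝒜 hA).1.1 g.1.2.2 (mem_stab_list.1 g.2 𝒜 hA)))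
    have : Subsingleton (MulAction.stabilizer (F x y) l) := ⟨fun a b => by rw [h1 a, h1 b]⟩
    exact fn_of_subsingleton _

/-- the basic generators -/
def IsY (φ ψ : Φ) (g : Au) : Prop :=
  g • ch φ 0 = φ ∧ g • ch φ 1 = ch ψ 0 ∧ g • ch φ 2 = ch ψ 1 ∧ g • ψ = ch ψ 2

theorem exists_Y (h : Cht φ x y) (h' : Cht ψ y z) : ∃ g ∈ F x z, IsY φ ψ g := by
  obtain ⟨c, hc⟩ := h.E
  obtain ⟨a0, a1, a2⟩ := h.child
  obtain ⟨b0, b1, b2⟩ := h'.child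
  obtain ⟨g, hg, e⟩ := (Seq.cons a0 (.cons a1 (.cons a2 (.cons h' (.nil _))))).mtchF
    (Seq.cons h (.cons b0 (.cons b1 (.cons b2 (.nil _))))) rfl hc (h'.ec (h.ec hc))
  exact ⟨g, hg, by simpa [IsY] using e⟩

theorem gen {c d : ZMod 2} (hx : EC c x) (hy : EC d y) (K : Subgroup Au)
    (hK : ∀ φ ψ a b e g, Cht φ a b → Cht ψ b e → x ≤ a → e ≤ y → g ∈ F a e → IsY φ ψ g → g ∈ K) :
    F x y ≤ K := by
  intro g hg
  rcases lt_or_ge y x with hxy | hxy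
  · rw [show g = 1 from RelIso.ext fun z => hg.2 z ((lt_or_ge z x).imp id fun h => hxy.le.trans h)]
    exact K.one_mem
  let E : Finset Φ → Finset Φ → Prop := fun 𝒜 ℬ => ∃ k ∈ K ⊓ F x y, k • 𝒜 = ℬ
  have Etrans : ∀ {𝒜 ℬ 𝒞}, E 𝒜 ℬ → E ℬ 𝒞 → E 𝒜 𝒞 := by
    rintro _ _ _ ⟨k, hk, rfl⟩ ⟨k', hk', rfl⟩
    exact ⟨k' * k, mul_mem hk' hk, mul_smul _ _ _⟩
  have Esymm : ∀ {𝒜 ℬ}, E 𝒜 ℬ → E ℬ 𝒜 := by
    rintro _ _ ⟨k, hk, rfl⟩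
    exact ⟨k⁻¹, inv_mem hk, inv_smul_smul _ _⟩
  have Erefl : ∀ 𝒜, E 𝒜 𝒜 := fun _ => ⟨1, one_mem _, one_smul _ _⟩
  have s1 : ∀ 𝒜, Vx x y 𝒜 → ∀ (l : List Φ) φ a, Seq a (φ :: l) y → (∀ χ ∈ φ :: l, χ ∈ 𝒜) →
      ∀ ψ ∈ φ :: l, E (ex 𝒜 {φ}) (ex 𝒜 {ψ}) := by
    intro 𝒜 hA l
    induction l with
    | nil => intro φ a _ _ ψ hψ; rw [List.mem_singleton.1 hψ]; exact Erefl _
    | cons φ' l ih =>
      intro φ a hs hm ψ hψ
      rcases List.mem_cons.1 hψ with rfl | hψ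
      · exact Erefl _
      cases hs with | cons h1 hs =>
      refine Etrans ?_ (ih φ' _ hs (fun χ h => hm χ (List.mem_cons_of_mem _ h)) ψ hψ)
      cases hs with | cons h2 hs =>
      obtain ⟨k, hk, hY⟩ := exists_Y h1 h2
      have hφ := hm φ (by simp)
      have hφ' := hm φ' (by simp)
      have ha : x ≤ a := h1.lo ▸ (hA.sub φ hφ z0).1
      refine ⟨k, ⟨hK _ _ _ _ _ k h1 h2 ha hs.le hk hY, hk.1, Sp.mono ha hs.le hk.2⟩,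
        Finset.eq_of_subset_of_card_le (fun χ hχ => ?_) ?_⟩
      · obtain ⟨χ, hχ', rfl⟩ := Finset.mem_smul_finset.1 hχ
        simp only [mem_ex, Finset.mem_singleton, exists_eq_left] at hχ' ⊢
        rcases hχ' with ⟨h3, h4⟩ | ⟨i, rfl⟩
        · by_cases h5 : χ = φ'
          · exact Or.inr ⟨2, by rw [h5, hY.2.2.2]⟩
          · suffices h : k • χ = χ from Or.inl (by rw [h]; exact ⟨h3, h5⟩)
            refine funext fun w => hk.2 _ ?_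
            by_contra h6
            rw [not_or, not_lt, not_le] at h6
            rcases lt_or_ge (χ w) _ with h7 | h7
            · obtain ⟨v, e⟩ := h1.range.2 ⟨h6.1, h7⟩
              exact h4 (hA.dis _ hφ _ h3 _ _ e).symm
            · obtain ⟨v, e⟩ := h2.range.2 ⟨h7, h6.2⟩
              exact h5 (hA.dis _ hφ' _ h3 _ _ e).symm
        · fin_cases i
          · refine Or.inl (show k • ch φ 0 ∈ 𝒜 ∧ ¬ k • ch φ 0 = φ' from ?_)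
            rw [hY.1]
            exact ⟨hφ, fun e => absurd (h1.mem z0).2 (not_lt.2 (e ▸ (h2.mem z0).1))⟩
          · exact Or.inr ⟨0, hY.2.1.symm⟩
          · exact Or.inr ⟨1, hY.2.2.1.symm⟩
      · rw [Finset.card_smul_finset, hA.card_ex (by simpa), hA.card_ex (by simpa)]; simp
  have s2 : ∀ 𝒜, Vx x y 𝒜 → ∀ φ ∈ 𝒜, ∀ ψ ∈ 𝒜, E (ex 𝒜 {φ}) (ex 𝒜 {ψ}) := by
    intro 𝒜 hA φ hφ ψ hψ
    obtain ⟨l, h1, -, rfl⟩ := hA.seq hxy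
    rw [List.mem_toFinset] at hφ hψ
    cases l with
    | nil => simp at hφ
    | cons χ l =>
      have := s1 _ hA l χ x h1 fun _ h => List.mem_toFinset.2 h
      exact Etrans (Esymm (this φ hφ)) (this ψ hψ)
  let R : Finset Φ → Finset Φ → Prop := fun 𝒜 ℬ => ∃ φ ∈ 𝒜, ℬ = ex 𝒜 {φ}
  have r1 : ∀ 𝒜 ℬ, Vx x y 𝒜 → Relation.ReflTransGen R 𝒜 ℬ → Vx x y ℬ ∧ 𝒜.card ≤ ℬ.card := by
    intro 𝒜 ℬ hA h
    induction h with
    | refl => exact ⟨hA, le_rfl⟩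
    | tail _ h ih =>
      obtain ⟨φ, hφ, rfl⟩ := h
      exact ⟨ih.1.ex (by simpa), by rw [ih.1.card_ex (by simpa)]; omega⟩
  have r2 : ∀ 𝒜 ℬ, Vx x y 𝒜 → Relation.ReflTransGen R 𝒜 ℬ → ∀ ℬ', Relation.ReflTransGen R 𝒜 ℬ' →
      ℬ.card = ℬ'.card → E ℬ ℬ' := by
    intro 𝒜 ℬ hA h
    induction h with
    | refl =>
      intro ℬ' h' hc
      rcases h'.cases_tail with rfl | ⟨ℬ1, h1, φ, hφ, rfl⟩
      · exact Erefl _
      · have := r1 _ _ hA h1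
        rw [this.1.card_ex (by simpa), Finset.card_singleton] at hc
        omega
    | tail h0 h ih =>
      intro ℬ' h' hc
      obtain ⟨φ, hφ, rfl⟩ := h
      have h2 := r1 _ _ hA h0
      rw [h2.1.card_ex (by simpa), Finset.card_singleton] at hc
      rcases h'.cases_tail with rfl | ⟨ℬ1, h1, ψ, hψ, rfl⟩
      · omega
      · have h3 := r1 _ _ hA h1
        rw [h3.1.card_ex (by simpa), Finset.card_singleton] at hc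
        obtain ⟨k, hk, rfl⟩ := ih _ h1 (by omega)
        exact Etrans ⟨k, hk, by rw [smul_ex, Finset.smul_finset_singleton]⟩
          (s2 _ h3.1 _ (Finset.smul_mem_smul_finset hφ) _ hψ)
  have r3 : ∀ 𝒜 ℬ, Relation.ReflTransGen R 𝒜 ℬ → Relation.ReflTransGen R (g⁻¹ • 𝒜) (g⁻¹ • ℬ) :=
    fun 𝒜 ℬ h => h.lift _ (by
      rintro _ _ ⟨φ, hφ, rfl⟩
      exact ⟨_, Finset.smul_mem_smul_finset hφ, by rw [smul_ex, Finset.smul_finset_singleton]⟩)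
  have r4 : ∀ N 𝒜, Vx x y 𝒜 → (∀ φ ∈ 𝒜, Gd N φ) →
      ∃ 𝒰, Relation.ReflTransGen R 𝒜 𝒰 ∧ ∀ φ ∈ 𝒰, Std N φ := by
    intro N 𝒜 hA hG
    obtain ⟨K, hK⟩ := gd_bound x y N
    induction hn : K - 𝒜.card using Nat.strong_induction_on generalizing 𝒜 with
    | _ n ih =>
      by_cases h : ∀ φ ∈ 𝒜, Std N φ
      · exact ⟨𝒜, .refl, h⟩
      push Not at h
      obtain ⟨φ, hφ, h⟩ := h
      have hJ : {φ} ⊆ 𝒜 := by simpa using hφ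
      have h4 := Vx.ex_gd hG hJ (by simpa using h)
      have h6 := hK _ (hA.ex hJ) h4
      have h7 := hA.card_ex hJ
      rw [Finset.card_singleton] at h7
      obtain ⟨𝒰, h8, h9⟩ := ih _ (by omega) _ (hA.ex hJ) h4 rfl
      exact ⟨𝒰, .head ⟨φ, hφ, rfl⟩ h8, h9⟩
  obtain ⟨𝒜, hA⟩ := exists_vx hx hy
  obtain ⟨N, h1, h2⟩ := (hA.gd.and (hA.smulF hg).gd).exists
  obtain ⟨𝒰, h3, h4⟩ := r4 N _ hA h1
  obtain ⟨𝒰', h5, h6⟩ := r4 N _ (hA.smulF hg) h2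
  have h7 := (r1 _ _ hA h3).1
  have h8 := (r1 _ _ (hA.smulF hg) h5).1
  obtain rfl : 𝒰 = 𝒰' := (h7.std_eq h8 h4 h6).antisymm (h8.std_eq h7 h6 h4)
  obtain ⟨k, hk, e⟩ := r2 _ _ hA h3 _ (by simpa using r3 _ _ h5) (Finset.card_smul_finset _ _).symm
  have := h7.free (mul_mem hg.2 hk.2.2) (by rw [mul_smul, e, smul_inv_smul])
  rw [eq_inv_of_mul_eq_one_left this]
  exact K.inv_mem hk.1

end Pool.Agent.P.MP_267653_al
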