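import Pool.Agent.P.MP_267653_al.Trans
import Pool.Agent.P.MP_267653_al.Stein
import Pool.Agent.Lib.Brown.HNN

/-! Periodic regular automorphisms: the group `B`, its transitivity and finiteness properties. -/

set_option autoImplicit false

namespace Pool.Agent.P.MP_267653_al

open Function Filter Pool.Agent.Lib.Brown

theorem glue_fam {H ι : Type} [Group H] (x y : ι → L) (s : ι → H →* Au)
    (hs : ∀ i a, s i a ∈ Sp (x i) (y i))
    (hd : ∀ i j z, x i ≤ z → z < y i → x j ≤ z → z < y j → i = j) :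
    ∃ S : H →* Au, (∀ a i z, x i ≤ z → z < y i → S a z = s i a z) ∧
      ∀ a z, (∀ i, z < x i ∨ y i ≤ z) → S a z = z := by
  classical
  let f : H → L → L := fun a z => if h : ∃ i, x i ≤ z ∧ z < y i then s h.choose a z else z
  have h1 : ∀ a i z, x i ≤ z → z < y i → f a z = s i a z := fun a i z h1 h2 => by
    have h : ∃ i, x i ≤ z ∧ z < y i := ⟨i, h1, h2⟩
    simp only [f, dif_pos h, hd _ _ z h.choose_spec.1 h.choose_spec.2 h1 h2]
  have h2 : ∀ a z, (¬ ∃ i, x i ≤ z ∧ z < y i) → f a z = z := fun a z h => dif_neg h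
  have h3 : ∀ a b z, f a (f b z) = f (a * b) z := fun a b z => by
    by_cases h : ∃ i, x i ≤ z ∧ z < y i
    · obtain ⟨i, h4, h5⟩ := h
      have := Sp.maps (hs i b) h4 h5
      rw [h1 b i z h4 h5, h1 a i _ this.1 this.2, h1 _ i z h4 h5, map_mul]; rfl
    · rw [h2 b z h, h2 a z h, h2 _ z h]
  have h4 : ∀ z, f 1 z = z := fun z => by
    by_cases h : ∃ i, x i ≤ z ∧ z < y i
    · obtain ⟨i, h4, h5⟩ := h
      rw [h1 1 i z h4 h5, map_one]; rfl
    · exact h2 1 z h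
  have h5 : ∀ a, StrictMono (f a) := fun a z w hzw => by
    by_cases hz : ∃ i, x i ≤ z ∧ z < y i
    · obtain ⟨i, h6, h7⟩ := hz
      have h8 := Sp.maps (hs i a) h6 h7
      rw [h1 a i z h6 h7]
      rcases lt_or_ge w (y i) with hw | hw
      · rw [h1 a i w (h6.trans hzw.le) hw]; exact (s i a).strictMono hzw
      by_cases hw' : ∃ j, x j ≤ w ∧ w < y j
      · obtain ⟨j, h9, h10⟩ := hw'
        rw [h1 a j w h9 h10]
        refine lt_of_lt_of_le ?_ (Sp.maps (hs j a) h9 h10).1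
        by_contra h11
        obtain rfl := hd i j _ h8.1 h8.2 (not_lt.1 h11) (h8.2.trans (hw.trans_lt h10))
        exact absurd h10 (not_lt.2 hw)
      · rw [h2 a w hw']; exact h8.2.trans_le hw
    · rw [h2 a z hz]
      by_cases hw' : ∃ j, x j ≤ w ∧ w < y j
      · obtain ⟨j, h9, h10⟩ := hw'
        rw [h1 a j w h9 h10]
        refine lt_of_lt_of_le ?_ (Sp.maps (hs j a) h9 h10).1
        by_contra h11
        exact hz ⟨j, not_lt.1 h11, hzw.trans h10⟩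
      · rwa [h2 a w hw']
  refine ⟨MonoidHom.mk' (fun a => StrictMono.orderIsoOfSurjective (f a) (h5 a)
    fun z => ⟨f a⁻¹ z, by rw [h3, mul_inv_cancel, h4]⟩)
    fun a b => RelIso.ext fun z => (h3 a b z).symm, h1, fun a z h => h2 a z ?_⟩
  rintro ⟨i, h6, h7⟩
  exact (h i).elim (not_lt.2 h6) (not_le.2 h7)

/-- automorphisms commuting with the translation -/
noncomputable def CL : Subgroup Au := Subgroup.centralizer {lam}

variable {g b : Au} {x y z w q : L} {c d : ZMod 2}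

theorem mem_CL : g ∈ CL ↔ ∀ z, g (lam z) = lam (g z) := by
  rw [CL, Subgroup.mem_centralizer_singleton_iff]
  exact ⟨fun h z => congrArg (· z) h, fun h => RelIso.ext h⟩

theorem CL.zpow (h : g ∈ CL) (j : ℤ) (z : L) : g ((lam ^ j) z) = (lam ^ j) (g z) :=
  congrArg (· z) ((show Commute g lam from Subgroup.mem_centralizer_singleton_iff.1 h).zpow_right j).eq

theorem CL.conj (h : g ∈ CL) (j : ℤ) : lam ^ j * g * (lam ^ j)⁻¹ = g :=
  RelIso.ext fun z => by simp [← CL.zpow h]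

theorem CL.reg (h : g ∈ CL) (j : ℤ) : Reg g ((lam ^ j) z) ↔ Reg g z := by
  have : ∀ z (j : ℤ), Reg g z → Reg g ((lam ^ j) z) := fun z j h' => by
    have := h'.zpow j
    rwa [CL.conj h] at this
  exact ⟨fun h' => by simpa using this _ (-j) h', this z j⟩

theorem CL.fix (h : g ∈ CL) (j : ℤ) : g ((lam ^ j) z) = (lam ^ j) z ↔ g z = z := by
  rw [CL.zpow h]; simp

theorem exists_fd (x z : L) : ∃ j : ℤ, x ≤ (lam ^ j) z ∧ (lam ^ j) z < lam x := by
  rcases le_or_gt x ((lam ^ (x.k - z.k)) z) with h | h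
  · exact ⟨_, h, L.lt_iff.2 (Or.inl (by simp [lam_zpow_k, lam_apply]))⟩
  · refine ⟨1 + (x.k - z.k), (L.lt_iff.2 (Or.inl (by rw [lam_zpow_k]; omega))).le, ?_⟩
    rw [zpow_one_add]; simpa using h

theorem per_ext (hg : g ∈ CL) (hb : b ∈ CL) (x : L) (h : ∀ z, x ≤ z → z < lam x → g z = b z) :
    g = b := RelIso.ext fun z => by
  obtain ⟨j, h1, h2⟩ := exists_fd x z
  simpa [CL.zpow hg, CL.zpow hb] using h _ h1 h2

theorem exists_per (x : L) : ∃ P : Sp x (lam x) →* Au,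
    ∀ g, P g ∈ CL ∧ ∀ z, x ≤ z → z < lam x → P g z = g.1 z := by
  obtain ⟨S, h1, -⟩ := glue_fam (fun j : ℤ => (lam ^ j) x) (fun j => (lam ^ j) (lam x))
    (fun j => (MulAut.conj (lam ^ j)).toMonoidHom.comp (Sp x (lam x)).subtype)
    (fun j g => Sp.conj g.2 _) (fun i j z h1 h2 h3 h4 => by
      have key : ∀ i j : ℤ, i < j → (lam ^ i) (lam x) ≤ (lam ^ j) x := fun i j h => by
        rcases (show i + 1 = j ∨ i + 1 < j by omega) with rfl | h
        · rw [zpow_add_one]; rfl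
        · exact (L.lt_iff.2 (Or.inl (by simp only [lam_zpow_k, lam_apply]; omega))).le
      rcases lt_trichotomy i j with h | h | h
      · exact absurd (h3.trans_lt h2) (not_lt.2 (key _ _ h))
      · exact h
      · exact absurd (h1.trans_lt h4) (not_lt.2 (key _ _ h)))
  refine ⟨S, fun g => ⟨mem_CL.2 fun z => ?_, fun z h2 h3 => by simpa using h1 g 0 z h2 h3⟩⟩
  obtain ⟨j, h2, h3⟩ := exists_fd x z
  obtain ⟨z, rfl⟩ := (lam ^ (-j)).surjective z
  simp only [zpow_neg, RelIso.apply_inv_self] at h2 h3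
  have e : ∀ i : ℤ, S g ((lam ^ i) z) = (lam ^ i) (g.1 z) := fun i => by
    rw [h1 g i _ (by simpa using h2) (by simpa using h3)]
    exact congrArg (fun w => (lam ^ i) (g.1 w)) (RelIso.inv_apply_self _ _)
  rw [e, ← RelIso.mul_apply lam, ← RelIso.mul_apply lam, ← zpow_one_add, e]

/-- the periodic regular group -/
noncomputable def B : Subgroup Au := RA ⊓ CL

theorem B.cl (h : g ∈ B) : g ∈ CL := h.2

theorem lam_CL : lam ∈ CL := mem_CL.2 fun _ => rfl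

theorem EC.ev_fd (hx : EC c x) (h1 : x ≤ z) (h2 : z < y) : ∀ᶠ w in nb z, x ≤ w ∧ w < y :=
  (hx.ev_ge h1).and (ev_lt h2)

theorem exists_perB (hx : EC c x) : ∃ P : F x (lam x) →* B,
    ∀ g z, x ≤ z → z < lam x → (P g).1 z = g.1 z := by
  obtain ⟨P, hP⟩ := exists_per x
  refine ⟨(P.comp (Subgroup.inclusion inf_le_right)).codRestrict B fun g => ⟨fun z => ?_,
    (hP _).1⟩, fun g => (hP _).2⟩
  obtain ⟨j, h1, h2⟩ := exists_fd x z
  exact (CL.reg (hP _).1 j).1 ((g.2.1 _).congr ((hx.ev_fd h1 h2).mono fun w h => (hP _).2 w h.1 h.2))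

/-- pointwise stabilisers of intervals -/
def Fx (y z : L) : Subgroup Au where
  carrier := {g | ∀ w, y ≤ w → w < z → g w = w}
  one_mem' _ _ _ := rfl
  mul_mem' ha hb w h1 h2 := by rw [RelIso.mul_apply, hb w h1 h2, ha w h1 h2]
  inv_mem' {g} ha w h1 h2 := by conv_lhs => rw [← ha w h1 h2]; simp

theorem Fx.conj (hg : g ∈ Fx y z) (h : Au) : h * g * h⁻¹ ∈ Fx (h y) (h z) := by
  intro w h1 h2
  obtain ⟨w, rfl⟩ := h.surjective w
  simp [hg w (by simpa using h1) (by simpa using h2)]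

theorem Fx.out {a e : L} (hb : b ∈ CL) (h : b ∈ Fx e (lam a)) (h1 : x ≤ a) (h2 : e ≤ lam x)
    (h3 : x ≤ w) (h4 : w < lam x) (h5 : w < a ∨ e ≤ w) : b w = w := by
  rcases h5 with h5 | h5
  · exact (CL.fix hb 1).1 (h _ (h2.trans (by simpa using h3)) (by simpa using h5))
  · exact h _ h5 (h4.trans_le (by simpa using h1))

theorem mk_small (hg : g ∈ RA) (hy : EC c y) (hz : EC d z) (h1 : y < z) (h2 : z ≤ lam y)
    (e1 : g z = z) (e2 : g (lam y) = lam y) :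
    ∃ b ∈ B, b ∈ Fx y z ∧ ∀ w, z ≤ w → w ≤ lam y → b w = g w := by
  obtain ⟨f, hf, h3⟩ := cut hg hz hy.lam h2 e1 e2
  obtain ⟨P, hP⟩ := exists_perB hz
  let f' : F z (lam z) := ⟨f, hf.1, Sp.mono le_rfl (by simpa using h1.le) hf.2⟩
  refine ⟨P f', (P f').2, fun w h4 h5 => (CL.fix (P f').2.2 1).1 ?_, fun w h4 h5 => ?_⟩
  · rw [zpow_one, hP _ _ (h2.trans (by simpa using h4)) (by simpa using h5)]
    exact hf.2 _ (Or.inr (by simpa using h4))
  · rw [hP _ _ h4 (h5.trans_lt (by simpa using h1)), h3 w h4 h5]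

/-- proper arcs -/
structure Arc where
  y : L
  z : L
  hy : ∃ c, EC c y
  hz : ∃ c, EC c z
  lt : y < z
  lt' : z < lam y

noncomputable def B0 : Subgroup Au := Subgroup.closure {g | g ∈ B ∧ ∃ U : Arc, g ∈ Fx U.y U.z}

theorem B0_le : B0 ≤ B := (Subgroup.closure_le _).2 fun _ h => h.1

theorem EC.max_ns {x' : L} (hx : NS x) (hx' : NS x') : NS (max x x') := by
  rcases le_total x x' with h | h <;> simp [h, hx, hx']

theorem trans_E {x' : L} (hx : EC c x) (hx' : EC c x') : ∃ h ∈ B0, h x = x' := by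
  have h1 : ∀ {x x'}, EC c x → EC c x' → x < x' → x' < lam x → ∃ h ∈ B0, h x = x' := by
    intro x x' hx hx' h1 h2
    obtain ⟨y, hy, h3, h4⟩ := hx'.lam_inv.ns.dens (lam.symm_apply_lt.2 h2) 0
    obtain ⟨z, hz, h5, h6⟩ := hy.ns.dens h4 0
    have h7 : x' < lam y := lam.symm_apply_lt.1 h3
    obtain ⟨g0, hg0, e0, -⟩ := key hx hx' hx.lam hx'.lam (lt_lam _) (lt_lam _)
    obtain ⟨g, hg, e1, e2, e3⟩ := ext2 hg0 hz hz hy.lam hy.lam hx hx h6 le_rfl (h1.trans h7)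
      (e0 ▸ h6.trans h1) (e0 ▸ h7)
    obtain ⟨b, hb, h8, h9⟩ := mk_small hg hy hz h5 (h6.trans (h1.trans h7)).le e1 e2
    exact ⟨b, Subgroup.subset_closure ⟨hb, ⟨y, z, ⟨_, hy⟩, ⟨_, hz⟩, h5, h6.trans (h1.trans h7)⟩,
      h8⟩, by rw [h9 x h6.le (h1.trans h7).le, e3 x le_rfl le_rfl, e0]⟩
  have h2 : ∀ {x}, EC c x → ∀ (n : ℕ) {x'}, EC c x' → x < x' → x' < (lam ^ (n+1)) x →
      ∃ h ∈ B0, h x = x' := by
    intro x hx n
    induction n with
    | zero => exact fun hx' h3 h4 => h1 hx hx' h3 (by simpa using h4)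
    | succ n ih =>
      intro x' hx' h3 h4
      rcases lt_or_ge x' ((lam ^ (n+1)) x) with h5 | h5
      · exact ih hx' h3 h5
      obtain ⟨x'', hx'', h6, h7⟩ := (EC.max_ns hx'.lam_inv.ns hx.ns).dens
        (y := (lam ^ (n+1)) x) (max_lt (lam.symm_apply_lt.2 (by rwa [pow_succ'] at h4))
          (L.lt_iff.2 (Or.inl (by simp [lam_pow_apply])))) c
      obtain ⟨k, hk, rfl⟩ := ih hx'' (lt_of_le_of_lt (le_max_right _ _) h6) h7
      obtain ⟨k', hk', rfl⟩ := h1 hx'' hx' (h7.trans_le h5)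
        (lam.symm_apply_lt.1 (lt_of_le_of_lt (le_max_left _ _) h6))
      exact ⟨k' * k, mul_mem hk' hk, rfl⟩
  have h3 : ∀ {x x'}, EC c x → EC c x' → x < x' → ∃ h ∈ B0, h x = x' := fun {x x'} hx hx' h =>
    h2 hx (x'.k - x.k).toNat hx' h (L.lt_iff.2 (Or.inl (by simp [lam_pow_apply]; omega)))
  rcases lt_trichotomy x x' with h | rfl | h
  · exact h3 hx hx' h
  · exact ⟨1, one_mem _, rfl⟩
  · obtain ⟨k, hk, rfl⟩ := h3 hx' hx h
    exact ⟨k⁻¹, inv_mem hk, by simp⟩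

theorem periodize (hg : g ∈ RA) (hx : EC c x) (e : g (lam x) = lam (g x)) :
    ∃ b ∈ B, ∀ z, x ≤ z → z < lam x → b z = g z := by
  obtain ⟨h, hh, e1⟩ := trans_E hx (hx.ra hg)
  have hB := B0_le hh
  obtain ⟨f, hf, h1⟩ := cut (mul_mem (inv_mem hB.1) hg) hx hx.lam (lt_lam x).le
    (by simp [← e1]) (by simp [e, ← e1, ← mem_CL.1 hB.2])
  obtain ⟨P, hP⟩ := exists_perB hx
  exact ⟨h * P ⟨f, hf⟩, mul_mem hB (P _).2, fun z h2 h3 => by
    simp [hP _ z h2 h3, h1 z h2 h3.le]⟩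

theorem frag : B ≤ B0 := by
  intro g hg
  have hx := EC.st 0
  generalize st 0 = x at hx
  obtain ⟨h, hh, e1⟩ := trans_E hx (hx.ra hg.1)
  have hg' := mul_mem (inv_mem (B0_le hh)) hg
  have e2 : (h⁻¹ * g) x = x := by simp [← e1]
  suffices h⁻¹ * g ∈ B0 by simpa using mul_mem hh this
  generalize h⁻¹ * g = g at hg' e2
  have e3 : g (lam x) = lam x := by rw [mem_CL.1 hg'.2, e2]
  obtain ⟨y, hy, h1, h2⟩ := hx.ns.dens (lt_lam x) 0
  obtain ⟨w, hw, h3, h4⟩ := (EC.max_ns hy.ns (hy.ra hg'.1).ns).dens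
    (max_lt h2 (e3 ▸ g.strictMono h2)) 0
  rw [max_lt_iff] at h3
  obtain ⟨k, hk, e4, e5⟩ := key hy (hy.ra hg'.1) hw hw h3.1 h3.2
  obtain ⟨f, hf, e6, e7⟩ := glue_ra hg'.1 hk hy e4.symm
  have h5 : lam⁻¹ w < x := lam.symm_apply_lt.2 h4
  obtain ⟨b, hb, h6, h7⟩ := mk_small hf hw.lam_inv hx h5 (by simpa using (h1.trans h3.1).le)
    (by rw [e6 x h1.le, e2]) (by simpa [e7 w h3.1.le] using e5)
  have hb0 : b ∈ B0 := Subgroup.subset_closure ⟨hb, ⟨_, x, ⟨_, hw.lam_inv⟩, ⟨_, hx⟩, h5,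
    by simpa using h1.trans h3.1⟩, h6⟩
  suffices b⁻¹ * g ∈ B0 by simpa using mul_mem hb0 this
  refine Subgroup.subset_closure ⟨mul_mem (inv_mem hb) hg', ⟨x, y, ⟨_, hx⟩, ⟨_, hy⟩, h1, h2⟩,
    fun z h8 h9 => ?_⟩
  rw [RelIso.mul_apply, ← e6 z h9.le, ← h7 z h8 (by simpa using (h9.trans h3.1).le)]
  simp

theorem arc_move (U V : Arc) : ∃ (W : Arc), ∃ b ∈ B, b ∈ Fx W.y W.z ∧
    Fx U.y U.z ≤ Fx W.y W.z ∧ ∀ a ∈ CL, a ∈ Fx U.y U.z → b * a * b⁻¹ ∈ Fx V.y V.z := by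
  obtain ⟨y, z, ⟨c, hy⟩, ⟨d, hz⟩, h1, h2⟩ := U
  obtain ⟨y', z', ⟨c', hy'⟩, ⟨d', hz'⟩, h3, h4⟩ := V
  obtain ⟨m, hm, h5, h6⟩ := hy.ns.dens h1 0
  obtain ⟨j, h7, h8⟩ := exists_fd m z'
  have hs := hz'.zpow j
  obtain ⟨w1, hw1, h9, h10⟩ := (EC.max_ns hy.ns hs.lam_inv.ns).dens
    (max_lt h5 (lam.symm_apply_lt.2 h8)) 0
  rw [max_lt_iff] at h9
  obtain ⟨w2, hw2, h11, h12⟩ := hw1.ns.dens h10 0
  obtain ⟨r, hr, h13, h14⟩ := hs.ns.dens (lt_min ((lam ^ j).strictMono h4)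
    (lam.symm_apply_lt.1 h9.2)) d
  obtain ⟨r', hr', h15, h16⟩ := hr.ns.dens h14 (c + 1)
  rw [lt_min_iff] at h16
  obtain ⟨k, hk, e1, e2⟩ := key hz hr hy.lam hr' h2 h15
  obtain ⟨g, hg, e3, e4, e5⟩ := ext2 hk hw2 hw2 hw1.lam hw1.lam hz hy.lam (h12.trans h6) h2.le
    (by simpa using h9.1) (e1 ▸ (h12.trans_le h7).trans h13) (e2 ▸ h16.2)
  have h17 : w2 < lam w1 := ((h12.trans h6).trans h2).trans (by simpa using h9.1)
  obtain ⟨b, hb, h18, h19⟩ := mk_small hg hw1 hw2 h11 h17.le e3 e4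
  refine ⟨⟨w1, w2, ⟨_, hw1⟩, ⟨_, hw2⟩, h11, h17⟩, b, hb, h18,
    fun a ha w h20 h21 => ha w (h9.1.le.trans h20) (h21.trans (h12.trans h6)),
    fun a ha ha' w h20 h21 => ?_⟩
  have hc := mul_mem (mul_mem (B.cl hb) ha) (inv_mem (B.cl hb))
  refine (CL.fix hc j).1 (Fx.conj ha' b _ ?_ ?_)
  · have : lam (b y) = r' := by
      rw [← mem_CL.1 hb.2, h19 _ (((h12.trans h6).trans h2).le) (by simpa using h9.1.le),
        e5 _ h2.le le_rfl, e2]
    have h22 := h16.1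
    rw [← this, ← CL.zpow lam_CL, OrderIso.lt_iff_lt] at h22
    exact h22.le.trans ((lam ^ j).monotone h20)
  · rw [h19 z (h12.trans h6).le (h2.le.trans (by simpa using h9.1.le)), e5 _ le_rfl h2.le, e1]
    exact ((lam ^ j).strictMono h21).trans h13

theorem commute_of_fix {a b : Au} (h : ∀ w, a w = w ∨ b w = w) : Commute a b :=
  RelIso.ext fun w => by
    simp only [RelIso.mul_apply]
    by_cases ha : a w = w
    · by_cases hb : b w = w
      · simp [ha, hb]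
      · rw [ha, (h (b w)).resolve_right fun e => hb (b.injective e)]
    · rw [(h w).resolve_left ha, (h (a w)).resolve_left fun e => ha (a.injective e)]

theorem arc_comm (U : Arc) : ∃ V : Arc, ∀ a ∈ CL, a ∈ Fx U.y U.z → ∀ b ∈ CL, b ∈ Fx V.y V.z →
    Commute a b := by
  obtain ⟨y, z, ⟨c, hy⟩, ⟨d, hz⟩, h1, h2⟩ := U
  obtain ⟨m, hm, h3, h4⟩ := hy.ns.dens h1 0
  obtain ⟨m', hm', h5, h6⟩ := hm.ns.dens h4 0
  refine ⟨⟨m', lam m, ⟨_, hm'⟩, ⟨_, hm.lam⟩, (h6.trans h2).trans (by simpa using h3),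
    by simpa using h5⟩, fun a ha ha' b hb hb' => commute_of_fix fun w => ?_⟩
  obtain ⟨j, h7, h8⟩ := exists_fd m w
  rw [← CL.fix ha j, ← CL.fix hb j]
  rcases lt_or_ge ((lam ^ j) w) m' with h | h
  · exact Or.inl (ha' _ (h3.le.trans h7) (h.trans h6))
  · exact Or.inr (hb' _ h h8)

theorem one_point {x' y' q' : L} (hx : EC c x) (hx' : EC c x') (hy : EC d y) (hy' : EC d y')
    (hq : q ∈ O) (hq' : q' ∈ O) (h1 : x < q) (h2 : q < y) (h3 : x' < q') (h4 : q' < y') :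
    ∃ g ∈ RA, g x = x' ∧ g y = y' ∧ g q = q' := by
  obtain ⟨g, hg, rfl⟩ := O_trans hq hq'
  obtain ⟨a, ha, h5, h6⟩ := (EC.max_ns hx.ns (hx'.ra (inv_mem hg)).ns).dens
    (max_lt h1 (g.symm_apply_lt.2 h3)) 0
  obtain ⟨b, hb, h7, h8⟩ := (O_ns hq).dens (lt_min h2 (g.lt_symm_apply.2 h4)) 0
  rw [max_lt_iff] at h5
  rw [lt_min_iff] at h8
  obtain ⟨f, hf, e1, e2, e3⟩ := ext2 hg hx hx' hy hy' ha hb h5.1 (h6.trans h7).le h8.1
    (g.symm_apply_lt.1 h5.2) (g.lt_symm_apply.1 h8.2)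
  exact ⟨f, hf, e1, e2, e3 q h6.le h7.le⟩

theorem many_points {ι : Type} [LinearOrder ι] (s : Finset ι) (u v : ι → L)
    {x' : L} (hx : EC c x) (hx' : EC c x') : ∀ {y y' : L} {d : ZMod 2}, EC d y → EC d y' →
    x < y → x' < y' → StrictMonoOn u s → StrictMonoOn v s →
    (∀ i ∈ s, u i ∈ O ∧ v i ∈ O ∧ x < u i ∧ u i < y ∧ x' < v i ∧ v i < y') →
    ∃ g ∈ RA, g x = x' ∧ g y = y' ∧ ∀ i ∈ s, g (u i) = v i := by
  induction s using Finset.induction_on_max with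
  | empty =>
    intro y y' d hy hy' h1 h2 _ _ _
    obtain ⟨g, hg, e1, e2⟩ := key hx hx' hy hy' h1 h2
    exact ⟨g, hg, e1, e2, by simp⟩
  | insert i s hi ih =>
    intro y y' d hy hy' h1 h2 hu hv h
    have key : ∀ (u : ι → L) (x : L), NS x → StrictMonoOn u (insert i s : Finset ι) →
        (∀ j ∈ s, u j ∈ O) → x < u i → ∃ z, EC 0 z ∧ x < z ∧ z < u i ∧ ∀ j ∈ s, u j < z := by
      intro u x hx hu hO h1
      obtain ⟨w, hw, h2, h3, h4⟩ : ∃ w, NS w ∧ x ≤ w ∧ w < u i ∧ ∀ j ∈ s, u j ≤ w := by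
        rcases s.eq_empty_or_nonempty with rfl | hs
        · exact ⟨x, hx, le_rfl, h1, by simp⟩
        · obtain ⟨j, hj, h2⟩ := s.exists_max_image u hs
          exact ⟨max x (u j), EC.max_ns hx (O_ns (hO j hj)), le_max_left _ _,
            max_lt h1 (hu (by simp [hj]) (by simp) (hi j hj)),
            fun k hk => (h2 k hk).trans (le_max_right _ _)⟩
      obtain ⟨z, hz, h5, h6⟩ := hw.dens h3 0
      exact ⟨z, hz, h2.trans_lt h5, h6, fun j hj => (h4 j hj).trans_lt h5⟩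
    have h3 := h i (by simp)
    have h4 := fun j hj => h j (Finset.mem_insert_of_mem hj)
    obtain ⟨z, hz, h5, h6, h7⟩ := key u x hx.ns hu (fun j hj => (h4 j hj).1) h3.2.2.1
    obtain ⟨z', hz', h8, h9, h10⟩ := key v x' hx'.ns hv (fun j hj => (h4 j hj).2.1) h3.2.2.2.2.1
    obtain ⟨g1, hg1, e1, e2, e3⟩ := ih hz hz' h5 h8 (hu.mono (by simp)) (hv.mono (by simp))
      fun j hj => ⟨(h4 j hj).1, (h4 j hj).2.1, (h4 j hj).2.2.1, h7 j hj, (h4 j hj).2.2.2.2.1,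
        h10 j hj⟩
    obtain ⟨g2, hg2, e4, e5, e6⟩ := one_point hz hz' hy hy' h3.1 h3.2.1 h6 h3.2.2.2.1 h9
      h3.2.2.2.2.2
    obtain ⟨g, hg, e7, e8⟩ := glue_ra hg1 hg2 hz (e2.trans e4.symm)
    refine ⟨g, hg, by rw [e7 x h5.le, e1], by rw [e8 y (h6.trans h3.2.2.2.1).le, e5], fun j hj => ?_⟩
    rcases Finset.mem_insert.1 hj with rfl | hj
    · rw [e8 _ h6.le, e6]
    · rw [e7 _ (h7 j hj).le, e3 j hj]

/-- the special orbit modulo the translation -/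
def X : Type := {q : L // q ∈ O ∧ q.k = 0}

noncomputable instance : LinearOrder X := Subtype.instLinearOrder _

theorem X.mem (q : X) : st 0 < q.1 ∧ q.1 < st 1 :=
  ⟨lt_of_le_of_ne (st_le.2 q.2.2.ge) fun e => (EC.st 0).not_O (e ▸ q.2.1),
    lt_st.2 (by rw [q.2.2]; decide)⟩

instance : Nonempty X := ⟨⟨_, O_pt 0, rfl⟩⟩

instance : NoMaxOrder X := ⟨fun q => by
  obtain ⟨q', h1, h2, h3⟩ := O_dens (O_ns q.2.1) q.mem.2
  have := lt_st.1 h3
  have := st_le.1 (q.mem.1.trans h2).le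
  exact ⟨⟨q', h1, by omega⟩, h2⟩⟩

theorem lam_st (k : ℤ) : lam (st k) = st (k+1) := by
  refine L.ext rfl ?_
  show Lam z0 = z0
  conv_lhs => rw [← cons_z0, Lam0, Psi_fix (a := 0) (by decide) cons_z0.symm]
  simp

theorem X_trans (j : ℕ) : ∃ X0 : Finset X, ∀ M : Finset X, M.card ≤ j →
    ∃ b ∈ B, ∀ q ∈ M, ∃ q' ∈ X0, b q.1 = q'.1 := by
  classical
  obtain ⟨X0, hX⟩ := Infinite.exists_subset_card_eq X j
  refine ⟨X0, fun M hM => ?_⟩
  let f : X → X := fun q => if h : q ∈ M then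
    X0.orderEmbOfCardLe (hM.trans hX.ge) ((M.orderIsoOfFin rfl).symm ⟨q, h⟩) else q
  have h01 : st 0 < st 1 := lt_st.2 (by simp)
  obtain ⟨g, hg, e1, e2, e3⟩ := many_points M Subtype.val (fun q => (f q).1) (EC.st 0) (EC.st 0)
    (EC.st 1) (EC.st 1) h01 h01 (fun _ _ _ _ h => h)
    (fun a (ha : a ∈ M) b (hb : b ∈ M) h => by
      show f a < f b
      simpa [f, ha, hb] using h)
    fun q _ => ⟨q.2.1, (f q).2.1, q.mem.1, q.mem.2, (f q).mem.1, (f q).mem.2⟩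
  obtain ⟨b, hb, h⟩ := periodize hg (EC.st 0) (by rw [e1, lam_st, zero_add, e2])
  exact ⟨b, hb, fun q hq => ⟨f q, by simp [f, hq, Finset.orderEmbOfCardLe_mem], by
    rw [h _ q.mem.1.le (by simpa [lam_st] using q.mem.2), e3 q hq]⟩⟩

theorem exists_t (M : Finset X) : ∃ t ∈ B, ∀ q ∈ M, t q.1 = lam q.1 := by
  obtain ⟨w, hw, h1, h2⟩ : ∃ w, NS w ∧ w < st 1 ∧ ∀ q ∈ M, q.1 ≤ w := by
    rcases M.eq_empty_or_nonempty with rfl | hs
    · exact ⟨_, (EC.st 0).ns, lt_st.2 (by simp), by simp⟩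
    · exact ⟨(M.max' hs).1, O_ns (M.max' hs).2.1, (M.max' hs).mem.2, fun q hq => M.le_max' q hq⟩
  obtain ⟨x, hx, h3, h4⟩ := hw.dens h1 0
  obtain ⟨g, hg, e1, e2, e3⟩ := many_points M Subtype.val (fun q => lam q.1) (EC.st 0) hx
    (EC.st 1) hx.lam (lt_st.2 (by simp)) (lt_lam x) (fun _ _ _ _ h => h)
    (fun a _ b _ h => lam.strictMono h)
    fun q hq => ⟨q.2.1, (O_lam q.2.1).1, q.mem.1, q.mem.2,
      h4.trans_le (st_le.2 (by simp [lam_apply, q.2.2])), lam.strictMono ((h2 q hq).trans_lt h3)⟩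
  obtain ⟨b, hb, h⟩ := periodize hg (EC.st 0) (by rw [e1, lam_st, zero_add, e2])
  exact ⟨b, hb, fun q hq => by rw [h _ q.mem.1.le (by simpa [lam_st] using q.mem.2), e3 q hq]⟩

theorem fn_FJ (m : ℕ) (𝒥 : List (L × L)) (hJ : ∀ J ∈ 𝒥, (∃ c, EC c J.1) ∧ ∃ c, EC c J.2) :
    ∀ {x y : L}, (∃ c, EC c x) → (∃ c, EC c y) → ∀ K : Subgroup Au,
      (∀ g, g ∈ K ↔ g ∈ F x y ∧ ∀ J ∈ 𝒥, g ∈ Fx J.1 J.2) → Fn K m := by
  induction 𝒥 with
  | nil =>
    rintro x y ⟨c, hx⟩ ⟨d, hy⟩ K hK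
    rw [show K = F x y from Subgroup.ext (by simpa using hK)]
    exact fn_F hx hy m
  | cons J 𝒥 ih =>
    intro x y hx hy K hK
    obtain ⟨a, b⟩ := J
    obtain ⟨⟨c, ha⟩, hb⟩ := hJ (a, b) (by simp)
    replace ih := @ih fun J h => hJ J (by simp [h])
    simp only [List.mem_cons, forall_eq_or_imp] at hK
    rcases le_or_gt b a with hab | hab
    · exact ih hx hy K fun g => (hK g).trans (and_congr_right fun _ => and_iff_right
        fun w h1 h2 => absurd (h1.trans_lt h2) (not_lt.2 hab))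
    let K1 := F x (min a y) ⊓ ⨅ J ∈ 𝒥, Fx J.1 J.2
    let K2 := F (max b x) y ⊓ ⨅ J ∈ 𝒥, Fx J.1 J.2
    have h1 : Fn K1 m := ih (y := min a y) hx
      (by rcases le_total a y with h | h <;> simp only [h, hy, min_eq_left, min_eq_right]
          exact ⟨c, ha⟩) K1 (by simp [K1])
    have h2 : Fn K2 m := ih (x := max b x)
      (by rcases le_total b x with h | h <;> simp only [h, hx, max_eq_left, max_eq_right]
          exact hb) hy K2 (by simp [K2])
    have f1 : ∀ g : K1, ∀ w, a ≤ w → g.1 w = w := fun g w h =>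
      g.2.1.2 w (Or.inr ((min_le_left _ _).trans h))
    have f2 : ∀ g : K2, ∀ w, w < b → g.1 w = w := fun g w h =>
      g.2.1.2 w (Or.inl (h.trans_le (le_max_left _ _)))
    let φ := K1.subtype.noncommCoprod K2.subtype fun g h => commute_of_fix fun w =>
      (le_or_gt a w).imp (f1 g w) fun h' => f2 h w (h'.trans hab)
    have hφ : Injective φ := (injective_iff_map_eq_one φ).2 fun ⟨g, h⟩ e => by
      have e1 : g.1 = 1 := RelIso.ext fun w => (le_or_gt a w).elim (f1 g w) fun h' => by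
        have := congrArg (· w) e
        simpa [φ, f2 h w (h'.trans hab)] using this
      exact Prod.ext (Subtype.ext e1) (Subtype.ext (by simpa [φ, e1] using e))
    refine (h1.prod h2).equiv ((MonoidHom.ofInjective hφ).trans (MulEquiv.subgroupCongr ?_))
    ext g
    rw [hK]
    constructor
    · rintro ⟨⟨g, h⟩, rfl⟩
      have g2 := (Subgroup.mem_inf.1 g.2).2
      have g3 := (Subgroup.mem_inf.1 h.2).2
      simp only [Subgroup.mem_iInf] at g2 g3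
      refine ⟨mul_mem ⟨g.2.1.1, Sp.mono le_rfl (min_le_right _ _) g.2.1.2⟩
        ⟨h.2.1.1, Sp.mono (le_max_right _ _) le_rfl h.2.1.2⟩, fun w h3 h4 => ?_,
        fun J hJ => mul_mem (g2 J hJ) (g3 J hJ)⟩
      show g.1 (h.1 w) = w
      rw [f2 h w h4, f1 g w h3]
    · rintro ⟨h3, h4, h5⟩
      have e := h4 a le_rfl hab
      obtain ⟨g1, hg1, e1, e2⟩ := glue_ra h3.1 (one_mem RA) ha e
      obtain ⟨g2, hg2, e3, e4⟩ := glue_ra (one_mem RA) h3.1 ha e.symm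
      have e5 : ∀ w, g w = w → g1 w = w := fun w h =>
        (le_total w a).elim (fun h' => (e1 w h').trans h) (e2 w)
      have e6 : ∀ w, g w = w → g2 w = w := fun w h =>
        (le_total w a).elim (e3 w) fun h' => (e4 w h').trans h
      refine ⟨(⟨g1, Subgroup.mem_inf.2 ⟨⟨hg1, fun w h => ?_⟩, ?_⟩⟩,
        ⟨g2, Subgroup.mem_inf.2 ⟨⟨hg2, fun w h => ?_⟩, ?_⟩⟩), RelIso.ext fun w => ?_⟩
      · rcases h with h | h
        · exact e5 w (h3.2 w (Or.inl h))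
        · exact (min_le_iff.1 h).elim (e2 w) fun h => e5 w (h3.2 w (Or.inr h))
      · simp only [Subgroup.mem_iInf]
        exact fun J hJ w h6 h7 => e5 w (h5 J hJ w h6 h7)
      · rcases h with h | h
        · rcases lt_max_iff.1 h with h | h
          · exact (le_total w a).elim (e3 w) fun h' => e6 w (h4 w h' h)
          · exact e6 w (h3.2 w (Or.inl h))
        · exact e6 w (h3.2 w (Or.inr h))
      · simp only [Subgroup.mem_iInf]
        exact fun J hJ w h6 h7 => e6 w (h5 J hJ w h6 h7)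
      · show g1 (g2 w) = g w
        rcases le_total w a with h | h
        · rw [e3 w h]; exact e1 w h
        · rw [e4 w h]; exact e2 _ (e ▸ g.monotone h)

end Pool.Agent.P.MP_267653_al
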