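import Pool.Agent.P.MP_267653_al.Cantor

/-! The exotic transducer, the reflection, and the special orbit. -/

set_option autoImplicit false

namespace Pool.Agent.P.MP_267653_al

open Function Filter

def rn : ℕ → Bool → C → Fin 3
  | 0, false, y => y 0
  | i+1, false, y => rn i (y 0 = 1) (tail y)
  | 0, true, y => if y 0 = 2 then (if y 1 = 0 then 0 else y 1) else 0
  | 1, true, y => if y 0 = 2 then (if y 1 = 0 then 2 else rn 0 (y 1 = 1) (tail (tail y))) else y 0
  | i+2, true, y => if y 0 = 2 then (if y 1 = 0 then rn i false (tail (tail y))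
      else rn (i+1) (y 1 = 1) (tail (tail y))) else rn i (y 0 = 1) (tail y)

def Lam (y : C) : C := fun i => rn i true y
def Psi (y : C) : C := fun i => rn i false y

@[simp] theorem Lam0 (y : C) : Lam (cons 0 y) = cons 0 (cons 0 (Psi y)) := by
  funext i; rcases i with _ | _ | i <;> simp [Lam, Psi, rn]
@[simp] theorem Lam1 (y : C) : Lam (cons 1 y) = cons 0 (cons 1 (Lam y)) := by
  funext i; rcases i with _ | _ | i <;> simp [Lam, rn]
@[simp] theorem Lam20 (y : C) : Lam (cons 2 (cons 0 y)) = cons 0 (cons 2 (Psi y)) := by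
  funext i; rcases i with _ | _ | i <;> simp [Lam, Psi, rn]
@[simp] theorem Lam21 (y : C) : Lam (cons 2 (cons 1 y)) = cons 1 (Lam y) := by
  funext i; rcases i with _ | _ | i <;> simp [Lam, rn]
@[simp] theorem Lam22 (y : C) : Lam (cons 2 (cons 2 y)) = cons 2 (Psi y) := by
  funext i; rcases i with _ | _ | i <;> simp [Lam, Psi, rn]
@[simp] theorem Psi0 (y : C) : Psi (cons 0 y) = cons 0 (Psi y) := by
  funext i; rcases i with _ | i <;> simp [Psi, rn]
@[simp] theorem Psi1 (y : C) : Psi (cons 1 y) = cons 1 (Lam y) := by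
  funext i; rcases i with _ | i <;> simp [Lam, Psi, rn]
@[simp] theorem Psi2 (y : C) : Psi (cons 2 y) = cons 2 (Psi y) := by
  funext i; rcases i with _ | i <;> simp [Psi, rn]

theorem fin3 (a : Fin 3) : a = 0 ∨ a = 1 ∨ a = 2 := by revert a; decide

inductive St | A | B | Q

def run : St → C → C
  | .A => Lam
  | .B => fun y => Lam (cons 2 y)
  | .Q => Psi

def nx (s : St) (a : Fin 3) : St :=
  if a = 0 then .Q else if a = 1 then .A else match s with
    | .A => .B
    | _ => .Q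

theorem run_app : ∀ (u : List (Fin 3)) (s : St),
    ∃ v, wp v = wp u ∧ ∀ y, run s (app u y) = app v (run (u.foldl nx s) y)
  | [], _ => ⟨[], rfl, fun _ => rfl⟩
  | a :: u, s => by
    obtain ⟨v, h1, h2⟩ := run_app u (nx s a)
    obtain ⟨w, h3, h4⟩ : ∃ w, wp w = wp [a] ∧ ∀ y, run s (cons a y) = app w (run (nx s a) y) := by
      rcases fin3 a with rfl | rfl | rfl <;> cases s
      exacts [⟨[0, 0], rfl, Lam0⟩, ⟨[0, 2], rfl, Lam20⟩, ⟨[0], rfl, Psi0⟩, ⟨[0, 1], rfl, Lam1⟩,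
        ⟨[1], rfl, Lam21⟩, ⟨[1], rfl, Psi1⟩, ⟨[], rfl, fun _ => rfl⟩, ⟨[2], rfl, Lam22⟩,
        ⟨[2], rfl, Psi2⟩]
    exact ⟨w ++ v, by rw [wp_append, h1, h3, ← wp_append]; rfl, fun y => by
      rw [app_cons, h4, h2, app_append]; rfl⟩

theorem run_mono (s : St) : StrictMono (run s) := by
  rintro y z ⟨i, h1, h2⟩
  obtain ⟨u, y, rfl, rfl⟩ := exists_app i y
  obtain ⟨z, rfl⟩ := of_agree u y z fun j hj => (h1 j hj).symm
  have h3 : y 0 < z 0 := by
    rw [← app_ge u y 0, ← app_ge u z 0, zero_add]; exact h2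
  obtain ⟨v, -, h⟩ := run_app u s
  rw [h, h, app_lt]
  obtain ⟨a, y, rfl⟩ := exists_cons y
  obtain ⟨b, z, rfl⟩ := exists_cons z
  obtain ⟨c, z, rfl⟩ := exists_cons z
  cases u.foldl nx s <;> rcases fin3 a with rfl | rfl | rfl <;>
    rcases fin3 b with rfl | rfl | rfl <;> simp at h3 <;>
    rcases fin3 c with rfl | rfl | rfl <;> simp [run]

theorem coind {ι : Type} (f g : ι → C)
    (h : ∀ s, ∃ a w s', f s = cons a (app w (f s')) ∧ g s = cons a (app w (g s'))) (s : ι) :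
    f s = g s := by
  funext i
  induction i using Nat.strong_induction_on generalizing s with
  | _ i ih =>
    obtain ⟨a, w, s', h1, h2⟩ := h s
    rw [h1, h2]
    cases i with
    | zero => rfl
    | succ i =>
      rcases lt_or_ge i w.length with hi | hi
      · exact app_lo _ _ _ _ hi
      · obtain ⟨j, rfl⟩ := Nat.exists_eq_add_of_le' hi
        rw [cons_succ, cons_succ, app_ge, app_ge, ih j (by omega)]

/-- mirror -/
def mi (y : C) : C := fun i => (y i).rev

@[simp] theorem mi_mi (y : C) : mi (mi y) = y := funext fun i => by simp [mi]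
@[simp] theorem mi_cons (a : Fin 3) (y : C) : mi (cons a y) = cons a.rev (mi y) :=
  funext fun i => by cases i <;> rfl
theorem mi_app (u : List (Fin 3)) (y : C) : mi (app u y) = app (u.map Fin.rev) (mi y) := by
  induction u <;> simp [*]
theorem wp_rev (u : List (Fin 3)) : wp (u.map Fin.rev) = wp u := by
  induction u with
  | nil => rfl
  | cons a u ih => rw [List.map_cons, wp_cons, wp_cons, ih]; rcases fin3 a with rfl | rfl | rfl <;> rfl
theorem mi_lt {y z : C} (h : y < z) : mi z < mi y := by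
  obtain ⟨i, h1, h2⟩ := h
  exact ⟨i, fun j hj => by simp [mi, h1 j hj], Fin.rev_lt_rev.2 h2⟩

theorem run_inv (b : Bool) (y : C) :
    (if b then Lam (mi (Lam (mi y))) else Psi (mi (Psi (mi y)))) = y := by
  refine coind (fun s : Bool × C => if s.1 then Lam (mi (Lam (mi s.2))) else Psi (mi (Psi (mi s.2))))
    (fun s => s.2) ?_ (b, y)
  rintro ⟨b, y⟩
  obtain ⟨a, y, rfl⟩ := exists_cons y
  have r0 : (0 : Fin 3).rev = 2 := rfl
  have r1 : (1 : Fin 3).rev = 1 := rfl
  have r2 : (2 : Fin 3).rev = 0 := rfl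
  cases b <;> rcases fin3 a with rfl | rfl | rfl
  · exact ⟨0, [], (false, y), by simp [r0, r2], rfl⟩
  · exact ⟨1, [], (true, y), by simp [r1], rfl⟩
  · exact ⟨2, [], (false, y), by simp [r0, r2], rfl⟩
  · obtain ⟨a, y, rfl⟩ := exists_cons y
    rcases fin3 a with rfl | rfl | rfl
    · exact ⟨0, [0], (false, y), by simp [r0, r2], rfl⟩
    · exact ⟨0, [1], (true, y), by simp [r0, r1], rfl⟩
    · exact ⟨0, [2], (false, y), by simp [r0, r2], rfl⟩
  · exact ⟨1, [], (true, y), by simp [r0, r1], rfl⟩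
  · exact ⟨2, [], (false, y), by simp [r0, r2], rfl⟩

theorem Lam_inv (y : C) : Lam (mi (Lam (mi y))) = y := run_inv true y
theorem Lam_surj : Surjective Lam := fun y => ⟨_, Lam_inv y⟩
theorem Psi_surj : Surjective Psi := fun y => ⟨_, run_inv false y⟩
theorem Lam_mono : StrictMono Lam := run_mono .A

/-- the translation -/
noncomputable def lam : Au :=
  StrictMono.orderIsoOfSurjective (fun z => ⟨z.k + 1, Lam z.s⟩)
    (fun a b h => by simpa [L.lt_iff, Lam_mono.lt_iff_lt] using h)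
    (fun z => ⟨⟨z.k - 1, mi (Lam (mi z.s))⟩, L.ext (by simp) (Lam_inv _)⟩)

theorem lam_apply (z : L) : lam z = ⟨z.k + 1, Lam z.s⟩ := rfl

theorem lam_zpow_k (j : ℤ) (z : L) : ((lam ^ j) z).k = z.k + j := by
  induction j using Int.induction_on generalizing z with
  | zero => simp
  | succ i ih => rw [zpow_add_one, RelIso.mul_apply, ih, lam_apply]; ring
  | pred i ih =>
    obtain ⟨z, rfl⟩ := lam.surjective z
    rw [zpow_sub_one, RelIso.mul_apply, ih, RelIso.inv_apply_self, lam_apply]; ring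

theorem lam_pow_apply (n : ℕ) (z : L) : (lam ^ n) z = ⟨z.k + n, Lam^[n] z.s⟩ := by
  induction n with
  | zero => simp
  | succ n ih => rw [pow_succ', RelIso.mul_apply, ih, lam_apply, iterate_succ_apply']; simp [add_assoc]

theorem lt_lam (z : L) : z < lam z := L.lt_iff.2 (Or.inl (by simp [lam_apply]))

/-- the reflection -/
def rf (z : L) : L := ⟨1 - z.k, mi z.s⟩

@[simp] theorem rf_rf (z : L) : rf (rf z) = z := by simp [rf]

theorem rf_lt {z w : L} : rf z < rf w ↔ w < z := by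
  have : ∀ z w : L, w < z → rf z < rf w := fun z w h => by
    rcases L.lt_iff.1 h with h | ⟨h, h'⟩
    · exact L.lt_iff.2 (Or.inl (by simp [rf, h]))
    · exact L.lt_iff.2 (Or.inr ⟨by simp [rf, h], mi_lt h'⟩)
  exact ⟨fun h => by simpa using this _ _ h, this _ _⟩

/-- conjugation by the reflection -/
noncomputable def tau : Au →* Au where
  toFun g :=
    { toFun := fun z => rf (g (rf z))
      invFun := fun z => rf (g⁻¹ (rf z))
      left_inv := fun z => by simp
      right_inv := fun z => by simp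
      map_rel_iff' := by intro a b; simp only [← not_lt, Equiv.coe_fn_mk, rf_lt, OrderIso.lt_iff_lt] }
  map_one' := RelIso.ext fun z => rf_rf z
  map_mul' g h := RelIso.ext fun z => by
    show rf (g (h (rf z))) = rf (g (rf (rf (h (rf z)))))
    rw [rf_rf]

theorem tau_apply (g : Au) (z : L) : tau g z = rf (g (rf z)) := rfl

@[simp] theorem tau_tau (g : Au) : tau (tau g) = g := RelIso.ext fun z => by simp [tau_apply]

theorem tau_lam : tau lam = lam⁻¹ := by
  refine eq_inv_of_mul_eq_one_right (RelIso.ext fun z => L.ext ?_ (Lam_inv _))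
  simp [tau_apply, rf, lam_apply]

theorem rf_cm (a : Ad) : ∃ b, par b = par a + 1 ∧ ∀ y, rf (cm a y) = cm b (mi y) :=
  ⟨(1 - a.1, a.2.map Fin.rev), by
    simp only [par, wp_rev]; push_cast; rw [sub_eq_add_neg, ZMod.neg_eq_self_mod_two]; ring,
    fun y => L.ext rfl (mi_app _ _)⟩

theorem Reg.tau {g : Au} {z : L} (h : Reg g z) : Reg (tau g) (rf z) := by
  obtain ⟨a, b, y, rfl, h1, h2⟩ := h
  obtain ⟨a', h3, h4⟩ := rf_cm a
  obtain ⟨b', h5, h6⟩ := rf_cm b
  exact ⟨a', b', _, h4 y, by rw [h3, h5, h1], fun w => by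
    rw [tau_apply, ← mi_mi w, ← h4, rf_rf, h2, h6]⟩

theorem tau_ra {g : Au} (h : g ∈ RA) : tau g ∈ RA := fun z => by simpa using (h (rf z)).tau

theorem lam_cm (a : Ad) :
    ∃ b, par b = par a + 1 ∧ ∀ y, lam (cm a y) = cm b (run (a.2.foldl nx .A) y) := by
  obtain ⟨v, h1, h2⟩ := run_app a.2 .A
  exact ⟨(a.1 + 1, v), by simp only [par, h1]; push_cast; ring, fun y => L.ext rfl (h2 y)⟩

theorem Reg.lam {g : Au} {z : L} (h : Reg g z) : Reg (lam * g * lam⁻¹ : Au) (lam z) := by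
  obtain ⟨a, b, y, rfl, h1, h2⟩ := h
  obtain ⟨w, y, s, rfl, h3, h4⟩ : ∃ w y' s, y = app w y' ∧ Surjective (run s) ∧
      ∀ s0, w.foldl nx s0 = s := by
    obtain ⟨c, y, rfl⟩ := exists_cons y
    rcases fin3 c with rfl | rfl | rfl
    · exact ⟨[0], y, .Q, rfl, Psi_surj, fun _ => rfl⟩
    · exact ⟨[1], y, .A, rfl, Lam_surj, fun _ => rfl⟩
    obtain ⟨c, y, rfl⟩ := exists_cons y
    rcases fin3 c with rfl | rfl | rfl
    · exact ⟨[2, 0], y, .Q, rfl, Psi_surj, fun _ => rfl⟩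
    · exact ⟨[2, 1], y, .A, rfl, Lam_surj, fun _ => rfl⟩
    · exact ⟨[2, 2], y, .Q, rfl, Psi_surj, fun s => by cases s <;> rfl⟩
  obtain ⟨a', h5, h6⟩ := lam_cm (a.ex w)
  obtain ⟨b', h7, h8⟩ := lam_cm (b.ex w)
  simp only [Ad.ex, List.foldl_append, h4] at h6 h8
  refine ⟨a', b', _, by rw [← cm_ex]; exact h6 y, by simp [h5, h7, h1], fun v => ?_⟩
  obtain ⟨v, rfl⟩ := h3 v
  rw [← h6, ← h8]
  simp only [RelIso.mul_apply, RelIso.inv_apply_self]
  exact congrArg _ ((congrArg g (cm_ex a w v)).trans ((h2 _).trans (cm_ex b w v).symm))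

theorem Reg.zpow {g : Au} {z : L} (h : Reg g z) (j : ℤ) :
    Reg (Pool.Agent.P.MP_267653_al.lam ^ j * g * (Pool.Agent.P.MP_267653_al.lam ^ j)⁻¹ : Au)
      ((Pool.Agent.P.MP_267653_al.lam ^ j) z) := by
  induction j using Int.induction_on with
  | zero => simpa using h
  | succ i ih =>
    have := ih.lam
    rwa [← RelIso.mul_apply, ← zpow_one_add, add_comm, show ∀ l g : Au,
      l * (l ^ (i : ℤ) * g * (l ^ (i : ℤ))⁻¹) * l⁻¹ = l ^ (i + 1 : ℤ) * g * (l ^ (i + 1 : ℤ))⁻¹ from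
        fun l g => by group] at this
  | pred i ih =>
    have := ih.tau.lam.tau
    rwa [← tau_apply, map_mul, map_mul, map_inv, tau_tau, tau_lam, ← RelIso.mul_apply,
      show ∀ l g : Au, l⁻¹ * (l ^ (-i : ℤ) * g * (l ^ (-i : ℤ))⁻¹) * l⁻¹⁻¹ =
        l ^ (-i - 1 : ℤ) * g * (l ^ (-i - 1 : ℤ))⁻¹ from fun l g => by group,
      show ∀ l : Au, l⁻¹ * l ^ (-i : ℤ) = l ^ (-i - 1 : ℤ) from fun l => by group] at this

theorem ra_conj {g : Au} (h : g ∈ RA) (j : ℤ) : lam ^ j * g * (lam ^ j)⁻¹ ∈ RA := fun z => by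
  simpa using (h ((lam ^ j)⁻¹ z)).zpow j

theorem Psi_fix {a : Fin 3} {y : C} (ha : a ≠ 1) (h : y = cons a y) : Psi y = y :=
  coind (fun _ : Unit => Psi y) (fun _ => y) (fun _ => ⟨a, [], (), by
    conv_lhs => rw [h]
    rcases fin3 a with rfl | rfl | rfl <;> simp at ha ⊢, h⟩) ()

theorem EC.lam {c : ZMod 2} {x : L} (h : EC c x) : EC (c+1) (lam x) := by
  obtain ⟨a, rfl, rfl⟩ := h
  obtain ⟨b, h1, h2⟩ := lam_cm (a.ex [0])
  refine ⟨b, by simpa [wp] using h1, ?_⟩
  have := h2 z0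
  rw [cm_ex] at this
  simpa [Ad.ex, nx, run, Psi_fix (a := 0) (by decide) cons_z0.symm] using this

theorem EC.lam_inv {c : ZMod 2} {x : L} (h : EC c x) :
    EC (c+1) (Pool.Agent.P.MP_267653_al.lam⁻¹ x) := by
  obtain ⟨a, rfl, rfl⟩ := h
  obtain ⟨a', h1, h2⟩ := rf_cm a
  obtain ⟨b, h3, h4⟩ := lam_cm (a'.ex [2, 2])
  obtain ⟨b', h5, h6⟩ := rf_cm b
  have e : mi z0 = cons 2 (mi z0) := (cons_tail _).symm
  refine ⟨b', by rw [h5, h3, par_ex, h1, show wp [2, 2] = 0 from rfl]; grind, ?_⟩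
  have := h4 (mi z0)
  rw [cm_ex, app_cons, app_cons, app_nil, ← e, ← e, Ad.ex, List.foldl_append,
    show ∀ s, [2, 2].foldl nx s = .Q from fun s => by cases s <;> rfl, run,
    Psi_fix (by decide) e] at this
  rw [← tau_lam, tau_apply, h2, this, h6, mi_mi]

theorem EC.zpow {c : ZMod 2} {x : L} (h : EC c x) (j : ℤ) :
    EC (c + j) ((Pool.Agent.P.MP_267653_al.lam ^ j) x) := by
  induction j using Int.induction_on with
  | zero => simpa using h
  | succ i ih => simpa [add_comm (i : ℤ), zpow_one_add, add_assoc, add_comm (1 : ZMod 2)] using ih.lam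
  | pred i ih =>
    have := ih.lam_inv
    rw [← RelIso.mul_apply, show ∀ l : Au, l⁻¹ * l ^ (-i : ℤ) = l ^ (-i - 1 : ℤ) from
      fun l => by group] at this
    convert this using 1
    push_cast
    grind

def pq : ℕ → ℕ → ℕ → Fin 3
  | 0, _, j => if j = 0 then 1 else 0
  | i+1, n, 0 => pq i (n+1) (n+1)
  | i+1, n, j+1 => pq i n j

/-- the special points -/
def p (n : ℕ) : C := fun i => pq i n n

def W (n : ℕ) : List (Fin 3) := List.replicate n 0 ++ [1]

theorem wp_W (n : ℕ) : wp (W n) = 1 := by simp [W, wp, List.count_replicate]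

theorem p_eq (n : ℕ) : p n = app (W n) (p (n+1)) := by
  have : ∀ j, (fun i => pq i n j : C) = app (W j) (p (n+1)) := by
    intro j
    induction j with
    | zero => funext i; cases i <;> rfl
    | succ j ih =>
      funext i
      cases i with
      | zero => rfl
      | succ i => exact congrFun ih i
  exact this n

theorem Lam_W (n : ℕ) (y : C) : Lam (app (W n) y) = app (W (n+1)) (Lam y) := by
  have : ∀ n, Psi (app (W n) y) = app (W n) (Lam y) := by
    intro n
    induction n with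
    | zero => exact Psi1 y
    | succ n ih => exact (Psi0 _).trans (congrArg (cons 0) ih)
  cases n with
  | zero => exact Lam1 y
  | succ n => exact (Lam0 _).trans (congrArg (fun w => cons 0 (cons 0 w)) (this n))

theorem Lam_p (n : ℕ) : Lam (p n) = p (n+1) :=
  coind (fun n => Lam (p n)) (fun n => p (n+1))
    (fun n => ⟨0, W n, n+1, by rw [p_eq n, Lam_W]; rfl, p_eq _⟩) n

theorem Lam_iter_p (n : ℕ) : Lam^[n] (p 0) = p n := by
  induction n with
  | zero => rfl
  | succ n ih => rw [iterate_succ_apply', ih, Lam_p]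

theorem Lam_iter_one (n : ℕ) (y : C) : Lam^[n] (cons 1 y) = app (W n) (Lam^[n] y) := by
  induction n with
  | zero => rfl
  | succ n ih => rw [iterate_succ_apply', ih, Lam_W, iterate_succ_apply']

theorem p_tail (n d : ℕ) : ∃ w, d ≤ w.length ∧ p n = app w (p (n + d)) := by
  induction d with
  | zero => exact ⟨[], le_rfl, rfl⟩
  | succ d ih =>
    obtain ⟨w, h1, h2⟩ := ih
    exact ⟨w ++ W (n + d), by simp [W]; omega, by rw [h2, p_eq, app_append]; rfl⟩

theorem p_lo (n i : ℕ) (h : i < n) : p n i = 0 := by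
  rw [p_eq, W, app_append, app_lo _ _ z0 i (by simpa using h)]
  clear h
  induction n generalizing i with
  | zero => rfl
  | succ n ih => cases i; rfl; exact ih _

theorem p_self (n : ℕ) : p n n = 1 := by
  have := app_ge (List.replicate n 0) (cons 1 (p (n+1))) 0
  rw [p_eq, W, app_append]
  simpa using this

theorem p_rigid {u v : List (Fin 3)} {n : ℕ} (h : app u (p n) = app v (p n)) : u = v := by
  wlog hl : u.length ≤ v.length generalizing u v
  · exact (this h.symm (by omega)).symm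
  obtain ⟨w, rfl, h1⟩ := app_eq h hl
  by_contra hne
  have hw : 0 < w.length := List.length_pos_iff.2 fun e => hne (by simp [e])
  obtain ⟨w', -, h2⟩ := p_tail n w.length
  have h3 := app_ge w (p n) (n + w'.length)
  rw [← h1, h2, app_ge, p_lo _ _ (by omega), add_right_comm, app_ge, p_self] at h3
  exact absurd h3 (by decide)

/-- the address of level `n` of a point of the special orbit -/
def At (q : L) (n : ℕ) (a : Ad) : Prop := par a = n ∧ q = cm a (p n)

/-- the special orbit -/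
def O : Set L := {q | ∃ n a, At q n a}

variable {q : L} {n : ℕ} {a b : Ad}

theorem At.succ (h : At q n a) : At q (n+1) (a.ex (W n)) :=
  ⟨by simp [h.1, wp_W], by rw [cm_ex, ← p_eq]; exact h.2⟩

theorem At.uniq (h : At q n a) (h' : At q n b) : a = b :=
  have e := h.2.symm.trans h'.2
  Prod.ext (congrArg L.k e) (p_rigid (congrArg L.s e))

theorem At.add (h : At q n a) (d : ℕ) : ∃ w, d ≤ w.length ∧ At q (n + d) (a.ex w) := by
  induction d with
  | zero => exact ⟨[], le_rfl, by simpa [Ad.ex] using h⟩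
  | succ d ih =>
    obtain ⟨w, h1, h2⟩ := ih
    exact ⟨w ++ W (n + d), by simp [W]; omega, by simpa [Ad.ex, add_assoc] using h2.succ⟩

open Classical in
noncomputable def ad (q : L) (n : ℕ) : Ad := if h : ∃ a, At q n a then h.choose else (0, [])

theorem At.ad_eq (h : At q n a) : ad q n = a := by
  have : ∃ a, At q n a := ⟨a, h⟩
  rw [ad, dif_pos this]
  exact this.choose_spec.uniq h

theorem ev_at (hq : q ∈ O) (N : ℕ) : ∀ᶠ n in atTop, At q n (ad q n) ∧ N ≤ (ad q n).2.length := by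
  obtain ⟨n, a, h⟩ := hq
  refine eventually_atTop.2 ⟨n + N, fun m hm => ?_⟩
  obtain ⟨d, rfl⟩ := Nat.exists_eq_add_of_le (show n ≤ m by omega)
  obtain ⟨w, h1, h2⟩ := h.add d
  rw [h2.ad_eq]
  exact ⟨h2, by simp [Ad.ex]; omega⟩

theorem O_freq (hq : q ∈ O) (N : ℕ) : ∃ i, N ≤ i ∧ q.s i = 1 := by
  obtain ⟨n, h, hN⟩ := (ev_at hq N).exists
  exact ⟨n + (ad q n).2.length, by omega, by
    rw [congrArg L.s h.2]
    exact (app_ge _ _ _).trans (p_self n)⟩

theorem O_ns (hq : q ∈ O) : NS q := fun N => by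
  obtain ⟨i, h1, h2⟩ := O_freq hq N
  exact ⟨i, h1, by rw [h2]; decide⟩

theorem EC.not_O {c : ZMod 2} {x : L} (h : EC c x) : x ∉ O := fun hx => by
  obtain ⟨a, -, rfl⟩ := h
  obtain ⟨i, h1, h2⟩ := O_freq hx a.2.length
  obtain ⟨j, rfl⟩ := Nat.exists_eq_add_of_le' h1
  exact absurd ((app_ge _ _ _).symm.trans h2) (by decide : (0 : Fin 3) ≠ 1)

theorem Reg.at {g : L → L} (h : Reg g q) (hq : q ∈ O) :
    g q ∈ O ∧ ∀ᶠ n in atTop, ∀ v, g (cm (ad q n) v) = cm (ad (g q) n) v := by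
  obtain ⟨a, b, y, e, h1, h2⟩ := h
  have : ∀ᶠ n in atTop, ∃ b', At (g q) n b' ∧ ∀ v, g (cm (ad q n) v) = cm b' v := by
    filter_upwards [ev_at hq a.2.length] with n ⟨h3, h4⟩
    have e2 := e.symm.trans h3.2
    obtain ⟨w, h5, rfl⟩ := app_eq (congrArg L.s e2) h4
    have h6 : ad q n = a.ex w := Prod.ext (congrArg L.k e2).symm h5
    exact ⟨b.ex w, ⟨by rw [← h3.1, h6]; simp [h1], by rw [e, h2, cm_ex]⟩,
      fun v => by rw [h6, cm_ex, h2, cm_ex]⟩
  exact ⟨this.exists.imp fun n ⟨b', h, _⟩ => ⟨b', h⟩,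
    this.mono fun n ⟨b', h, h'⟩ => by rwa [h.ad_eq]⟩

theorem O_lam (hq : q ∈ O) :
    lam q ∈ O ∧ ∀ᶠ n in atTop, ∀ v, lam (cm (ad q n) v) = cm (ad (lam q) (n+1)) (Lam v) := by
  have : ∀ᶠ n in atTop, ∃ b', At (lam q) (n+1+1) b' ∧
      ∀ v, lam (cm (ad q (n+1)) v) = cm b' (Lam v) := by
    filter_upwards [ev_at hq 0] with n ⟨h, _⟩
    obtain ⟨b, h1, h2⟩ := lam_cm ((ad q n).ex (W n))
    have h3 : ∀ v, lam (cm ((ad q n).ex (W n)) v) = cm b (Lam v) := fun v => by
      simpa [Ad.ex, W, nx, run] using h2 v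
    rw [h.succ.ad_eq]
    exact ⟨b, ⟨by rw [h1, h.succ.1]; simp, by rw [← Lam_p, ← h3, ← h.succ.2]⟩, h3⟩
  refine ⟨this.exists.elim fun n ⟨b', h, _⟩ => ⟨_, b', h⟩, ?_⟩
  obtain ⟨N, hN⟩ := eventually_atTop.1 this
  refine eventually_atTop.2 ⟨N + 1, fun n hn => ?_⟩
  obtain ⟨n, rfl⟩ : ∃ m, n = m + 1 := ⟨n - 1, by omega⟩
  obtain ⟨b, h1, h2⟩ := hN n (by omega)
  rwa [h1.ad_eq]

theorem O_pt (n : ℕ) : (⟨n, p n⟩ : L) ∈ O := ⟨n, (n, []), by simp [par], rfl⟩

theorem At.ra (h : At q n a) : ∃ g ∈ RA, ∀ v, g ⟨n, v⟩ = cm a v :=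
  ext_cone (a := (n, [])) (by rw [h.1]; simp [par])

theorem O_zpow (hq : q ∈ O) (j : ℤ) : (lam ^ j) q ∈ O := by
  induction j using Int.induction_on with
  | zero => exact hq
  | succ i ih => rw [add_comm, zpow_one_add]; exact (O_lam ih).1
  | pred i ih =>
    obtain ⟨n, a, h⟩ := ih
    obtain ⟨g, hg, h1⟩ := h.succ.ra
    have := ((ra_conj hg (-1) _).at (O_pt n)).1
    rw [RelIso.mul_apply, RelIso.mul_apply, zpow_neg_one, inv_inv, lam_apply, Lam_p] at this
    have h2 := h1 (p (n+1))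
    push_cast at h2
    rwa [h2, ← h.succ.2, ← RelIso.mul_apply, show ∀ l : Au, l⁻¹ * l ^ (-i : ℤ) = l ^ (-i - 1 : ℤ)
      from fun l => by group] at this

theorem O_trans {q' : L} (hq : q ∈ O) (hq' : q' ∈ O) : ∃ g ∈ RA, g q = q' := by
  obtain ⟨n, ⟨h, -⟩, h', -⟩ := ((ev_at hq 0).and (ev_at hq' 0)).exists
  obtain ⟨g, hg, e⟩ := ext_cone (h.1.trans h'.1.symm)
  exact ⟨g, hg, by rw [h.2, e, ← h'.2]⟩

theorem O_dens {x y : L} (hx : NS x) (h : x < y) : ∃ q ∈ O, x < q ∧ q < y := by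
  obtain ⟨_, ⟨a, -, rfl⟩, h1, h2⟩ := hx.dens h 0
  obtain ⟨u, y', -, h3⟩ := ev_ex ((ev_gt h1).and (ev_lt h2))
  exact ⟨_, ⟨(par (a.ex u)).val, a.ex u, by simp, rfl⟩, h3 _⟩

end Pool.Agent.P.MP_267653_al
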